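import Pool.Agent.W66.LC

set_option autoImplicit false

/-!
# Zeros of real `L`-functions close to one
-/

open Complex Filter Topology Set MeasureTheory Metric
open scoped ArithmeticFunction.vonMangoldt

namespace Pool.Agent.R521.F6

open H370 H370.Loc Pool.Agent.W66 Pool.Agent.W66L

/-- values of a real character -/
lemma real_vals {q : ℕ} {χ : DirichletCharacter ℂ q} (h : χ ^ 2 = 1) (a : ZMod q) :
    χ a = 0 ∨ χ a = 1 ∨ χ a = -1 :=
  (MulChar.isQuadratic_iff_sq_eq_one.mpr h) a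

variable {Q : ℕ} [NeZero Q]

/-- lower bound for the real part of the logarithmic derivative, with two zeros -/
lemma DL_re2 : ∃ K : ℝ, 0 < K ∧ ∀ (Q : ℕ) [NeZero Q] (χ : DirichletCharacter ℂ Q), χ ≠ 1 →
    ∀ t σ : ℝ, 1 < σ → σ ≤ 2 →
    ∀ ρ₁ ∈ closedBall (⟨2, t⟩ : ℂ) (3 / 2), ∀ ρ₂ ∈ closedBall (⟨2, t⟩ : ℂ) (3 / 2), ρ₁ ≠ ρ₂ →
      χ.LFunction ρ₁ = 0 → χ.LFunction ρ₂ = 0 →
      (1 / ((⟨σ, t⟩ : ℂ) - ρ₁)).re + (1 / ((⟨σ, t⟩ : ℂ) - ρ₂)).re - K * lq Q t ≤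
        (deriv χ.LFunction ⟨σ, t⟩ / χ.LFunction ⟨σ, t⟩).re := by
  obtain ⟨K1, hK1pos, hball⟩ := LF_const
  refine ⟨K1, hK1pos, fun Q _ χ hχ t σ h1 h2 ρ₁ hρ₁ ρ₂ hρ₂ hne h01 h02 => ?_⟩
  obtain ⟨M, hM1, hMb, -, hbd⟩ := hball Q χ hχ t
  have hc : χ.LFunction ⟨2, t⟩ ≠ 0 := LF_ne_zero hχ (by norm_num)
  have hcb : ‖χ.LFunction ⟨2, t⟩‖ ≤ M := hMb _ (mem_closedBall_self (by norm_num))
  obtain ⟨s, hs1, hs2, hs3⟩ := landau_re (f := χ.LFunction) (c := ⟨2, t⟩) (r := 3 / 2)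
    (r1 := 11 / 8) (r2 := 9 / 8) (R := 7 / 4) (M := M) (by norm_num) (by norm_num) (by norm_num)
    (by norm_num) (by norm_num) hM1 hcb
    (fun z _ => (DirichletCharacter.differentiable_LFunction hχ).analyticAt z) hc hMb
  have hz : (⟨σ, t⟩ : ℂ) ∈ closedBall (⟨2, t⟩ : ℂ) (9 / 8) := by
    rw [mem_closedBall, dist_eq_norm]
    have e : (⟨σ, t⟩ : ℂ) - ⟨2, t⟩ = ((σ - 2 : ℝ) : ℂ) := by
      apply Complex.ext <;> simp
    rw [e, Complex.norm_real, Real.norm_eq_abs, abs_le]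
    constructor <;> linarith
  have hre : ∀ ρ ∈ s, ρ.re < 1 := by
    intro ρ hρ
    by_contra hcon
    exact LF_ne_zero hχ (not_lt.1 hcon) (hs1 ρ hρ).2
  have hzne : ∀ ρ ∈ s, (⟨σ, t⟩ : ℂ) ≠ ρ := by
    intro ρ hρ he
    have := hre ρ hρ
    rw [← he] at this
    simp at this
    linarith
  have hmain := hs3 _ hz hzne
  have hmain2 := hmain.trans hbd
  have hpos : ∀ a : ℂ, a.re < 1 → 0 ≤ (1 / ((⟨σ, t⟩ : ℂ) - a)).re := by
    intro a ha
    rw [one_div, Complex.inv_re]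
    apply div_nonneg _ (Complex.normSq_nonneg _)
    simp only [sub_re]
    linarith
  have hsumre : ∀ m : Multiset ℂ, (∀ ρ ∈ m, ρ.re < 1) →
      0 ≤ ((m.map (fun ρ => 1 / ((⟨σ, t⟩ : ℂ) - ρ))).sum).re := by
    intro m
    induction m using Multiset.induction_on with
    | empty => intro _; simp
    | cons a m ih =>
      intro h
      have ha := hpos a (h a (Multiset.mem_cons_self a m))
      have i1 := ih fun ρ hρ => h ρ (Multiset.mem_cons_of_mem hρ)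
      rw [Multiset.map_cons, Multiset.sum_cons, add_re]
      linarith
  have h3 : ρ₁ ∈ s := hs2 ρ₁ hρ₁ h01
  have h4 : ρ₂ ∈ s.erase ρ₁ := (Multiset.mem_erase_of_ne hne.symm).2 (hs2 ρ₂ hρ₂ h02)
  have hsplit : ((s.map (fun ρ => 1 / ((⟨σ, t⟩ : ℂ) - ρ))).sum) =
      1 / ((⟨σ, t⟩ : ℂ) - ρ₁) + (1 / ((⟨σ, t⟩ : ℂ) - ρ₂) +
        ((((s.erase ρ₁).erase ρ₂).map (fun ρ => 1 / ((⟨σ, t⟩ : ℂ) - ρ))).sum)) := by
    conv_lhs => rw [← Multiset.cons_erase h3, ← Multiset.cons_erase h4]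
    simp
  have h5 := hsumre ((s.erase ρ₁).erase ρ₂) (fun ρ hρ =>
    hre ρ (Multiset.mem_of_mem_erase (Multiset.mem_of_mem_erase hρ)))
  have hdiff := (Complex.abs_re_le_norm _).trans hmain2
  rw [sub_re, abs_le, hsplit, add_re, add_re] at hdiff
  linarith [hdiff.1]

omit [NeZero Q] in
/-- the 3-4-1 inequality for real characters -/
lemma three_four_one_real (χ : DirichletCharacter ℂ Q) (hχ2 : χ ^ 2 = 1) {σ : ℝ} (hσ : 1 < σ) (t : ℝ) :
    0 ≤ 3 * (LSeries (fun n => (Λ n : ℂ)) (⟨σ, 0⟩ : ℂ)).re +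
      4 * (LSeries ((fun n : ℕ => (χ n : ℂ)) * (fun n : ℕ => (Λ n : ℂ))) (⟨σ, t⟩ : ℂ)).re +
      (LSeries (fun n => (Λ n : ℂ)) (⟨σ, 2 * t⟩ : ℂ)).re := by
  have hs : ∀ t : ℝ, LSeriesSummable (fun n => (Λ n : ℂ)) (⟨σ, t⟩ : ℂ) := fun t =>
    ArithmeticFunction.LSeriesSummable_vonMangoldt (by simpa using hσ)
  have hs0 := hs 0
  have hs1 : LSeriesSummable ((fun n : ℕ => (χ n : ℂ)) * (fun n : ℕ => (Λ n : ℂ))) (⟨σ, t⟩ : ℂ) :=
    DirichletCharacter.LSeriesSummable_mul χ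
      (ArithmeticFunction.LSeriesSummable_vonMangoldt (by simpa using hσ))
  have hs2 := hs (2 * t)
  unfold LSeries
  rw [Complex.re_tsum hs0, Complex.re_tsum hs1, Complex.re_tsum hs2]
  have h0 := (Complex.reCLM.summable hs0)
  have h1 := (Complex.reCLM.summable hs1)
  have h2 := (Complex.reCLM.summable hs2)
  simp only [Complex.reCLM_apply] at h0 h1 h2
  rw [← tsum_mul_left, ← tsum_mul_left, ← Summable.tsum_add (h0.mul_left 3) (h1.mul_left 4),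
    ← Summable.tsum_add ((h0.mul_left 3).add (h1.mul_left 4)) h2]
  refine tsum_nonneg fun n => ?_
  rcases eq_or_ne n 0 with rfl | hn
  · simp
  have hn0 : (n : ℂ) ≠ 0 := by exact_mod_cast hn
  have hnr : (0 : ℝ) < n := by exact_mod_cast Nat.pos_of_ne_zero hn
  set w : ℂ := cexp (-(((t * Real.log n : ℝ) : ℂ) * I)) with hw
  set A : ℝ := Λ n / (n : ℝ) ^ σ with hA
  have hA0 : 0 ≤ A := div_nonneg ArithmeticFunction.vonMangoldt_nonneg (by positivity)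
  have key : ∀ (k : ℕ), ((Λ n : ℝ) : ℂ) / (n : ℂ) ^ (⟨σ, k * t⟩ : ℂ) = (A : ℂ) * w ^ k := by
    intro k
    have e : (⟨σ, k * t⟩ : ℂ) = (σ : ℂ) + ((k * t : ℝ) : ℂ) * I := by
      apply Complex.ext <;> simp
    rw [e, Complex.cpow_add _ _ hn0]
    have e2 : (n : ℂ) ^ (((k * t : ℝ) : ℂ) * I) = (w ^ k)⁻¹ := by
      rw [hw, ← Complex.exp_nat_mul, ← Complex.exp_neg, Complex.cpow_def_of_ne_zero hn0,
        ← Complex.natCast_log]
      congr 1
      push_cast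
      ring
    rw [e2]
    have e3 : (n : ℂ) ^ (σ : ℂ) = (((n : ℝ) ^ σ : ℝ) : ℂ) := by
      rw [Complex.ofReal_cpow hnr.le]
      simp
    rw [e3, hA]
    push_cast
    rw [← div_div, div_inv_eq_mul]
  have k0 := key 0
  have k1 := key 1
  have k2 := key 2
  simp only [Nat.cast_zero, zero_mul, pow_zero, mul_one, Nat.cast_one, one_mul, pow_one,
    Nat.cast_ofNat] at k0 k1 k2
  rw [LSeries.term_of_ne_zero hn, LSeries.term_of_ne_zero hn, LSeries.term_of_ne_zero hn]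
  have m1 : ((fun n : ℕ => (χ n : ℂ)) * (fun n : ℕ => (Λ n : ℂ))) n / (n : ℂ) ^ (⟨σ, t⟩ : ℂ) =
      (A : ℂ) * (χ n * w) := by
    rw [Pi.mul_apply, mul_div_assoc, k1]
    ring
  rw [k0, m1, k2]
  have hw1 : w.re ^ 2 + w.im ^ 2 = 1 := by
    have h3 : ‖w‖ = 1 := by
      rw [hw, ← neg_mul, ← Complex.ofReal_neg, Complex.norm_exp_ofReal_mul_I]
    have h4 := Complex.sq_norm w
    rw [Complex.normSq_apply, h3] at h4
    nlinarith
  have e4 : ((A : ℂ)).re = A := Complex.ofReal_re A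
  have e6 : ((A : ℂ) * w ^ 2).re = A * (w.re ^ 2 - w.im ^ 2) := by
    rw [Complex.re_ofReal_mul, sq, Complex.mul_re]
    ring
  rw [e4, e6]
  rcases real_vals hχ2 (n : ZMod Q) with hv | hv | hv
  · rw [hv]
    have e5 : ((A : ℂ) * (0 * w)).re = 0 := by simp
    rw [e5]
    have : 0 ≤ 3 + (w.re ^ 2 - w.im ^ 2) := by nlinarith
    nlinarith [mul_nonneg hA0 this]
  · rw [hv]
    have e5 : ((A : ℂ) * (1 * w)).re = A * w.re := by rw [one_mul, Complex.re_ofReal_mul]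
    rw [e5]
    have : 0 ≤ 3 + 4 * w.re + (w.re ^ 2 - w.im ^ 2) := by nlinarith [sq_nonneg (1 + w.re)]
    nlinarith [mul_nonneg hA0 this]
  · rw [hv]
    have e5 : ((A : ℂ) * (-1 * w)).re = -(A * w.re) := by
      rw [neg_one_mul, mul_neg, Complex.neg_re, Complex.re_ofReal_mul]
    rw [e5]
    have : 0 ≤ 3 - 4 * w.re + (w.re ^ 2 - w.im ^ 2) := by nlinarith [sq_nonneg (1 - w.re)]
    nlinarith [mul_nonneg hA0 this]

omit [NeZero Q] in
/-- the inequality `1 + χ ≥ 0` -/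
lemma one_one_real (χ : DirichletCharacter ℂ Q) (hχ2 : χ ^ 2 = 1) {σ : ℝ} (hσ : 1 < σ) :
    0 ≤ (LSeries (fun n => (Λ n : ℂ)) (⟨σ, 0⟩ : ℂ)).re +
      (LSeries ((fun n : ℕ => (χ n : ℂ)) * (fun n : ℕ => (Λ n : ℂ))) (⟨σ, 0⟩ : ℂ)).re := by
  have hs0 : LSeriesSummable (fun n => (Λ n : ℂ)) (⟨σ, 0⟩ : ℂ) :=
    ArithmeticFunction.LSeriesSummable_vonMangoldt (by simpa using hσ)
  have hs1 : LSeriesSummable ((fun n : ℕ => (χ n : ℂ)) * (fun n : ℕ => (Λ n : ℂ))) (⟨σ, 0⟩ : ℂ) :=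
    DirichletCharacter.LSeriesSummable_mul χ
      (ArithmeticFunction.LSeriesSummable_vonMangoldt (by simpa using hσ))
  unfold LSeries
  rw [Complex.re_tsum hs0, Complex.re_tsum hs1]
  have h0 := (Complex.reCLM.summable hs0)
  have h1 := (Complex.reCLM.summable hs1)
  simp only [Complex.reCLM_apply] at h0 h1
  rw [← Summable.tsum_add h0 h1]
  refine tsum_nonneg fun n => ?_
  rcases eq_or_ne n 0 with rfl | hn
  · simp
  have hnr : (0 : ℝ) < n := by exact_mod_cast Nat.pos_of_ne_zero hn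
  set A : ℝ := Λ n / (n : ℝ) ^ σ with hA
  have hA0 : 0 ≤ A := div_nonneg ArithmeticFunction.vonMangoldt_nonneg (by positivity)
  have key : ((Λ n : ℝ) : ℂ) / (n : ℂ) ^ (⟨σ, 0⟩ : ℂ) = (A : ℂ) := by
    have e : (⟨σ, 0⟩ : ℂ) = (σ : ℂ) := by apply Complex.ext <;> simp
    have e3 : (n : ℂ) ^ (σ : ℂ) = (((n : ℝ) ^ σ : ℝ) : ℂ) := by
      rw [Complex.ofReal_cpow hnr.le]
      simp
    rw [e, e3, hA]
    push_cast
    rfl
  rw [LSeries.term_of_ne_zero hn, LSeries.term_of_ne_zero hn]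
  have m1 : ((fun n : ℕ => (χ n : ℂ)) * (fun n : ℕ => (Λ n : ℂ))) n / (n : ℂ) ^ (⟨σ, 0⟩ : ℂ) =
      χ n * (A : ℂ) := by
    rw [Pi.mul_apply, mul_div_assoc, key]
  rw [key, m1]
  rcases real_vals hχ2 (n : ZMod Q) with hv | hv | hv <;> rw [hv]
  · simpa using hA0
  · simp only [one_mul, Complex.ofReal_re]; linarith
  · simp

/-- zeros of a real `L`-function with imaginary part not too small -/
theorem zf_real_far : ∃ κ : ℝ, 0 < κ ∧ κ ≤ 1 / 10 ∧ ∀ κ' : ℝ, 0 < κ' → κ' ≤ κ →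
    ∀ (Q : ℕ) [NeZero Q] (χ : DirichletCharacter ℂ Q),
    χ ≠ 1 → χ ^ 2 = 1 → ∀ ρ : ℂ, χ.LFunction ρ = 0 → κ' / lq Q ρ.im ≤ |ρ.im| →
      ρ.re ≤ 1 - κ' / 7 / lq Q ρ.im := by
  obtain ⟨K, hK, hD⟩ := DL_re
  obtain ⟨K0, hK0, hD0⟩ := D_re
  set K' : ℝ := 4 * K + 6 * K0 + 5 with hK'
  set κ : ℝ := 3 / (10 * K') with hκ
  have hK'0 : 0 < K' := by positivity
  have hκ0 : 0 < κ := by positivity
  have hκ1 : κ ≤ 1 / 10 := by
    rw [hκ, div_le_div_iff₀ (by positivity) (by norm_num)]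
    linarith
  refine ⟨κ, hκ0, hκ1, fun κ' hκ'0 hκ'1 Q _ χ hχ hχ2 ρ hρ hfar => ?_⟩
  set t := ρ.im with ht
  have hell := one_le_lq Q t
  have hell0 : 0 < lq Q t := by linarith
  by_cases hre : ρ.re < 1 / 2
  · have h1 : κ' / 7 / lq Q t ≤ κ' / 7 := div_le_self (by positivity) hell
    linarith
  push Not at hre
  have hre1 : ρ.re < 1 := by
    by_contra hcon
    exact LF_ne_zero hχ (not_lt.1 hcon) hρ
  set σ : ℝ := 1 + κ' / lq Q t with hσ
  have hκell : 0 < κ' / lq Q t := by positivity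
  have hκell1 : κ' / lq Q t ≤ 1 / 10 := (div_le_self hκ'0.le hell).trans (hκ'1.trans hκ1)
  have hσ1 : 1 < σ := by linarith
  have hσ2 : σ ≤ 2 := by linarith
  have h341 := three_four_one_real χ hχ2 hσ1 t
  rw [LSeries_eq_DD (by simpa using hσ1), LSeries_eq_DL χ hχ (by simpa using hσ1),
    LSeries_eq_DD (by simpa using hσ1), sub_re, neg_re, sub_re] at h341
  have d0 := (hD0 0 σ hσ1 hσ2).1
  have d2 := (hD0 (2 * t) σ hσ1 hσ2).1
  have hball : ρ ∈ closedBall (⟨2, t⟩ : ℂ) (3 / 2) := by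
    rw [mem_closedBall, dist_eq_norm]
    have e : ρ - ⟨2, t⟩ = ((ρ.re - 2 : ℝ) : ℂ) := by
      apply Complex.ext <;> simp [ht]
    rw [e, Complex.norm_real, Real.norm_eq_abs, abs_le]
    constructor <;> linarith
  have d1 := (hD Q χ hχ t σ hσ1 hσ2).2 ρ hball hρ
  change _ ≤ (DD _).re at d0
  change _ ≤ (DD _).re at d2
  have e1 : (1 / ((⟨σ, t⟩ : ℂ) - ρ)).re = 1 / (σ - ρ.re) := by
    have e : (⟨σ, t⟩ : ℂ) - ρ = ((σ - ρ.re : ℝ) : ℂ) := by
      apply Complex.ext <;> simp [ht]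
    rw [e, ← Complex.ofReal_one, ← Complex.ofReal_div, Complex.ofReal_re]
  rw [e1] at d1
  have e0 : (1 / ((⟨σ, 0⟩ : ℂ) - 1)).re = 1 / (σ - 1) := by
    have e : (⟨σ, 0⟩ : ℂ) - 1 = ((σ - 1 : ℝ) : ℂ) := by
      apply Complex.ext <;> simp
    rw [e, ← Complex.ofReal_one, ← Complex.ofReal_div, Complex.ofReal_re]
  -- the term at `σ + 2 i t`
  have e2 : (1 / ((⟨σ, 2 * t⟩ : ℂ) - 1)).re ≤ 1 / 5 * (1 / (σ - 1)) := by
    rw [one_div, Complex.inv_re, Complex.normSq_apply]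
    simp only [sub_re, one_re, sub_im, one_im, sub_zero]
    have h1 : 0 < σ - 1 := by linarith
    have h2 : σ - 1 ≤ |t| := by rw [hσ]; linarith
    have h3 : (σ - 1) ^ 2 ≤ t ^ 2 := by
      rw [← sq_abs t]
      exact pow_le_pow_left₀ h1.le h2 2
    have hden : 0 < (σ - 1) * (σ - 1) + 2 * t * (2 * t) := by nlinarith [sq_nonneg t]
    rw [one_div_mul_one_div, div_le_div_iff₀ hden (by positivity)]
    nlinarith
  have l0 : ell 0 ≤ lq Q t := (ell_mono (by simp)).trans (ell_le_lq Q t)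
  have l2 : ell (2 * t) ≤ 2 * lq Q t := by
    have l2' : ell (2 * t) ≤ 2 * ell t := by
      unfold ell
      have habs : |2 * t| = 2 * |t| := by rw [abs_mul]; norm_num
      rw [habs]
      have ht0 := abs_nonneg t
      have h2 : Real.log (2 * |t| + 3) ≤ Real.log ((|t| + 3) ^ 2) :=
        Real.log_le_log (by positivity) (by nlinarith)
      rw [Real.log_pow] at h2
      exact_mod_cast h2
    have := ell_le_lq Q t
    linarith
  rw [e0] at h341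
  have hsb : 0 < σ - ρ.re := by linarith
  have hmain : 4 / (σ - ρ.re) ≤ 16 / 5 / (σ - 1) + K' * lq Q t := by
    have m0 : -(DD ⟨σ, 0⟩).re ≤ K0 * lq Q t := by nlinarith
    have m2 : -(DD ⟨σ, 2 * t⟩).re ≤ 2 * K0 * lq Q t := by nlinarith
    have a1 : 4 / (σ - ρ.re) = 4 * (1 / (σ - ρ.re)) := by ring
    have a2 : 16 / 5 / (σ - 1) = 16 / 5 * (1 / (σ - 1)) := by ring
    rw [a1, a2, hK']
    nlinarith
  have hs1 : σ - 1 = κ' / lq Q t := by rw [hσ]; ring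
  have hκ'K : K' ≤ 3 / 10 / κ' := by
    rw [le_div_iff₀ hκ'0]
    calc K' * κ' ≤ K' * κ := by gcongr
      _ = _ := by rw [hκ]; field_simp
  have h3 : 16 / 5 / (σ - 1) + K' * lq Q t ≤ 7 / 2 * (lq Q t / κ') := by
    have a1 : 16 / 5 / (σ - 1) = 16 / 5 * (lq Q t / κ') := by rw [hs1]; field_simp
    have a2 : K' * lq Q t ≤ 3 / 10 * (lq Q t / κ') := by
      calc K' * lq Q t ≤ 3 / 10 / κ' * lq Q t := by gcongr
        _ = _ := by ring
    rw [a1]
    linarith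
  have hmain2 := hmain.trans h3
  rw [div_le_iff₀ hsb] at hmain2
  have h4 : 8 / 7 * (κ' / lq Q t) ≤ σ - ρ.re := by
    have h5 : 0 < lq Q t / κ' := by positivity
    have h6 : 8 / 7 * (κ' / lq Q t) * (7 / 2 * (lq Q t / κ')) = 4 := by
      field_simp
      norm_num
    by_contra hcon
    push Not at hcon
    have : (σ - ρ.re) * (7 / 2 * (lq Q t / κ')) < 8 / 7 * (κ' / lq Q t) * (7 / 2 * (lq Q t / κ')) :=
      mul_lt_mul_of_pos_right hcon (by positivity)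
    rw [h6] at this
    linarith
  have h7 : κ' / 7 / lq Q t = 1 / 7 * (κ' / lq Q t) := by ring
  rw [h7]
  rw [hσ] at h4
  linarith

/-- conjugate zeros of a real `L`-function -/
lemma conj_zero {χ : DirichletCharacter ℂ Q} (hχ : χ ≠ 1) (hχ2 : χ ^ 2 = 1) {ρ : ℂ}
    (h : χ.LFunction ρ = 0) : χ.LFunction ((starRingEnd ℂ) ρ) = 0 := by
  have hd := DirichletCharacter.differentiable_LFunction hχ
  -- the function conj L (conj s) agrees with L to the right of one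
  set G : ℂ → ℂ := fun s => (starRingEnd ℂ) (χ.LFunction ((starRingEnd ℂ) s)) with hG
  have hGd : Differentiable ℂ G := by
    intro s
    have h1 : DifferentiableAt ℂ χ.LFunction ((starRingEnd ℂ) s) := hd _
    exact differentiableAt_conj_conj_iff.2 h1
  have hconj : ∀ a : ZMod Q, (starRingEnd ℂ) (χ a) = χ a := by
    intro a
    rcases real_vals hχ2 a with h1 | h1 | h1 <;> rw [h1] <;> simp
  have heq : ∀ s : ℂ, 1 < s.re → G s = χ.LFunction s := by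
    intro s hs
    have hs' : 1 < ((starRingEnd ℂ) s).re := by simpa using hs
    simp only [hG]
    rw [DirichletCharacter.LFunction_eq_LSeries χ hs', DirichletCharacter.LFunction_eq_LSeries χ hs]
    unfold LSeries
    rw [Complex.conj_tsum]
    congr 1
    ext n
    rcases eq_or_ne n 0 with rfl | hn
    · simp
    · rw [LSeries.term_of_ne_zero hn, LSeries.term_of_ne_zero hn, map_div₀, hconj]
      congr 1
      have harg : (n : ℂ).arg ≠ Real.pi := by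
        rw [Complex.natCast_arg]; exact Real.pi_pos.ne
      rw [Complex.cpow_conj _ _ harg, Complex.conj_conj, Complex.conj_natCast]
  have hev : G =ᶠ[𝓝 (2 : ℂ)] χ.LFunction := by
    have h4 : {z : ℂ | 1 < z.re} ∈ 𝓝 (2 : ℂ) :=
      (isOpen_lt continuous_const Complex.continuous_re).mem_nhds (by simp)
    filter_upwards [h4] with z hz
    exact heq z hz
  have hall : G = χ.LFunction :=
    AnalyticOnNhd.eq_of_eventuallyEq (fun z _ => hGd.analyticAt z) (fun z _ => hd.analyticAt z) hev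
  rw [← hall]
  simp only [hG, Complex.conj_conj, h, map_zero]

/-- zeros of a real `L`-function with small non-zero imaginary part -/
theorem zf_real_near : ∃ κ : ℝ, 0 < κ ∧ κ ≤ 1 / 10 ∧ ∀ κ' : ℝ, 0 < κ' → κ' ≤ κ →
    ∀ (Q : ℕ) [NeZero Q] (χ : DirichletCharacter ℂ Q),
    χ ≠ 1 → χ ^ 2 = 1 → ∀ ρ : ℂ, χ.LFunction ρ = 0 → |ρ.im| < κ' / lq Q ρ.im → ρ.im ≠ 0 →
      ρ.re ≤ 1 - κ' / 7 / lq Q ρ.im := by
  obtain ⟨K, hK, hD⟩ := DL_re2
  obtain ⟨K0, hK0, hD0⟩ := D_re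
  set K' : ℝ := K + K0 + 5 with hK'
  set κ : ℝ := 1 / (30 * K') with hκ
  have hK'0 : 0 < K' := by positivity
  have hκ0 : 0 < κ := by positivity
  have hκ1 : κ ≤ 1 / 10 := by
    rw [hκ]
    exact one_div_le_one_div_of_le (by norm_num) (by linarith)
  refine ⟨κ, hκ0, hκ1, fun κ' hκ'0 hκ'1 Q _ χ hχ hχ2 ρ hρ hnear hne => ?_⟩
  set t := ρ.im with ht
  have hell := one_le_lq Q t
  have hell0 : 0 < lq Q t := by linarith
  by_cases hre : ρ.re < 3 / 4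
  · have h1 : κ' / 7 / lq Q t ≤ κ' / 7 := div_le_self (by positivity) hell
    linarith
  push Not at hre
  have hre1 : ρ.re < 1 := by
    by_contra hcon
    exact LF_ne_zero hχ (not_lt.1 hcon) hρ
  set σ : ℝ := 1 + 2 * (κ' / lq Q t) with hσ
  have hκell : 0 < κ' / lq Q t := by positivity
  have hκell1 : κ' / lq Q t ≤ 1 / 10 := (div_le_self hκ'0.le hell).trans (hκ'1.trans hκ1)
  have hσ1 : 1 < σ := by linarith
  have hσ2 : σ ≤ 2 := by linarith
  have h11 := one_one_real χ hχ2 hσ1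
  rw [LSeries_eq_DD (by simpa using hσ1), LSeries_eq_DL χ hχ (by simpa using hσ1), sub_re,
    neg_re] at h11
  have d0 := (hD0 0 σ hσ1 hσ2).1
  change _ ≤ (DD _).re at d0
  have ht1 : |t| ≤ 1 / 10 := hnear.le.trans hκell1
  have hball : ∀ s : ℝ, |s| = |t| → (⟨ρ.re, s⟩ : ℂ) ∈ closedBall (⟨2, 0⟩ : ℂ) (3 / 2) := by
    intro s hs
    rw [mem_closedBall, dist_eq_norm]
    refine (Complex.norm_le_abs_re_add_abs_im _).trans ?_
    simp only [sub_re, sub_im, sub_zero]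
    rw [hs, abs_of_nonpos (by linarith)]
    linarith
  have hρc : (starRingEnd ℂ) ρ = ⟨ρ.re, -t⟩ := by apply Complex.ext <;> simp [ht]
  have hρe : ρ = ⟨ρ.re, t⟩ := by apply Complex.ext <;> simp [ht]
  have h0c : χ.LFunction (⟨ρ.re, -t⟩ : ℂ) = 0 := by rw [← hρc]; exact conj_zero hχ hχ2 hρ
  have h0 : χ.LFunction (⟨ρ.re, t⟩ : ℂ) = 0 := by rw [← hρe]; exact hρ
  have d1 := hD Q χ hχ 0 σ hσ1 hσ2 ⟨ρ.re, t⟩ (hball t rfl) ⟨ρ.re, -t⟩ (hball (-t) (abs_neg t)) (by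
    intro h
    have := congrArg Complex.im h
    simp only at this
    apply hne
    linarith) h0 h0c
  set a : ℝ := σ - ρ.re with ha
  have ha0 : 0 < a := by linarith
  have hat : 2 * |t| ≤ a := by
    have : |t| < κ' / lq Q t := hnear
    linarith
  have hval : ∀ s : ℝ, |s| = |t| → 4 / 5 * (1 / a) ≤ (1 / ((⟨σ, 0⟩ : ℂ) - ⟨ρ.re, s⟩)).re := by
    intro s hs
    rw [one_div ((⟨σ, 0⟩ : ℂ) - ⟨ρ.re, s⟩), Complex.inv_re, Complex.normSq_apply]
    simp only [sub_re, sub_im, zero_sub]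
    rw [← ha]
    have h3 : s ^ 2 ≤ a ^ 2 / 4 := by
      rw [← sq_abs s, hs]
      nlinarith [abs_nonneg t]
    have hden : 0 < a * a + -s * -s := by nlinarith [sq_nonneg s, mul_pos ha0 ha0]
    rw [mul_one_div, div_le_div_iff₀ ha0 hden]
    nlinarith
  have v1 := hval t rfl
  have v2 := hval (-t) (abs_neg t)
  have e0 : (1 / ((⟨σ, 0⟩ : ℂ) - 1)).re = 1 / (σ - 1) := by
    have e : (⟨σ, 0⟩ : ℂ) - 1 = ((σ - 1 : ℝ) : ℂ) := by
      apply Complex.ext <;> simp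
    rw [e, ← Complex.ofReal_one, ← Complex.ofReal_div, Complex.ofReal_re]
  rw [e0] at h11
  have l0 : ell 0 ≤ lq Q t := (ell_mono (by simp)).trans (ell_le_lq Q t)
  have l1 : lq Q 0 ≤ lq Q t := by
    unfold lq
    have := ell_mono (s := 0) (t := t) (by simp)
    linarith
  have hmain : 8 / 5 * (1 / a) ≤ 1 / (σ - 1) + K' * lq Q t := by
    have m0 : -(DD ⟨σ, 0⟩).re ≤ K0 * lq Q t := by nlinarith
    have m1 : K * lq Q 0 ≤ K * lq Q t := mul_le_mul_of_nonneg_left l1 hK.le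
    rw [hK']
    nlinarith
  have hs1 : σ - 1 = 2 * (κ' / lq Q t) := by rw [hσ]; ring
  set v : ℝ := κ' / lq Q t with hv
  have hκ'K : K' * lq Q t ≤ 1 / 30 * (1 / v) := by
    have h1 : K' * κ' ≤ 1 / 30 := by
      calc K' * κ' ≤ K' * κ := by gcongr
        _ = _ := by rw [hκ]; field_simp
    have h2 : (1 : ℝ) / v = lq Q t / κ' := by rw [hv]; field_simp
    rw [h2, mul_div_assoc', le_div_iff₀ hκ'0]
    calc K' * lq Q t * κ' = (K' * κ') * lq Q t := by ring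
      _ ≤ 1 / 30 * lq Q t := by gcongr
  have h5 : 8 / 5 * (1 / a) ≤ 16 / 30 * (1 / v) := by
    have e : 1 / (σ - 1) = 1 / 2 * (1 / v) := by rw [hs1]; field_simp
    rw [e] at hmain
    linarith
  have h6 : 3 * v ≤ a := by
    rw [mul_one_div, mul_one_div, div_le_div_iff₀ ha0 hκell] at h5
    linarith
  have h7 : κ' / 7 / lq Q t = 1 / 7 * v := by rw [hv]; ring
  rw [h7]
  rw [ha, hσ] at h6
  linarith

end Pool.Agent.R521.F6
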