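import Pool.Agent.R521.F6.A1

set_option autoImplicit false

/-!
# Repulsion of real zeros and scales without them
-/

open Complex Filter Topology Set MeasureTheory Metric
open scoped ArithmeticFunction.vonMangoldt

namespace Pool.Agent.R521.F6

open H370 H370.Loc Pool.Agent.W66 Pool.Agent.W66L

/-- no real zero close to one for the real characters with modulus at most `Q` -/
def NRZ (c : ℝ) (Q : ℕ) : Prop := ∀ (q : ℕ) [NeZero q], q ≤ Q → ∀ χ : DirichletCharacter ℂ q,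
  χ ≠ 1 → χ ^ 2 = 1 → ∀ β : ℝ, 1 - c / Real.log Q < β → χ.LFunction (β : ℂ) ≠ 0

lemma NRZ_mono {c c' : ℝ} {Q : ℕ} (h : NRZ c Q) (hc : c' ≤ c) : NRZ c' Q := by
  intro q _ hq χ h1 h2 β hβ
  refine h q hq χ h1 h2 β (lt_of_le_of_lt ?_ hβ)
  have : c' / Real.log Q ≤ c / Real.log Q :=
    div_le_div_of_nonneg_right hc (Real.log_natCast_nonneg Q)
  linarith

/-- the product of two characters -/
noncomputable def prd {q₁ q₂ : ℕ} (χ₁ : DirichletCharacter ℂ q₁) (χ₂ : DirichletCharacter ℂ q₂) :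
    DirichletCharacter ℂ (q₁ * q₂) :=
  (DirichletCharacter.changeLevel (dvd_mul_right q₁ q₂) χ₁) *
    (DirichletCharacter.changeLevel (dvd_mul_left q₂ q₁) χ₂)

lemma cl_nat {q m : ℕ} (h : q ∣ m) (χ : DirichletCharacter ℂ q) {n : ℕ}
    (hn : n.Coprime m) : (DirichletCharacter.changeLevel h χ) (n : ZMod m) = χ (n : ZMod q) := by
  obtain ⟨u, hu⟩ := (ZMod.isUnit_iff_coprime n m).2 hn
  rw [← hu, DirichletCharacter.changeLevel_eq_cast_of_dvd χ h u, hu, ZMod.cast_natCast h]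

lemma prd_apply {q₁ q₂ : ℕ} (χ₁ : DirichletCharacter ℂ q₁) (χ₂ : DirichletCharacter ℂ q₂) (n : ℕ) :
    prd χ₁ χ₂ (n : ZMod (q₁ * q₂)) = χ₁ (n : ZMod q₁) * χ₂ (n : ZMod q₂) := by
  by_cases h : n.Coprime (q₁ * q₂)
  · unfold prd
    rw [MulChar.mul_apply, cl_nat _ _ h, cl_nat _ _ h]
  · rw [MulChar.map_nonunit _ (fun h' => h ((ZMod.isUnit_iff_coprime _ _).1 h'))]
    rw [Nat.coprime_mul_iff_right, not_and_or] at h
    rcases h with h | h
    · rw [MulChar.map_nonunit χ₁ (fun h' => h ((ZMod.isUnit_iff_coprime _ _).1 h')), zero_mul]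
    · rw [MulChar.map_nonunit χ₂ (fun h' => h ((ZMod.isUnit_iff_coprime _ _).1 h')), mul_zero]

/-- the inequality `(1 + χ₁)(1 + χ₂) ≥ 0` -/
lemma four_real {q₁ q₂ : ℕ} (χ₁ : DirichletCharacter ℂ q₁) (χ₂ : DirichletCharacter ℂ q₂)
    (h1 : χ₁ ^ 2 = 1) (h2 : χ₂ ^ 2 = 1) {σ : ℝ} (hσ : 1 < σ) :
    0 ≤ (LSeries (fun n => (Λ n : ℂ)) (⟨σ, 0⟩ : ℂ)).re +
      (LSeries ((fun n : ℕ => (χ₁ n : ℂ)) * (fun n : ℕ => (Λ n : ℂ))) (⟨σ, 0⟩ : ℂ)).re +
      (LSeries ((fun n : ℕ => (χ₂ n : ℂ)) * (fun n : ℕ => (Λ n : ℂ))) (⟨σ, 0⟩ : ℂ)).re +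
      (LSeries ((fun n : ℕ => (prd χ₁ χ₂ n : ℂ)) * (fun n : ℕ => (Λ n : ℂ))) (⟨σ, 0⟩ : ℂ)).re := by
  have hs0 : LSeriesSummable (fun n => (Λ n : ℂ)) (⟨σ, 0⟩ : ℂ) :=
    ArithmeticFunction.LSeriesSummable_vonMangoldt (by simpa using hσ)
  have hs1 : LSeriesSummable ((fun n : ℕ => (χ₁ n : ℂ)) * (fun n : ℕ => (Λ n : ℂ))) (⟨σ, 0⟩ : ℂ) :=
    DirichletCharacter.LSeriesSummable_mul χ₁ hs0
  have hs2 : LSeriesSummable ((fun n : ℕ => (χ₂ n : ℂ)) * (fun n : ℕ => (Λ n : ℂ))) (⟨σ, 0⟩ : ℂ) :=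
    DirichletCharacter.LSeriesSummable_mul χ₂ hs0
  have hs3 : LSeriesSummable ((fun n : ℕ => (prd χ₁ χ₂ n : ℂ)) * (fun n : ℕ => (Λ n : ℂ)))
      (⟨σ, 0⟩ : ℂ) := DirichletCharacter.LSeriesSummable_mul (prd χ₁ χ₂) hs0
  unfold LSeries
  rw [Complex.re_tsum hs0, Complex.re_tsum hs1, Complex.re_tsum hs2, Complex.re_tsum hs3]
  have g0 := (Complex.reCLM.summable hs0)
  have g1 := (Complex.reCLM.summable hs1)
  have g2 := (Complex.reCLM.summable hs2)
  have g3 := (Complex.reCLM.summable hs3)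
  simp only [Complex.reCLM_apply] at g0 g1 g2 g3
  rw [← Summable.tsum_add g0 g1, ← Summable.tsum_add (g0.add g1) g2,
    ← Summable.tsum_add ((g0.add g1).add g2) g3]
  refine tsum_nonneg fun n => ?_
  rcases eq_or_ne n 0 with rfl | hn
  · simp
  have hnr : (0 : ℝ) < n := by exact_mod_cast Nat.pos_of_ne_zero hn
  set A : ℝ := Λ n / (n : ℝ) ^ σ with hA
  have hA0 : 0 ≤ A := div_nonneg ArithmeticFunction.vonMangoldt_nonneg (by positivity)
  have key : ((Λ n : ℝ) : ℂ) / (n : ℂ) ^ (⟨σ, 0⟩ : ℂ) = (A : ℂ) := by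
    have e : (⟨σ, 0⟩ : ℂ) = (σ : ℂ) := by apply Complex.ext <;> simp
    have e3 : (n : ℂ) ^ (σ : ℂ) = (((n : ℝ) ^ σ : ℝ) : ℂ) := by
      rw [Complex.ofReal_cpow hnr.le]
      simp
    rw [e, e3, hA]
    push_cast
    rfl
  rw [LSeries.term_of_ne_zero hn, LSeries.term_of_ne_zero hn, LSeries.term_of_ne_zero hn,
    LSeries.term_of_ne_zero hn]
  simp only [Pi.mul_apply]
  rw [mul_div_assoc, mul_div_assoc, mul_div_assoc, key, prd_apply]
  rcases real_vals h1 (n : ZMod q₁) with hv | hv | hv <;>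
    rcases real_vals h2 (n : ZMod q₂) with hw | hw | hw <;> rw [hv, hw] <;> simp <;> linarith

/-- **Landau**: two real characters with different product do not both have real zeros near one -/
theorem landau_two : ∃ c : ℝ, 0 < c ∧ ∀ (q₁ q₂ : ℕ) [NeZero q₁] [NeZero q₂]
    (χ₁ : DirichletCharacter ℂ q₁) (χ₂ : DirichletCharacter ℂ q₂),
    χ₁ ≠ 1 → χ₂ ≠ 1 → χ₁ ^ 2 = 1 → χ₂ ^ 2 = 1 → prd χ₁ χ₂ ≠ 1 → ∀ β₁ β₂ : ℝ,
    χ₁.LFunction (β₁ : ℂ) = 0 → χ₂.LFunction (β₂ : ℂ) = 0 →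
    1 - c / lq (q₁ * q₂) 0 < β₁ → 1 - c / lq (q₁ * q₂) 0 < β₂ → False := by
  obtain ⟨K, hK, hD⟩ := DL_re
  obtain ⟨K0, hK0, hD0⟩ := D_re
  set K' : ℝ := K0 + 3 * K + 3 with hK'
  have hK'0 : 0 < K' := by positivity
  set κ : ℝ := 1 / (4 * K') with hκ
  have hκ0 : 0 < κ := by positivity
  have hκ1 : κ ≤ 1 / 10 := by
    rw [hκ]
    exact one_div_le_one_div_of_le (by norm_num) (by linarith)
  refine ⟨κ / 3, by positivity, fun q₁ q₂ _ _ χ₁ χ₂ n1 n2 s1 s2 hne β₁ β₂ z1 z2 b1 b2 => ?_⟩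
  have : NeZero (q₁ * q₂) := ⟨mul_ne_zero (NeZero.ne q₁) (NeZero.ne q₂)⟩
  set ℓ := lq (q₁ * q₂) 0 with hℓ
  have hℓ1 : 1 ≤ ℓ := one_le_lq _ _
  have hℓ0 : 0 < ℓ := by linarith
  set σ : ℝ := 1 + κ / ℓ with hσ
  have hκℓ : 0 < κ / ℓ := by positivity
  have hκℓ1 : κ / ℓ ≤ 1 / 10 := (div_le_self hκ0.le hℓ1).trans hκ1
  have hσ1 : 1 < σ := by linarith
  have hσ2 : σ ≤ 2 := by linarith
  have h4 := four_real χ₁ χ₂ s1 s2 hσ1
  rw [LSeries_eq_DD (by simpa using hσ1), LSeries_eq_DL χ₁ n1 (by simpa using hσ1),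
    LSeries_eq_DL χ₂ n2 (by simpa using hσ1), LSeries_eq_DL _ hne (by simpa using hσ1),
    sub_re, neg_re, neg_re, neg_re] at h4
  have d0 := (hD0 0 σ hσ1 hσ2).1
  change _ ≤ (DD _).re at d0
  have hlow : ∀ β : ℝ, 1 - κ / 3 / ℓ < β → 1 / 2 ≤ β := by
    intro β hβ
    have h1 : κ / 3 / ℓ ≤ κ / 3 := div_le_self (by positivity) hℓ1
    linarith
  have hup : ∀ (q : ℕ) [NeZero q] (χ : DirichletCharacter ℂ q), χ ≠ 1 → ∀ β : ℝ,
      χ.LFunction (β : ℂ) = 0 → β < 1 := by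
    intro q _ χ hχ β h
    by_contra hcon
    exact LF_ne_zero hχ (by simpa using not_lt.1 hcon) h
  have hball : ∀ β : ℝ, 1 / 2 ≤ β → β < 1 → (β : ℂ) ∈ closedBall (⟨2, 0⟩ : ℂ) (3 / 2) := by
    intro β h1 h2
    rw [mem_closedBall, dist_eq_norm]
    have e : (β : ℂ) - ⟨2, 0⟩ = ((β - 2 : ℝ) : ℂ) := by
      apply Complex.ext <;> simp
    rw [e, Complex.norm_real, Real.norm_eq_abs, abs_le]
    constructor <;> linarith
  have hval : ∀ β : ℝ, (1 / ((⟨σ, 0⟩ : ℂ) - (β : ℂ))).re = 1 / (σ - β) := by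
    intro β
    have e : (⟨σ, 0⟩ : ℂ) - (β : ℂ) = ((σ - β : ℝ) : ℂ) := by
      apply Complex.ext <;> simp
    rw [e, ← Complex.ofReal_one, ← Complex.ofReal_div, Complex.ofReal_re]
  have u1 := hup q₁ χ₁ n1 β₁ z1
  have u2 := hup q₂ χ₂ n2 β₂ z2
  have l1 := hlow β₁ b1
  have l2 := hlow β₂ b2
  have d1 := (hD q₁ χ₁ n1 0 σ hσ1 hσ2).2 _ (hball β₁ l1 u1) z1
  have d2 := (hD q₂ χ₂ n2 0 σ hσ1 hσ2).2 _ (hball β₂ l2 u2) z2
  have d3 := (hD (q₁ * q₂) (prd χ₁ χ₂) hne 0 σ hσ1 hσ2).1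
  rw [hval] at d1 d2
  have e0 : (1 / ((⟨σ, 0⟩ : ℂ) - 1)).re = 1 / (σ - 1) := by
    have := hval 1
    simpa using this
  rw [e0] at h4
  have hq1 : (1 : ℝ) ≤ q₁ := by exact_mod_cast NeZero.one_le
  have hq2 : (1 : ℝ) ≤ q₂ := by exact_mod_cast NeZero.one_le
  have m1 : lq q₁ 0 ≤ ℓ := by
    rw [hℓ]; unfold lq
    have : Real.log q₁ ≤ Real.log ((q₁ * q₂ : ℕ) : ℝ) := by
      apply Real.log_le_log (by linarith)
      push_cast
      nlinarith
    linarith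
  have m2 : lq q₂ 0 ≤ ℓ := by
    rw [hℓ]; unfold lq
    have : Real.log q₂ ≤ Real.log ((q₁ * q₂ : ℕ) : ℝ) := by
      apply Real.log_le_log (by linarith)
      push_cast
      nlinarith
    linarith
  have m0 : ell 0 ≤ ℓ := ell_le_lq _ _
  have t0 : K0 * ell 0 ≤ K0 * ℓ := by gcongr
  have t1 : K * lq q₁ 0 ≤ K * ℓ := by gcongr
  have t2 : K * lq q₂ 0 ≤ K * ℓ := by gcongr
  have hmain : 1 / (σ - β₁) + 1 / (σ - β₂) ≤ 1 / (σ - 1) + K' * ℓ := by
    rw [hK']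
    nlinarith
  have hs1 : σ - 1 = κ / ℓ := by rw [hσ]; ring
  have hb : ∀ β : ℝ, 1 - κ / 3 / ℓ < β → β < 1 → 3 / 4 * (ℓ / κ) ≤ 1 / (σ - β) := by
    intro β h1 h2
    have h3 : 0 < σ - β := by linarith
    rw [le_div_iff₀ h3]
    have h5 : σ - β ≤ 4 / 3 * (κ / ℓ) := by
      have : κ / 3 / ℓ = 1 / 3 * (κ / ℓ) := by ring
      rw [hσ]
      linarith
    calc 3 / 4 * (ℓ / κ) * (σ - β) ≤ 3 / 4 * (ℓ / κ) * (4 / 3 * (κ / ℓ)) := by gcongr
      _ = 1 := by field_simp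
  have v1 := hb β₁ b1 u1
  have v2 := hb β₂ b2 u2
  have e1 : 1 / (σ - 1) = ℓ / κ := by rw [hs1]; field_simp
  have e2 : K' * ℓ = 1 / 4 * (ℓ / κ) := by
    rw [hκ]; field_simp
  rw [e1, e2] at hmain
  have : 0 < ℓ / κ := by positivity
  linarith

/-- Euler factors do not vanish -/
lemma zero_change {q m : ℕ} [NeZero q] [NeZero m] (h : q ∣ m) (χ : DirichletCharacter ℂ q) {β : ℝ}
    (hβ : 0 < β) (hβ1 : β ≠ 1) :
    (DirichletCharacter.changeLevel h χ).LFunction (β : ℂ) = 0 ↔ χ.LFunction (β : ℂ) = 0 := by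
  rw [DirichletCharacter.LFunction_changeLevel h χ (Or.inr (by exact_mod_cast hβ1))]
  rw [mul_eq_zero]
  constructor
  · rintro (h1 | h1)
    · exact h1
    · exfalso
      rw [Finset.prod_eq_zero_iff] at h1
      obtain ⟨p, hp, h2⟩ := h1
      have hpp := Nat.prime_of_mem_primeFactors hp
      have h3 : χ (p : ZMod q) * (p : ℂ) ^ (-(β : ℂ)) = 1 := by linear_combination -h2
      have h4 : ‖χ (p : ZMod q) * (p : ℂ) ^ (-(β : ℂ))‖ < 1 := by
        rw [norm_mul, Complex.norm_natCast_cpow_of_pos hpp.pos]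
        have h5 : (p : ℝ) ^ (-(β : ℂ)).re < 1 := by
          apply Real.rpow_lt_one_of_one_lt_of_neg
          · exact_mod_cast hpp.one_lt
          · simpa using hβ
        calc ‖χ (p : ZMod q)‖ * (p : ℝ) ^ (-(β : ℂ)).re ≤ 1 * (p : ℝ) ^ (-(β : ℂ)).re := by
              apply mul_le_mul_of_nonneg_right (χ.norm_le_one _) (by positivity)
          _ < 1 := by rw [one_mul]; exact h5
      rw [h3, norm_one] at h4
      exact lt_irrefl _ h4
  · intro h1
    exact Or.inl h1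

/-- if the product of two real characters is principal then they have the same real zeros -/
lemma same_zero {q₁ q₂ : ℕ} [NeZero q₁] [NeZero q₂]
    {χ₁ : DirichletCharacter ℂ q₁} {χ₂ : DirichletCharacter ℂ q₂} (h1 : χ₁ ^ 2 = 1) (h : prd χ₁ χ₂ = 1)
    {β : ℝ} (hβ : 0 < β) (hβ1 : β ≠ 1) (hz : χ₂.LFunction (β : ℂ) = 0) : χ₁.LFunction (β : ℂ) = 0 := by
  have : NeZero (q₁ * q₂) := ⟨mul_ne_zero (NeZero.ne q₁) (NeZero.ne q₂)⟩
  have e : DirichletCharacter.changeLevel (dvd_mul_right q₁ q₂) χ₁ =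
      DirichletCharacter.changeLevel (dvd_mul_left q₂ q₁) χ₂ := by
    have h3 : (DirichletCharacter.changeLevel (dvd_mul_right q₁ q₂) χ₁) ^ 2 = 1 := by
      rw [← map_pow, h1, map_one]
    have h4 : (DirichletCharacter.changeLevel (dvd_mul_right q₁ q₂) χ₁) *
      (DirichletCharacter.changeLevel (dvd_mul_left q₂ q₁) χ₂) = 1 := h
    calc DirichletCharacter.changeLevel (dvd_mul_right q₁ q₂) χ₁ =
        DirichletCharacter.changeLevel (dvd_mul_right q₁ q₂) χ₁ *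
        (DirichletCharacter.changeLevel (dvd_mul_right q₁ q₂) χ₁ *
        DirichletCharacter.changeLevel (dvd_mul_left q₂ q₁) χ₂) := by rw [h4, mul_one]
      _ = (DirichletCharacter.changeLevel (dvd_mul_right q₁ q₂) χ₁) ^ 2 *
        DirichletCharacter.changeLevel (dvd_mul_left q₂ q₁) χ₂ := by rw [sq, mul_assoc]
      _ = _ := by rw [h3, one_mul]
  rw [← zero_change (dvd_mul_left q₂ q₁) χ₂ hβ hβ1, ← e, zero_change _ χ₁ hβ hβ1] at hz
  exact hz

/-- **arbitrarily large scales without real zeros close to one** -/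
theorem good_NRZ : ∃ c : ℝ, 0 < c ∧ ∀ Q0 : ℕ, ∃ Q : ℕ, Q0 ≤ Q ∧ NRZ c Q := by
  obtain ⟨c0, hc0, hL⟩ := landau_two
  set c : ℝ := min (c0 / 5) (1 / 4) with hc
  have hcpos : 0 < c := by positivity
  refine ⟨c, hcpos, fun Q0 => ?_⟩
  by_contra hcon
  push Not at hcon
  set R : ℕ := max Q0 3 with hR
  have hR3 : 3 ≤ R := le_max_right _ _
  set Qk : ℕ → ℕ := fun k => R ^ 2 ^ k with hQk
  have hQk3 : ∀ k, 3 ≤ Qk k := fun k => hR3.trans (Nat.le_self_pow (by positivity) R)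
  have hQk0 : ∀ k, Q0 ≤ Qk k := fun k =>
    (le_max_left Q0 3).trans (Nat.le_self_pow (by positivity) R)
  have hlR : 1 ≤ Real.log R := by
    rw [Real.le_log_iff_exp_le (by positivity)]
    have := Real.exp_one_lt_d9
    have h3 : (3 : ℝ) ≤ R := by exact_mod_cast hR3
    linarith
  have hlog : ∀ k, Real.log (Qk k) = 2 ^ k * Real.log R := by
    intro k
    rw [hQk]
    push_cast
    rw [Real.log_pow]
    push_cast
    ring
  have hbad : ∀ k, ∃ (q : ℕ) (_ : NeZero q) (χ : DirichletCharacter ℂ q) (β : ℝ), q ≤ Qk k ∧ χ ≠ 1 ∧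
      χ ^ 2 = 1 ∧ 1 - c / Real.log (Qk k) < β ∧ χ.LFunction (β : ℂ) = 0 := by
    intro k
    have h := hcon (Qk k) (hQk0 k)
    unfold NRZ at h
    push Not at h
    obtain ⟨q, hq, hqQ, χ, h1, h2, β, h3, h4⟩ := h
    exact ⟨q, hq, χ, β, hqQ, h1, h2, h3, h4⟩
  choose q hq χ β hqQ h1 h2 hβ hz using hbad
  have hlk : ∀ k, 1 ≤ Real.log (Qk k) := by
    intro k
    rw [hlog]
    have : (1 : ℝ) ≤ 2 ^ k := one_le_pow₀ (by norm_num)
    nlinarith
  have hβlow : ∀ k, 3 / 4 ≤ β k := by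
    intro k
    have h5 : c / Real.log (Qk k) ≤ c := div_le_self hcpos.le (hlk k)
    have h6 : c ≤ 1 / 4 := min_le_right _ _
    linarith [hβ k]
  have hβup : ∀ k, β k < 1 := by
    intro k
    by_contra hcon
    have := hq k
    exact LF_ne_zero (h1 k) (by simpa using not_lt.1 hcon) (hz k)
  -- consecutive characters are the same
  have hstep : ∀ k, have := hq k; have := hq (k + 1); prd (χ k) (χ (k + 1)) = 1 := by
    intro k
    have := hq k
    have := hq (k + 1)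
    by_contra hne
    have hq1 : (0 : ℝ) < q k := by exact_mod_cast Nat.pos_of_ne_zero (NeZero.ne (q k))
    have hq2 : (0 : ℝ) < q (k + 1) := by exact_mod_cast Nat.pos_of_ne_zero (NeZero.ne (q (k + 1)))
    have hlq : lq (q k * q (k + 1)) 0 ≤ 5 * Real.log (Qk k) := by
      unfold lq ell
      push_cast
      rw [Real.log_mul hq1.ne' hq2.ne', abs_zero, zero_add]
      have a1 : Real.log (q k) ≤ Real.log (Qk k) := Real.log_le_log hq1 (by exact_mod_cast hqQ k)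
      have a2 : Real.log (q (k + 1)) ≤ Real.log (Qk (k + 1)) :=
        Real.log_le_log hq2 (by exact_mod_cast hqQ (k + 1))
      have a3 : Real.log (Qk (k + 1)) = 2 * Real.log (Qk k) := by rw [hlog, hlog, pow_succ]; ring
      have a4 : Real.log 3 ≤ 2 := by
        have : Real.log 3 ≤ Real.log (Real.exp 1 ^ 2) := by
          apply Real.log_le_log (by norm_num)
          have := Real.exp_one_gt_d9
          nlinarith
        rwa [Real.log_pow, Real.log_exp, mul_one] at this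
      linarith [hlk k]
    have hlq0 : 0 < lq (q k * q (k + 1)) 0 := by
      have : NeZero (q k * q (k + 1)) := ⟨mul_ne_zero (NeZero.ne _) (NeZero.ne _)⟩
      linarith [one_le_lq (q k * q (k + 1)) 0]
    have hb1 : c / Real.log (Qk k) ≤ c0 / lq (q k * q (k + 1)) 0 := by
      rw [div_le_div_iff₀ (by linarith [hlk k]) hlq0]
      calc c * lq (q k * q (k + 1)) 0 ≤ (c0 / 5) * (5 * Real.log (Qk k)) := by
            apply mul_le_mul (min_le_left _ _) hlq hlq0.le (by positivity)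
        _ = _ := by ring
    have hb2 : c / Real.log (Qk (k + 1)) ≤ c / Real.log (Qk k) := by
      apply div_le_div_of_nonneg_left hcpos.le (by linarith [hlk k])
      rw [hlog, hlog, pow_succ]
      have : (0 : ℝ) ≤ 2 ^ k * Real.log R := by positivity
      linarith
    exact hL (q k) (q (k + 1)) (χ k) (χ (k + 1)) (h1 k) (h1 (k + 1)) (h2 k) (h2 (k + 1)) hne
      (β k) (β (k + 1)) (hz k) (hz (k + 1)) (by linarith [hβ k]) (by linarith [hβ (k + 1)])
  -- all zeros are zeros of the first character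
  have := hq 0
  have hall : ∀ k, ∀ b : ℝ, 0 < b → b < 1 → (χ k).LFunction (b : ℂ) = 0 → (χ 0).LFunction (b : ℂ) = 0 := by
    intro k
    induction k with
    | zero => intro b _ _ h; exact h
    | succ k ih =>
      intro b hb0 hb1 h
      have := hq k
      have := hq (k + 1)
      exact ih b hb0 hb1 (same_zero (h2 k) (hstep k) hb0 hb1.ne h)
  have hzero : ∀ k, (χ 0).LFunction (β k : ℂ) = 0 := fun k =>
    hall k (β k) (by linarith [hβlow k]) (hβup k) (hz k)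
  -- the limit
  have hlim : Tendsto β atTop (𝓝 1) := by
    have h5 : Tendsto (fun k : ℕ => 1 - c / Real.log (Qk k)) atTop (𝓝 1) := by
      have h6 : Tendsto (fun k : ℕ => Real.log (Qk k)) atTop atTop := by
        simp only [hlog]
        exact Tendsto.atTop_mul_const (by linarith) (tendsto_pow_atTop_atTop_of_one_lt (by norm_num))
      have h7 := (tendsto_const_nhds (x := c)).div_atTop h6
      have h8 := (tendsto_const_nhds (x := (1 : ℝ))).sub h7
      simpa using h8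
    exact tendsto_of_tendsto_of_tendsto_of_le_of_le h5 tendsto_const_nhds
      (fun k => (hβ k).le) (fun k => (hβup k).le)
  have hcont : Tendsto (fun k => (χ 0).LFunction (β k : ℂ)) atTop (𝓝 ((χ 0).LFunction ((1 : ℝ) : ℂ))) := by
    have h5 : ContinuousAt (χ 0).LFunction ((1 : ℝ) : ℂ) :=
      (DirichletCharacter.differentiable_LFunction (h1 0) _).continuousAt
    have h6 : Tendsto (fun k => ((β k : ℝ) : ℂ)) atTop (𝓝 ((1 : ℝ) : ℂ)) :=
      (Complex.continuous_ofReal.tendsto 1).comp hlim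
    exact h5.tendsto.comp h6
  have hconst : Tendsto (fun k => (χ 0).LFunction (β k : ℂ)) atTop (𝓝 0) := by
    simp only [hzero]
    exact tendsto_const_nhds
  have hfin := tendsto_nhds_unique hcont hconst
  exact LF_ne_zero (h1 0) (by simp) hfin

end Pool.Agent.R521.F6
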