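import Pool.Agent.W66.LG
import Pool.Agent.TH823.PS.Chars

set_option autoImplicit false

/-!
# The decomposition of prime sums twisted by `tau χ n`
-/

open Finset MeasureTheory
open scoped Real
open Pool.Agent.Helper112
open scoped ArithmeticFunction.vonMangoldt

namespace Pool.Agent.R521.F6

open Pool.Agent.W66 Pool.Agent.W66L Pool.Agent.TH823.PS

variable {q : ℕ} [NeZero q]

omit [NeZero q] in
lemma card_rr_le (q : ℕ) : (rr q).card ≤ q := by
  unfold rr
  exact (card_filter_le _ _).trans (by simp)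

omit [NeZero q] in
lemma norm_tau_le (χ : DirichletCharacter ℂ q) (n : ℕ) : ‖tau χ n‖ ≤ q := by
  unfold tau
  refine (norm_sum_le _ _).trans ?_
  have h1 : ∀ a ∈ rr q, ‖(starRingEnd ℂ) (χ (a : ZMod q)) * ee (n * a / q)‖ ≤ 1 := by
    intro a _
    rw [norm_mul, ls_norm_ee, mul_one, RCLike.norm_conj]
    exact χ.norm_le_one _
  refine (sum_le_sum h1).trans ?_
  rw [sum_const, nsmul_eq_mul, mul_one]
  exact_mod_cast card_rr_le q

lemma tau_mod (χ : DirichletCharacter ℂ q) (n : ℕ) : tau χ (n % q) = tau χ n := by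
  have hq : 0 < q := Nat.pos_of_ne_zero (NeZero.ne q)
  unfold tau
  apply sum_congr rfl
  intro a _
  congr 1
  have h1 : ((n % q : ℕ) : ℝ) * a / q = a * ((n % q : ℕ) : ℝ) / q := by ring
  have h2 : (n : ℝ) * a / q = a * (n : ℝ) / q := by ring
  rw [h1, h2, ee_mod hq]

lemma tau_congr (χ : DirichletCharacter ℂ q) {m n : ℕ} (h : m ≡ n [MOD q]) : tau χ m = tau χ n := by
  rw [← tau_mod χ m, ← tau_mod χ n, h]

/-- `tau χ (d a)` as a function on residues -/
noncomputable def tz (χ : DirichletCharacter ℂ q) (d : ℕ) (a : ZMod q) : ℂ := tau χ (d * a.val)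

lemma tz_cast (χ : DirichletCharacter ℂ q) (d n : ℕ) : tz χ d (n : ZMod q) = tau χ (d * n) := by
  unfold tz
  rw [ZMod.val_natCast]
  exact tau_congr χ ((Nat.mod_modEq n q).mul_left d)

lemma tz_sum {χ : DirichletCharacter ℂ q} (hχ : χ ≠ 1) (d : ℕ) : ∑ a : ZMod q, tz χ d a = 0 := by
  have hq : 0 < q := Nat.pos_of_ne_zero (NeZero.ne q)
  obtain ⟨u, hu⟩ : ∃ u : (ZMod q)ˣ, χ u ≠ 1 := by
    by_contra hcon
    push Not at hcon
    apply hχ
    ext u
    rw [hcon u]
    simp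
  have hcop : ((u : ZMod q).val).Coprime q := ZMod.val_coe_unit_coprime u
  have h1 : ∀ a : ZMod q, tz χ d ((u : ZMod q) * a) = χ u * tz χ d a := by
    intro a
    unfold tz
    have h2 : d * ((u : ZMod q) * a).val ≡ (u : ZMod q).val * (d * a.val) [MOD q] := by
      rw [ZMod.val_mul]
      have h3 := (Nat.mod_modEq ((u : ZMod q).val * a.val) q).mul_left d
      refine h3.trans ?_
      rw [show d * ((u : ZMod q).val * a.val) = (u : ZMod q).val * (d * a.val) by ring]
    rw [tau_congr χ h2, tau_mul hq χ hcop]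
    congr 1
    rw [ZMod.natCast_zmod_val]
  have h2 : ∑ a : ZMod q, tz χ d ((u : ZMod q) * a) = ∑ a : ZMod q, tz χ d a :=
    Fintype.sum_equiv (Units.mulLeft u) _ _ (fun a => rfl)
  simp only [h1] at h2
  rw [← mul_sum] at h2
  have h3 : (χ u - 1) * ∑ a : ZMod q, tz χ d a = 0 := by rw [sub_mul, h2, one_mul, sub_self]
  rcases mul_eq_zero.1 h3 with h4 | h4
  · exact absurd (sub_eq_zero.1 h4) hu
  · exact h4

lemma tau_block {χ : DirichletCharacter ℂ q} (hχ : χ ≠ 1) (d m : ℕ) :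
    ‖∑ k ∈ Ioc 0 m, tau χ (d * k)‖ ≤ q * q := by
  have hq : (0 : ℝ) < q := by exact_mod_cast Nat.pos_of_ne_zero (NeZero.ne q)
  have h := H307R2.sum_Ioc_block (fun a : ZMod q => tz χ d a / q) (by
    rw [← sum_div, tz_sum hχ d, zero_div]) (by
    intro a
    rw [norm_div, Complex.norm_natCast, div_le_one hq]
    exact norm_tau_le χ _) 0 m
  rw [zero_add] at h
  simp only [tz_cast] at h
  rw [← sum_div, norm_div, Complex.norm_natCast, div_le_iff₀ hq] at h
  exact h

/-- summation by parts for any sequence with bounded partial sums -/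
lemma abel_gen {ψ : ℕ → ℂ} {B : ℝ} (hB : ∀ m, ‖∑ k ∈ Ioc 0 m, ψ k‖ ≤ B) (F : ℕ → ℝ) (N : ℕ)
    (hF : F (N + 1) = 0) :
    ‖∑ m ∈ Ioc 0 N, ψ m * (F m : ℂ)‖ ≤ B * ∑ m ∈ Ioc 0 N, |F m - F (m + 1)| := by
  set S : ℕ → ℂ := fun m => ∑ k ∈ Ioc 0 m, ψ k with hS
  have key : ∀ N : ℕ, ∑ m ∈ Ioc 0 N, ψ m * (F m : ℂ) =
      ∑ m ∈ Ioc 0 N, S m * ((F m - F (m + 1) : ℝ) : ℂ) + S N * (F (N + 1) : ℂ) := by
    intro N
    induction N with
    | zero => simp [hS]
    | succ n ih =>
      rw [sum_Ioc_succ_top (by omega), sum_Ioc_succ_top (by omega), ih]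
      have h1 : S (n + 1) = S n + ψ (n + 1) := by
        simp only [hS]
        rw [sum_Ioc_succ_top (by omega)]
      rw [h1]
      push_cast
      ring
  rw [key, hF, Complex.ofReal_zero, mul_zero, add_zero, mul_sum]
  refine (norm_sum_le _ _).trans (sum_le_sum fun m _ => ?_)
  rw [norm_mul, Complex.norm_real, Real.norm_eq_abs]
  exact mul_le_mul_of_nonneg_right (hB m) (abs_nonneg _)

/-- the variation of the smooth weight -/
lemma var_le (ω : ℝ → ℝ) {h x K : ℝ} (hh : 0 < h)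
    (hh1 : h ≤ 1) (hx : 2 ≤ x) (hK : 1 ≤ K) (hω : ∀ v, 0 ≤ v → v ≤ x + 2 → |ω v| ≤ K)
    (hω2 : ∀ v w, |ω v - ω w| ≤ |v - w|) (N : ℕ) :
    ∑ m ∈ Ioc 0 N, |ω (Real.log m) / m * tri h (x - Real.log m) -
      ω (Real.log ((m + 1 : ℕ) : ℝ)) / ((m + 1 : ℕ) : ℝ) * tri h (x - Real.log ((m + 1 : ℕ) : ℝ))| ≤
      48 * K * (Real.exp (-x) / h ^ 2) := by
  have h1 : ∀ m ∈ Finset.Ioc 0 N, |ω (Real.log m) / m * tri h (x - Real.log m) -
      ω (Real.log ((m + 1 : ℕ) : ℝ)) / ((m + 1 : ℕ) : ℝ) * tri h (x - Real.log ((m + 1 : ℕ) : ℝ))| ≤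
      if x - h < Real.log ((m + 1 : ℕ) : ℝ) then 3 * K / h ^ 2 * ((m : ℝ) ^ 2)⁻¹ else 0 := by
    intro m hm
    rw [Finset.mem_Ioc] at hm
    have hm0 : (0 : ℝ) < m := by exact_mod_cast hm.1
    have hm1 : (1 : ℝ) ≤ m := by exact_mod_cast hm.1
    obtain ⟨g1, g2, -⟩ := log_gap hm.1
    set a := Real.log m with ha
    set b := Real.log ((m + 1 : ℕ) : ℝ) with hb
    have ha0 : 0 ≤ a := Real.log_nonneg hm1
    split_ifs with hc
    · rcases le_or_gt (x + h) a with h2 | h2
      · rw [tri_zero_of hh (show h ≤ |x - a| by rw [abs_of_nonpos (by linarith)]; linarith),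
          tri_zero_of hh (show h ≤ |x - b| by rw [abs_of_nonpos (by linarith)]; linarith)]
        simp only [mul_zero, sub_zero, abs_zero]
        positivity
      · have hb2 : b ≤ x + 2 := by
          have : (1 : ℝ) / m ≤ 1 := by
            rw [div_le_one hm0]; exact hm1
          linarith
        have t1 := tri_le hh (x - a)
        have t2 := tri_lip hh (x - a) (x - b)
        have t3 : |x - a - (x - b)| ≤ 1 / m := by
          rw [show x - a - (x - b) = b - a by ring, abs_of_nonneg g1]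
          exact g2
        have t4 := tri_nonneg hh (x - a)
        have w1 := hω a ha0 (by linarith)
        have w2 := hω b (by linarith) hb2
        have w3 : |ω b - ω a| ≤ 1 / m := by
          refine (hω2 b a).trans ?_
          rw [abs_of_nonneg g1]
          exact g2
        have hh2 : 1 / h ≤ 1 / h ^ 2 := by
          apply one_div_le_one_div_of_le (by positivity)
          nlinarith
        have e : ω a / m * tri h (x - a) - ω b / ((m + 1 : ℕ) : ℝ) * tri h (x - b) =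
            ω a * tri h (x - a) * (1 / m - 1 / ((m + 1 : ℕ) : ℝ)) +
            (-(ω b - ω a)) * tri h (x - a) * (1 / ((m + 1 : ℕ) : ℝ)) +
            ω b * (tri h (x - a) - tri h (x - b)) * (1 / ((m + 1 : ℕ) : ℝ)) := by
          ring
        rw [e]
        have hm1' : (1 : ℝ) / ((m + 1 : ℕ) : ℝ) ≤ 1 / m := by
          apply one_div_le_one_div_of_le hm0
          push_cast
          linarith
        have d1 : 0 ≤ (1 : ℝ) / m - 1 / ((m + 1 : ℕ) : ℝ) := by linarith
        have d2 : (1 : ℝ) / m - 1 / ((m + 1 : ℕ) : ℝ) ≤ 1 / (m : ℝ) ^ 2 := by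
          have e2 : (1 : ℝ) / m - 1 / ((m + 1 : ℕ) : ℝ) = 1 / (m * (m + 1)) := by
            push_cast
            field_simp
            ring
          rw [e2]
          apply one_div_le_one_div_of_le (by positivity)
          nlinarith
        have p1 : |ω a * tri h (x - a) * (1 / m - 1 / ((m + 1 : ℕ) : ℝ))| ≤
            K * (1 / h ^ 2) * (1 / (m : ℝ) ^ 2) := by
          rw [abs_mul, abs_mul, abs_of_nonneg t4, abs_of_nonneg d1]
          gcongr
          linarith
        have p2 : |(-(ω b - ω a)) * tri h (x - a) * (1 / ((m + 1 : ℕ) : ℝ))| ≤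
            (1 / m) * (1 / h ^ 2) * (1 / m) := by
          rw [abs_mul, abs_mul, abs_neg, abs_of_nonneg t4,
            abs_of_nonneg (by positivity : (0 : ℝ) ≤ 1 / ((m + 1 : ℕ) : ℝ))]
          gcongr
          linarith
        have p3 : |ω b * (tri h (x - a) - tri h (x - b)) * (1 / ((m + 1 : ℕ) : ℝ))| ≤
            K * (1 / h ^ 2 * (1 / m)) * (1 / m) := by
          rw [abs_mul, abs_mul, abs_of_nonneg (by positivity : (0 : ℝ) ≤ 1 / ((m + 1 : ℕ) : ℝ))]
          gcongr
          refine t2.trans ?_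
          gcongr
        refine (abs_add_three _ _ _).trans ?_
        have e3 : (1 / (m : ℝ)) * (1 / h ^ 2) * (1 / m) ≤ K * (1 / h ^ 2) * (1 / (m : ℝ) ^ 2) := by
          have : (1 / (m : ℝ)) * (1 / h ^ 2) * (1 / m) = 1 * (1 / h ^ 2) * (1 / (m : ℝ) ^ 2) := by
            field_simp
          rw [this]
          gcongr
        have e4 : K * (1 / h ^ 2 * (1 / (m : ℝ))) * (1 / m) = K * (1 / h ^ 2) * (1 / (m : ℝ) ^ 2) := by
          field_simp
        have e5 : 3 * K / h ^ 2 * ((m : ℝ) ^ 2)⁻¹ = 3 * (K * (1 / h ^ 2) * (1 / (m : ℝ) ^ 2)) := by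
          field_simp
        rw [e5]
        linarith
    · rw [not_lt] at hc
      rw [tri_zero_of hh (show h ≤ |x - a| by rw [abs_of_nonneg (by linarith)]; linarith),
        tri_zero_of hh (show h ≤ |x - b| by rw [abs_of_nonneg (by linarith)]; linarith)]
      simp
  refine (Finset.sum_le_sum h1).trans ?_
  rw [← Finset.sum_filter, ← Finset.mul_sum]
  have h2 := inv_sq_window hh1 hx N
  calc 3 * K / h ^ 2 * _ ≤ 3 * K / h ^ 2 * (16 * Real.exp (-x)) := by gcongr
    _ = _ := by ring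

/-- smooth sums of a sequence with bounded partial sums are small -/
theorem smooth_gen {ψ : ℕ → ℂ} {B : ℝ} (hB0 : 0 ≤ B) (hB : ∀ m, ‖∑ k ∈ Ioc 0 m, ψ k‖ ≤ B)
    (ω : ℝ → ℝ) {h x K : ℝ} (hh : 0 < h)
    (hh1 : h ≤ 1) (hx : 2 ≤ x) (hK : 1 ≤ K) (hω : ∀ v, 0 ≤ v → v ≤ x + 2 → |ω v| ≤ K)
    (hω2 : ∀ v w, |ω v - ω w| ≤ |v - w|) (N : ℕ) (hN : Real.exp (x + h) ≤ N) :
    ‖∑ m ∈ Ioc 0 N, ψ m * ((ω (Real.log m) / m * tri h (x - Real.log m) : ℝ) : ℂ)‖ ≤
      B * (48 * K * (Real.exp (-x) / h ^ 2)) := by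
  have hN0 : (0 : ℝ) < N := lt_of_lt_of_le (Real.exp_pos _) hN
  have hlogN : x + h ≤ Real.log ((N + 1 : ℕ) : ℝ) := by
    rw [Real.le_log_iff_exp_le (by positivity)]
    refine hN.trans ?_
    push_cast
    linarith
  have hFN : ω (Real.log ((N + 1 : ℕ) : ℝ)) / ((N + 1 : ℕ) : ℝ) *
      tri h (x - Real.log ((N + 1 : ℕ) : ℝ)) = 0 := by
    rw [tri_zero_of hh, mul_zero]
    rw [abs_of_nonpos (by linarith)]
    linarith
  refine (abel_gen hB (fun m : ℕ => ω (Real.log m) / m * tri h (x - Real.log m)) N hFN).trans ?_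
  exact mul_le_mul_of_nonneg_left (var_le ω hh hh1 hx hK hω hω2 N) hB0

/-- the convolution rearrangement with a general coefficient -/
lemma conv_gen (ψ : ℕ → ℂ) (f g : ArithmeticFunction ℝ) (h z : ℝ) (hh : 0 < h)
    (N : ℕ) (hN : Real.exp (z + h) ≤ N) :
    ∑ n ∈ Ioc 0 N, ψ n * (((f * g) n / n : ℝ) : ℂ) * triC h (z - Real.log n) =
      ∑ m ∈ Ioc 0 N, ((f m / m : ℝ) : ℂ) *
        ∑ l ∈ Ioc 0 N, (ψ (m * l) * ((g l / l : ℝ) : ℂ)) *
          triC h (z - Real.log m - Real.log l) := by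
  have h1 : ∀ n ∈ Ioc 0 N, ψ n * (((f * g) n / n : ℝ) : ℂ) * triC h (z - Real.log n) =
      ∑ p ∈ n.divisorsAntidiagonal, ((f p.1 / p.1 : ℝ) : ℂ) *
        ((ψ (p.1 * p.2) * ((g p.2 / p.2 : ℝ) : ℂ)) * triC h (z - Real.log p.1 - Real.log p.2)) := by
    intro n hn
    rw [mem_Ioc] at hn
    rw [ArithmeticFunction.mul_apply, sum_div, Complex.ofReal_sum, mul_sum, sum_mul]
    refine sum_congr rfl fun p hp => ?_
    rw [Nat.mem_divisorsAntidiagonal] at hp
    have h2 : (p.1 : ℝ) ≠ 0 := by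
      have : p.1 ≠ 0 := by
        rintro h0
        rw [h0, zero_mul] at hp
        omega
      exact_mod_cast this
    have h3 : (p.2 : ℝ) ≠ 0 := by
      have : p.2 ≠ 0 := by
        rintro h0
        rw [h0, mul_zero] at hp
        omega
      exact_mod_cast this
    have h5 : Real.log n = Real.log p.1 + Real.log p.2 := by
      rw [← Real.log_mul h2 h3, ← hp.1]
      push_cast
      rfl
    have h6 : f p.1 * g p.2 / (n : ℝ) = (f p.1 / p.1) * (g p.2 / p.2) := by
      rw [← hp.1]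
      push_cast
      field_simp
    rw [h5, h6, hp.1, sub_sub]
    push_cast
    ring
  rw [sum_congr rfl h1,
    hyperC (fun a b => ((f a / a : ℝ) : ℂ) *
        ((ψ (a * b) * ((g b / b : ℝ) : ℂ)) * triC h (z - Real.log a - Real.log b)))]
  · refine sum_congr rfl fun m _ => ?_
    rw [mul_sum]
  · intro a b ha hb hab
    have ha0 : (a : ℝ) ≠ 0 := by exact_mod_cast ha.ne'
    have hb0 : (b : ℝ) ≠ 0 := by exact_mod_cast hb.ne'
    have h2 : z + h ≤ Real.log a + Real.log b := by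
      rw [← Real.log_mul ha0 hb0, Real.le_log_iff_exp_le (by positivity)]
      refine hN.trans ?_
      exact_mod_cast hab.le
    unfold triC
    rw [tri_zero_of hh, Complex.ofReal_zero, mul_zero, mul_zero]
    rw [abs_of_nonpos (by linarith)]
    linarith

/-- sums over `d ≤ w` -/
lemma dsum_tau {χ : DirichletCharacter ℂ q} (hχ : χ ≠ 1) (k : ℕ) (ω : ℝ → ℝ) {h z K : ℝ} (hh : 0 < h)
    (hh1 : h ≤ 1) (w N : ℕ) (hw : 1 ≤ w) (hz : Real.log w + 2 ≤ z) (hK : 1 ≤ K)
    (hω : ∀ v, 0 ≤ v → v ≤ z + 2 → |ω v| ≤ K)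
    (hω2 : ∀ v w, |ω v - ω w| ≤ |v - w|) (hN : Real.exp (z + h) ≤ N) :
    ‖∑ d ∈ Ioc 0 w, ((((ArithmeticFunction.moebius d : ℤ) : ℝ) / d : ℝ) : ℂ) *
      ∑ m ∈ Ioc 0 N, (tau χ (k * (d * m)) * ((ω (Real.log m) / m : ℝ) : ℂ)) *
        triC h (z - Real.log d - Real.log m)‖ ≤
      w * (q * q * (48 * K * (Real.exp (-z) / h ^ 2))) := by
  have hw0 : (0 : ℝ) < w := by exact_mod_cast hw
  refine (norm_sum_le _ _).trans ?_
  have h3 : ∀ d ∈ Ioc 0 w,
      ‖((((ArithmeticFunction.moebius d : ℤ) : ℝ) / d : ℝ) : ℂ) *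
      ∑ m ∈ Ioc 0 N, (tau χ (k * (d * m)) * ((ω (Real.log m) / m : ℝ) : ℂ)) *
        triC h (z - Real.log d - Real.log m)‖ ≤ q * q * (48 * K * (Real.exp (-z) / h ^ 2)) := by
    intro d hd
    rw [mem_Ioc] at hd
    have hd0 : (0 : ℝ) < d := by exact_mod_cast hd.1
    have hd1 : (1 : ℝ) ≤ d := by exact_mod_cast hd.1
    have hld : Real.log d ≤ Real.log w := Real.log_le_log hd0 (by exact_mod_cast hd.2)
    have hld0 : 0 ≤ Real.log d := Real.log_nonneg hd1
    have h3 := smooth_gen (ψ := fun m => tau χ (k * (d * m))) (B := q * q) (by positivity) (by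
      intro m
      have := tau_block hχ (k * d) m
      simpa only [mul_assoc] using this) ω hh hh1 (x := z - Real.log d) (by linarith) hK
      (fun v hv hv2 => hω v hv (by linarith)) hω2 N (by
      refine le_trans (Real.exp_le_exp.2 ?_) hN
      linarith)
    have e1 : ∑ m ∈ Ioc 0 N, (tau χ (k * (d * m)) * ((ω (Real.log m) / m : ℝ) : ℂ)) *
        triC h (z - Real.log d - Real.log m) = ∑ m ∈ Ioc 0 N, tau χ (k * (d * m)) *
        ((ω (Real.log m) / m * tri h (z - Real.log d - Real.log m) : ℝ) : ℂ) := by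
      refine sum_congr rfl fun m _ => ?_
      unfold triC
      push_cast
      ring
    rw [e1, norm_mul, Complex.norm_real, Real.norm_eq_abs, abs_div, abs_of_pos hd0]
    have h4 := mu_abs d
    have h5 : Real.exp (-(z - Real.log d)) = d * Real.exp (-z) := by
      rw [neg_sub, sub_eq_add_neg, Real.exp_add, Real.exp_log hd0]
    rw [h5] at h3
    calc _ ≤ (1 / (d : ℝ)) * (q * q * (48 * K * (d * Real.exp (-z) / h ^ 2))) := by gcongr
      _ = _ := by field_simp
  refine (sum_le_sum h3).trans ?_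
  rw [sum_const, Nat.card_Ioc, nsmul_eq_mul, Nat.sub_zero]

lemma muw_gen (w N : ℕ) (hwN : w ≤ N) (X : ℕ → ℂ) :
    ∑ d ∈ Ioc 0 N, ((muw w d / d : ℝ) : ℂ) * X d =
      ∑ d ∈ Ioc 0 w, ((((ArithmeticFunction.moebius d : ℤ) : ℝ) / d : ℝ) : ℂ) * X d := by
  have h := muw_sumC w N hwN X (fun _ => 1)
  simpa only [one_mul] using h

/-- the smoothed sum of the second factor is small -/
theorem gg_tau {χ : DirichletCharacter ℂ q} (hχ : χ ≠ 1) (k : ℕ) {h x : ℝ} (hh : 0 < h) (hh1 : h ≤ 1)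
    (w N : ℕ) (hw : 1 ≤ w) (hx : Real.log w + 2 ≤ x) (hN : Real.exp (x + h) ≤ N) :
    ‖∑ l ∈ Ioc 0 N, (tau χ (k * l) * ((aw w l / l : ℝ) : ℂ)) * triC h (x - Real.log l)‖ ≤
      w * (q * q * (48 * 1 * (Real.exp (-x) / h ^ 2))) := by
  have hw0 : (0 : ℝ) < w := by exact_mod_cast hw
  have hlw : 0 ≤ Real.log w := Real.log_nonneg (by exact_mod_cast hw)
  have hwN : w ≤ N := by
    have h1 : (w : ℝ) ≤ N := by
      refine le_trans ?_ hN
      rw [← Real.log_le_iff_le_exp hw0]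
      linarith
    exact_mod_cast h1
  have h0 : ∑ l ∈ Ioc 0 N, (tau χ (k * l) * ((aw w l / l : ℝ) : ℂ)) * triC h (x - Real.log l) =
      ∑ l ∈ Ioc 0 N, tau χ (k * l) * (((if l = 1 then (1 : ℝ) else 0) / l : ℝ) : ℂ) *
        triC h (x - Real.log l) -
      ∑ l ∈ Ioc 0 N, tau χ (k * l) * (((muw w * ((ArithmeticFunction.zeta : ArithmeticFunction ℕ) :
        ArithmeticFunction ℝ)) l / l : ℝ) : ℂ) * triC h (x - Real.log l) := by
    rw [← sum_sub_distrib]
    refine sum_congr rfl fun l _ => ?_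
    rw [aw_apply, ArithmeticFunction.coe_mul_zeta_apply]
    push_cast
    ring
  have h1 : ∑ l ∈ Ioc 0 N, tau χ (k * l) * (((if l = 1 then (1 : ℝ) else 0) / l : ℝ) : ℂ) *
        triC h (x - Real.log l) = 0 := by
    apply sum_eq_zero
    intro l _
    split_ifs with h2
    · rw [h2]
      simp only [Nat.cast_one, Real.log_one, sub_zero]
      unfold triC
      rw [tri_zero_of hh, Complex.ofReal_zero, mul_zero]
      rw [abs_of_nonneg (by linarith)]
      linarith
    · simp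
  rw [h0, h1, zero_sub, norm_neg, conv_gen (fun l => tau χ (k * l)) _ _ h x hh N hN,
    muw_gen w N hwN]
  have h3 := dsum_tau hχ k (fun _ => (1 : ℝ)) hh hh1 w N hw hx le_rfl (by intro v _ _; simp)
    (by intro v w; simp) hN
  refine le_trans (le_of_eq ?_) h3
  congr 1
  refine sum_congr rfl fun d _ => ?_
  congr 1
  refine sum_congr rfl fun l hl => ?_
  rw [mem_Ioc] at hl
  rw [ArithmeticFunction.natCoe_apply, ArithmeticFunction.zeta_apply, if_neg (by omega)]
  simp

/-- prime powers which are not coprime to `q` -/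
lemma lam_noncop (N : ℕ) (q : ℕ) (hq : 0 < q) :
    ∑ m ∈ (Ioc 0 N).filter (fun m => ¬ m.Coprime q), Λ m ≤ Nat.log 2 N * Real.log q := by
  set J := Nat.log 2 N with hJ
  have h1 : ∑ m ∈ (Ioc 0 N).filter (fun m => ¬ m.Coprime q), Λ m =
      ∑ m ∈ ((Ioc 0 N).filter (fun m => ¬ m.Coprime q)).filter (fun m => Λ m ≠ 0), Λ m :=
    (sum_filter_ne_zero _).symm
  have hqJ : q ^ J ≠ 0 := by positivity
  have hsub : ((Ioc 0 N).filter (fun m => ¬ m.Coprime q)).filter (fun m => Λ m ≠ 0) ⊆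
      (q ^ J).divisors := by
    intro m hm
    rw [mem_filter, mem_filter, mem_Ioc] at hm
    obtain ⟨⟨⟨hm0, hmN⟩, hmc⟩, hml⟩ := hm
    rw [ArithmeticFunction.vonMangoldt_ne_zero_iff, isPrimePow_nat_iff] at hml
    obtain ⟨p, j, hp, hj, rfl⟩ := hml
    rw [Nat.mem_divisors]
    refine ⟨?_, hqJ⟩
    have hpq : p ∣ q := by
      by_contra hpq
      exact hmc (Nat.Coprime.pow_left j ((Nat.Prime.coprime_iff_not_dvd hp).2 hpq))
    have hjJ : j ≤ J := by
      rw [hJ]
      apply Nat.le_log_of_pow_le (by norm_num)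
      exact (Nat.pow_le_pow_left hp.two_le j).trans hmN
    exact (pow_dvd_pow_of_dvd hpq j).trans (pow_dvd_pow q hjJ)
  rw [h1]
  refine (sum_le_sum_of_subset_of_nonneg hsub fun _ _ _ => ArithmeticFunction.vonMangoldt_nonneg).trans ?_
  rw [ArithmeticFunction.vonMangoldt_sum]
  push_cast
  rw [Real.log_pow]

omit [NeZero q] in
/-- crude bound of the second factor -/
lemma gg_crude (χ : DirichletCharacter ℂ q) (k : ℕ) {h : ℝ} (hh : 0 < h) (w N : ℕ) (hN : 1 ≤ N) (x : ℝ) :
    ‖∑ l ∈ Ioc 0 N, (tau χ (k * l) * ((aw w l / l : ℝ) : ℂ)) * triC h (x - Real.log l)‖ ≤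
      q * (1 / h) * (1 + Real.log N) ^ 2 := by
  refine (norm_sum_le _ _).trans ?_
  have h1 : ∀ l ∈ Ioc 0 N, ‖(tau χ (k * l) * ((aw w l / l : ℝ) : ℂ)) * triC h (x - Real.log l)‖ ≤
      q * (1 / h) * ((l.divisors.card : ℝ) / l) := by
    intro l hl
    rw [mem_Ioc] at hl
    have hl0 : (0 : ℝ) < l := by exact_mod_cast hl.1
    unfold triC
    rw [norm_mul, norm_mul, Complex.norm_real, Complex.norm_real, Real.norm_eq_abs,
      Real.norm_of_nonneg (tri_nonneg hh _), abs_div, abs_of_pos hl0]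
    have h2 := norm_tau_le χ (k * l)
    have h3 := aw_abs_le w l
    have h4 := tri_le hh (x - Real.log l)
    have h5 := tri_nonneg hh (x - Real.log l)
    calc ‖tau χ (k * l)‖ * (|aw w l| / l) * tri h (x - Real.log l) ≤
        q * ((l.divisors.card : ℝ) / l) * (1 / h) := by gcongr
      _ = _ := by ring
  refine (sum_le_sum h1).trans ?_
  rw [← mul_sum]
  exact mul_le_mul_of_nonneg_left (tau_sum N hN) (by positivity)

/-- **pointwise decomposition** -/
theorem decomp_tau {χ : DirichletCharacter ℂ q} (hχ : χ ≠ 1) {h z Z : ℝ} (hh : 0 < h) (hh1 : h ≤ 1)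
    (w N u0 U : ℕ) (hw : 1 ≤ w) (hz1 : Z ≤ z) (hz2 : z ≤ Z + 1) (hu0 : 1 ≤ u0) (hu : u0 ≤ U)
    (hU : Z + 2 ≤ U) (hN : Real.exp (U + 1) ≤ N) (hZ : Real.log w + u0 + 3 ≤ Z) :
    ‖ggC h (Ioc 0 N) (fun n => ((Λ n / n : ℝ) : ℂ) * tau χ n) z -
      ∑ u ∈ Icc u0 U, FX χ u h N (Ioc 0 N) (fun l => ((aw w l / l : ℝ) : ℂ) * tau χ l) z‖ ≤
      w * (q * q * (48 * (z + 2) * (Real.exp (-z) / h ^ 2))) +
      u0 * (1 + u0) * (w * (q * q * (48 * 1 * (Real.exp (u0 - Z) / h ^ 2)))) +
      Real.exp (1 - u0) * (Nat.log 2 N * Real.log q) * (q * (1 / h) * (1 + Real.log N) ^ 2) := by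
  have hq : 0 < q := Nat.pos_of_ne_zero (NeZero.ne q)
  have hw0 : (0 : ℝ) < w := by exact_mod_cast hw
  have hlw : 0 ≤ Real.log w := Real.log_nonneg (by exact_mod_cast hw)
  have hu0' : (1 : ℝ) ≤ u0 := by exact_mod_cast hu0
  have hzN : Real.exp (z + h) ≤ N := by
    refine le_trans (Real.exp_le_exp.2 ?_) hN
    linarith
  have hN0 : (0 : ℝ) < N := lt_of_lt_of_le (Real.exp_pos _) hN
  have hN1 : 1 ≤ N := by exact_mod_cast hN0
  have hwN : w ≤ N := by
    have h1 : (w : ℝ) ≤ N := by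
      refine le_trans ?_ hN
      rw [← Real.log_le_iff_le_exp hw0]
      linarith
    exact_mod_cast h1
  set L := Ioc 0 N with hL
  have hLpos : ∀ l ∈ L, 0 < l := fun l hl => (mem_Ioc.1 hl).1
  set c : ℕ → ℂ := fun l => ((aw w l / l : ℝ) : ℂ) * tau χ l with hc
  set g : ℕ → ℂ := fun m => ∑ l ∈ L, (tau χ (m * l) * ((aw w l / l : ℝ) : ℂ)) *
    triC h (z - Real.log m - Real.log l) with hg
  -- the identity
  have hT : ggC h L (fun n => ((Λ n / n : ℝ) : ℂ) * tau χ n) z =
      ∑ d ∈ L, ((muw w d / d : ℝ) : ℂ) * ∑ m ∈ L,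
        (tau χ (d * m) * ((ArithmeticFunction.log m / m : ℝ) : ℂ)) *
          triC h (z - Real.log d - Real.log m) +
      ∑ m ∈ L, ((Λ m / m : ℝ) : ℂ) * g m := by
    have h1 : ggC h L (fun n => ((Λ n / n : ℝ) : ℂ) * tau χ n) z =
        ∑ n ∈ L, tau χ n * (((muw w * ArithmeticFunction.log) n / n : ℝ) : ℂ) *
          triC h (z - Real.log n) +
        ∑ n ∈ L, tau χ n * (((ArithmeticFunction.vonMangoldt * aw w) n / n : ℝ) : ℂ) *
          triC h (z - Real.log n) := by
      unfold ggC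
      rw [← sum_add_distrib]
      refine sum_congr rfl fun n _ => ?_
      conv_lhs => rw [La_identity w]
      beta_reduce
      rw [ArithmeticFunction.add_apply]
      push_cast
      ring
    rw [h1, conv_gen (fun n => tau χ n) _ _ h z hh N hzN, conv_gen (fun n => tau χ n) _ _ h z hh N hzN]
  -- type I
  have hI : ‖∑ d ∈ L, ((muw w d / d : ℝ) : ℂ) * ∑ m ∈ L,
      (tau χ (d * m) * ((ArithmeticFunction.log m / m : ℝ) : ℂ)) *
        triC h (z - Real.log d - Real.log m)‖ ≤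
      w * (q * q * (48 * (z + 2) * (Real.exp (-z) / h ^ 2))) := by
    rw [muw_gen w N hwN]
    have h3 := dsum_tau hχ 1 (fun v => v) (z := z) (K := z + 2) hh hh1 w N hw (by linarith)
      (by linarith) (by
        intro v hv hv2
        rw [abs_of_nonneg hv]
        exact hv2) (by intro v w; exact le_rfl) hzN
    simp only [one_mul] at h3
    exact h3
  -- the three parts of the second sum
  have hsplit : ∑ m ∈ L, ((Λ m / m : ℝ) : ℂ) * g m =
      ∑ m ∈ L, ((Λ m / m * (1 - rp u0 (Real.log m)) : ℝ) : ℂ) * g m +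
      (∑ m ∈ L.filter (fun m => ¬ m.Coprime q), ((Λ m / m * rp u0 (Real.log m) : ℝ) : ℂ) * g m +
      ∑ m ∈ L.filter (fun m => m.Coprime q), ((Λ m / m * rp u0 (Real.log m) : ℝ) : ℂ) * g m) := by
    rw [add_comm (∑ m ∈ L.filter (fun m => ¬ m.Coprime q), _), sum_filter_add_sum_filter_not,
      ← sum_add_distrib]
    refine sum_congr rfl fun m _ => ?_
    rw [← add_mul, ← Complex.ofReal_add]
    congr 2
    ring
  have hFX : ∑ u ∈ Icc u0 U, FX χ u h N L c z =
      ∑ m ∈ L.filter (fun m => m.Coprime q), ((Λ m / m * rp u0 (Real.log m) : ℝ) : ℂ) * g m := by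
    unfold FX
    rw [sum_comm, sum_filter]
    refine sum_congr rfl fun m hm => ?_
    have hm0 := hLpos m hm
    split_ifs with hcop
    · have h1 : g m = χ m * ggC h L c (z - Real.log m) := by
        simp only [hg, hc]
        unfold ggC
        rw [mul_sum]
        refine sum_congr rfl fun l _ => ?_
        rw [tau_mul hq χ hcop]
        ring
      have h3 : ∑ u ∈ Icc u0 U, (χ m * ((Λ m / m * hat (u - Real.log m) : ℝ) : ℂ)) *
          ggC h L c (z - Real.log m) =
          (χ m * ((Λ m / m * (∑ u ∈ Icc u0 U, hat (u - Real.log m)) : ℝ) : ℂ)) *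
            ggC h L c (z - Real.log m) := by
        rw [← sum_mul, ← mul_sum, ← Complex.ofReal_sum, ← mul_sum]
      rw [h3, h1]
      rcases le_or_gt (Real.log m) U with h4 | h4
      · rw [hat_partition_rp u0 U hu h4]
        ring
      · rw [ggC_zero hh L c hLpos (by linarith)]
        ring
    · have h1 : χ (m : ZMod q) = 0 := MulChar.map_nonunit χ
        (fun h' => hcop ((ZMod.isUnit_iff_coprime m q).1 h'))
      apply sum_eq_zero
      intro u _
      rw [h1]
      ring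
  -- the bound for `g`
  have hgg : ∀ m : ℕ, 0 < m → Real.log m < u0 → ‖g m‖ ≤
      w * (q * q * (48 * 1 * (Real.exp (u0 - Z) / h ^ 2))) := by
    intro m hm hmu
    have hlm : 0 ≤ Real.log m := Real.log_nonneg (by exact_mod_cast hm)
    refine (gg_tau hχ m hh hh1 w N hw (x := z - Real.log m) (by linarith) (by
      refine le_trans (Real.exp_le_exp.2 ?_) hzN
      linarith)).trans ?_
    have : Real.exp (-(z - Real.log m)) ≤ Real.exp (u0 - Z) := Real.exp_le_exp.2 (by linarith)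
    gcongr
  set ε := w * (q * q * (48 * 1 * (Real.exp (u0 - Z) / h ^ 2))) with hε
  have hε0 : 0 ≤ ε := by positivity
  -- the first part
  have hP1 : ‖∑ m ∈ L, ((Λ m / m * (1 - rp u0 (Real.log m)) : ℝ) : ℂ) * g m‖ ≤ u0 * (1 + u0) * ε := by
    refine (norm_sum_le _ _).trans ?_
    have h1 : ∀ m ∈ L, ‖((Λ m / m * (1 - rp u0 (Real.log m)) : ℝ) : ℂ) * g m‖ ≤
        if Real.log m < u0 then ArithmeticFunction.vonMangoldt m / m * ε else 0 := by
      intro m hm
      have hm0 := hLpos m hm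
      have h2 : 0 ≤ ArithmeticFunction.vonMangoldt m / (m : ℝ) :=
        div_nonneg ArithmeticFunction.vonMangoldt_nonneg (by positivity)
      split_ifs with h3
      · rw [norm_mul, Complex.norm_real, Real.norm_eq_abs, abs_mul, abs_of_nonneg h2,
          abs_of_nonneg (by linarith [rp_le_one (u0 : ℝ) (Real.log m)])]
        have h4 := hgg m hm0 h3
        have h7 := rp_nonneg (u0 : ℝ) (Real.log m)
        calc _ ≤ (Λ m / m * 1) * ε := by
              apply mul_le_mul _ h4 (norm_nonneg _) (by positivity)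
              exact mul_le_mul_of_nonneg_left (by linarith) h2
          _ = _ := by ring
      · rw [rp_one (not_lt.1 h3)]
        simp
    refine (sum_le_sum h1).trans ?_
    rw [← sum_filter, ← sum_mul]
    apply mul_le_mul_of_nonneg_right _ hε0
    exact La_sum_le N (by positivity)
  -- the non coprime part
  have hNC : ‖∑ m ∈ L.filter (fun m => ¬ m.Coprime q), ((Λ m / m * rp u0 (Real.log m) : ℝ) : ℂ) * g m‖ ≤
      Real.exp (1 - u0) * (Nat.log 2 N * Real.log q) * (q * (1 / h) * (1 + Real.log N) ^ 2) := by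
    refine (norm_sum_le _ _).trans ?_
    have h1 : ∀ m ∈ L.filter (fun m => ¬ m.Coprime q),
        ‖((Λ m / m * rp u0 (Real.log m) : ℝ) : ℂ) * g m‖ ≤
        Real.exp (1 - u0) * Λ m * (q * (1 / h) * (1 + Real.log N) ^ 2) := by
      intro m hm
      rw [mem_filter] at hm
      have hm0 := hLpos m hm.1
      have hmr : (0 : ℝ) < m := by exact_mod_cast hm0
      have h2 : 0 ≤ Λ m := ArithmeticFunction.vonMangoldt_nonneg
      have h3 : ‖g m‖ ≤ q * (1 / h) * (1 + Real.log N) ^ 2 := gg_crude χ m hh w N hN1 _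
      have h4 : Λ m / m * rp u0 (Real.log m) ≤ Real.exp (1 - u0) * Λ m := by
        rcases le_or_gt (Real.log m) (u0 - 1) with h5 | h5
        · rw [rp_zero h5, mul_zero]
          positivity
        · have h6 : 1 / (m : ℝ) ≤ Real.exp (1 - u0) := by
            rw [one_div, ← Real.exp_log hmr, ← Real.exp_neg]
            exact Real.exp_le_exp.2 (by linarith)
          calc Λ m / m * rp u0 (Real.log m) ≤ Λ m / m * 1 := by
                apply mul_le_mul_of_nonneg_left (rp_le_one _ _) (by positivity)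
            _ = (1 / m) * Λ m := by ring
            _ ≤ _ := by gcongr
      rw [norm_mul, Complex.norm_real, Real.norm_of_nonneg
        (mul_nonneg (div_nonneg h2 hmr.le) (rp_nonneg _ _))]
      exact mul_le_mul h4 h3 (norm_nonneg _) (by positivity)
    refine (sum_le_sum h1).trans ?_
    rw [← sum_mul, ← mul_sum]
    apply mul_le_mul_of_nonneg_right _ (by positivity)
    apply mul_le_mul_of_nonneg_left _ (Real.exp_pos _).le
    exact lam_noncop N q hq
  rw [hT, hsplit, hFX]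
  set I1 := ∑ d ∈ L, ((muw w d / d : ℝ) : ℂ) * ∑ m ∈ L,
      (tau χ (d * m) * ((ArithmeticFunction.log m / m : ℝ) : ℂ)) *
        triC h (z - Real.log d - Real.log m) with hI1
  set P1 := ∑ m ∈ L, ((Λ m / m * (1 - rp u0 (Real.log m)) : ℝ) : ℂ) * g m with hP1'
  set N1 := ∑ m ∈ L.filter (fun m => ¬ m.Coprime q), ((Λ m / m * rp u0 (Real.log m) : ℝ) : ℂ) * g m
    with hN1'
  set F1 := ∑ m ∈ L.filter (fun m => m.Coprime q), ((Λ m / m * rp u0 (Real.log m) : ℝ) : ℂ) * g m
    with hF1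
  have e : I1 + (P1 + (N1 + F1)) - F1 = I1 + P1 + N1 := by ring
  rw [e]
  exact (norm_add_le _ _).trans (add_le_add ((norm_add_le _ _).trans (add_le_add hI hP1)) hNC)

end Pool.Agent.R521.F6
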