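import Pool.Agent.R521.F6.B1
import Pool.Agent.R521.F6.A3
import Pool.Agent.TH823.PS.LSall

set_option autoImplicit false

/-!
# Mean square of the twisted prime sums for the non principal characters
-/

open Finset MeasureTheory Filter Topology
open scoped Real FourierTransform
open Pool.Agent.Helper112
open scoped ArithmeticFunction.vonMangoldt

namespace Pool.Agent.R521.F6

open Pool.Agent.W66 Pool.Agent.W66L Pool.Agent.TH823.PS

/-- the mean square for one modulus, from a bound for the transforms -/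
theorem mean_np {q : ℕ} [NeZero q] {h Z E M : ℝ} (hh : 0 < h) (N u0 U : ℕ) (w : ℕ) (hE : 0 ≤ E)
    (hM0 : 0 ≤ M) (hU : Real.exp (U + 1) ≤ N)
    (hM : ∀ χ : DirichletCharacter ℂ q, χ ≠ 1 → ∀ u ∈ Icc u0 U, ∀ ξ : ℝ,
      ‖PX χ u (2 * π * ξ)‖ * ‖𝓕 (boxC h) ξ‖ ≤ M)
    (hd : ∀ χ : DirichletCharacter ℂ q, χ ≠ 1 → ∀ z, Z ≤ z → z ≤ Z + 1 →
      ‖ggC h (Ioc 0 N) (fun n => ((Λ n / n : ℝ) : ℂ) * tau χ n) z -
      ∑ u ∈ Icc u0 U, FX χ u h N (Ioc 0 N) (fun l => ((aw w l / l : ℝ) : ℂ) * tau χ l) z‖ ≤ E) :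
    ∑ χ ∈ (univ : Finset (DirichletCharacter ℂ q)).filter (fun χ => χ ≠ 1),
      ∫ z in Z..(Z + 1), ‖ggC h (Ioc 0 N) (fun n => ((Λ n / n : ℝ) : ℂ) * tau χ n) z‖ ^ 2 ≤
      q.totient * (2 * E ^ 2 + 2 * ((Icc u0 U).card : ℝ) ^ 2 * M ^ 2 *
        ∑ a ∈ rr q, ∫ x, ‖bbC h (Ioc 0 N) (fun l => ((aw w l / l : ℝ) : ℂ) * ee (l * a / q)) x‖ ^ 2) := by
  have hq : 0 < q := Nat.pos_of_ne_zero (NeZero.ne q)
  set L := Ioc 0 N with hL
  set c : ℕ → ℂ := fun l => ((aw w l / l : ℝ) : ℂ) with hc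
  set F : DirichletCharacter ℂ q → ℝ → ℂ := fun χ z =>
    ∑ u ∈ Icc u0 U, FX χ u h N L (fun l => c l * tau χ l) z with hF
  have hFc : ∀ χ, Continuous (F χ) := by
    intro χ
    apply continuous_finsetSum
    intro u _
    exact FX_continuous χ h u N _ _
  have hdom : ∀ χ : DirichletCharacter ℂ q, Integrable fun z => ((Icc u0 U).card : ℝ) * ∑ u ∈ Icc u0 U,
        ‖FX χ u h N L (fun l => c l * tau χ l) z‖ ^ 2 := fun χ =>
      (integrable_finsetSum _ fun (u : ℕ) _ => FX_sq_integrable χ hh u N _ _).const_mul _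
  have hFint : ∀ χ, Integrable fun z => ‖F χ z‖ ^ 2 := by
    intro χ
    refine (hdom χ).mono' ((hFc χ).norm.pow 2).aestronglyMeasurable (Eventually.of_forall fun z => ?_)
    rw [Real.norm_of_nonneg (by positivity)]
    exact norm_sum_sq_le _ _
  have hFsq : ∀ χ, χ ≠ 1 → ∫ z, ‖F χ z‖ ^ 2 ≤ ((Icc u0 U).card : ℝ) ^ 2 * M ^ 2 *
      ∫ x, ‖bbC h L (fun l => c l * tau χ l) x‖ ^ 2 := by
    intro χ hχ
    have h2 : ∫ z, ‖F χ z‖ ^ 2 ≤ ∫ z, ((Icc u0 U).card : ℝ) * ∑ u ∈ Icc u0 U,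
          ‖FX χ u h N L (fun l => c l * tau χ l) z‖ ^ 2 := by
      apply integral_mono (hFint χ) (hdom χ)
      intro z
      exact norm_sum_sq_le _ _
    refine h2.trans ?_
    rw [integral_const_mul, integral_finsetSum _ fun (u : ℕ) _ => FX_sq_integrable χ hh u N _ _]
    have h3 : ∑ u ∈ Icc u0 U, ∫ z, ‖FX χ u h N L (fun l => c l * tau χ l) z‖ ^ 2 ≤
        ∑ u ∈ Icc u0 U, M ^ 2 * ∫ x, ‖bbC h L (fun l => c l * tau χ l) x‖ ^ 2 := by
      apply sum_le_sum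
      intro u hu
      have hu2 := mem_Icc.1 hu
      have hu3 : (u : ℝ) ≤ U := by exact_mod_cast hu2.2
      exact dispersionX χ (u := (u : ℝ)) hh N (by
        refine le_trans (Real.exp_le_exp.2 ?_) hU
        linarith) L _ hM0 (hM χ hχ u hu)
    rw [sum_const, nsmul_eq_mul] at h3
    calc _ ≤ ((Icc u0 U).card : ℝ) * (((Icc u0 U).card : ℝ) * (M ^ 2 *
          ∫ x, ‖bbC h L (fun l => c l * tau χ l) x‖ ^ 2)) :=
          mul_le_mul_of_nonneg_left h3 (Nat.cast_nonneg _)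
      _ = _ := by ring
  have hGc : ∀ χ : DirichletCharacter ℂ q, Continuous fun z =>
      ggC h L (fun n => ((Λ n / n : ℝ) : ℂ) * tau χ n) z := fun χ => ggC_continuous h L _
  have hone : ∀ χ : DirichletCharacter ℂ q, χ ≠ 1 →
      ∫ z in Z..(Z + 1), ‖ggC h L (fun n => ((Λ n / n : ℝ) : ℂ) * tau χ n) z‖ ^ 2 ≤
      2 * E ^ 2 + 2 * ∫ z, ‖F χ z‖ ^ 2 := by
    intro χ hχ
    have h1 : ∫ z in Z..(Z + 1), ‖ggC h L (fun n => ((Λ n / n : ℝ) : ℂ) * tau χ n) z‖ ^ 2 ≤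
        ∫ z in Z..(Z + 1), (2 * E ^ 2 + 2 * ‖F χ z‖ ^ 2) := by
      apply intervalIntegral.integral_mono_on (by linarith)
      · exact ((hGc χ).norm.pow 2).intervalIntegrable _ _
      · exact (intervalIntegrable_const).add (((hFint χ).const_mul 2).intervalIntegrable)
      · intro z hz
        have h2 := hd χ hχ z hz.1 hz.2
        set G := ggC h L (fun n => ((Λ n / n : ℝ) : ℂ) * tau χ n) z
        have h3 : ‖G‖ ≤ E + ‖F χ z‖ := by
          have : G = (G - F χ z) + F χ z := by ring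
          rw [this]
          exact (norm_add_le _ _).trans (add_le_add h2 le_rfl)
        have h4 : ‖G‖ ^ 2 ≤ (E + ‖F χ z‖) ^ 2 := by gcongr
        have h5 : (E + ‖F χ z‖) ^ 2 = 2 * E ^ 2 + 2 * ‖F χ z‖ ^ 2 - (E - ‖F χ z‖) ^ 2 := by ring
        have h6 := sq_nonneg (E - ‖F χ z‖)
        rw [h5] at h4
        linarith only [h4, h6]
    refine h1.trans ?_
    rw [intervalIntegral.integral_add intervalIntegrable_const
      (((hFint χ).const_mul 2).intervalIntegrable),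
      intervalIntegral.integral_const, intervalIntegral.integral_const_mul, smul_eq_mul]
    have h2 : ∫ z in Z..(Z + 1), ‖F χ z‖ ^ 2 ≤ ∫ z, ‖F χ z‖ ^ 2 := by
      rw [intervalIntegral.integral_of_le (by linarith)]
      exact setIntegral_le_integral (hFint χ) (Eventually.of_forall fun z => by
        simp only [Pi.zero_apply]; positivity)
    have e : (Z + 1 - Z) * (2 * E ^ 2) = 2 * E ^ 2 := by ring
    rw [e]
    linarith
  have hbb0 : ∀ χ : DirichletCharacter ℂ q, 0 ≤ ∫ x, ‖bbC h L (fun l => c l * tau χ l) x‖ ^ 2 :=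
    fun χ => integral_nonneg fun x => by positivity
  have hK0 : 0 ≤ 2 * (((Icc u0 U).card : ℝ) ^ 2 * M ^ 2) := by positivity
  calc _ ≤ ∑ χ ∈ (univ : Finset (DirichletCharacter ℂ q)).filter (fun χ => χ ≠ 1),
        (2 * E ^ 2 + 2 * (((Icc u0 U).card : ℝ) ^ 2 * M ^ 2) *
          ∫ x, ‖bbC h L (fun l => c l * tau χ l) x‖ ^ 2) := by
        apply sum_le_sum
        intro χ hχ
        rw [mem_filter] at hχ
        refine (hone χ hχ.2).trans ?_
        have := hFsq χ hχ.2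
        linarith
    _ ≤ ∑ χ : DirichletCharacter ℂ q,
        (2 * E ^ 2 + 2 * (((Icc u0 U).card : ℝ) ^ 2 * M ^ 2) *
          ∫ x, ‖bbC h L (fun l => c l * tau χ l) x‖ ^ 2) := by
        apply sum_le_sum_of_subset_of_nonneg (filter_subset _ _)
        intro χ _ _
        have := mul_nonneg hK0 (hbb0 χ)
        positivity
    _ = _ := by
        have e3 := mean_chars (q := q) (boxC h) L c (fun c' => bbC_sq_integrable h L c')
        have e4 : ∑ χ : DirichletCharacter ℂ q, ∫ x, ‖bbC h L (fun l => c l * tau χ l) x‖ ^ 2 =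
            (q.totient : ℝ) * ∑ a ∈ rr q, ∫ x, ‖bbC h L (fun n => c n * ee (n * a / q)) x‖ ^ 2 := by
          have e5 : ∀ (c' : ℕ → ℂ) (x : ℝ), gen (boxC h) L c' x = bbC h L c' x := fun c' x => rfl
          simp only [e5] at e3
          exact e3.symm
        have e7 : ∑ χ : DirichletCharacter ℂ q, 2 * (((Icc u0 U).card : ℝ) ^ 2 * M ^ 2) *
            ∫ x, ‖bbC h L (fun l => c l * tau χ l) x‖ ^ 2 =
            2 * (((Icc u0 U).card : ℝ) ^ 2 * M ^ 2) *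
            ∑ χ : DirichletCharacter ℂ q, ∫ x, ‖bbC h L (fun l => c l * tau χ l) x‖ ^ 2 :=
          (mul_sum _ _ _).symm
        rw [sum_add_distrib, e7, e4, sum_const, nsmul_eq_mul]
        have e6 : ((univ : Finset (DirichletCharacter ℂ q)).card : ℝ) = q.totient := by
          rw [card_univ, ← Nat.card_eq_fintype_card,
            DirichletCharacter.card_eq_totient_of_hasEnoughRootsOfUnity ℂ q]
        rw [e6]
        ring

/-- uniform bound of the transform at a good scale -/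
theorem M_good : ∃ c₀ : ℝ, 0 < c₀ ∧ ∀ c₁ : ℝ, 0 < c₁ → c₁ ≤ c₀ → ∀ D : ℕ, ∃ C0 K : ℝ, 0 < C0 ∧ 0 < K ∧
    ∀ (Q : ℕ), NRZ c₁ Q → ∀ (q : ℕ) [NeZero q], q ≤ Q →
    ∀ (χ : DirichletCharacter ℂ q), χ ≠ 1 → ∀ Z h u : ℝ, 20 ≤ Z →
    11 * (Z ^ D * Real.exp (-√Z)) ≤ 1 → √Z ≤ Real.log Q → Real.log Q ≤ Z →
    1 / (Q : ℝ) ^ 3 ≤ h → h ≤ 1 →
    1 ≤ u → C0 * Real.log Q * Real.log Z ≤ u → u ≤ Z + 4 → ∀ ξ : ℝ,
    ‖PX χ u (2 * π * ξ)‖ * ‖𝓕 (boxC h) ξ‖ ≤ K * (Z ^ 2 / Z ^ D) := by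
  obtain ⟨c₀, hc₀, hP⟩ := PX_good
  refine ⟨c₀, hc₀, fun c₁ hc₁ hc₁₀ D => ?_⟩
  obtain ⟨c, C, hc, hc1, hC, hPE⟩ := hP c₁ hc₁ hc₁₀
  refine ⟨5 * D / c + 1, C * 55 + 2, by positivity, by positivity,
    fun Q hNR q _ hqQ χ hχ Z h u hZ hZD hlam1 hlam2 hh hh1 hu1 hu2 hu3 ξ => ?_⟩
  set lam := Real.log Q with hlam
  have hZ0 : 0 < Z := by linarith
  have hq0 : 0 < q := Nat.pos_of_ne_zero (NeZero.ne q)
  have hQ0 : 0 < Q := lt_of_lt_of_le hq0 hqQ
  have hQr : (0 : ℝ) < Q := by exact_mod_cast hQ0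
  have : NeZero Q := ⟨hQ0.ne'⟩
  have hh0 : 0 < h := lt_of_lt_of_le (by positivity) hh
  have hsq1 : 1 ≤ √Z := by rw [Real.one_le_sqrt]; linarith
  have hlam0 : 1 ≤ lam := hsq1.trans hlam1
  have hQe : (Q : ℝ) = Real.exp lam := by rw [hlam, Real.exp_log hQr]
  have hZD0 : 0 < Z ^ D := by positivity
  have hZD1 : 1 ≤ Z ^ D := one_le_pow₀ (by linarith)
  rcases le_or_gt |ξ| (Z ^ D / h) with hξ | hξ
  · have h1 := hPE Q hNR q hqQ χ hχ u (2 * π * ξ) (Z ^ D) hu1 hZD1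
    set ℓ := lq Q (|2 * π * ξ| + Z ^ D) with hℓ
    have hℓ1 : 1 ≤ ℓ := one_le_lq _ _
    have hpi := Real.pi_lt_d2
    have hpi0 := Real.pi_pos
    have hℓ2 : ℓ ≤ 5 * lam := by
      rw [hℓ]
      unfold lq ell
      rw [abs_of_nonneg (by positivity), ← hlam]
      have hinv : 1 / h ≤ (Q : ℝ) ^ 3 := by
        rw [div_le_iff₀ hh0]
        rw [div_le_iff₀ (by positivity)] at hh
        linarith
      have e0 : 1 ≤ (Q : ℝ) ^ 3 := one_le_pow₀ (by exact_mod_cast hQ0)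
      have e1 : |2 * π * ξ| + Z ^ D + 3 ≤ 11 * Z ^ D * (Q : ℝ) ^ 3 := by
        have e2 : |2 * π * ξ| ≤ 7 * (Z ^ D * (Q : ℝ) ^ 3) := by
          rw [abs_mul, abs_of_pos (by positivity : 0 < 2 * π)]
          have e3 : Z ^ D / h ≤ Z ^ D * (Q : ℝ) ^ 3 := by
            rw [div_eq_mul_one_div]
            exact mul_le_mul_of_nonneg_left hinv hZD0.le
          have hξ' := hξ.trans e3
          have h0 : 0 ≤ |ξ| := abs_nonneg _
          have h7 : 2 * π ≤ 7 := by linarith only [hpi]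
          exact mul_le_mul h7 hξ' h0 (by norm_num)
        have e4 : Z ^ D ≤ Z ^ D * (Q : ℝ) ^ 3 := le_mul_of_one_le_right hZD0.le e0
        have e5 : 1 ≤ Z ^ D * (Q : ℝ) ^ 3 := hZD1.trans e4
        linarith
      have e2 : 11 * Z ^ D ≤ Real.exp lam := by
        have e3 : 11 * Z ^ D ≤ Real.exp (√Z) := by
          rw [Real.exp_neg, ← div_eq_mul_inv, ← mul_div_assoc, div_le_one (Real.exp_pos _)] at hZD
          exact hZD
        exact e3.trans (Real.exp_le_exp.2 hlam1)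
      have e3 : Real.log (|2 * π * ξ| + Z ^ D + 3) ≤ 4 * lam := by
        rw [Real.log_le_iff_le_exp (by positivity)]
        refine e1.trans ?_
        have e4 : Real.exp (4 * lam) = Real.exp lam * (Q : ℝ) ^ 3 := by
          rw [hQe, ← Real.exp_nat_mul, ← Real.exp_add]
          congr 1
          push_cast
          ring
        rw [e4]
        exact mul_le_mul_of_nonneg_right e2 (by positivity)
      linarith
    have hexp : Real.exp (-(c * u / ℓ)) ≤ 1 / Z ^ D := by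
      have e1 : (D : ℝ) * Real.log Z ≤ c * u / ℓ := by
        rw [le_div_iff₀ (by linarith)]
        have hlZ : 0 ≤ Real.log Z := Real.log_nonneg (by linarith)
        calc (D : ℝ) * Real.log Z * ℓ ≤ D * Real.log Z * (5 * lam) := by gcongr
          _ = c * ((5 * D / c) * lam * Real.log Z) := by field_simp
          _ ≤ c * ((5 * D / c + 1) * lam * Real.log Z) := by gcongr; linarith
          _ ≤ c * u := by gcongr
      have e2 : 1 / Z ^ D = Real.exp (-((D : ℝ) * Real.log Z)) := by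
        rw [Real.exp_neg, Real.exp_nat_mul, Real.exp_log hZ0, one_div]
      rw [e2]
      exact Real.exp_le_exp.2 (by linarith)
    have hℓsq : ℓ ^ 2 ≤ 25 * Z ^ 2 := by
      have hℓ5 : ℓ ≤ 5 * Z := hℓ2.trans (by linarith)
      calc ℓ ^ 2 ≤ (5 * Z) ^ 2 := pow_le_pow_left₀ (by linarith) hℓ5 2
        _ = _ := by ring
    have hsq : (25 : ℝ) * Z ^ 2 / (Z ^ D) ^ 2 ≤ 25 * Z ^ 2 / Z ^ D := by
      have : Z ^ D ≤ (Z ^ D) ^ 2 := by
        rw [sq]
        exact le_mul_of_one_le_left hZD0.le hZD1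
      gcongr
    have h2 : ℓ ^ 2 * Real.exp (-(c * u / ℓ)) + ℓ ^ 2 / (Z ^ D) ^ 2 + u / Z ^ D ≤
        (25 * Z ^ 2 * (1 / Z ^ D)) + 25 * Z ^ 2 / Z ^ D + 5 * Z ^ 2 / Z ^ D := by
      have e1 : ℓ ^ 2 * Real.exp (-(c * u / ℓ)) ≤ 25 * Z ^ 2 * (1 / Z ^ D) :=
        mul_le_mul hℓsq hexp (Real.exp_pos _).le (by positivity)
      have e2 : ℓ ^ 2 / (Z ^ D) ^ 2 ≤ 25 * Z ^ 2 / Z ^ D :=
        (div_le_div_of_nonneg_right hℓsq (by positivity)).trans hsq
      have e3 : u / Z ^ D ≤ 5 * Z ^ 2 / Z ^ D := by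
        gcongr
        have h20 : 20 * Z ≤ Z * Z := mul_le_mul_of_nonneg_right hZ hZ0.le
        rw [sq]
        linarith only [h20, hu3, hZ]
      linarith
    have h3 := norm_four_box_le_one hh0 ξ
    have h4 : 0 ≤ Z ^ 2 / Z ^ D := by positivity
    have h6 : (25 * Z ^ 2 * (1 / Z ^ D)) + 25 * Z ^ 2 / Z ^ D + 5 * Z ^ 2 / Z ^ D =
        55 * (Z ^ 2 / Z ^ D) := by ring
    have h7 : ‖PX χ u (2 * π * ξ)‖ ≤ C * (55 * (Z ^ 2 / Z ^ D)) := by
      refine h1.trans ?_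
      rw [← h6]
      exact mul_le_mul_of_nonneg_left h2 hC.le
    calc ‖PX χ u (2 * π * ξ)‖ * ‖𝓕 (boxC h) ξ‖ ≤ (C * (55 * (Z ^ 2 / Z ^ D))) * 1 :=
          mul_le_mul h7 h3 (norm_nonneg _) (by positivity)
      _ = C * 55 * (Z ^ 2 / Z ^ D) := by ring
      _ ≤ _ := by
          apply mul_le_mul_of_nonneg_right _ h4
          linarith
  · have hξ0 : ξ ≠ 0 := by
      intro h0
      rw [h0, abs_zero] at hξ
      have : 0 < Z ^ D / h := by positivity
      linarith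
    have h1 := norm_four_box_le hh0 hξ0
    have h2 : 1 / (h * |ξ|) ≤ 1 / Z ^ D := by
      apply one_div_le_one_div_of_le hZD0
      rw [div_lt_iff₀ hh0] at hξ
      linarith
    have h3 := PX_triv χ hu1 ξ
    have h4 : (u + 1) * (u + 2) ≤ 2 * Z ^ 2 := by
      have h20 : 20 * Z ≤ Z * Z := mul_le_mul_of_nonneg_right hZ hZ0.le
      calc (u + 1) * (u + 2) ≤ (Z + 5) * (Z + 6) :=
            mul_le_mul (by linarith only [hu3]) (by linarith only [hu3]) (by linarith only [hu1])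
              (by linarith only [hZ])
        _ = Z * Z + 11 * Z + 30 := by ring
        _ ≤ 2 * (Z * Z) := by linarith only [h20, hZ]
        _ = _ := by ring
    have h5 : 0 ≤ Z ^ 2 / Z ^ D := by positivity
    calc ‖PX χ u (2 * π * ξ)‖ * ‖𝓕 (boxC h) ξ‖ ≤ (2 * Z ^ 2) * (1 / Z ^ D) := by
          apply mul_le_mul (h3.trans h4) (h1.trans h2) (norm_nonneg _) (by positivity)
      _ = 2 * (Z ^ 2 / Z ^ D) := by ring
      _ ≤ _ := by
          apply mul_le_mul_of_nonneg_right _ h5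
          have : 0 < C * 55 := by positivity
          linarith

end Pool.Agent.R521.F6
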