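import Pool.Agent.H373R2.T7.LamZ
import Pool.Agent.H373R2.T7.LamZ2
import Pool.Agent.Helper923.HMertens

set_option autoImplicit false

/-!
# Sieve tools: Mertens bounds, the truncated sieve and its error
-/

open Finset
open scoped Real

namespace Pool.Agent.R521.F6

open Pool.Agent.H373R2.T7 (pz Vz lamz mem_pz Vz_pos Vz_le_one es bonf sieve_gen' es_le bonf_ind
  card_small prod_dvd_iff prod_le_pow card_pz_le lamz_nonneg es_nonneg)

/-- the second theorem of Mertens, upper bound -/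
theorem sum_inv_pz : ∃ C : ℝ, 0 ≤ C ∧ ∀ z : ℕ, 2 ≤ z →
    ∑ p ∈ pz z, 1 / (p : ℝ) ≤ Real.log (Real.log z) + C := by
  obtain ⟨C, hC0, hC⟩ := Pool.Agent.Helper923.HMertens.mertens_ratio
  have hl2 : 0 < Real.log 2 := Real.log_pos (by norm_num)
  refine ⟨C / Real.log 2 + |Real.log (Real.log 2)| + 1 / 2, by positivity, fun x hx => ?_⟩
  have h1 := (abs_le.1 (hC 2 x le_rfl hx)).2
  have h2 : pz x = insert 2 ((Ioc 2 x).filter Nat.Prime) := by
    ext p
    simp only [mem_pz, mem_insert, mem_filter, mem_Ioc]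
    constructor
    · rintro ⟨h4, h5⟩
      rcases Nat.lt_or_ge 2 p with h | h
      · exact Or.inr ⟨⟨h, h4⟩, h5⟩
      · exact Or.inl (le_antisymm h h5.two_le)
    · rintro (rfl | ⟨⟨h3, h4⟩, h5⟩)
      · exact ⟨hx, Nat.prime_two⟩
      · exact ⟨h4, h5⟩
  have h3 : (2 : ℕ) ∉ (Ioc 2 x).filter Nat.Prime := by simp
  rw [h2, sum_insert h3]
  have hlx : 0 < Real.log x := Real.log_pos (by exact_mod_cast (by omega : 1 < x))
  rw [Nat.cast_ofNat, Real.log_div hlx.ne' hl2.ne'] at h1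
  have h4 := neg_abs_le (Real.log (Real.log 2))
  push_cast
  linarith

/-- `∑ 1/(p (p-1)) ≤ 1` over primes -/
lemma sum_pp_le (s : Finset ℕ) (hs : ∀ p ∈ s, 2 ≤ p) :
    ∑ p ∈ s, 1 / ((p : ℝ) * (p - 1)) ≤ 1 := by
  have h1 : s ⊆ Ico 2 (s.sup id + 1) := by
    intro p hp
    rw [mem_Ico]
    exact ⟨hs p hp, Nat.lt_succ_of_le (le_sup (f := id) hp)⟩
  have h2 : ∀ M : ℕ, ∑ p ∈ Ico 2 M, 1 / ((p : ℝ) * (p - 1)) ≤ 1 - 1 / ((max M 2 : ℕ) - 1 : ℝ) := by
    intro M
    induction M with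
    | zero => simp; norm_num
    | succ n ih =>
      rcases Nat.lt_or_ge n 2 with h | h
      · have : Ico 2 (n + 1) = ∅ := by
          rw [Ico_eq_empty_iff]; omega
        rw [this, sum_empty, max_eq_right (by omega)]
        norm_num
      · rw [sum_Ico_succ_top h]
        rw [max_eq_left h] at ih
        rw [max_eq_left (by omega)]
        have hn : (2 : ℝ) ≤ n := by exact_mod_cast h
        have e1 : 1 / ((n : ℝ) * (n - 1)) = 1 / ((n : ℝ) - 1) - 1 / n := by
          have : (n : ℝ) - 1 ≠ 0 := by linarith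
          have : (n : ℝ) ≠ 0 := by linarith
          field_simp
          ring
        have e2 : ((n + 1 : ℕ) : ℝ) - 1 = n := by push_cast; ring
        rw [e1, e2]
        linarith
  refine (sum_le_sum_of_subset_of_nonneg h1 ?_).trans ((h2 _).trans ?_)
  · intro p hp _
    rw [mem_Ico] at hp
    have : (2 : ℝ) ≤ p := by exact_mod_cast hp.1
    have : 0 ≤ (p : ℝ) * (p - 1) := mul_nonneg (by linarith) (by linarith)
    positivity
  · have : (2 : ℝ) ≤ ((max (s.sup id + 1) 2 : ℕ) : ℝ) := by exact_mod_cast le_max_right _ _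
    have h3 : 0 ≤ 1 / (((max (s.sup id + 1) 2 : ℕ) : ℝ) - 1) := by
      apply div_nonneg zero_le_one
      linarith
    linarith

/-- the inverse of the sieve product -/
theorem Vz_inv_exp (z : ℕ) : (Vz z)⁻¹ ≤ Real.exp (1 + ∑ p ∈ pz z, 1 / (p : ℝ)) := by
  unfold Vz
  rw [← prod_inv_distrib]
  have h1 : ∀ p ∈ pz z, (1 - 1 / (p : ℝ))⁻¹ ≤ Real.exp (1 / ((p : ℝ) * (p - 1)) + 1 / p) := by
    intro p hp
    rw [mem_pz] at hp
    have h2 : (2 : ℝ) ≤ p := by exact_mod_cast hp.2.two_le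
    have h3 : (p : ℝ) - 1 ≠ 0 := by linarith
    have h4 : (p : ℝ) ≠ 0 := by linarith
    have e1 : (1 - 1 / (p : ℝ))⁻¹ = (1 / ((p : ℝ) * (p - 1)) + 1 / p) + 1 := by
      have e2 : 1 - 1 / (p : ℝ) = (p - 1) / p := by field_simp
      rw [e2, inv_div]
      field_simp
      ring
    rw [e1]
    exact Real.add_one_le_exp _
  calc ∏ p ∈ pz z, (1 - 1 / (p : ℝ))⁻¹ ≤ ∏ p ∈ pz z, Real.exp (1 / ((p : ℝ) * (p - 1)) + 1 / p) := by
        apply prod_le_prod _ h1
        intro p hp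
        rw [mem_pz] at hp
        have h2 : (2 : ℝ) ≤ p := by exact_mod_cast hp.2.two_le
        rw [inv_nonneg, sub_nonneg, div_le_one (by linarith)]
        linarith
    _ = Real.exp (∑ p ∈ pz z, (1 / ((p : ℝ) * (p - 1)) + 1 / p)) := (Real.exp_sum _ _).symm
    _ ≤ _ := by
        apply Real.exp_le_exp.2
        rw [sum_add_distrib]
        have := sum_pp_le (pz z) (fun p hp => (mem_pz.1 hp).2.two_le)
        linarith

/-- the inverse of the sieve product is at most a multiple of the logarithm -/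
theorem Vz_inv_log : ∃ C : ℝ, 1 ≤ C ∧ ∀ z : ℕ, 2 ≤ z → (Vz z)⁻¹ ≤ C * Real.log z := by
  obtain ⟨C, hC0, hC⟩ := sum_inv_pz
  refine ⟨Real.exp (1 + C), Real.one_le_exp (by linarith), fun z hz => ?_⟩
  have h1 := Vz_inv_exp z
  have h2 := hC z hz
  have hlx : 0 < Real.log z := Real.log_pos (by exact_mod_cast (by omega : 1 < z))
  refine h1.trans ?_
  calc Real.exp (1 + ∑ p ∈ pz z, 1 / (p : ℝ)) ≤ Real.exp ((1 + C) + Real.log (Real.log z)) :=
        Real.exp_le_exp.2 (by linarith)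
    _ = _ := by rw [Real.exp_add, Real.exp_log hlx]

/-- sums of reciprocals of primes, exponential form -/
theorem exp_sum_inv (k : ℕ) : ∃ C : ℝ, 1 ≤ C ∧ ∀ z : ℕ, 2 ≤ z →
    Real.exp (k * ∑ p ∈ pz z, 1 / (p : ℝ)) ≤ C * Real.log z ^ k := by
  obtain ⟨C, hC0, hC⟩ := sum_inv_pz
  refine ⟨Real.exp (k * C), Real.one_le_exp (by positivity), fun z hz => ?_⟩
  have h2 := hC z hz
  have hlx : 0 < Real.log z := Real.log_pos (by exact_mod_cast (by omega : 1 < z))
  calc Real.exp (k * ∑ p ∈ pz z, 1 / (p : ℝ)) ≤ Real.exp (k * C + k * Real.log (Real.log z)) := by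
        apply Real.exp_le_exp.2
        rw [← mul_add]
        apply mul_le_mul_of_nonneg_left _ (Nat.cast_nonneg _)
        linarith
    _ = _ := by rw [Real.exp_add, Real.exp_nat_mul (Real.log (Real.log z)), Real.exp_log hlx]

/-- the truncated sieve -/
noncomputable def Mq (Q R n : ℕ) : ℝ :=
  (Vz Q)⁻¹ * ∑ j ∈ range R, (-1 : ℝ) ^ j * ∑ S ∈ (pz Q).powersetCard j,
    if (∏ p ∈ S, p) ∣ n then (1 : ℝ) else 0

/-- the error of the truncation -/
noncomputable def eR (Q R n : ℕ) : ℝ :=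
  ∑ S ∈ (pz Q).powersetCard R, if (∏ p ∈ S, p) ∣ n then (1 : ℝ) else 0

lemma eR_nonneg (Q R n : ℕ) : 0 ≤ eR Q R n :=
  sum_nonneg fun _ _ => by split_ifs <;> norm_num

lemma lamz_sub (Q R n : ℕ) : |lamz Q n - Mq Q R n| ≤ (Vz Q)⁻¹ * eR Q R n := by
  classical
  have hV : 0 ≤ (Vz Q)⁻¹ := (inv_pos.2 (Vz_pos Q)).le
  have h := bonf_ind (fun p n => p ∣ n) (pz Q) R n
  have hS : ∀ j, ∀ S ∈ (pz Q).powersetCard j, ((if ∀ p ∈ S, p ∣ n then (1 : ℝ) else 0) =
      if (∏ p ∈ S, p) ∣ n then (1 : ℝ) else 0) := by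
    intro j S hS
    rw [mem_powersetCard] at hS
    have := prod_dvd_iff S (fun p hp => (mem_pz.1 (hS.1 hp)).2) n
    by_cases h1 : (∏ p ∈ S, p) ∣ n
    · rw [if_pos h1, if_pos (this.2 h1)]
    · rw [if_neg h1, if_neg (fun h2 => h1 (this.1 h2))]
  have e1 : lamz Q n = (Vz Q)⁻¹ * (if ∀ p ∈ pz Q, ¬ p ∣ n then (1 : ℝ) else 0) := by
    unfold lamz
    split_ifs <;> simp
  unfold Mq eR
  rw [e1, ← mul_sub, abs_mul, abs_of_nonneg hV]
  apply mul_le_mul_of_nonneg_left _ hV
  have e2 : ∑ j ∈ range R, (-1 : ℝ) ^ j * ∑ S ∈ (pz Q).powersetCard j,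
      (if (∏ p ∈ S, p) ∣ n then (1 : ℝ) else 0) = ∑ j ∈ range R, (-1 : ℝ) ^ j *
      ∑ S ∈ (pz Q).powersetCard j, if ∀ p ∈ S, p ∣ n then (1 : ℝ) else 0 := by
    apply sum_congr rfl
    intro j _
    rw [sum_congr rfl (hS j)]
  rw [e2, ← sum_congr rfl (hS R)]
  convert h <;> rfl

/-- the square of the error -/
lemma eR_sq (Q R n : ℕ) : eR Q R n ^ 2 ≤ Real.exp (-(R : ℝ)) *
    ∑ S ∈ (pz Q).powerset, (10 : ℝ) ^ S.card * (if (∏ p ∈ S, p) ∣ n then (1 : ℝ) else 0) := by
  classical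
  set T := (pz Q).filter (fun p => p ∣ n) with hT
  have hsub : ∀ S ⊆ pz Q, ((∏ p ∈ S, p) ∣ n ↔ S ⊆ T) := by
    intro S hS
    rw [← prod_dvd_iff S (fun p hp => (mem_pz.1 (hS hp)).2) n]
    constructor
    · intro h p hp
      rw [hT, mem_filter]
      exact ⟨hS hp, h p hp⟩
    · intro h p hp
      exact (mem_filter.1 (h hp)).2
  have h1 : eR Q R n = (T.card.choose R : ℝ) := by
    unfold eR
    rw [← sum_filter, sum_const, nsmul_eq_mul, mul_one]
    have : ((pz Q).powersetCard R).filter (fun S => (∏ p ∈ S, p) ∣ n) = T.powersetCard R := by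
      ext S
      rw [mem_filter, mem_powersetCard, mem_powersetCard]
      constructor
      · rintro ⟨⟨h1, h2⟩, h3⟩
        exact ⟨(hsub S h1).1 h3, h2⟩
      · rintro ⟨h1, h2⟩
        have h3 : S ⊆ pz Q := h1.trans (filter_subset _ _)
        exact ⟨⟨h3, h2⟩, (hsub S h3).2 h1⟩
    rw [this, card_powersetCard]
  have h2 : ∑ S ∈ (pz Q).powerset, (10 : ℝ) ^ S.card * (if (∏ p ∈ S, p) ∣ n then (1 : ℝ) else 0) =
      11 ^ T.card := by
    have e1 : ∀ S ∈ (pz Q).powerset, (10 : ℝ) ^ S.card * (if (∏ p ∈ S, p) ∣ n then (1 : ℝ) else 0) =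
        if (∏ p ∈ S, p) ∣ n then (10 : ℝ) ^ S.card else 0 := by
      intro S _
      split_ifs <;> simp
    rw [sum_congr rfl e1, ← sum_filter]
    have : ((pz Q).powerset).filter (fun S => (∏ p ∈ S, p) ∣ n) = T.powerset := by
      ext S
      rw [mem_filter, mem_powerset, mem_powerset]
      constructor
      · rintro ⟨h1, h3⟩
        exact (hsub S h1).1 h3
      · intro h1
        have h3 : S ⊆ pz Q := h1.trans (filter_subset _ _)
        exact ⟨h3, (hsub S h3).2 h1⟩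
    rw [this]
    have h3 := Finset.sum_pow_mul_eq_add_pow (10 : ℝ) 1 T
    simp only [one_pow, mul_one] at h3
    rw [h3]
    norm_num
  rw [h1, h2]
  rcases Nat.lt_or_ge T.card R with h | h
  · rw [Nat.choose_eq_zero_of_lt h]
    simp only [Nat.cast_zero, ne_eq, OfNat.ofNat_ne_zero, not_false_eq_true, zero_pow]
    positivity
  · have h3 : (T.card.choose R : ℝ) ≤ 2 ^ T.card := by
      exact_mod_cast Nat.choose_le_two_pow _ _
    have h4 : (T.card.choose R : ℝ) ^ 2 ≤ 4 ^ T.card := by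
      calc (T.card.choose R : ℝ) ^ 2 ≤ (2 ^ T.card) ^ 2 := pow_le_pow_left₀ (by positivity) h3 2
        _ = 4 ^ T.card := by rw [← pow_mul, mul_comm, pow_mul]; norm_num
    have h5 : (1 : ℝ) ≤ Real.exp (-(R : ℝ)) * Real.exp (T.card : ℝ) := by
      rw [← Real.exp_add, ← Real.exp_zero]
      apply Real.exp_le_exp.2
      have : (R : ℝ) ≤ T.card := by exact_mod_cast h
      linarith
    have h6 : Real.exp (T.card : ℝ) ≤ (11 / 4) ^ T.card := by
      have e3 : Real.exp (T.card : ℝ) = Real.exp 1 ^ T.card := by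
        rw [← Real.exp_nat_mul, mul_one]
      rw [e3]
      exact pow_le_pow_left₀ (Real.exp_pos _).le (by linarith [Real.exp_one_lt_d9]) _
    calc (T.card.choose R : ℝ) ^ 2 ≤ 4 ^ T.card * 1 := by rw [mul_one]; exact h4
      _ ≤ 4 ^ T.card * (Real.exp (-(R : ℝ)) * Real.exp (T.card : ℝ)) := by gcongr
      _ ≤ 4 ^ T.card * (Real.exp (-(R : ℝ)) * (11 / 4) ^ T.card) := by gcongr
      _ = Real.exp (-(R : ℝ)) * (4 * (11 / 4)) ^ T.card := by rw [mul_pow]; ring
      _ = _ := by norm_num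

/-- weighted sums of the square of the error -/
theorem eR_sum (Q R : ℕ) (s : Finset ℕ) (w : ℕ → ℝ) (hw : ∀ n ∈ s, 0 ≤ w n) (K : ℝ)
    (hK : ∀ d : ℕ, 1 ≤ d → ∑ n ∈ s, (if d ∣ n then w n else 0) ≤ K / d) :
    ∑ n ∈ s, w n * eR Q R n ^ 2 ≤ Real.exp (-(R : ℝ)) *
      (K * Real.exp (10 * ∑ p ∈ pz Q, 1 / (p : ℝ))) := by
  have hK0 : 0 ≤ K := by
    have := hK 1 le_rfl
    simp only [one_dvd, if_true, Nat.cast_one, div_one] at this
    exact (sum_nonneg hw).trans this
  calc ∑ n ∈ s, w n * eR Q R n ^ 2 ≤ ∑ n ∈ s, w n * (Real.exp (-(R : ℝ)) *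
        ∑ S ∈ (pz Q).powerset, (10 : ℝ) ^ S.card * (if (∏ p ∈ S, p) ∣ n then (1 : ℝ) else 0)) :=
        sum_le_sum fun n hn => mul_le_mul_of_nonneg_left (eR_sq Q R n) (hw n hn)
    _ = Real.exp (-(R : ℝ)) * ∑ S ∈ (pz Q).powerset, (10 : ℝ) ^ S.card *
        ∑ n ∈ s, (if (∏ p ∈ S, p) ∣ n then w n else 0) := by
        rw [mul_sum, ]
        simp only [mul_sum]
        rw [sum_comm]
        apply sum_congr rfl
        intro S _
        apply sum_congr rfl
        intro n _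
        split_ifs
        · ring
        · ring
    _ ≤ Real.exp (-(R : ℝ)) * ∑ S ∈ (pz Q).powerset, (10 : ℝ) ^ S.card * (K / (∏ p ∈ S, p : ℕ)) := by
        apply mul_le_mul_of_nonneg_left _ (Real.exp_pos _).le
        apply sum_le_sum
        intro S hS
        rw [mem_powerset] at hS
        apply mul_le_mul_of_nonneg_left _ (by positivity)
        apply hK
        exact Nat.one_le_iff_ne_zero.2 (prod_ne_zero_iff.2 fun p hp =>
          (mem_pz.1 (hS hp)).2.ne_zero)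
    _ = Real.exp (-(R : ℝ)) * (K * ∏ p ∈ pz Q, (1 + 10 / (p : ℝ))) := by
        congr 1
        rw [prod_one_add, mul_sum]
        apply sum_congr rfl
        intro S _
        rw [prod_div_distrib, prod_const]
        push_cast
        ring
    _ ≤ _ := by
        apply mul_le_mul_of_nonneg_left _ (Real.exp_pos _).le
        apply mul_le_mul_of_nonneg_left _ hK0
        rw [mul_sum, Real.exp_sum]
        apply prod_le_prod
        · intro p _
          positivity
        · intro p _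
          have := Real.add_one_le_exp (10 * (1 / (p : ℝ)))
          have e : 10 * (1 / (p : ℝ)) = 10 / p := by ring
          rw [e] at this ⊢
          linarith

/-- the harmonic weights -/
lemma harm_mult (N d : ℕ) (hd : 1 ≤ d) :
    ∑ n ∈ Icc 1 N, (if d ∣ n then 1 / (n : ℝ) else 0) ≤ (1 + Real.log N) / d := by
  have hd0 : (0 : ℝ) < d := by exact_mod_cast hd
  rcases Nat.eq_zero_or_pos N with h0 | hN
  · subst h0
    simp
  rw [← sum_filter]
  have h1 : ∑ n ∈ (Icc 1 N).filter (fun n => d ∣ n), 1 / (n : ℝ) ≤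
      ∑ m ∈ Icc 1 (N / d), 1 / ((d * m : ℕ) : ℝ) := by
    apply le_of_eq
    symm
    apply sum_bij (fun m _ => d * m)
    · intro m hm
      rw [mem_Icc] at hm
      rw [mem_filter, mem_Icc]
      refine ⟨⟨Nat.mul_pos hd hm.1, ?_⟩, dvd_mul_right _ _⟩
      calc d * m ≤ d * (N / d) := Nat.mul_le_mul_left _ hm.2
        _ ≤ N := Nat.mul_div_le _ _
    · intro a _ b _ h
      exact Nat.eq_of_mul_eq_mul_left hd h
    · intro n hn
      rw [mem_filter, mem_Icc] at hn
      obtain ⟨m, rfl⟩ := hn.2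
      refine ⟨m, ?_, rfl⟩
      rw [mem_Icc]
      constructor
      · rcases Nat.eq_zero_or_pos m with h | h
        · rw [h] at hn; omega
        · exact h
      · rw [Nat.le_div_iff_mul_le hd]
        linarith [mul_comm d m]
    · intro m _; rfl
  have h2 : ∑ m ∈ Icc 1 (N / d), 1 / ((d * m : ℕ) : ℝ) = 1 / d * ∑ m ∈ Icc 1 (N / d), 1 / (m : ℝ) := by
    rw [mul_sum]
    apply sum_congr rfl
    intro m _
    push_cast
    rw [one_div_mul_one_div]
  have h3 : ∑ m ∈ Icc 1 (N / d), 1 / (m : ℝ) ≤ 1 + Real.log N := by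
    have e : ∑ n ∈ Icc 1 (N / d), 1 / (n : ℝ) = ((harmonic (N / d) : ℚ) : ℝ) := by
      rw [harmonic_eq_sum_Icc]
      push_cast
      apply sum_congr rfl
      intro n _
      rw [one_div]
    rw [e]
    refine (harmonic_le_one_add_log (N / d)).trans ?_
    rcases Nat.eq_zero_or_pos (N / d) with h | h
    · rw [h]
      simp only [Nat.cast_zero, Real.log_zero, add_zero]
      have := Real.log_nonneg (by exact_mod_cast hN : (1 : ℝ) ≤ N)
      linarith
    · have := Real.log_le_log (by exact_mod_cast h : (0 : ℝ) < (N / d : ℕ))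
        (by exact_mod_cast Nat.div_le_self N d : ((N / d : ℕ) : ℝ) ≤ N)
      linarith
  calc _ ≤ 1 / d * ∑ m ∈ Icc 1 (N / d), 1 / (m : ℝ) := h1.trans (le_of_eq h2)
    _ ≤ 1 / d * (1 + Real.log N) := mul_le_mul_of_nonneg_left h3 (by positivity)
    _ = _ := by ring

/-- the counting weights -/
lemma count_mult (a b d : ℕ) (hd : 1 ≤ d) :
    ∑ n ∈ Ioc a b, (if d ∣ n then (1 : ℝ) else 0) ≤ ((b : ℝ) - a) / d + 1 ∨ b < a := by
  rcases Nat.lt_or_ge b a with h | h
  · exact Or.inr h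
  · left
    rw [← sum_filter, sum_const, nsmul_eq_mul, mul_one]
    have h1 := Nat.Ioc_filter_dvd_card_eq_div b d
    have hd0 : (0 : ℝ) < d := by exact_mod_cast hd
    have h2 : ((Ioc a b).filter (fun n => d ∣ n)).card + a / d = b / d := by
      have e1 : Ioc 0 b = Ioc 0 a ∪ Ioc a b := (Ioc_union_Ioc_eq_Ioc (Nat.zero_le _) h).symm
      rw [← Nat.Ioc_filter_dvd_card_eq_div b d, ← Nat.Ioc_filter_dvd_card_eq_div a d, e1,
        filter_union, card_union_of_disjoint, add_comm]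
      apply disjoint_filter_filter
      rw [disjoint_left]
      intro x hx hx2
      rw [mem_Ioc] at hx hx2
      omega
    have h3 : (((Ioc a b).filter (fun n => d ∣ n)).card : ℝ) = (b / d : ℕ) - (a / d : ℕ) := by
      rw [← h2]; push_cast; ring
    rw [h3]
    have h4 : ((b / d : ℕ) : ℝ) ≤ b / d := Nat.cast_div_le
    have h5 : (a : ℝ) / d - 1 ≤ ((a / d : ℕ) : ℝ) := by
      rw [sub_le_iff_le_add, div_le_iff₀ hd0]
      have := Nat.lt_div_mul_add (a := a) (b := d) hd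
      have h6 : a ≤ (a / d + 1) * d := by nlinarith
      exact_mod_cast h6
    rw [sub_div]
    linarith

end Pool.Agent.R521.F6
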