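import Pool.Agent.R521.F6.B3
import Pool.Agent.R521.F6.B2

set_option autoImplicit false

/-!
# Smoothed sums of the sieve model
-/

open Finset MeasureTheory
open scoped Real
open Pool.Agent.Helper112
open scoped ArithmeticFunction.vonMangoldt

namespace Pool.Agent.R521.F6

open Pool.Agent.W66 Pool.Agent.W66L Pool.Agent.TH823.PS
open Pool.Agent.H373R2.T7 (pz Vz lamz mem_pz Vz_pos Vz_le_one es bonf sieve_gen' es_le bonf_ind
  card_small prod_dvd_iff prod_le_pow card_pz_le lamz_nonneg es_nonneg)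

/-! ## Ramanujan sums -/

lemma zt_prim {n : ℕ} (hn : 0 < n) : IsPrimitiveRoot (ee (1 / n)) n := by
  have h := Complex.isPrimitiveRoot_exp n hn.ne'
  convert h using 1
  unfold ee
  congr 1
  push_cast
  ring

lemma sum_nthRoots' {n : ℕ} (hn : 0 < n) :
    ∑ x ∈ Polynomial.nthRootsFinset n (1 : ℂ), x = if n = 1 then 1 else 0 := by
  have hp := zt_prim hn
  have h1 : ∑ x ∈ Polynomial.nthRootsFinset n (1 : ℂ), x = ∑ i ∈ Finset.range n, ee (1 / n) ^ i := by
    symm
    refine Finset.sum_nbij (fun i => ee (1 / n) ^ i) ?_ ?_ ?_ ?_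
    · intro i _
      rw [Polynomial.mem_nthRootsFinset hn, ← pow_mul, mul_comm, pow_mul, hp.pow_eq_one, one_pow]
    · intro i hi j hj h
      exact hp.pow_inj (by simpa using hi) (by simpa using hj) h
    · intro x hx
      rw [Finset.mem_coe, Polynomial.mem_nthRootsFinset hn] at hx
      have : NeZero n := ⟨hn.ne'⟩
      obtain ⟨i, hi, rfl⟩ := hp.eq_pow_of_pow_eq_one hx
      exact ⟨i, by simpa using hi, rfl⟩
    · intro i _; rfl
  rw [h1]
  split_ifs with h
  · subst h; simp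
  · exact hp.geom_sum_eq_zero (by omega)

theorem sum_prim' {n : ℕ} (hn : 0 < n) :
    ∑ x ∈ primitiveRoots n ℂ, x = ((ArithmeticFunction.moebius n : ℤ) : ℂ) := by
  have key : ∀ n > 0, ∑ i ∈ n.divisors, (∑ x ∈ primitiveRoots i ℂ, x)
      = (fun m : ℕ => if m = 1 then (1 : ℂ) else 0) n := by
    intro n hn
    simp only
    rw [← sum_nthRoots' hn, IsPrimitiveRoot.nthRoots_one_eq_biUnion_primitiveRoots,
      Finset.sum_biUnion]
    intro i _ j _ hij
    exact IsPrimitiveRoot.disjoint hij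
  have h2 := (ArithmeticFunction.sum_eq_iff_sum_mul_moebius_eq
    (f := fun i => ∑ x ∈ primitiveRoots i ℂ, x)
    (g := fun m : ℕ => if m = 1 then (1 : ℂ) else 0)).1 key n hn
  rw [← h2, Finset.sum_eq_single (n, 1)]
  · simp
  · rintro ⟨a, b⟩ hab hne
    rw [Nat.mem_divisorsAntidiagonal] at hab
    have : b ≠ 1 := by
      rintro rfl
      apply hne
      simp at hab
      simp [hab]
    simp [this]
  · intro h
    exfalso; apply h
    simp [hn.ne']

theorem norm_tau_one (q : ℕ) [NeZero q] : ‖tau (1 : DirichletCharacter ℂ q) 1‖ ≤ 1 := by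
  have hq : 0 < q := Nat.pos_of_ne_zero (NeZero.ne q)
  have hp := zt_prim hq
  have h1 : tau (1 : DirichletCharacter ℂ q) 1 = ∑ x ∈ primitiveRoots q ℂ, x := by
    unfold tau
    have e1 : ∀ a ∈ rr q, (starRingEnd ℂ) ((1 : DirichletCharacter ℂ q) (a : ZMod q)) *
        ee (((1 : ℕ) : ℝ) * a / q) = ee (1 / q) ^ a := by
      intro a ha
      rw [mem_rr] at ha
      rw [MulChar.one_apply ((ZMod.isUnit_iff_coprime a q).2 ha.2), map_one, one_mul]
      unfold ee
      rw [← Complex.exp_nat_mul]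
      congr 1
      push_cast
      ring
    rw [sum_congr rfl e1]
    refine sum_nbij (fun a => ee (1 / q) ^ a) ?_ ?_ ?_ ?_
    · intro a ha
      rw [mem_rr] at ha
      rw [mem_primitiveRoots hq]
      exact hp.pow_of_coprime a ha.2
    · intro a ha b hb h
      rw [mem_coe, mem_rr] at ha hb
      exact hp.pow_inj ha.1 hb.1 h
    · intro x hx
      rw [mem_coe, mem_primitiveRoots hq] at hx
      obtain ⟨i, hi, hic, rfl⟩ := hp.isPrimitiveRoot_iff.1 hx
      exact ⟨i, by rw [mem_coe, mem_rr]; exact ⟨hi, hic⟩, rfl⟩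
    · intro a _; rfl
  rw [h1, sum_prim' hq]
  have h2 : |ArithmeticFunction.moebius q| ≤ 1 := ArithmeticFunction.abs_moebius_le_one
  rw [Complex.norm_intCast]
  exact_mod_cast h2

lemma tau_one_cop {q : ℕ} [NeZero q] {n : ℕ} (hn : n.Coprime q) :
    tau (1 : DirichletCharacter ℂ q) n = tau (1 : DirichletCharacter ℂ q) 1 := by
  have h := tau_mul (Nat.pos_of_ne_zero (NeZero.ne q)) (1 : DirichletCharacter ℂ q) hn 1
  rw [mul_one, MulChar.one_apply ((ZMod.isUnit_iff_coprime n q).2 hn), one_mul] at h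
  exact h

/-! ## Sums over multiples -/

lemma mult_ext {E : Type*} [AddCommMonoid E] (N d : ℕ) (hd : 1 ≤ d) (G : ℕ → E) (hG : ∀ n, N < n → G n = 0) :
    ∑ n ∈ Ioc 0 N, (if d ∣ n then G n else 0) = ∑ m ∈ Ioc 0 N, G (d * m) := by
  rw [← sum_filter]
  have h1 : ∑ m ∈ Ioc 0 N, G (d * m) = ∑ m ∈ Ioc 0 (N / d), G (d * m) := by
    symm
    apply sum_subset
    · exact Ioc_subset_Ioc_right (Nat.div_le_self N d)
    · intro m hm hm2
      apply hG
      rw [mem_Ioc] at hm hm2
      push Not at hm2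
      have := hm2 hm.1
      rw [Nat.div_lt_iff_lt_mul hd] at this
      linarith [mul_comm m d]
  rw [h1]
  symm
  apply sum_bij (fun m _ => d * m)
  · intro m hm
    rw [mem_Ioc] at hm
    rw [mem_filter, mem_Ioc]
    refine ⟨⟨Nat.mul_pos hd hm.1, ?_⟩, dvd_mul_right _ _⟩
    calc d * m ≤ d * (N / d) := Nat.mul_le_mul_left _ hm.2
      _ ≤ N := Nat.mul_div_le _ _
  · intro a _ b _ h
    exact Nat.eq_of_mul_eq_mul_left hd h
  · intro n hn
    rw [mem_filter, mem_Ioc] at hn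
    obtain ⟨m, rfl⟩ := hn.2
    refine ⟨m, ?_, rfl⟩
    rw [mem_Ioc]
    constructor
    · rcases Nat.eq_zero_or_pos m with h | h
      · rw [h] at hn; omega
      · exact h
    · rw [Nat.le_div_iff_mul_le hd]
      linarith [mul_comm d m]
  · intro m _; rfl

lemma tri_out {h z : ℝ} (hh : 0 < h) {N n : ℕ} (hN : Real.exp (z + h) ≤ N) (hn : N < n) :
    tri h (z - Real.log n) = 0 := by
  apply tri_zero_of hh
  have hN0 : (0 : ℝ) < N := lt_of_lt_of_le (Real.exp_pos _) hN
  have h1 : z + h ≤ Real.log n := by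
    have hn0 : (0 : ℝ) < n := by
      have : 0 < n := by omega
      exact_mod_cast this
    rw [Real.le_log_iff_exp_le hn0]
    exact hN.trans (by exact_mod_cast hn.le)
  rw [abs_of_nonpos (by linarith)]
  linarith

/-- the number of small sets of primes -/
lemma card_sets (Q r : ℕ) : ∑ j ∈ range (r + 1), (((pz Q).powersetCard j).card : ℝ) ≤ ((Q : ℝ) + 1) ^ r := by
  have h := card_small (pz Q) r
  push_cast at h
  refine h.trans ?_
  apply pow_le_pow_left₀ (by positivity)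
  have := card_pz_le Q
  have : ((pz Q).card : ℝ) ≤ Q := by exact_mod_cast this
  linarith

lemma log_prod_le {Q r : ℕ} {S : Finset ℕ} (hS : S ⊆ pz Q) (hr : S.card ≤ r) :
    0 ≤ Real.log ((∏ p ∈ S, p : ℕ) : ℝ) ∧
    Real.log ((∏ p ∈ S, p : ℕ) : ℝ) ≤ r * Real.log ((Q : ℝ) + 1) ∧ 1 ≤ ∏ p ∈ S, p := by
  have h1 : 1 ≤ ∏ p ∈ S, p := Nat.one_le_iff_ne_zero.2 (prod_ne_zero_iff.2 fun p hp =>
          (mem_pz.1 (hS hp)).2.ne_zero)
  have h2 := prod_le_pow S Q r hS hr
  refine ⟨Real.log_nonneg (by exact_mod_cast h1), ?_, h1⟩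
  rw [← Real.log_pow]
  apply Real.log_le_log (by exact_mod_cast h1)
  exact_mod_cast h2

/-- the smoothed sum of the sieve model for the principal character -/
theorem lamz_pr (Q r N : ℕ) {h z : ℝ} (hh : 0 < h) (hh1 : h ≤ 1)
    (hz : r * Real.log ((Q : ℝ) + 1) + 2 ≤ z) (hN : Real.exp (z + h) ≤ N) :
    |∑ n ∈ Ioc 0 N, lamz Q n / n * tri h (z - Real.log n) - 1| ≤
      (Vz Q)⁻¹ * (((Q : ℝ) + 1) ^ r * (32 * Real.exp (-z) / h ^ 2) +
        2 * Real.exp (3 * ∑ p ∈ pz Q, 1 / (p : ℝ) - r)) := by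
  have hV := Vz_pos Q
  set w : ℕ → ℝ := fun n => 1 / (n : ℝ) * tri h (z - Real.log n) with hw
  have h1 := sieve_gen' (Ioc 0 N) w (fun n _ => mul_nonneg (by positivity) (tri_nonneg hh _))
    (fun p n => p ∣ n) (pz Q) (fun p => 1 / (p : ℝ)) (by
      intro p hp
      rw [mem_pz] at hp
      have : (1 : ℝ) ≤ p := by exact_mod_cast hp.2.one_le
      refine ⟨by positivity, ?_⟩
      rw [div_le_one (by linarith)]
      exact this) 1 zero_le_one (fun _ => 32 * Real.exp (-z) / h ^ 2) r (by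
      intro S hS hr
      obtain ⟨g1, g2, g3⟩ := log_prod_le hS hr
      set d := ∏ p ∈ S, p with hd
      have hd0 : (0 : ℝ) < d := by exact_mod_cast g3
      have e1 : ∑ n ∈ (Ioc 0 N).filter (fun n => ∀ p ∈ S, p ∣ n), w n =
          ∑ n ∈ Ioc 0 N, (if d ∣ n then w n else 0) := by
        rw [sum_filter]
        apply sum_congr rfl
        intro n _
        have := prod_dvd_iff S (fun p hp => (mem_pz.1 (hS hp)).2) n
        by_cases h2 : d ∣ n
        · rw [if_pos h2, if_pos (this.2 h2)]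
        · rw [if_neg h2, if_neg (fun h3 => h2 (this.1 h3))]
      have e2 : ∑ n ∈ Ioc 0 N, (if d ∣ n then w n else 0) = ∑ m ∈ Ioc 0 N, w (d * m) :=
        mult_ext N d g3 w (fun n hn => by
          rw [hw]
          simp only
          rw [tri_out hh hN hn, mul_zero])
      have e3 : ∑ m ∈ Ioc 0 N, w (d * m) = 1 / d * ∑ m ∈ Ioc 0 N, 1 / (m : ℝ) *
          tri h ((z - Real.log d) - Real.log m) := by
        rw [mul_sum]
        apply sum_congr rfl
        intro m hm
        rw [mem_Ioc] at hm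
        have hm0 : (m : ℝ) ≠ 0 := by exact_mod_cast (by omega : m ≠ 0)
        rw [hw]
        simp only
        push_cast
        rw [Real.log_mul hd0.ne' hm0, ← sub_sub]
        field_simp
      have e4 : ∏ p ∈ S, 1 / (p : ℝ) = 1 / d := by
        rw [prod_div_distrib, prod_const_one, hd]
        push_cast
        rfl
      rw [e1, e2, e3, e4, one_mul]
      have h3 := riemann hh hh1 (x := z - Real.log d) (by linarith) N (by
        refine le_trans (Real.exp_le_exp.2 ?_) hN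
        linarith)
      have e5 : 1 / (d : ℝ) * ∑ m ∈ Ioc 0 N, 1 / (m : ℝ) * tri h ((z - Real.log d) - Real.log m) -
          1 / d = 1 / d * (∑ m ∈ Ioc 0 N, 1 / (m : ℝ) * tri h ((z - Real.log d) - Real.log m) - 1) := by
        ring
      rw [e5, abs_mul, abs_of_pos (by positivity : 0 < 1 / (d : ℝ))]
      refine (mul_le_mul_of_nonneg_left h3 (by positivity)).trans (le_of_eq ?_)
      have e6 : Real.exp (-(z - Real.log d)) = d * Real.exp (-z) := by
        rw [neg_sub, sub_eq_add_neg, Real.exp_add, Real.exp_log hd0]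
      rw [e6]
      field_simp)
  have e1 : ∑ n ∈ Ioc 0 N, lamz Q n / n * tri h (z - Real.log n) =
      (Vz Q)⁻¹ * ∑ n ∈ (Ioc 0 N).filter (fun n => ∀ p ∈ pz Q, ¬ p ∣ n), w n := by
    rw [sum_filter, mul_sum]
    apply sum_congr rfl
    intro n _
    unfold lamz
    split_ifs
    · rw [hw]
      simp only
      ring
    · simp
  have e2 : ∏ p ∈ pz Q, (1 - 1 / (p : ℝ)) = Vz Q := rfl
  rw [e2, one_mul] at h1
  have h2 : |∑ n ∈ Ioc 0 N, lamz Q n / n * tri h (z - Real.log n) - 1| =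
      (Vz Q)⁻¹ * |∑ n ∈ (Ioc 0 N).filter (fun n => ∀ p ∈ pz Q, ¬ p ∣ n), w n - Vz Q| := by
    rw [e1, ← abs_of_pos (inv_pos.2 hV), ← abs_mul, abs_of_pos (inv_pos.2 hV), mul_sub,
      inv_mul_cancel₀ hV.ne']
  rw [h2]
  apply mul_le_mul_of_nonneg_left _ (inv_pos.2 hV).le
  refine h1.trans (add_le_add ?_ ?_)
  · simp only [sum_const, nsmul_eq_mul]
    rw [← sum_mul]
    exact mul_le_mul_of_nonneg_right (card_sets Q r) (by positivity)
  · rw [mul_one]
    apply mul_le_mul_of_nonneg_left _ (by norm_num)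
    exact es_le (fun p _ => by positivity) r

/-- twisted smoothed sums over multiples -/
lemma tau_mult {q : ℕ} [NeZero q] {χ : DirichletCharacter ℂ q} (hχ : χ ≠ 1) (N d : ℕ) (hd : 1 ≤ d)
    {h z : ℝ} (hh : 0 < h) (hh1 : h ≤ 1) (hz : Real.log d + 2 ≤ z) (hN : Real.exp (z + h) ≤ N) :
    ‖∑ n ∈ Ioc 0 N, (if d ∣ n then ((1 / (n : ℝ) : ℝ) : ℂ) * tau χ n * triC h (z - Real.log n) else 0)‖ ≤
      q * q * (48 * (Real.exp (-z) / h ^ 2)) := by
  have hd0 : (0 : ℝ) < d := by exact_mod_cast hd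
  have hld : 0 ≤ Real.log d := Real.log_nonneg (by exact_mod_cast hd)
  rw [mult_ext N d hd _ (fun n hn => by
    unfold triC
    rw [tri_out hh hN hn, Complex.ofReal_zero, mul_zero])]
  have e1 : ∑ m ∈ Ioc 0 N, ((1 / ((d * m : ℕ) : ℝ) : ℝ) : ℂ) * tau χ (d * m) *
      triC h (z - Real.log ((d * m : ℕ) : ℝ)) = ((1 / (d : ℝ) : ℝ) : ℂ) *
      ∑ m ∈ Ioc 0 N, tau χ (d * m) * ((1 / (m : ℝ) * tri h ((z - Real.log d) - Real.log m) : ℝ) : ℂ) := by
    rw [mul_sum]
    apply sum_congr rfl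
    intro m hm
    rw [mem_Ioc] at hm
    have hm0 : (m : ℝ) ≠ 0 := by exact_mod_cast (by omega : m ≠ 0)
    unfold triC
    push_cast
    rw [Real.log_mul hd0.ne' hm0, ← sub_sub]
    have : (d : ℂ) ≠ 0 := by exact_mod_cast hd0.ne'
    have : (m : ℂ) ≠ 0 := by exact_mod_cast hm0
    field_simp
  rw [e1, norm_mul, Complex.norm_real, Real.norm_of_nonneg (by positivity)]
  have h3 := smooth_gen (ψ := fun m => tau χ (d * m)) (B := q * q) (by positivity)
    (fun m => tau_block hχ d m) (fun _ => (1 : ℝ)) hh hh1 (x := z - Real.log d) (K := 1) (by linarith)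
    le_rfl (by intro v _ _; simp) (by intro v w; simp) N (by
      refine le_trans (Real.exp_le_exp.2 ?_) hN
      linarith)
  refine (mul_le_mul_of_nonneg_left h3 (by positivity)).trans (le_of_eq ?_)
  have e6 : Real.exp (-(z - Real.log d)) = d * Real.exp (-z) := by
    rw [neg_sub, sub_eq_add_neg, Real.exp_add, Real.exp_log hd0]
  rw [e6]
  field_simp

/-- the twisted smoothed sum of the truncated sieve -/
theorem Mq_np {q : ℕ} [NeZero q] {χ : DirichletCharacter ℂ q} (hχ : χ ≠ 1) (Q R N : ℕ)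
    {h z : ℝ} (hh : 0 < h) (hh1 : h ≤ 1) (hz : R * Real.log ((Q : ℝ) + 1) + 2 ≤ z)
    (hN : Real.exp (z + h) ≤ N) :
    ‖ggC h (Ioc 0 N) (fun n => ((Mq Q R n / n : ℝ) : ℂ) * tau χ n) z‖ ≤
      (Vz Q)⁻¹ * (((Q : ℝ) + 1) ^ R * (q * q * (48 * (Real.exp (-z) / h ^ 2)))) := by
  have hV := Vz_pos Q
  have e1 : ggC h (Ioc 0 N) (fun n => ((Mq Q R n / n : ℝ) : ℂ) * tau χ n) z =
      (((Vz Q)⁻¹ : ℝ) : ℂ) * ∑ j ∈ range R, ((-1 : ℝ) ^ j : ℂ) * ∑ S ∈ (pz Q).powersetCard j,
        ∑ n ∈ Ioc 0 N, (if (∏ p ∈ S, p) ∣ n then ((1 / (n : ℝ) : ℝ) : ℂ) * tau χ n *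
          triC h (z - Real.log n) else 0) := by
    unfold ggC Mq
    have e2 : ∀ n ∈ Ioc 0 N, ((((Vz Q)⁻¹ * ∑ j ∈ range R, (-1 : ℝ) ^ j * ∑ S ∈ (pz Q).powersetCard j,
        if (∏ p ∈ S, p) ∣ n then (1 : ℝ) else 0) / n : ℝ) : ℂ) * tau χ n * triC h (z - Real.log n) =
        ∑ j ∈ range R, ∑ S ∈ (pz Q).powersetCard j, (((Vz Q)⁻¹ : ℝ) : ℂ) * (((-1 : ℝ) ^ j : ℂ) *
        (if (∏ p ∈ S, p) ∣ n then ((1 / (n : ℝ) : ℝ) : ℂ) * tau χ n *
          triC h (z - Real.log n) else 0)) := by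
      intro n _
      push_cast
      rw [mul_div_assoc, sum_div, mul_assoc, mul_assoc, sum_mul, mul_sum]
      apply sum_congr rfl
      intro j _
      rw [mul_div_assoc, sum_div, mul_assoc, sum_mul, mul_sum, mul_sum]
      apply sum_congr rfl
      intro S _
      split_ifs
      · rw [Complex.ofReal_one]
        ring
      · rw [Complex.ofReal_zero]
        ring
    rw [sum_congr rfl e2, sum_comm, mul_sum]
    apply sum_congr rfl
    intro j _
    rw [sum_comm, mul_sum, mul_sum]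
    apply sum_congr rfl
    intro S _
    rw [← mul_sum, ← mul_sum]
  rw [e1, norm_mul, Complex.norm_real, Real.norm_of_nonneg (inv_pos.2 hV).le]
  apply mul_le_mul_of_nonneg_left _ (inv_pos.2 hV).le
  set B : ℝ := q * q * (48 * (Real.exp (-z) / h ^ 2)) with hB
  have hB0 : 0 ≤ B := by positivity
  calc _ ≤ ∑ j ∈ range R, ∑ S ∈ (pz Q).powersetCard j, B := by
        refine (norm_sum_le _ _).trans (sum_le_sum fun j hj => ?_)
        rw [mem_range] at hj
        rw [norm_mul]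
        have : ‖((-1 : ℝ) ^ j : ℂ)‖ = 1 := by simp
        rw [this, one_mul]
        refine (norm_sum_le _ _).trans (sum_le_sum fun S hS => ?_)
        rw [mem_powersetCard] at hS
        obtain ⟨g1, g2, g3⟩ := log_prod_le (r := R) hS.1 (by omega)
        exact tau_mult hχ N _ g3 hh hh1 (by linarith) hN
    _ = (∑ j ∈ range R, (((pz Q).powersetCard j).card : ℝ)) * B := by
        simp only [sum_const, nsmul_eq_mul]
        rw [sum_mul]
    _ ≤ _ := by
        apply mul_le_mul_of_nonneg_right _ hB0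
        refine le_trans ?_ (card_sets Q R)
        apply sum_le_sum_of_subset_of_nonneg
        · exact range_subset_range.2 (by omega)
        · intro j _ _
          positivity

/-- restriction of the range of summation -/
lemma ggC_restrict {h z : ℝ} (hh : 0 < h) (z0 N : ℕ) (c : ℕ → ℂ) (hz : Real.log z0 + h ≤ z) :
    ggC h (Ioc z0 N) c z = ggC h (Ioc 0 N) c z := by
  unfold ggC
  apply sum_subset (Ioc_subset_Ioc_left (Nat.zero_le _))
  intro n hn hn2
  rw [mem_Ioc] at hn hn2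
  have hn3 : n ≤ z0 := by omega
  unfold triC
  rw [tri_zero_of hh, Complex.ofReal_zero, mul_zero]
  have h1 : Real.log n ≤ Real.log z0 :=
    Real.log_le_log (by exact_mod_cast hn.1) (by exact_mod_cast hn3)
  rw [abs_of_nonneg (by linarith)]
  linarith

end Pool.Agent.R521.F6
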