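import Pool.Agent.R521.F6.B4
import Pool.Agent.Helper112.Arith
import Pool.Agent.W66.PH

set_option autoImplicit false

/-!
# The energy of the primes minus the sieve model in a window: the raw bound
-/

open Finset MeasureTheory Filter
open scoped Real
open Pool.Agent.Helper112
open scoped ArithmeticFunction.vonMangoldt

namespace Pool.Agent.R521.F6

open Pool.Agent.W66 Pool.Agent.W66L Pool.Agent.TH823.PS
open Pool.Agent.H373R2.T7 (pz Vz lamz mem_pz Vz_pos Vz_le_one es bonf sieve_gen' es_le bonf_ind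
  card_small prod_dvd_iff prod_le_pow card_pz_le lamz_nonneg es_nonneg)

/-- the primes larger than `Q`, weighted with the logarithm -/
noncomputable def Pq (Q n : ℕ) : ℝ := if n.Prime ∧ Q < n then Real.log n else 0

/-- primes minus model -/
noncomputable def Eb (Q n : ℕ) : ℝ := Pq Q n - lamz Q n

lemma Pq_nonneg (Q n : ℕ) : 0 ≤ Pq Q n := by
  unfold Pq
  split_ifs
  · exact Real.log_natCast_nonneg n
  · exact le_rfl

/-- support of `Eb` -/
lemma Eb_ne {Q n : ℕ} (h : Eb Q n ≠ 0) {q : ℕ} (hq : 0 < q) (hqQ : q ≤ Q) : n.Coprime q := by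
  have h1 : ∀ p, p.Prime → p ≤ Q → ¬ p ∣ n := by
    intro p hp hpQ hd
    apply h
    have h2 : lamz Q n = 0 := by
      unfold lamz
      rw [if_neg]
      intro h3
      exact h3 p (mem_pz.2 ⟨hpQ, hp⟩) hd
    have h3 : Pq Q n = 0 := by
      unfold Pq
      rw [if_neg]
      rintro ⟨h4, h5⟩
      have := (Nat.prime_dvd_prime_iff_eq hp h4).1 hd
      omega
    unfold Eb
    rw [h2, h3, sub_zero]
  rw [Nat.Coprime]
  by_contra hg
  obtain ⟨p, hp, hpd⟩ := Nat.exists_prime_and_dvd hg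
  have hpq := hpd.trans (Nat.gcd_dvd_right n q)
  exact h1 p hp ((Nat.le_of_dvd hq hpq).trans hqQ) (hpd.trans (Nat.gcd_dvd_left n q))

/-- from fractions to characters, with the principal character apart -/
lemma energy_split {q : ℕ} [NeZero q] (h : ℝ) (L : Finset ℕ) (c : ℕ → ℂ) (z : ℝ) :
    ∑ a ∈ rr q, ‖ggC h L (fun n => c n * ee (n * a / q)) z‖ ^ 2 =
      (q.totient : ℝ)⁻¹ * (‖ggC h L (fun n => c n * tau (1 : DirichletCharacter ℂ q) n) z‖ ^ 2 +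
      ∑ χ ∈ (univ : Finset (DirichletCharacter ℂ q)).filter (fun χ => χ ≠ 1),
        ‖ggC h L (fun n => c n * tau χ n) z‖ ^ 2) := by
  have hq : 0 < q := Nat.pos_of_ne_zero (NeZero.ne q)
  have hφ : (0 : ℝ) < q.totient := by exact_mod_cast Nat.totient_pos.2 hq
  have h1 := pars (q := q) (fun a => ggC h L (fun n => c n * ee (n * a / q)) z)
  have h2 : ∀ χ : DirichletCharacter ℂ q, ∑ a ∈ rr q, (starRingEnd ℂ) (χ (a : ZMod q)) *
      ggC h L (fun n => c n * ee (n * a / q)) z = ggC h L (fun n => c n * tau χ n) z := by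
    intro χ
    exact gen_lin χ (triC h) L c z
  simp only [h2] at h1
  have h3 : ∑ χ : DirichletCharacter ℂ q, ‖ggC h L (fun n => c n * tau χ n) z‖ ^ 2 =
      ‖ggC h L (fun n => c n * tau (1 : DirichletCharacter ℂ q) n) z‖ ^ 2 +
      ∑ χ ∈ (univ : Finset (DirichletCharacter ℂ q)).filter (fun χ => χ ≠ 1),
        ‖ggC h L (fun n => c n * tau χ n) z‖ ^ 2 := by
    rw [← sum_filter_add_sum_filter_not univ (fun χ : DirichletCharacter ℂ q => χ = 1)]
    congr 1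
    rw [filter_eq' univ (1 : DirichletCharacter ℂ q), if_pos (mem_univ _), sum_singleton]
  rw [← h3, h1, ← mul_assoc, inv_mul_cancel₀ hφ.ne', one_mul]

lemma energy_np_le {q : ℕ} [NeZero q] (h : ℝ) (L : Finset ℕ) (c : ℕ → ℂ) (z : ℝ) :
    (q.totient : ℝ)⁻¹ * ∑ χ ∈ (univ : Finset (DirichletCharacter ℂ q)).filter (fun χ => χ ≠ 1),
        ‖ggC h L (fun n => c n * tau χ n) z‖ ^ 2 ≤
      ∑ a ∈ rr q, ‖ggC h L (fun n => c n * ee (n * a / q)) z‖ ^ 2 := by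
  rw [energy_split h L c z, mul_add]
  have : 0 ≤ (q.totient : ℝ)⁻¹ *
      ‖ggC h L (fun n => c n * tau (1 : DirichletCharacter ℂ q) n) z‖ ^ 2 := by positivity
  linarith

/-- the large sieve in the range of large `n` -/
lemma ls_weight {Q z0 N : ℕ} (hQ : 1 ≤ Q) (hz0 : 2 * Q ^ 5 ≤ z0) (c : ℕ → ℂ) {h : ℝ}
    (hh : 1 / (Q : ℝ) ^ 3 ≤ h) (hh1 : h ≤ 1) :
    ∑ q ∈ Icc 1 Q, ∑ a ∈ rr q, ∫ x, ‖ggC h (Ioc z0 N) (fun n => c n * ee (n * a / q)) x‖ ^ 2 ≤
      96 * ∑ n ∈ Ioc z0 N, (n : ℝ) * ‖c n‖ ^ 2 := by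
  have hQ0 : (0 : ℝ) < Q := by exact_mod_cast hQ
  have hh0 : 0 < h := lt_of_lt_of_le (by positivity) hh
  refine (ls_gg Q (Ioc z0 N) (fun n hn => by rw [mem_Ioc] at hn; omega) c hh0 hh1).trans ?_
  rw [mul_sum]
  apply sum_le_sum
  intro n hn
  rw [mem_Ioc] at hn
  have h1 : (1 + (Q : ℝ) ^ 2) / h ≤ n := by
    rw [div_le_iff₀ hh0]
    have h2 : (1 + (Q : ℝ) ^ 2) ≤ 2 * Q ^ 5 * (1 / (Q : ℝ) ^ 3) := by
      have e : 2 * (Q : ℝ) ^ 5 * (1 / (Q : ℝ) ^ 3) = 2 * Q ^ 2 := by field_simp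
      rw [e]
      have : (1 : ℝ) ≤ (Q : ℝ) ^ 2 := one_le_pow₀ (by exact_mod_cast hQ)
      linarith
    have h3 : (2 : ℝ) * Q ^ 5 ≤ n := by exact_mod_cast (by omega : 2 * Q ^ 5 ≤ n)
    calc (1 + (Q : ℝ) ^ 2) ≤ 2 * Q ^ 5 * (1 / (Q : ℝ) ^ 3) := h2
      _ ≤ n * h := mul_le_mul h3 hh (by positivity) (by positivity)
  calc 6 * (15 * (n : ℝ) + (1 + (Q : ℝ) ^ 2) / h) * ‖c n‖ ^ 2 ≤ 6 * (15 * n + n) * ‖c n‖ ^ 2 := by gcongr
    _ = _ := by ring

open Classical in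
/-- perfect powers -/
lemma pp_sum {z0 N : ℕ} (hz0 : 1 ≤ z0) :
    ∑ n ∈ Ioc z0 N, (if ∃ j m : ℕ, 2 ≤ j ∧ n = m ^ j then 1 / (n : ℝ) else 0) ≤
      (Nat.log 2 N + 1) * ((1 + Real.log N) / √z0) := by
  rcases Nat.eq_zero_or_pos N with h0 | hN
  · subst h0
    simp only [zero_le, Ioc_eq_empty_of_le, sum_empty]
    positivity
  rw [← sum_filter]
  set A := (Ioc z0 N).filter (fun n => ∃ j m : ℕ, 2 ≤ j ∧ n = m ^ j) with hA
  set D := ((Icc 2 (Nat.log 2 N)) ×ˢ (Icc 1 N)).filter (fun x => x.2 ^ x.1 ∈ Ioc z0 N) with hD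
  have h1 : A ⊆ D.image (fun x : ℕ × ℕ => x.2 ^ x.1) := by
    intro n hn
    rw [hA, mem_filter] at hn
    obtain ⟨hn1, j, m, hj, rfl⟩ := hn
    rw [mem_image]
    rw [mem_Ioc] at hn1
    have hm2 : 2 ≤ m := by
      by_contra hcon
      have : m = 0 ∨ m = 1 := by omega
      rcases this with rfl | rfl
      · rw [zero_pow (by omega)] at hn1; omega
      · rw [one_pow] at hn1; omega
    refine ⟨(j, m), ?_, rfl⟩
    rw [hD, mem_filter, mem_product, mem_Icc, mem_Icc, mem_Ioc]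
    refine ⟨⟨⟨hj, ?_⟩, by omega, ?_⟩, hn1⟩
    · apply Nat.le_log_of_pow_le (by norm_num)
      exact (Nat.pow_le_pow_left hm2 j).trans hn1.2
    · exact (Nat.le_self_pow (by omega) m).trans hn1.2
  have hz : (0 : ℝ) < √z0 := Real.sqrt_pos.2 (by exact_mod_cast hz0)
  calc ∑ n ∈ A, 1 / (n : ℝ) ≤ ∑ n ∈ D.image (fun x : ℕ × ℕ => x.2 ^ x.1), 1 / (n : ℝ) :=
        sum_le_sum_of_subset_of_nonneg h1 fun _ _ _ => by positivity
    _ ≤ ∑ x ∈ D, 1 / (((x.2 ^ x.1 : ℕ)) : ℝ) :=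
        sum_image_le_of_nonneg (f := fun n : ℕ => 1 / (n : ℝ)) (fun _ _ => by positivity)
    _ ≤ ∑ x ∈ D, 1 / (√z0 * x.2) := by
        apply sum_le_sum
        rintro ⟨j, m⟩ hx
        rw [hD, mem_filter, mem_product, mem_Icc, mem_Icc, mem_Ioc] at hx
        obtain ⟨⟨⟨hj, _⟩, hm, _⟩, hz1, _⟩ := hx
        simp only at hj hm hz1 ⊢
        have hm0 : (0 : ℝ) < m := by exact_mod_cast hm
        apply one_div_le_one_div_of_le (by positivity)
        have e1 : (z0 : ℝ) ≤ ((m ^ j : ℕ) : ℝ) := by exact_mod_cast hz1.le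
        have e2 : (m : ℝ) ^ 2 ≤ ((m ^ j : ℕ) : ℝ) := by
          exact_mod_cast Nat.pow_le_pow_right hm hj
        have e3 : (√z0 * m) ^ 2 ≤ (((m ^ j : ℕ) : ℝ)) ^ 2 := by
          rw [mul_pow, Real.sq_sqrt (by positivity), sq (((m ^ j : ℕ) : ℝ))]
          exact mul_le_mul e1 e2 (by positivity) (by positivity)
        exact (pow_le_pow_iff_left₀ (by positivity) (by positivity) (by norm_num)).1 e3
    _ ≤ ∑ x ∈ (Icc 2 (Nat.log 2 N)) ×ˢ (Icc 1 N), 1 / (√z0 * x.2) :=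
        sum_le_sum_of_subset_of_nonneg (filter_subset _ _) fun _ _ _ => by positivity
    _ = ((Icc 2 (Nat.log 2 N)).card : ℝ) * ((∑ m ∈ Icc 1 N, 1 / (m : ℝ)) / √z0) := by
        rw [sum_product]
        simp only [sum_const, nsmul_eq_mul]
        congr 1
        rw [sum_div]
        apply sum_congr rfl
        intro m _
        rw [div_div, mul_comm]
    _ ≤ _ := by
        have h3 : ∑ m ∈ Icc 1 N, 1 / (m : ℝ) ≤ 1 + Real.log N := by
          have := harm_mult N 1 le_rfl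
          simpa using this
        have h4 : (((Icc 2 (Nat.log 2 N)).card : ℕ) : ℝ) ≤ Nat.log 2 N + 1 := by
          rw [Nat.card_Icc]
          have : Nat.log 2 N + 1 - 2 ≤ Nat.log 2 N + 1 := Nat.sub_le _ _
          exact_mod_cast this
        gcongr

open Classical in
/-- the prime powers -/
lemma lam_sub_Pq {Q n : ℕ} (hn : Q < n) : |Λ n - Pq Q n| ≤
    Real.log n * (if ∃ j m : ℕ, 2 ≤ j ∧ n = m ^ j then 1 else 0) := by
  have hl : 0 ≤ Real.log n := Real.log_natCast_nonneg n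
  by_cases hp : n.Prime
  · have : Pq Q n = Λ n := by
      unfold Pq
      rw [if_pos ⟨hp, hn⟩, ArithmeticFunction.vonMangoldt_apply_prime hp]
    rw [this, sub_self, abs_zero]
    split_ifs <;> simp [hl]
  · have h2 : Pq Q n = 0 := by
      unfold Pq
      rw [if_neg (fun h => hp h.1)]
    rw [h2, sub_zero, abs_of_nonneg ArithmeticFunction.vonMangoldt_nonneg]
    by_cases h3 : ∃ j m : ℕ, 2 ≤ j ∧ n = m ^ j
    · rw [if_pos h3, mul_one]
      exact ArithmeticFunction.vonMangoldt_le_log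
    · rw [if_neg h3, mul_zero]
      apply le_of_eq
      by_contra h4
      rw [← ne_eq, ArithmeticFunction.vonMangoldt_ne_zero_iff, isPrimePow_nat_iff] at h4
      obtain ⟨p, j, hp', hj, rfl⟩ := h4
      rcases Nat.lt_or_ge j 2 with h5 | h5
      · have : j = 1 := by omega
        subst this
        rw [pow_one] at hp
        exact hp hp'
      · exact h3 ⟨j, p, h5, rfl⟩

/-- the coefficients -/
noncomputable def c2 (Q n : ℕ) : ℂ := (((Λ n - Pq Q n) / n : ℝ) : ℂ)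

noncomputable def ce (Q R n : ℕ) : ℂ := (((lamz Q n - Mq Q R n) / n : ℝ) : ℂ)

/-- the bound of the sum for the prime powers -/
lemma c2_sum {Q z0 N : ℕ} (hQ : 1 ≤ Q) (hz0 : 2 * Q ^ 5 ≤ z0) :
    ∑ n ∈ Ioc z0 N, (n : ℝ) * ‖c2 Q n‖ ^ 2 ≤
      Real.log N ^ 2 * ((Nat.log 2 N + 1) * ((1 + Real.log N) / √z0)) := by
  classical
  have hQz : Q ≤ z0 := by
    have : Q ≤ Q ^ 5 := Nat.le_self_pow (by norm_num) Q
    omega
  have h1 : ∀ n ∈ Ioc z0 N, (n : ℝ) * ‖c2 Q n‖ ^ 2 ≤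
      Real.log N ^ 2 * (if ∃ j m : ℕ, 2 ≤ j ∧ n = m ^ j then 1 / (n : ℝ) else 0) := by
    intro n hn
    rw [mem_Ioc] at hn
    have hn0 : (0 : ℝ) < n := by
      have : 0 < n := by omega
      exact_mod_cast this
    have h2 := lam_sub_Pq (Q := Q) (n := n) (by omega)
    have hl : 0 ≤ Real.log n := Real.log_natCast_nonneg n
    have hlN : Real.log n ≤ Real.log N := Real.log_le_log hn0 (by exact_mod_cast hn.2)
    unfold c2
    rw [Complex.norm_real, Real.norm_eq_abs, abs_div, abs_of_pos hn0]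
    by_cases h3 : ∃ j m : ℕ, 2 ≤ j ∧ n = m ^ j
    · rw [if_pos h3] at h2 ⊢
      rw [mul_one] at h2
      have h4 : |Λ n - Pq Q n| ^ 2 ≤ Real.log N ^ 2 :=
        pow_le_pow_left₀ (abs_nonneg _) (h2.trans hlN) 2
      calc (n : ℝ) * (|Λ n - Pq Q n| / n) ^ 2 = |Λ n - Pq Q n| ^ 2 * (1 / n) := by
            field_simp
        _ ≤ _ := mul_le_mul_of_nonneg_right h4 (by positivity)
    · rw [if_neg h3] at h2 ⊢
      rw [mul_zero] at h2
      have h4 : |Λ n - Pq Q n| = 0 := le_antisymm h2 (abs_nonneg _)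
      rw [h4]
      simp
  refine (sum_le_sum h1).trans ?_
  rw [← mul_sum]
  exact mul_le_mul_of_nonneg_left (pp_sum (by
    have : 1 ≤ Q ^ 5 := Nat.one_le_pow _ _ hQ
    omega)) (by positivity)

/-- the bound of the sum for the truncation error -/
lemma ce_sum (Q R z0 N : ℕ) :
    ∑ n ∈ Ioc z0 N, (n : ℝ) * ‖ce Q R n‖ ^ 2 ≤
      (Vz Q)⁻¹ ^ 2 * (Real.exp (-(R : ℝ)) * ((1 + Real.log N) *
        Real.exp (10 * ∑ p ∈ pz Q, 1 / (p : ℝ)))) := by
  have hV := Vz_pos Q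
  have h1 : ∀ n ∈ Ioc z0 N, (n : ℝ) * ‖ce Q R n‖ ^ 2 ≤ (Vz Q)⁻¹ ^ 2 * (1 / (n : ℝ) * eR Q R n ^ 2) := by
    intro n hn
    rw [mem_Ioc] at hn
    have hn0 : (0 : ℝ) < n := by
      have : 0 < n := by omega
      exact_mod_cast this
    unfold ce
    rw [Complex.norm_real, Real.norm_eq_abs, abs_div, abs_of_pos hn0]
    have h2 := pow_le_pow_left₀ (abs_nonneg _) (lamz_sub Q R n) 2
    rw [mul_pow] at h2
    calc (n : ℝ) * (|lamz Q n - Mq Q R n| / n) ^ 2 = |lamz Q n - Mq Q R n| ^ 2 * (1 / n) := by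
          field_simp
      _ ≤ ((Vz Q)⁻¹ ^ 2 * eR Q R n ^ 2) * (1 / n) := mul_le_mul_of_nonneg_right h2 (by positivity)
      _ = _ := by ring
  refine (sum_le_sum h1).trans ?_
  rw [← mul_sum]
  apply mul_le_mul_of_nonneg_left _ (by positivity)
  have h2 := eR_sum Q R (Icc 1 N) (fun n => 1 / (n : ℝ)) (fun n _ => by positivity) (1 + Real.log N)
    (fun d hd => harm_mult N d hd)
  refine le_trans ?_ h2
  apply sum_le_sum_of_subset_of_nonneg
  · intro n hn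
    rw [mem_Ioc] at hn
    rw [mem_Icc]
    omega
  · intro n _ _
    positivity

/-- sums of reciprocals of the totient -/
theorem phi_sum : ∃ C : ℝ, 0 < C ∧ ∀ Q : ℕ, 1 ≤ Q →
    ∑ q ∈ Icc 1 Q, ((q.totient : ℝ))⁻¹ ≤ C * (1 + Real.log Q) := by
  obtain ⟨C, hC0, hC⟩ := Pool.Agent.Helper112.sum_ratio_sq
  refine ⟨C, hC0, fun Q hQ => le_trans (sum_le_sum fun q hq => ?_) (hC Q hQ)⟩
  rw [mem_Icc] at hq
  have hq0 : (0 : ℝ) < q := by exact_mod_cast hq.1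
  have hφ : (0 : ℝ) < q.totient := by exact_mod_cast Nat.totient_pos.2 hq.1
  have h1 : 1 ≤ (q : ℝ) / q.totient := by
    rw [one_le_div hφ]
    exact_mod_cast Nat.totient_le q
  calc ((q.totient : ℝ))⁻¹ = 1 / q * ((q : ℝ) / q.totient) := by field_simp
    _ ≤ 1 / q * (((q : ℝ) / q.totient) ^ 2) := by
        apply mul_le_mul_of_nonneg_left _ (by positivity)
        rw [sq]
        exact le_mul_of_one_le_left (by linarith) h1

lemma norm4 (a b c d : ℂ) : ‖a - b - c - d‖ ^ 2 ≤ 4 * (‖a‖ ^ 2 + ‖b‖ ^ 2 + ‖c‖ ^ 2 + ‖d‖ ^ 2) := by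
  have h1 : ‖a - b - c - d‖ ≤ ‖a‖ + ‖b‖ + ‖c‖ + ‖d‖ := by
    have h2 := norm_sub_le (a - b - c) d
    have h3 := norm_sub_le (a - b) c
    have h4 := norm_sub_le a b
    linarith
  have h2 : ‖a - b - c - d‖ ^ 2 ≤ (‖a‖ + ‖b‖ + ‖c‖ + ‖d‖) ^ 2 := by gcongr
  nlinarith [sq_nonneg (‖a‖ - ‖b‖), sq_nonneg (‖a‖ - ‖c‖), sq_nonneg (‖a‖ - ‖d‖),
    sq_nonneg (‖b‖ - ‖c‖), sq_nonneg (‖b‖ - ‖d‖), sq_nonneg (‖c‖ - ‖d‖)]

/-- the coefficients of the problem -/
noncomputable def cE (Q n : ℕ) : ℂ := ((Eb Q n / n : ℝ) : ℂ)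

lemma ggC_tau_one {q Q : ℕ} [NeZero q] (hqQ : q ≤ Q) (h : ℝ) (L : Finset ℕ) (z : ℝ) :
    ‖ggC h L (fun n => cE Q n * tau (1 : DirichletCharacter ℂ q) n) z‖ ≤ ‖ggC h L (cE Q) z‖ := by
  have h1 : ggC h L (fun n => cE Q n * tau (1 : DirichletCharacter ℂ q) n) z =
      tau (1 : DirichletCharacter ℂ q) 1 * ggC h L (cE Q) z := by
    unfold ggC
    rw [mul_sum]
    apply sum_congr rfl
    intro n _
    show (cE Q n * tau (1 : DirichletCharacter ℂ q) n) * triC h (z - Real.log n) =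
      tau (1 : DirichletCharacter ℂ q) 1 * (cE Q n * triC h (z - Real.log n))
    by_cases h2 : Eb Q n = 0
    · have : cE Q n = 0 := by unfold cE; rw [h2]; simp
      rw [this]; ring
    · rw [tau_one_cop (Eb_ne h2 (Nat.pos_of_ne_zero (NeZero.ne q)) hqQ)]
      ring
  rw [h1, norm_mul]
  exact mul_le_of_le_one_left (norm_nonneg _) (norm_tau_one q)

lemma EE_cont (h : ℝ) (Q : ℕ) (L : Finset ℕ) (c : ℕ → ℂ) : Continuous (EE h Q L c) := by
  unfold EE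
  exact continuous_finsetSum _ fun q _ => continuous_finsetSum _ fun a _ =>
    (ggC_continuous h L _).norm.pow 2

lemma EE_int {h : ℝ} (hh : 0 < h) (Q : ℕ) (L : Finset ℕ) (c : ℕ → ℂ) : Integrable (EE h Q L c) := by
  unfold EE
  exact integrable_finsetSum _ fun q _ => integrable_finsetSum _ fun a _ => ggC_sq_integrable hh L _

lemma EE_nonneg (h : ℝ) (Q : ℕ) (L : Finset ℕ) (c : ℕ → ℂ) (z : ℝ) : 0 ≤ EE h Q L c z := by
  unfold EE
  positivity

lemma EE_integral {h : ℝ} (hh : 0 < h) (Q : ℕ) (L : Finset ℕ) (c : ℕ → ℂ) :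
    ∫ x, EE h Q L c x = ∑ q ∈ Icc 1 Q, ∑ a ∈ rr q,
      ∫ x, ‖ggC h L (fun n => c n * ee (n * a / q)) x‖ ^ 2 := by
  unfold EE
  rw [integral_finsetSum _ (fun q _ => integrable_finsetSum _ fun a _ => ggC_sq_integrable hh L _)]
  apply sum_congr rfl
  intro q _
  rw [integral_finsetSum _ (fun a _ => ggC_sq_integrable hh L _)]

lemma EE_window {h : ℝ} (hh : 0 < h) (Q : ℕ) (L : Finset ℕ) (c : ℕ → ℂ) (Z : ℝ) :
    ∫ x in Z..(Z + 1), EE h Q L c x ≤ ∫ x, EE h Q L c x := by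
  rw [intervalIntegral.integral_of_le (by linarith)]
  exact setIntegral_le_integral (EE_int hh Q L c) (Eventually.of_forall fun z => EE_nonneg _ _ _ _ _)

/-- one fraction -/
lemma EE_one (h : ℝ) {Q : ℕ} (hQ : 1 ≤ Q) (L : Finset ℕ) (c : ℕ → ℂ) (z : ℝ) :
    ‖ggC h L c z‖ ^ 2 ≤ EE h Q L c z := by
  unfold EE
  have h1 : ∑ a ∈ rr 1, ‖ggC h L (fun n => c n * ee (n * a / (1 : ℕ))) z‖ ^ 2 = ‖ggC h L c z‖ ^ 2 := by
    have e : rr 1 = {0} := by
      ext a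
      rw [mem_rr, mem_singleton]
      constructor
      · rintro ⟨h1, _⟩; omega
      · rintro rfl; exact ⟨by norm_num, by norm_num⟩
    rw [e, sum_singleton]
    congr 3
    ext n
    have : (n : ℝ) * ((0 : ℕ) : ℝ) / ((1 : ℕ) : ℝ) = 0 := by simp
    rw [this, ls_ee_zero, mul_one]
  have h2 : ∀ q ∈ Icc 1 Q, 0 ≤ ∑ a ∈ rr q, ‖ggC h L (fun n => c n * ee (n * a / q)) z‖ ^ 2 :=
    fun q _ => sum_nonneg fun a _ => sq_nonneg _
  have h3 : 1 ∈ Icc 1 Q := mem_Icc.2 ⟨le_rfl, hQ⟩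
  have h4 := single_le_sum h2 h3
  rw [h1] at h4
  exact h4

/-- the non principal part for the primes -/
noncomputable def NPL (h : ℝ) (N q : ℕ) (z : ℝ) : ℝ :=
  if hq : q = 0 then 0 else
    haveI : NeZero q := ⟨hq⟩
    ∑ χ ∈ (univ : Finset (DirichletCharacter ℂ q)).filter (fun χ => χ ≠ 1),
          ‖ggC h (Ioc 0 N) (fun n => ((Λ n / n : ℝ) : ℂ) * tau χ n) z‖ ^ 2

lemma NPL_eq (h : ℝ) (N q : ℕ) [NeZero q] (z : ℝ) : NPL h N q z =
    ∑ χ ∈ (univ : Finset (DirichletCharacter ℂ q)).filter (fun χ => χ ≠ 1),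
          ‖ggC h (Ioc 0 N) (fun n => ((Λ n / n : ℝ) : ℂ) * tau χ n) z‖ ^ 2 := by
  unfold NPL
  rw [dif_neg (NeZero.ne q)]

/-- **pointwise bound of the energy** -/
theorem EE_point {Q R z0 N : ℕ} (hQ : 1 ≤ Q) {h z BM : ℝ} (hh : 0 < h)
    (hz : Real.log z0 + h ≤ z)
    (hBM : ∀ (q : ℕ) [NeZero q], q ≤ Q → ∀ χ : DirichletCharacter ℂ q, χ ≠ 1 →
      ‖ggC h (Ioc 0 N) (fun n => ((Mq Q R n / n : ℝ) : ℂ) * tau χ n) z‖ ≤ BM) :
    EE h Q (Ioc z0 N) (cE Q) z ≤ (∑ q ∈ Icc 1 Q, ((q.totient : ℝ))⁻¹) * ‖ggC h (Ioc z0 N) (cE Q) z‖ ^ 2 +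
      4 * (∑ q ∈ Icc 1 Q, (q.totient : ℝ)⁻¹ * NPL h N q z +
        EE h Q (Ioc z0 N) (c2 Q) z + Q * BM ^ 2 + EE h Q (Ioc z0 N) (ce Q R) z) := by
  have h1 : ∀ q ∈ Icc 1 Q, ∑ a ∈ rr q, ‖ggC h (Ioc z0 N) (fun n => cE Q n * ee (n * a / q)) z‖ ^ 2 ≤
      (q.totient : ℝ)⁻¹ * ‖ggC h (Ioc z0 N) (cE Q) z‖ ^ 2 +
      4 * ((q.totient : ℝ)⁻¹ * NPL h N q z +
        ∑ a ∈ rr q, ‖ggC h (Ioc z0 N) (fun n => c2 Q n * ee (n * a / q)) z‖ ^ 2 + BM ^ 2 +
        ∑ a ∈ rr q, ‖ggC h (Ioc z0 N) (fun n => ce Q R n * ee (n * a / q)) z‖ ^ 2) := by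
    intro q hq
    rw [mem_Icc] at hq
    have : NeZero q := ⟨by omega⟩
    have hφ : (0 : ℝ) < q.totient := by exact_mod_cast Nat.totient_pos.2 (by omega : 0 < q)
    rw [energy_split, mul_add, NPL_eq]
    apply add_le_add
    · apply mul_le_mul_of_nonneg_left _ (by positivity)
      exact pow_le_pow_left₀ (norm_nonneg _) (ggC_tau_one hq.2 h _ z) 2
    · set X := (univ : Finset (DirichletCharacter ℂ q)).filter (fun χ => χ ≠ 1) with hX
      have hXc : (X.card : ℝ) ≤ q.totient := by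
        have h2 : X.card ≤ (univ : Finset (DirichletCharacter ℂ q)).card := card_filter_le _ _
        have h3 : (univ : Finset (DirichletCharacter ℂ q)).card = q.totient := by
          rw [card_univ, ← Nat.card_eq_fintype_card,
            DirichletCharacter.card_eq_totient_of_hasEnoughRootsOfUnity ℂ q]
        rw [h3] at h2
        exact_mod_cast h2
      have h2 : ∀ χ ∈ X, ‖ggC h (Ioc z0 N) (fun n => cE Q n * tau χ n) z‖ ^ 2 ≤
          4 * (‖ggC h (Ioc 0 N) (fun n => ((Λ n / n : ℝ) : ℂ) * tau χ n) z‖ ^ 2 +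
            ‖ggC h (Ioc z0 N) (fun n => c2 Q n * tau χ n) z‖ ^ 2 + BM ^ 2 +
            ‖ggC h (Ioc z0 N) (fun n => ce Q R n * tau χ n) z‖ ^ 2) := by
        intro χ hχ
        rw [hX, mem_filter] at hχ
        have h3 : ggC h (Ioc z0 N) (fun n => cE Q n * tau χ n) z =
            ggC h (Ioc z0 N) (fun n => ((Λ n / n : ℝ) : ℂ) * tau χ n) z -
            ggC h (Ioc z0 N) (fun n => c2 Q n * tau χ n) z -
            ggC h (Ioc z0 N) (fun n => ((Mq Q R n / n : ℝ) : ℂ) * tau χ n) z -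
            ggC h (Ioc z0 N) (fun n => ce Q R n * tau χ n) z := by
          unfold ggC
          rw [← sum_sub_distrib, ← sum_sub_distrib, ← sum_sub_distrib]
          apply sum_congr rfl
          intro n _
          unfold cE c2 ce Eb
          push_cast
          ring
        rw [h3]
        refine (norm4 _ _ _ _).trans ?_
        rw [ggC_restrict hh z0 N (fun n => ((Λ n / n : ℝ) : ℂ) * tau χ n) hz,
          ggC_restrict hh z0 N (fun n => ((Mq Q R n / n : ℝ) : ℂ) * tau χ n) hz]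
        have h4 := pow_le_pow_left₀ (norm_nonneg _) (hBM q hq.2 χ hχ.2) 2
        linarith
      have h3 := sum_le_sum h2
      rw [← mul_sum, sum_add_distrib, sum_add_distrib, sum_add_distrib, sum_const, nsmul_eq_mul] at h3
      have h4 := mul_le_mul_of_nonneg_left h3 (by positivity : 0 ≤ (q.totient : ℝ)⁻¹)
      refine h4.trans ?_
      have h5 := energy_np_le h (Ioc z0 N) (c2 Q) (q := q) z
      have h6 := energy_np_le h (Ioc z0 N) (ce Q R) (q := q) z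
      rw [← hX] at h5 h6
      have h7 : (q.totient : ℝ)⁻¹ * (X.card * BM ^ 2) ≤ BM ^ 2 := by
        rw [inv_mul_le_iff₀ hφ]
        exact mul_le_mul_of_nonneg_right hXc (by positivity)
      have e : ∀ a b c d : ℝ, (q.totient : ℝ)⁻¹ * (4 * (a + b + c + d)) =
          4 * ((q.totient : ℝ)⁻¹ * a + (q.totient : ℝ)⁻¹ * b + (q.totient : ℝ)⁻¹ * c +
            (q.totient : ℝ)⁻¹ * d) := by
        intro a b c d; ring
      rw [e]
      linarith
  have h2 := sum_le_sum h1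
  rw [sum_add_distrib, ← sum_mul, ← mul_sum, sum_add_distrib, sum_add_distrib, sum_add_distrib,
    sum_const, nsmul_eq_mul, Nat.card_Icc, Nat.add_sub_cancel] at h2
  unfold EE
  exact h2

end Pool.Agent.R521.F6
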