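import Pool.Agent.R521.F6.B5

set_option autoImplicit false

/-!
# The energy in a window: integrated form
-/

open Finset MeasureTheory Filter
open scoped Real FourierTransform
open Pool.Agent.Helper112
open scoped ArithmeticFunction.vonMangoldt

namespace Pool.Agent.R521.F6

open Pool.Agent.W66 Pool.Agent.W66L Pool.Agent.TH823.PS
open Pool.Agent.H373R2.T7 (pz Vz lamz mem_pz Vz_pos Vz_le_one es bonf sieve_gen' es_le bonf_ind
  card_small prod_dvd_iff prod_le_pow card_pz_le lamz_nonneg es_nonneg)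

lemma NPL_cont (h : ℝ) (N q : ℕ) : Continuous (NPL h N q) := by
  rcases Nat.eq_zero_or_pos q with h0 | h0
  · have : NPL h N q = fun _ => 0 := by
      ext z
      unfold NPL
      rw [dif_pos h0]
    rw [this]
    exact continuous_const
  · have : NeZero q := ⟨h0.ne'⟩
    have : NPL h N q = fun z => ∑ χ ∈ (univ : Finset (DirichletCharacter ℂ q)).filter (fun χ => χ ≠ 1),
          ‖ggC h (Ioc 0 N) (fun n => ((Λ n / n : ℝ) : ℂ) * tau χ n) z‖ ^ 2 := by
      ext z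
      exact NPL_eq h N q z
    rw [this]
    exact continuous_finsetSum _ fun χ _ => (ggC_continuous h _ _).norm.pow 2

/-- the principal part in terms of the known sums -/
lemma gg_principal {Q z0 N : ℕ} {h z P : ℝ} (hh : 0 < h) (hz : Real.log z0 + h ≤ z)
    (hP : |∑ n ∈ Ioc 0 N, lamz Q n / n * tri h (z - Real.log n) - 1| ≤ P) :
    ‖ggC h (Ioc z0 N) (cE Q) z‖ ^ 2 ≤
      3 * ((TT h N z - 1) ^ 2 + P ^ 2 + ‖ggC h (Ioc z0 N) (c2 Q) z‖ ^ 2) := by
  set Ls : ℝ := ∑ n ∈ Ioc 0 N, lamz Q n / n * tri h (z - Real.log n) with hLs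
  have h1 : ggC h (Ioc z0 N) (cE Q) z = ((TT h N z - 1 : ℝ) : ℂ) - ((Ls - 1 : ℝ) : ℂ) -
      ggC h (Ioc z0 N) (c2 Q) z := by
    have h2 : ggC h (Ioc z0 N) (cE Q) z = ggC h (Ioc z0 N) (fun n => ((Λ n / n : ℝ) : ℂ)) z -
        ggC h (Ioc z0 N) (fun n => ((lamz Q n / n : ℝ) : ℂ)) z - ggC h (Ioc z0 N) (c2 Q) z := by
      unfold ggC
      rw [← sum_sub_distrib, ← sum_sub_distrib]
      apply sum_congr rfl
      intro n _
      unfold cE c2 Eb
      push_cast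
      ring
    rw [h2, ggC_restrict hh z0 N _ hz, ggC_restrict hh z0 N _ hz]
    have h3 : ggC h (Ioc 0 N) (fun n => ((Λ n / n : ℝ) : ℂ)) z = ((TT h N z : ℝ) : ℂ) := by
      unfold ggC TT triC
      push_cast
      rfl
    have h4 : ggC h (Ioc 0 N) (fun n => ((lamz Q n / n : ℝ) : ℂ)) z = ((Ls : ℝ) : ℂ) := by
      rw [hLs]
      unfold ggC triC
      push_cast
      rfl
    rw [h3, h4]
    push_cast
    ring
  rw [h1]
  have h2 : ‖((TT h N z - 1 : ℝ) : ℂ) - ((Ls - 1 : ℝ) : ℂ) - ggC h (Ioc z0 N) (c2 Q) z‖ ≤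
      |TT h N z - 1| + P + ‖ggC h (Ioc z0 N) (c2 Q) z‖ := by
    refine (norm_sub_le _ _).trans ?_
    refine add_le_add ((norm_sub_le _ _).trans ?_) le_rfl
    rw [Complex.norm_real, Complex.norm_real, Real.norm_eq_abs, Real.norm_eq_abs]
    exact add_le_add le_rfl hP
  set g := ‖ggC h (Ioc z0 N) (c2 Q) z‖
  set t := |TT h N z - 1| with ht
  have h3 := pow_le_pow_left₀ (norm_nonneg _) h2 2
  refine h3.trans ?_
  have h4 : (TT h N z - 1) ^ 2 = t ^ 2 := (sq_abs _).symm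
  rw [h4]
  have e : 3 * (t ^ 2 + P ^ 2 + g ^ 2) - (t + P + g) ^ 2 =
      (t - P) ^ 2 + (t - g) ^ 2 + (P - g) ^ 2 := by ring
  have := sq_nonneg (t - P)
  have := sq_nonneg (t - g)
  have := sq_nonneg (P - g)
  linarith

/-- the mean value for all the moduli -/
theorem np_total {Q N u0 U w : ℕ} {h Z E M : ℝ} (hQ : 1 ≤ Q) (hN : 1 ≤ N)
    (hh : 1 / (Q : ℝ) ^ 3 ≤ h) (hh1 : h ≤ 1) (hw : 2 * Q ^ 5 ≤ w) (hE : 0 ≤ E) (hM0 : 0 ≤ M)
    (hU : Real.exp (U + 1) ≤ N)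
    (hM : ∀ (q : ℕ) [NeZero q], q ≤ Q → ∀ χ : DirichletCharacter ℂ q, χ ≠ 1 → ∀ u ∈ Icc u0 U, ∀ ξ : ℝ,
      ‖PX χ u (2 * π * ξ)‖ * ‖𝓕 (boxC h) ξ‖ ≤ M)
    (hd : ∀ (q : ℕ) [NeZero q], q ≤ Q → ∀ χ : DirichletCharacter ℂ q, χ ≠ 1 → ∀ z, Z ≤ z → z ≤ Z + 1 →
      ‖ggC h (Ioc 0 N) (fun n => ((Λ n / n : ℝ) : ℂ) * tau χ n) z -
      ∑ u ∈ Icc u0 U, FX χ u h N (Ioc 0 N) (fun l => ((aw w l / l : ℝ) : ℂ) * tau χ l) z‖ ≤ E) :
    ∑ q ∈ Icc 1 Q, (q.totient : ℝ)⁻¹ * ∫ z in Z..(Z + 1), NPL h N q z ≤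
      2 * Q * E ^ 2 + 2 * ((Icc u0 U).card : ℝ) ^ 2 * M ^ 2 * (96 * (1 + Real.log N) ^ 4) := by
  have hQ0 : (0 : ℝ) < Q := by exact_mod_cast hQ
  have hh0 : 0 < h := lt_of_lt_of_le (by positivity) hh
  have hU1 : 1 ≤ (1 : ℝ) := le_rfl
  set BB : ℕ → ℝ := fun q => ∑ a ∈ rr q,
    ∫ x, ‖bbC h (Ioc 0 N) (fun l => ((aw w l / l : ℝ) : ℂ) * ee (l * a / q)) x‖ ^ 2 with hBB
  have h1 : ∀ q ∈ Icc 1 Q, (q.totient : ℝ)⁻¹ * ∫ z in Z..(Z + 1), NPL h N q z ≤
      2 * E ^ 2 + 2 * ((Icc u0 U).card : ℝ) ^ 2 * M ^ 2 * BB q := by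
    intro q hq
    rw [mem_Icc] at hq
    have : NeZero q := ⟨by omega⟩
    have hφ : (0 : ℝ) < q.totient := by exact_mod_cast Nat.totient_pos.2 (by omega : 0 < q)
    rw [inv_mul_le_iff₀ hφ]
    have h2 := mean_np (q := q) (Z := Z) hh0 N u0 U w hE hM0 hU (hM q hq.2) (hd q hq.2)
    refine le_trans (le_of_eq ?_) h2
    rw [← intervalIntegral.integral_finsetSum]
    · apply intervalIntegral.integral_congr
      intro z _
      exact NPL_eq h N q z
    · intro χ _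
      exact ((ggC_continuous h _ _).norm.pow 2).intervalIntegrable _ _
  refine (sum_le_sum h1).trans ?_
  rw [sum_add_distrib, sum_const, nsmul_eq_mul, Nat.card_Icc, Nat.add_sub_cancel, ← mul_sum]
  have h3 : ∑ q ∈ Icc 1 Q, BB q ≤ 96 * (1 + Real.log N) ^ 4 := by
    have h4 : ∑ q ∈ Icc 1 Q, BB q ≤ ∑ n ∈ Ioc 0 N, 6 * (15 * n + (1 + (Q : ℝ) ^ 2) / h) *
        ‖(((aw w n / n : ℝ) : ℂ))‖ ^ 2 :=
      ls_bb Q (Ioc 0 N) (fun n hn => (mem_Ioc.1 hn).1) (fun l => ((aw w l / l : ℝ) : ℂ)) hh0 hh1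
    refine h4.trans ?_
    have h5 := aw_sum w N hN
    calc _ ≤ ∑ n ∈ Ioc 0 N, 96 * ((n : ℝ) * (aw w n / n) ^ 2) := by
          apply sum_le_sum
          intro n hn
          rw [mem_Ioc] at hn
          have hn0 : (0 : ℝ) < n := by exact_mod_cast hn.1
          rw [Complex.norm_real, Real.norm_eq_abs, sq_abs]
          rcases Nat.lt_or_ge w n with h6 | h6
          · have h1 : (1 + (Q : ℝ) ^ 2) / h ≤ n := by
              rw [div_le_iff₀ hh0]
              have h2 : (1 + (Q : ℝ) ^ 2) ≤ 2 * Q ^ 5 * (1 / (Q : ℝ) ^ 3) := by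
                have e : 2 * (Q : ℝ) ^ 5 * (1 / (Q : ℝ) ^ 3) = 2 * Q ^ 2 := by field_simp
                rw [e]
                have : (1 : ℝ) ≤ (Q : ℝ) ^ 2 := one_le_pow₀ (by exact_mod_cast hQ)
                linarith
              have h3 : (2 : ℝ) * Q ^ 5 ≤ n := by exact_mod_cast (by omega : 2 * Q ^ 5 ≤ n)
              calc (1 + (Q : ℝ) ^ 2) ≤ 2 * Q ^ 5 * (1 / (Q : ℝ) ^ 3) := h2
                _ ≤ n * h := mul_le_mul h3 hh (by positivity) (by positivity)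
            calc 6 * (15 * (n : ℝ) + (1 + (Q : ℝ) ^ 2) / h) * (aw w n / n) ^ 2 ≤
                6 * (15 * n + n) * (aw w n / n) ^ 2 := by gcongr
              _ = _ := by ring
          · have h7 : aw w n = 0 := by
              rw [aw_apply]
              have h8 : muw w = muw w := rfl
              have h9 : ∑ d ∈ n.divisors, muw w d = if n = 1 then 1 else 0 := by
                have h10 : ∀ d ∈ n.divisors, muw w d = ((ArithmeticFunction.moebius d : ℤ) : ℝ) := by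
                  intro d hd
                  have hdn := Nat.divisor_le hd
                  have hd0 := Nat.pos_of_mem_divisors hd
                  rw [muw_apply, if_pos (by omega)]
                rw [sum_congr rfl h10]
                have h11 := ArithmeticFunction.coe_moebius_mul_coe_zeta (R := ℝ)
                have h12 := congrArg (fun f : ArithmeticFunction ℝ => f n) h11
                simp only [ArithmeticFunction.coe_mul_zeta_apply, ArithmeticFunction.one_apply] at h12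
                exact h12
              rw [h9, sub_self]
            rw [h7]
            simp
      _ = 96 * ∑ n ∈ Ioc 0 N, (n : ℝ) * (aw w n / n) ^ 2 := (mul_sum _ _ _).symm
      _ ≤ _ := by gcongr
  have h4 := mul_le_mul_of_nonneg_left h3
    (by positivity : 0 ≤ 2 * ((Icc u0 U).card : ℝ) ^ 2 * M ^ 2)
  linarith

/-- **the energy in a window** -/
theorem window_raw {Q R z0 N : ℕ} (hQ : 1 ≤ Q) {h Z BM P T1 T2 Te NP Φ : ℝ}
    (hh : 1 / (Q : ℝ) ^ 3 ≤ h) (hz0 : 2 * Q ^ 5 ≤ z0)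
    (hZ : Real.log z0 + h ≤ Z)
    (hΦ : ∑ q ∈ Icc 1 Q, ((q.totient : ℝ))⁻¹ ≤ Φ)
    (hBM : ∀ z, Z ≤ z → z ≤ Z + 1 → ∀ (q : ℕ) [NeZero q], q ≤ Q → ∀ χ : DirichletCharacter ℂ q, χ ≠ 1 →
      ‖ggC h (Ioc 0 N) (fun n => ((Mq Q R n / n : ℝ) : ℂ) * tau χ n) z‖ ≤ BM)
    (hP : ∀ z, Z ≤ z → z ≤ Z + 1 →
      |∑ n ∈ Ioc 0 N, lamz Q n / n * tri h (z - Real.log n) - 1| ≤ P)
    (hNP : ∑ q ∈ Icc 1 Q, (q.totient : ℝ)⁻¹ * ∫ z in Z..(Z + 1), NPL h N q z ≤ NP)
    (hT1 : ∫ z in Z..(Z + 1), (TT h N z - 1) ^ 2 ≤ T1)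
    (hT2 : ∫ z, EE h Q (Ioc z0 N) (c2 Q) z ≤ T2)
    (hTe : ∫ z, EE h Q (Ioc z0 N) (ce Q R) z ≤ Te) :
    ∫ z in Z..(Z + 1), EE h Q (Ioc z0 N) (cE Q) z ≤
      Φ * (3 * (T1 + P ^ 2 + T2)) + 4 * (NP + T2 + Q * BM ^ 2 + Te) := by
  have hQ0 : (0 : ℝ) < Q := by exact_mod_cast hQ
  have hh0 : 0 < h := lt_of_lt_of_le (by positivity) hh
  set Φ0 := ∑ q ∈ Icc 1 Q, ((q.totient : ℝ))⁻¹ with hΦ0
  have hΦ00 : 0 ≤ Φ0 := sum_nonneg fun q _ => by positivity
  have hTTc : Continuous (TT h N) := by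
    have : TT h N = fun z => (ggC h (Ioc 0 N) (fun n => ((Λ n / n : ℝ) : ℂ)) z).re := by
      ext z
      have h3 : ggC h (Ioc 0 N) (fun n => ((Λ n / n : ℝ) : ℂ)) z = ((TT h N z : ℝ) : ℂ) := by
        unfold ggC TT triC
        push_cast
        rfl
      rw [h3, Complex.ofReal_re]
    rw [this]
    exact Complex.continuous_re.comp (ggC_continuous h _ _)
  have c1 : Continuous fun z => (TT h N z - 1) ^ 2 := (hTTc.sub continuous_const).pow 2
  have c3 : Continuous fun z => ∑ q ∈ Icc 1 Q, (q.totient : ℝ)⁻¹ * NPL h N q z :=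
    continuous_finsetSum _ fun q _ => continuous_const.mul (NPL_cont h N q)
  have h1 : ∫ z in Z..(Z + 1), EE h Q (Ioc z0 N) (cE Q) z ≤ ∫ z in Z..(Z + 1),
      (Φ0 * (3 * ((TT h N z - 1) ^ 2 + P ^ 2 + EE h Q (Ioc z0 N) (c2 Q) z)) +
      4 * (∑ q ∈ Icc 1 Q, (q.totient : ℝ)⁻¹ * NPL h N q z +
        EE h Q (Ioc z0 N) (c2 Q) z + Q * BM ^ 2 + EE h Q (Ioc z0 N) (ce Q R) z)) := by
    apply intervalIntegral.integral_mono_on (by linarith)
    · exact (EE_cont _ _ _ _).intervalIntegrable _ _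
    · apply Continuous.intervalIntegrable
      exact (continuous_const.mul (continuous_const.mul ((c1.add continuous_const).add
        (EE_cont _ _ _ _)))).add (continuous_const.mul (((c3.add (EE_cont _ _ _ _)).add
        continuous_const).add (EE_cont _ _ _ _)))
    · intro z hz
      have hz1 : Real.log z0 + h ≤ z := by linarith [hz.1]
      refine (EE_point (R := R) hQ hh0 hz1 (hBM z hz.1 hz.2)).trans ?_
      apply add_le_add _ le_rfl
      apply mul_le_mul_of_nonneg_left _ hΦ00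
      refine (gg_principal hh0 hz1 (hP z hz.1 hz.2)).trans ?_
      have := EE_one h hQ (Ioc z0 N) (c2 Q) z
      linarith
  refine h1.trans ?_
  have i1 := c1.intervalIntegrable (μ := volume) Z (Z + 1)
  have i2 := (EE_cont h Q (Ioc z0 N) (c2 Q)).intervalIntegrable (μ := volume) Z (Z + 1)
  have i3 := c3.intervalIntegrable (μ := volume) Z (Z + 1)
  have i4 := (EE_cont h Q (Ioc z0 N) (ce Q R)).intervalIntegrable (μ := volume) Z (Z + 1)
  have ic : ∀ c : ℝ, IntervalIntegrable (fun _ : ℝ => c) volume Z (Z + 1) := fun c =>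
    intervalIntegrable_const
  rw [intervalIntegral.integral_add (((i1.add (ic _)).add i2).const_mul 3 |>.const_mul Φ0)
    ((((i3.add i2).add (ic _)).add i4).const_mul 4),
    intervalIntegral.integral_const_mul, intervalIntegral.integral_const_mul,
    intervalIntegral.integral_const_mul,
    intervalIntegral.integral_add (i1.add (ic _)) i2, intervalIntegral.integral_add i1 (ic _),
    intervalIntegral.integral_add ((i3.add i2).add (ic _)) i4,
    intervalIntegral.integral_add (i3.add i2) (ic _), intervalIntegral.integral_add i3 i2,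
    intervalIntegral.integral_const, intervalIntegral.integral_const]
  have e1 : (Z + 1 - Z) • P ^ 2 = P ^ 2 := by rw [show Z + 1 - Z = 1 by ring, one_smul]
  have e2 : (Z + 1 - Z) • (Q * BM ^ 2) = Q * BM ^ 2 := by rw [show Z + 1 - Z = 1 by ring, one_smul]
  rw [e1, e2]
  have e3 : ∫ z in Z..(Z + 1), ∑ q ∈ Icc 1 Q, (q.totient : ℝ)⁻¹ * NPL h N q z =
      ∑ q ∈ Icc 1 Q, (q.totient : ℝ)⁻¹ * ∫ z in Z..(Z + 1), NPL h N q z := by
    rw [intervalIntegral.integral_finsetSum]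
    · apply sum_congr rfl
      intro q _
      rw [intervalIntegral.integral_const_mul]
    · intro q _
      exact ((NPL_cont h N q).intervalIntegrable _ _).const_mul _
  rw [e3]
  have w2 := EE_window hh0 Q (Ioc z0 N) (c2 Q) Z
  have we := EE_window hh0 Q (Ioc z0 N) (ce Q R) Z
  have hT20 : 0 ≤ ∫ z in Z..(Z + 1), EE h Q (Ioc z0 N) (c2 Q) z := by
    apply intervalIntegral.integral_nonneg (by linarith)
    intro z _
    exact EE_nonneg _ _ _ _ _
  have hT10 : 0 ≤ ∫ z in Z..(Z + 1), (TT h N z - 1) ^ 2 := by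
    apply intervalIntegral.integral_nonneg (by linarith)
    intro z _
    positivity
  have h5 : Φ0 * (3 * (∫ z in Z..(Z + 1), (TT h N z - 1) ^ 2) + 3 * P ^ 2 +
      3 * ∫ z in Z..(Z + 1), EE h Q (Ioc z0 N) (c2 Q) z) ≤ Φ * (3 * (T1 + P ^ 2 + T2)) := by
    apply mul_le_mul hΦ _ _ (hΦ00.trans hΦ)
    · linarith
    · positivity
  have h6 : Φ0 * (3 * ((∫ z in Z..(Z + 1), (TT h N z - 1) ^ 2) + P ^ 2 +
      ∫ z in Z..(Z + 1), EE h Q (Ioc z0 N) (c2 Q) z)) ≤ Φ * (3 * (T1 + P ^ 2 + T2)) := by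
    refine le_trans (le_of_eq ?_) h5
    ring
  linarith

end Pool.Agent.R521.F6
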