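import Pool.Agent.R521.F6.B6

set_option autoImplicit false

/-!
# The energy in a window: the final bound at a good scale
-/

open Finset MeasureTheory Filter Topology
open scoped Real FourierTransform
open Pool.Agent.Helper112
open scoped ArithmeticFunction.vonMangoldt

namespace Pool.Agent.R521.F6

open Pool.Agent.W66 Pool.Agent.W66L Pool.Agent.TH823.PS
open Pool.Agent.H373R2.T7 (pz Vz lamz mem_pz Vz_pos Vz_le_one es bonf sieve_gen' es_le bonf_ind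
  card_small prod_dvd_iff prod_le_pow card_pz_le lamz_nonneg es_nonneg Vz_inv_le)

lemma ev_exp_sqrt (k : ℕ) (C : ℝ) (hC : 0 < C) : ∀ᶠ Z : ℝ in atTop, C * (Z ^ k * Real.exp (-√Z)) ≤ 1 := by
  have h1 := (Real.tendsto_pow_mul_exp_neg_atTop_nhds_zero (2 * k)).comp Real.tendsto_sqrt_atTop
  have h2 : ∀ᶠ Z : ℝ in atTop, (√Z) ^ (2 * k) * Real.exp (-√Z) < 1 / C :=
    h1.eventually_lt_const (by positivity)
  filter_upwards [h2, eventually_ge_atTop 0] with Z h3 h4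
  rw [pow_mul, Real.sq_sqrt h4, lt_div_iff₀ hC] at h3
  linarith

lemma natlog_two_le (N : ℕ) (hN : 1 ≤ N) : (Nat.log 2 N : ℝ) ≤ 2 * Real.log N := by
  have h1 : 2 ^ Nat.log 2 N ≤ N := Nat.pow_log_le_self 2 (by omega)
  have h2 : ((2 : ℝ)) ^ Nat.log 2 N ≤ N := by exact_mod_cast h1
  have h3 := Real.log_le_log (by positivity) h2
  rw [Real.log_pow] at h3
  have h4 := Real.log_two_gt_d9
  have h5 : (0 : ℝ) ≤ Nat.log 2 N := Nat.cast_nonneg _
  nlinarith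

/-- numerical bounds for the errors of the decomposition -/
lemma E_bound {Z lam q Q w z u0 L2 lN : ℝ} (hZ : 20 ≤ Z)
    (hX : 100000 * (Z ^ 4 * Real.exp (-√Z)) ≤ 1) (hlam0 : √Z ≤ lam) (hlamZ : lam ≤ Z / 100)
    (hQe : Q = Real.exp lam) (hq0 : 0 ≤ q) (hqQ : q ≤ Q) (hw : w = 2 * Q ^ 5)
    (hz1 : Z ≤ z) (hz2 : z ≤ Z + 1) (hu0 : 0 ≤ u0) (hu1 : u0 ≤ Z / 16 + 1) (hu2 : 10 * lam ≤ u0)
    (hL0 : 0 ≤ L2) (hL2 : L2 ≤ 8 * Z) (hlN0 : 0 ≤ lN) (hlN : lN ≤ 4 * Z) (hlq : Real.log q ≤ lam)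
    {h : ℝ} (hh : h = 1 / Q ^ 3) :
    w * (q * q * (48 * (z + 2) * (Real.exp (-z) / h ^ 2))) +
      u0 * (1 + u0) * (w * (q * q * (48 * 1 * (Real.exp (u0 - Z) / h ^ 2)))) +
      Real.exp (1 - u0) * (L2 * Real.log q) * (q * (1 / h) * (1 + lN) ^ 2) ≤ Real.exp (-(2 * lam)) := by
  have hZ0 : 0 < Z := by linarith
  have hsq0 : 0 ≤ √Z := Real.sqrt_nonneg Z
  have hlam : 0 ≤ lam := hsq0.trans hlam0
  have hQ0 : 0 < Q := by rw [hQe]; exact Real.exp_pos _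
  have hsqZ : √Z ≤ Z / 4 := by
    rw [Real.sqrt_le_left (by positivity)]
    nlinarith
  have hh2 : ∀ x : ℝ, x / h ^ 2 = x * Q ^ 6 := by
    intro x
    rw [hh]
    field_simp
  have hQp : ∀ k : ℕ, Q ^ k = Real.exp (k * lam) := by
    intro k
    rw [hQe, ← Real.exp_nat_mul]
  have hqq : q * q ≤ Q ^ 2 := by
    rw [sq]
    exact mul_le_mul hqQ hqQ hq0 hQ0.le
  -- first term
  have t1 : w * (q * q * (48 * (z + 2) * (Real.exp (-z) / h ^ 2))) ≤ Real.exp (-(2 * lam)) / 3 := by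
    calc w * (q * q * (48 * (z + 2) * (Real.exp (-z) / h ^ 2))) ≤
        (2 * Q ^ 5) * (Q ^ 2 * (48 * (Z + 3) * (Real.exp (-Z) * Q ^ 6))) := by
          rw [hh2, hw]
          have e1 : Real.exp (-z) ≤ Real.exp (-Z) := Real.exp_le_exp.2 (by linarith)
          have e2 : 48 * (z + 2) ≤ 48 * (Z + 3) := by linarith
          have e3 : 0 ≤ 48 * (z + 2) := by linarith
          gcongr
      _ = 96 * (Z + 3) * (Real.exp (-Z) * Q ^ 13) := by ring
      _ = 96 * (Z + 3) * Real.exp (13 * lam - Z) := by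
          rw [hQp 13, ← Real.exp_add]
          congr 2
          push_cast
          ring
      _ ≤ 96 * (Z + 3) * Real.exp (-(2 * lam) + (-√Z)) := by
          gcongr
          linarith
      _ = Real.exp (-(2 * lam)) * (96 * (Z + 3) * Real.exp (-√Z)) := by
          rw [Real.exp_add]; ring
      _ ≤ Real.exp (-(2 * lam)) * (1 / 3) := by
          apply mul_le_mul_of_nonneg_left _ (Real.exp_pos _).le
          have e1 : 96 * (Z + 3) ≤ 30000 * Z ^ 4 := by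
            have : Z ^ 1 ≤ Z ^ 4 := pow_le_pow_right₀ (by linarith) (by norm_num)
            linarith
          have e2 := mul_le_mul_of_nonneg_right e1 (Real.exp_pos (-√Z)).le
          linarith
      _ = _ := by ring
  have t2 : u0 * (1 + u0) * (w * (q * q * (48 * 1 * (Real.exp (u0 - Z) / h ^ 2)))) ≤
      Real.exp (-(2 * lam)) / 3 := by
    have hu3 : u0 * (1 + u0) ≤ Z ^ 2 := by
      have : u0 ≤ Z / 2 := by linarith
      have : 1 + u0 ≤ Z := by linarith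
      nlinarith
    calc u0 * (1 + u0) * (w * (q * q * (48 * 1 * (Real.exp (u0 - Z) / h ^ 2)))) ≤
        Z ^ 2 * ((2 * Q ^ 5) * (Q ^ 2 * (48 * 1 * (Real.exp (u0 - Z) * Q ^ 6)))) := by
          rw [hh2, hw]
          gcongr
      _ = 96 * Z ^ 2 * (Real.exp (u0 - Z) * Q ^ 13) := by ring
      _ = 96 * Z ^ 2 * Real.exp (13 * lam + u0 - Z) := by
          rw [hQp 13, ← Real.exp_add]
          congr 2
          push_cast
          ring
      _ ≤ 96 * Z ^ 2 * Real.exp (-(2 * lam) + (-√Z)) := by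
          gcongr
          linarith
      _ = Real.exp (-(2 * lam)) * (96 * Z ^ 2 * Real.exp (-√Z)) := by
          rw [Real.exp_add]; ring
      _ ≤ Real.exp (-(2 * lam)) * (1 / 3) := by
          apply mul_le_mul_of_nonneg_left _ (Real.exp_pos _).le
          have e1 : 96 * Z ^ 2 ≤ 30000 * Z ^ 4 := by
            have : Z ^ 2 ≤ Z ^ 4 := pow_le_pow_right₀ (by linarith) (by norm_num)
            have h0 : 0 ≤ Z ^ 2 := by positivity
            linarith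
          have e2 := mul_le_mul_of_nonneg_right e1 (Real.exp_pos (-√Z)).le
          linarith
      _ = _ := by ring
  have t3 : Real.exp (1 - u0) * (L2 * Real.log q) * (q * (1 / h) * (1 + lN) ^ 2) ≤
      Real.exp (-(2 * lam)) / 3 := by
    have e0 : 1 / h = Q ^ 3 := by rw [hh]; field_simp
    have e4 : L2 * Real.log q ≤ 8 * Z * Z := by
      calc L2 * Real.log q ≤ L2 * lam := mul_le_mul_of_nonneg_left hlq hL0
        _ ≤ 8 * Z * Z := mul_le_mul hL2 (by linarith) hlam (by positivity)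
    have e5 : (1 + lN) ^ 2 ≤ (5 * Z) ^ 2 := pow_le_pow_left₀ (by linarith) (by linarith) 2
    calc Real.exp (1 - u0) * (L2 * Real.log q) * (q * (1 / h) * (1 + lN) ^ 2) ≤
        Real.exp (1 - u0) * (8 * Z * Z) * (Q * Q ^ 3 * (5 * Z) ^ 2) := by
          rw [e0]
          gcongr
      _ = 200 * Z ^ 4 * (Real.exp (1 - u0) * Q ^ 4) := by ring
      _ = 200 * Z ^ 4 * Real.exp (1 - u0 + 4 * lam) := by
          rw [hQp 4, ← Real.exp_add]
          congr 2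
      _ ≤ 200 * Z ^ 4 * Real.exp (-(2 * lam) + 1 + (-√Z)) :=
          mul_le_mul_of_nonneg_left (Real.exp_le_exp.2 (by linarith)) (by positivity)
      _ = Real.exp (-(2 * lam)) * (Real.exp 1 * (200 * Z ^ 4 * Real.exp (-√Z))) := by
          rw [Real.exp_add, Real.exp_add]; ring
      _ ≤ Real.exp (-(2 * lam)) * (1 / 3) := by
          apply mul_le_mul_of_nonneg_left _ (Real.exp_pos _).le
          have e6 : Real.exp 1 ≤ 3 := by linarith [Real.exp_one_lt_d9]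
          have e7 : 0 ≤ Z ^ 4 * Real.exp (-√Z) := by positivity
          calc Real.exp 1 * (200 * Z ^ 4 * Real.exp (-√Z)) ≤ 3 * (200 * Z ^ 4 * Real.exp (-√Z)) := by
                gcongr
            _ ≤ 1 / 3 := by linarith
      _ = _ := by ring
  linarith

/-- the bound of the total of the non principal characters -/
lemma NP_bound {Z lam Q card M lN Kc : ℝ} (A : ℕ) (hZ : 20 ≤ Z) (hQe : Q = Real.exp lam)
    (hel : Real.exp (-lam) ≤ 1 / Z ^ (A + 3)) (hlam : 0 ≤ lam)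
    (hc0 : 0 ≤ card) (hcard : card ≤ 2 * Z) (hM : M = Kc * (Z ^ 2 / Z ^ (A + 12)))
    (hlN0 : 0 ≤ lN) (hlN : lN ≤ 4 * Z) :
    2 * Q * Real.exp (-(2 * lam)) ^ 2 + 2 * card ^ 2 * M ^ 2 * (96 * (1 + lN) ^ 4) ≤
      2 * (1 / Z ^ (A + 3)) + 480000 * Kc ^ 2 * (1 / Z ^ (A + 3)) := by
  have hZ0 : 0 < Z := by linarith
  apply add_le_add
  · have e0 : 2 * Q * Real.exp (-(2 * lam)) ^ 2 = 2 * Real.exp (lam + ((2 : ℕ) : ℝ) * -(2 * lam)) := by
      rw [hQe, ← Real.exp_nat_mul, mul_assoc, ← Real.exp_add]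
    rw [e0]
    have e1 : lam + ((2 : ℕ) : ℝ) * -(2 * lam) ≤ -lam := by push_cast; linarith
    exact mul_le_mul_of_nonneg_left ((Real.exp_le_exp.2 e1).trans hel) (by norm_num)
  · have h1 : 1 + lN ≤ 5 * Z := by linarith
    calc 2 * card ^ 2 * M ^ 2 * (96 * (1 + lN) ^ 4) ≤
        2 * (2 * Z) ^ 2 * M ^ 2 * (96 * (5 * Z) ^ 4) := by gcongr
      _ = 480000 * Kc ^ 2 * (Z ^ 10 / (Z ^ (A + 12)) ^ 2) := by
          rw [hM]
          field_simp
          ring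
      _ ≤ _ := by
          apply mul_le_mul_of_nonneg_left _ (by positivity)
          rw [div_le_div_iff₀ (by positivity) (by positivity), one_mul, ← pow_add, ← pow_mul]
          apply pow_le_pow_right₀ (by linarith)
          omega

lemma BM_bound {Z lam Q V QR : ℝ} (hZ : 20 ≤ Z) (hX : 100000 * Real.exp (-√Z) ≤ 1)
    (hlamZ : lam ≤ Z / 100)
    (hQe : Q = Real.exp lam) (hV : V ≤ Q) (hQR0 : 0 ≤ QR) (hQR : QR ≤ Real.exp (Z / 16))
    {h : ℝ} (hh : h = 1 / Q ^ 3) :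
    V * (QR * (Q * Q * (48 * (Real.exp (-Z) / h ^ 2)))) ≤ Real.exp (-lam) := by
  have hZ0 : 0 < Z := by linarith
  have hQ0 : 0 < Q := by rw [hQe]; exact Real.exp_pos _
  have hsqZ : √Z ≤ Z / 4 := by
    rw [Real.sqrt_le_left (by positivity)]
    nlinarith
  have hh2 : ∀ x : ℝ, x / h ^ 2 = x * Q ^ 6 := by
    intro x
    rw [hh]
    field_simp
  have hQp : ∀ k : ℕ, Q ^ k = Real.exp (k * lam) := by
    intro k
    rw [hQe, ← Real.exp_nat_mul]
  calc V * (QR * (Q * Q * (48 * (Real.exp (-Z) / h ^ 2)))) ≤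
      Q * (Real.exp (Z / 16) * (Q * Q * (48 * (Real.exp (-Z) * Q ^ 6)))) := by
        rw [hh2]
        gcongr
    _ = 48 * (Real.exp (Z / 16) * Real.exp (-Z) * Q ^ 9) := by ring
    _ = 48 * Real.exp (Z / 16 + -Z + 9 * lam) := by
        rw [hQp 9, ← Real.exp_add, ← Real.exp_add]
        norm_num
    _ ≤ 48 * Real.exp (-lam + -√Z) :=
        mul_le_mul_of_nonneg_left (Real.exp_le_exp.2 (by linarith)) (by norm_num)
    _ = Real.exp (-lam) * (48 * Real.exp (-√Z)) := by rw [Real.exp_add]; ring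
    _ ≤ Real.exp (-lam) * 1 := by
        apply mul_le_mul_of_nonneg_left _ (Real.exp_pos _).le
        linarith [Real.exp_pos (-√Z)]
    _ = _ := mul_one _

lemma P_bound {Z lam Q V QR BM CV C3 ER E3 : ℝ} (A : ℕ) (hZ : 20 ≤ Z)
    (hel : Real.exp (-lam) ≤ 1 / Z ^ (A + 3)) (hQ1 : 1 ≤ Q) (hCV : 1 ≤ CV) (hC3 : 1 ≤ C3)
    (hV0 : 0 ≤ V) (hV : V ≤ CV * Z) (hQR0 : 0 ≤ QR) {h : ℝ} (hh : 0 < h)
    (hBM : V * (QR * (Q * Q * (48 * (Real.exp (-Z) / h ^ 2)))) = BM) (hBMb : BM ≤ Real.exp (-lam))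
    (hER0 : 0 ≤ ER) (hER : ER ≤ 1 / Z ^ (A + 20)) (hE30 : 0 ≤ E3) (hE3 : E3 ≤ C3 * Z ^ 3) :
    V * (QR * (32 * Real.exp (-Z) / h ^ 2) + 2 * (E3 * ER)) ≤
      1 / Z ^ (A + 3) + 2 * CV * C3 * (1 / Z ^ (A + 3)) := by
  have hZ0 : 0 < Z := by linarith
  rw [mul_add]
  apply add_le_add
  · refine le_trans ?_ (hBMb.trans hel)
    rw [← hBM]
    apply mul_le_mul_of_nonneg_left _ hV0
    apply mul_le_mul_of_nonneg_left _ hQR0
    rw [mul_div_assoc]
    have e1 : 0 ≤ Real.exp (-Z) / h ^ 2 := by positivity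
    have e2 : 1 ≤ Q * Q := by nlinarith
    calc 32 * (Real.exp (-Z) / h ^ 2) ≤ 1 * (48 * (Real.exp (-Z) / h ^ 2)) := by linarith
      _ ≤ _ := by gcongr
  · calc V * (2 * (E3 * ER)) ≤ (CV * Z) * (2 * ((C3 * Z ^ 3) * (1 / Z ^ (A + 20)))) := by gcongr
      _ = 2 * CV * C3 * (Z ^ 4 / Z ^ (A + 20)) := by ring
      _ ≤ 2 * CV * C3 * (1 / Z ^ (A + 3)) := by
          apply mul_le_mul_of_nonneg_left _ (by positivity)
          rw [div_le_div_iff₀ (by positivity) (by positivity), one_mul, ← pow_add]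
          apply pow_le_pow_right₀ (by linarith)
          omega

lemma T2_bound {Z lam Q lN L2 sz : ℝ} (hZ : 20 ≤ Z)
    (hX : 100000 * (Z ^ 4 * Real.exp (-√Z)) ≤ 1) (hlam : √Z ≤ lam)
    (hQe : Q = Real.exp lam) (hsz : Q ^ 2 ≤ sz) (hlN0 : 0 ≤ lN) (hlN : lN ≤ 4 * Z) (hL0 : 0 ≤ L2)
    (hL2 : L2 ≤ 8 * Z) :
    96 * (lN ^ 2 * ((L2 + 1) * ((1 + lN) / sz))) ≤ Real.exp (-lam) := by
  have hZ0 : 0 < Z := by linarith
  have hQ0 : 0 < Q := by rw [hQe]; exact Real.exp_pos _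
  have hsz0 : 0 < sz := lt_of_lt_of_le (by positivity) hsz
  calc 96 * (lN ^ 2 * ((L2 + 1) * ((1 + lN) / sz))) ≤
      96 * ((4 * Z) ^ 2 * ((8 * Z + Z) * ((5 * Z) / Q ^ 2))) := by
        have e1 : L2 + 1 ≤ 8 * Z + Z := by linarith
        have e2 : 1 + lN ≤ 5 * Z := by linarith
        gcongr
    _ = 69120 * (Z ^ 4 * (1 / Q ^ 2)) := by ring
    _ = 69120 * (Z ^ 4 * Real.exp (-(2 * lam))) := by
        rw [hQe, ← Real.exp_nat_mul, Real.exp_neg, one_div]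
        norm_num
    _ ≤ 69120 * (Z ^ 4 * Real.exp (-lam + -√Z)) :=
        mul_le_mul_of_nonneg_left (mul_le_mul_of_nonneg_left (Real.exp_le_exp.2 (by linarith))
          (by positivity)) (by norm_num)
    _ = Real.exp (-lam) * (69120 * (Z ^ 4 * Real.exp (-√Z))) := by rw [Real.exp_add]; ring
    _ ≤ Real.exp (-lam) * 1 := by
        apply mul_le_mul_of_nonneg_left _ (Real.exp_pos _).le
        have h0 : 0 ≤ Z ^ 4 * Real.exp (-√Z) := by positivity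
        linarith
    _ = _ := mul_one _

lemma Te_bound {Z V lN CV C10 ER E10 : ℝ} (A : ℕ) (hZ : 20 ≤ Z) (hCV : 1 ≤ CV) (hC10 : 1 ≤ C10)
    (hV0 : 0 ≤ V) (hV : V ≤ CV * Z) (hlN0 : 0 ≤ lN) (hlN : lN ≤ 4 * Z)
    (hER0 : 0 ≤ ER) (hER : ER ≤ 1 / Z ^ (A + 20)) (hE0 : 0 ≤ E10) (hE : E10 ≤ C10 * Z ^ 10) :
    96 * (V ^ 2 * (ER * ((1 + lN) * E10))) ≤ 480 * CV ^ 2 * C10 * (1 / Z ^ (A + 3)) := by
  have hZ0 : 0 < Z := by linarith
  calc 96 * (V ^ 2 * (ER * ((1 + lN) * E10))) ≤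
      96 * ((CV * Z) ^ 2 * ((1 / Z ^ (A + 20)) * ((5 * Z) * (C10 * Z ^ 10)))) := by
        have e2 : 1 + lN ≤ 5 * Z := by linarith
        gcongr
    _ = 480 * CV ^ 2 * C10 * (Z ^ 13 / Z ^ (A + 20)) := by ring
    _ ≤ 480 * CV ^ 2 * C10 * (1 / Z ^ (A + 3)) := by
        apply mul_le_mul_of_nonneg_left _ (by positivity)
        rw [div_le_div_iff₀ (by positivity) (by positivity), one_mul, ← pow_add]
        apply pow_le_pow_right₀ (by linarith)
        omega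

lemma final_bound {Z lam Q BM P Kc CV C3 C10 Cφ KK lQ : ℝ} (A : ℕ) (hZ : 20 ≤ Z)
    (hQe : Q = Real.exp lam) (hel : Real.exp (-lam) ≤ 1 / Z ^ (A + 3))
    (hCV : 1 ≤ CV) (hC3 : 1 ≤ C3) (hC10 : 1 ≤ C10) (hCφ : 0 < Cφ) (hKc : 0 < Kc)
    (hKK : KK = 480000 * Kc ^ 2 + 480 * CV ^ 2 * C10 + 2 * CV * C3 + 6 * Cφ + 100)
    (hZKK : 100 * KK ^ 2 ≤ Z) (hlQ : 1 + lQ ≤ Z) (hP0 : 0 ≤ P)
    (hP : P ≤ 1 / Z ^ (A + 3) + 2 * CV * C3 * (1 / Z ^ (A + 3))) (hBM0 : 0 ≤ BM)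
    (hBM : BM ≤ Real.exp (-lam)) :
    Cφ * (1 + lQ) * (3 * (1 / Z ^ (A + 3) + P ^ 2 + 1 / Z ^ (A + 3))) +
      4 * (2 * (1 / Z ^ (A + 3)) + 480000 * Kc ^ 2 * (1 / Z ^ (A + 3)) + 1 / Z ^ (A + 3) + Q * BM ^ 2 +
      480 * CV ^ 2 * C10 * (1 / Z ^ (A + 3))) ≤ 1 / Z ^ A := by
  have hZ0 : 0 < Z := by linarith
  have hZ1' : 1 ≤ Z := by linarith
  have hKK0 : 0 < KK := by rw [hKK]; positivity
  set T : ℝ := 1 / Z ^ (A + 3) with hT
  have hT0 : 0 < T := by positivity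
  have hTle : T ≤ 1 / Z ^ 3 := by
    apply one_div_le_one_div_of_le (by positivity)
    exact pow_le_pow_right₀ hZ1' (by omega)
  have hT1' : T ≤ 1 := hTle.trans (by
    rw [div_le_one (by positivity)]
    exact one_le_pow₀ hZ1')
  have hPb' : P ≤ KK * T := by
    refine hP.trans ?_
    rw [hKK]
    have e2 : 0 ≤ (480000 * Kc ^ 2 + 480 * CV ^ 2 * C10 + 6 * Cφ + 99) * T := by positivity
    linarith
  have hPsq : P ^ 2 ≤ KK ^ 2 * T := by
    calc P ^ 2 ≤ (KK * T) ^ 2 := pow_le_pow_left₀ hP0 hPb' 2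
      _ = KK ^ 2 * (T * T) := by ring
      _ ≤ KK ^ 2 * (T * 1) := by gcongr
      _ = _ := by ring
  have hQ0 : 0 < Q := by rw [hQe]; exact Real.exp_pos _
  have hBMsq : Q * BM ^ 2 ≤ T := by
    calc Q * BM ^ 2 ≤ Q * Real.exp (-lam) ^ 2 := by gcongr
      _ = Real.exp (-lam) := by
          rw [hQe, ← Real.exp_nat_mul, ← Real.exp_add]
          congr 1
          push_cast
          ring
      _ ≤ T := hel
  have hΦ2 : Cφ * (1 + lQ) ≤ Cφ * Z := mul_le_mul_of_nonneg_left hlQ hCφ.le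
  have s1 : Cφ * (1 + lQ) * (3 * (T + P ^ 2 + T)) ≤ (Cφ * Z) * (3 * (T + KK ^ 2 * T + T)) := by
    gcongr
  have s2 : 4 * (2 * T + 480000 * Kc ^ 2 * T + T + Q * BM ^ 2 + 480 * CV ^ 2 * C10 * T) ≤
      4 * KK * T := by
    have e3 : 0 ≤ (2 * CV * C3 + 6 * Cφ + 96) * T := by positivity
    rw [hKK]
    linarith
  have hKK100 : 100 ≤ KK := by
    rw [hKK]
    have : 0 ≤ 480000 * Kc ^ 2 + 480 * CV ^ 2 * C10 + 2 * CV * C3 + 6 * Cφ := by positivity
    linarith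
  have hKK2 : 100 ^ 2 ≤ KK ^ 2 := pow_le_pow_left₀ (by norm_num) hKK100 2
  have s3 : (Cφ * Z) * (3 * (T + KK ^ 2 * T + T)) + 4 * KK * T ≤ KK ^ 3 * (Z * T) := by
    have c1 : 6 * Cφ ≤ KK := by
      rw [hKK]
      have : 0 ≤ 480000 * Kc ^ 2 + 480 * CV ^ 2 * C10 + 2 * CV * C3 + 100 := by positivity
      linarith
    have c2' : 3 * (T + KK ^ 2 * T + T) ≤ 4 * (KK ^ 2 * T) := by
      have := mul_le_mul_of_nonneg_right hKK2 hT0.le
      linarith
    have c3 : 4 * KK * T ≤ KK ^ 3 * (Z * T) / 6 := by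
      have c4 : 24 ≤ KK ^ 2 * Z := by nlinarith
      calc 4 * KK * T = KK * T * 24 / 6 := by ring
        _ ≤ KK * T * (KK ^ 2 * Z) / 6 := by gcongr
        _ = _ := by ring
    calc (Cφ * Z) * (3 * (T + KK ^ 2 * T + T)) + 4 * KK * T ≤
        (Cφ * Z) * (4 * (KK ^ 2 * T)) + KK ^ 3 * (Z * T) / 6 := by gcongr
      _ = (6 * Cφ) * (4 / 6 * (KK ^ 2 * (Z * T))) + KK ^ 3 * (Z * T) / 6 := by ring
      _ ≤ KK * (4 / 6 * (KK ^ 2 * (Z * T))) + KK ^ 3 * (Z * T) / 6 := by gcongr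
      _ = 5 / 6 * (KK ^ 3 * (Z * T)) := by ring
      _ ≤ _ := by
          have : 0 ≤ KK ^ 3 * (Z * T) := by positivity
          linarith
  have s4 : KK ^ 3 * (Z * T) ≤ 1 / Z ^ A := by
    have e3 : Z * T = (1 / Z ^ A) * (1 / Z ^ 2) := by
      rw [hT, pow_add]
      field_simp
    rw [e3]
    have e4 : KK ^ 3 ≤ Z ^ 2 := by
      have c1 : KK ^ 2 ≤ Z := by linarith [sq_nonneg KK]
      have c2 : KK ≤ Z := by nlinarith
      calc KK ^ 3 = KK ^ 2 * KK := by ring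
        _ ≤ Z * Z := mul_le_mul c1 c2 hKK0.le hZ0.le
        _ = _ := by ring
    calc KK ^ 3 * ((1 / Z ^ A) * (1 / Z ^ 2)) ≤ Z ^ 2 * ((1 / Z ^ A) * (1 / Z ^ 2)) := by gcongr
      _ = _ := by field_simp
  linarith only [s1, s2, s3, s4]

end Pool.Agent.R521.F6
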