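import Pool.Agent.R521.F6.B7

set_option autoImplicit false

/-!
# The energy in a window: the final bound at a good scale
-/

open Finset MeasureTheory Filter Topology
open scoped Real FourierTransform
open Pool.Agent.Helper112
open scoped ArithmeticFunction.vonMangoldt

namespace Pool.Agent.R521.F6

open Pool.Agent.W66 Pool.Agent.W66L Pool.Agent.TH823.PS
open Pool.Agent.H373R2.T7 (pz Vz lamz mem_pz Vz_pos Vz_le_one es bonf sieve_gen' es_le bonf_ind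
  card_small prod_dvd_iff prod_le_pow card_pz_le lamz_nonneg es_nonneg Vz_inv_le)

/-- the choice of the integer parameters -/
lemma params {Z lam C0 K : ℝ} {cR : ℕ} (hcR : 1 ≤ cR) (hZ : 20 ≤ Z) (hlam : 1 ≤ lam) (hC0 : 0 < C0)
    (hC0Z : 10 / C0 ≤ Real.log Z) (hK100 : 100 ≤ K) (hK64 : 64 * (cR : ℝ) ≤ K) (hK16 : 16 * C0 ≤ K)
    (hK : K * lam * Real.log Z ≤ Z) :
    lam ≤ Z / 100 ∧ ∃ R u0 U : ℕ, Real.exp (-(R : ℝ)) ≤ 1 / Z ^ cR ∧ (R : ℝ) * (2 * lam) ≤ Z / 16 ∧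
      C0 * lam * Real.log Z ≤ u0 ∧ (u0 : ℝ) ≤ Z / 16 + 1 ∧ 10 * lam ≤ u0 ∧ 1 ≤ u0 ∧
      Z + 2 ≤ U ∧ (U : ℝ) ≤ Z + 3 ∧ u0 ≤ U := by
  have hZ0 : 0 < Z := by linarith
  have hlogZ : 1 ≤ Real.log Z := by
    rw [Real.le_log_iff_exp_le hZ0]
    linarith [Real.exp_one_lt_d9]
  have hll0 : 0 < lam * Real.log Z := by positivity
  have hll : lam * Real.log Z ≤ Z / 100 := by
    have : 100 * (lam * Real.log Z) ≤ K * (lam * Real.log Z) := mul_le_mul_of_nonneg_right hK100 hll0.le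
    linarith
  have hlamZ : lam ≤ Z / 100 := by
    refine le_trans ?_ hll
    exact le_mul_of_one_le_right (by linarith) hlogZ
  have hcR1 : (1 : ℝ) ≤ cR := by exact_mod_cast hcR
  have hu0pos : 0 < C0 * lam * Real.log Z := by positivity
  have hu0b : ((⌈C0 * lam * Real.log Z⌉₊ : ℕ) : ℝ) ≤ Z / 16 + 1 := by
    have h1 := Nat.ceil_lt_add_one hu0pos.le
    have h2 : C0 * lam * Real.log Z ≤ Z / 16 := by
      calc C0 * lam * Real.log Z = (16 * C0 * (lam * Real.log Z)) / 16 := by ring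
        _ ≤ (K * (lam * Real.log Z)) / 16 := by gcongr
        _ ≤ _ := by linarith
    linarith
  refine ⟨hlamZ, ⌈(cR : ℝ) * Real.log Z⌉₊, ⌈C0 * lam * Real.log Z⌉₊, ⌈Z + 2⌉₊, ?_, ?_,
    Nat.le_ceil _, hu0b, ?_, Nat.ceil_pos.2 hu0pos, Nat.le_ceil _, ?_, ?_⟩
  · have e2 : 1 / Z ^ cR = Real.exp (-((cR : ℝ) * Real.log Z)) := by
      rw [Real.exp_neg, Real.exp_nat_mul, Real.exp_log hZ0, one_div]
    rw [e2]
    exact Real.exp_le_exp.2 (neg_le_neg (Nat.le_ceil _))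
  · have hR2 : ((⌈(cR : ℝ) * Real.log Z⌉₊ : ℕ) : ℝ) ≤ 2 * (cR * Real.log Z) := by
      have h1 := Nat.ceil_lt_add_one (by positivity : 0 ≤ (cR : ℝ) * Real.log Z)
      have h2 : 1 ≤ cR * Real.log Z := by nlinarith
      linarith
    calc _ ≤ (2 * (cR * Real.log Z)) * (2 * lam) := by gcongr
      _ = (64 * cR * (lam * Real.log Z)) / 16 := by ring
      _ ≤ (K * (lam * Real.log Z)) / 16 := by gcongr
      _ ≤ Z / 16 := by linarith
  · refine le_trans ?_ (Nat.le_ceil _)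
    have h1 : 10 ≤ C0 * Real.log Z := by
      rw [div_le_iff₀ hC0] at hC0Z
      linarith
    calc 10 * lam ≤ (C0 * Real.log Z) * lam := mul_le_mul_of_nonneg_right h1 (by linarith)
      _ = _ := by ring
  · have := Nat.ceil_lt_add_one (show 0 ≤ Z + 2 by linarith)
    linarith
  · have : ((⌈C0 * lam * Real.log Z⌉₊ : ℕ) : ℝ) ≤ ((⌈Z + 2⌉₊ : ℕ) : ℝ) := by
      have := Nat.le_ceil (Z + 2)
      linarith
    exact_mod_cast this

/-- **the energy in a window at a good scale** -/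
theorem window_energy : ∃ c₀ : ℝ, 0 < c₀ ∧ ∀ c₁ : ℝ, 0 < c₁ → c₁ ≤ c₀ → ∀ A : ℕ, ∃ K Z0 : ℝ,
    1 ≤ K ∧ 1 ≤ Z0 ∧ ∀ Q : ℕ, NRZ c₁ Q → ∀ Z : ℝ, Z0 ≤ Z → √Z ≤ Real.log Q →
    K * Real.log Q * Real.log Z ≤ Z → ∀ N z0 : ℕ, Real.exp (Z + 5) ≤ N → Real.log N ≤ 4 * Z →
    Real.log z0 + 1 ≤ Z → 2 * Q ^ 5 ≤ z0 →
    ∫ z in Z..(Z + 1), EE (1 / (Q : ℝ) ^ 3) Q (Ioc z0 N) (cE Q) z ≤ 1 / Z ^ A := by
  obtain ⟨c₀, hc₀, hMg⟩ := M_good
  refine ⟨c₀, hc₀, fun c₁ hc₁ hc₁₀ A => ?_⟩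
  obtain ⟨C0, Kc, hC0, hKc, hMG⟩ := hMg c₁ hc₁ hc₁₀ (A + 12)
  clear hMg
  obtain ⟨ck, Zk, hck, hZk, hKT⟩ := KT (A + 3)
  obtain ⟨CV, hCV, hVl⟩ := Vz_inv_log
  obtain ⟨C3, hC3, h3l⟩ := exp_sum_inv 3
  obtain ⟨C10, hC10, h10l⟩ := exp_sum_inv 10
  obtain ⟨Cφ, hCφ, hφs⟩ := phi_sum
  -- the constants
  obtain ⟨KK, hKK⟩ : ∃ KK : ℝ, KK = 480000 * Kc ^ 2 + 480 * CV ^ 2 * C10 + 2 * CV * C3 + 6 * Cφ + 100 :=
    ⟨_, rfl⟩
  have hev1 := ev_exp_sqrt (A + 12) 11 (by norm_num)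
  have hev2 := ev_exp_sqrt (A + 10) 100000 (by norm_num)
  have hev3 : ∀ᶠ Z : ℝ in atTop, 10 / C0 ≤ Real.log Z := Real.tendsto_log_atTop.eventually_ge_atTop _
  obtain ⟨Z1, hZ1⟩ := (hev1.and (hev2.and hev3)).exists_forall_of_atTop
  refine ⟨max (max 100 (64 * ((A + 20 : ℕ) : ℝ))) (max (16 * C0) (3 / ck)),
    max (max Z1 Zk) (max 20 (100 * KK ^ 2)), by
    refine le_trans ?_ ((le_max_left _ _).trans (le_max_left _ _)); norm_num,
    by refine le_trans ?_ ((le_max_left _ _).trans (le_max_right _ _)); norm_num,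
    fun Q hNR Z hZ hlam1 hlam2 N z0 hN hlN hz0 hz0Q => ?_⟩
  obtain ⟨K, hK⟩ : ∃ K : ℝ, K = max (max 100 (64 * ((A + 20 : ℕ) : ℝ))) (max (16 * C0) (3 / ck)) :=
    ⟨_, rfl⟩
  rw [← hK] at hlam2
  have hK100 : 100 ≤ K := by rw [hK]; exact (le_max_left _ _).trans (le_max_left _ _)
  have hK64 : 64 * ((A + 20 : ℕ) : ℝ) ≤ K := by rw [hK]; exact (le_max_right _ _).trans (le_max_left _ _)
  have hK16 : 16 * C0 ≤ K := by rw [hK]; exact (le_max_left _ _).trans (le_max_right _ _)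
  have hKck : 3 / ck ≤ K := by rw [hK]; exact (le_max_right _ _).trans (le_max_right _ _)
  clear hK
  have hZ20 : 20 ≤ Z := ((le_max_left _ _).trans (le_max_right _ _)).trans hZ
  have hZKK : 100 * KK ^ 2 ≤ Z := ((le_max_right _ _).trans (le_max_right _ _)).trans hZ
  have hZk' : Zk ≤ Z := ((le_max_right _ _).trans (le_max_left _ _)).trans hZ
  obtain ⟨hE1, hE2, hE3⟩ := hZ1 Z (((le_max_left _ _).trans (le_max_left _ _)).trans hZ)
  clear hev1 hev2 hev3 hZ1 hZ hZk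
  have hZ0 : 0 < Z := by linarith only [hZ20]
  have hZ1' : 1 ≤ Z := by linarith only [hZ20]
  have hsq1 : 1 ≤ √Z := by rw [Real.one_le_sqrt]; exact hZ1'
  obtain ⟨lam, hlam⟩ : ∃ lam : ℝ, lam = Real.log Q := ⟨_, rfl⟩
  rw [← hlam] at hlam1 hlam2
  have hlam0 : 1 ≤ lam := hsq1.trans hlam1
  have hlam00 : 0 ≤ lam := zero_le_one.trans hlam0
  have hQn : 2 ≤ Q := by
    by_contra hcon
    have : Q = 0 ∨ Q = 1 := by omega
    rcases this with h | h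
    · rw [h] at hlam
      simp only [Nat.cast_zero, Real.log_zero] at hlam
      linarith only [hlam, hlam0]
    · rw [h] at hlam
      simp only [Nat.cast_one, Real.log_one] at hlam
      linarith only [hlam, hlam0]
  have hQ1 : 1 ≤ Q := by omega
  have hQr : (0 : ℝ) < Q := by exact_mod_cast (by omega : 0 < Q)
  have hQr1 : (1 : ℝ) ≤ Q := by exact_mod_cast hQ1
  have hQe : (Q : ℝ) = Real.exp lam := by rw [hlam, Real.exp_log hQr]
  obtain ⟨hlamZ, R, u0, U, hexpR, hR2, hu0a, hu0b, hu0c, hu01, hU1, hU2, hu0U⟩ :=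
    params (cR := A + 20) (by omega) hZ20 hlam0 hC0 hE3 hK100 hK64 hK16 hlam2
  -- the parameters
  obtain ⟨h, hh⟩ : ∃ h : ℝ, h = 1 / (Q : ℝ) ^ 3 := ⟨_, rfl⟩
  rw [← hh]
  have hh0 : 0 < h := by rw [hh]; positivity
  have hh1 : h ≤ 1 := by
    rw [hh, div_le_one (by positivity)]
    exact one_le_pow₀ hQr1
  have hhe : h = Real.exp (-(3 * lam)) := by
    rw [hh, hQe, ← Real.exp_nat_mul, Real.exp_neg, one_div]
    norm_num
  have hlogQ1 : Real.log ((Q : ℝ) + 1) ≤ 2 * lam := by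
    have h1 : (Q : ℝ) + 1 ≤ (Q : ℝ) ^ 2 := by
      have : (2 : ℝ) ≤ Q := by exact_mod_cast hQn
      nlinarith only [this]
    have h2 := Real.log_le_log (by positivity) h1
    rw [Real.log_pow, ← hlam] at h2
    exact_mod_cast h2
  have hRl : R * Real.log ((Q : ℝ) + 1) ≤ Z / 16 :=
    (mul_le_mul_of_nonneg_left hlogQ1 (Nat.cast_nonneg _)).trans hR2
  have hRZ : R * Real.log ((Q : ℝ) + 1) + 2 ≤ Z := by linarith only [hRl, hZ20]
  have hQR : ((Q : ℝ) + 1) ^ R ≤ Real.exp (Z / 16) := by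
    rw [← Real.exp_log (by positivity : 0 < ((Q : ℝ) + 1) ^ R), Real.log_pow]
    exact Real.exp_le_exp.2 hRl
  have hUN : Real.exp ((U : ℝ) + 1) ≤ N := le_trans (Real.exp_le_exp.2 (by linarith only [hU2])) hN
  have hN0 : (0 : ℝ) < N := lt_of_lt_of_le (Real.exp_pos _) hN
  have hN1 : 1 ≤ N := by exact_mod_cast hN0
  have hlN0 : 0 ≤ Real.log N := Real.log_natCast_nonneg N
  have hL2 : (Nat.log 2 N : ℝ) ≤ 8 * Z := by
    have := natlog_two_le N hN1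
    linarith only [this, hlN]
  have hwr : ((2 * Q ^ 5 : ℕ) : ℝ) = 2 * (Q : ℝ) ^ 5 := by push_cast; ring
  have hlw : Real.log ((2 * Q ^ 5 : ℕ) : ℝ) ≤ Z / 16 + 1 := by
    rw [hwr, Real.log_mul (by norm_num) (by positivity), Real.log_pow, ← hlam]
    have := Real.log_two_lt_d9
    push_cast
    linarith only [this, hlamZ, hZ20]
  have hZw : Real.log ((2 * Q ^ 5 : ℕ) : ℝ) + u0 + 3 ≤ Z := by linarith only [hlw, hu0b, hZ20]
  -- `exp (-√Z)` bounds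
  have hX : ∀ j : ℕ, j ≤ A + 10 → 100000 * (Z ^ j * Real.exp (-√Z)) ≤ 1 := by
    intro j hj
    have e1 : Z ^ j ≤ Z ^ (A + 10) := pow_le_pow_right₀ hZ1' hj
    have e2 := mul_le_mul_of_nonneg_right e1 (Real.exp_pos (-√Z)).le
    linarith only [e2, hE2]
  have hX0 : 100000 * Real.exp (-√Z) ≤ 1 := by
    have := hX 0 (by omega)
    rwa [pow_zero, one_mul] at this
  have hel : Real.exp (-lam) ≤ 1 / Z ^ (A + 3) := by
    rw [le_div_iff₀ (by positivity)]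
    have h1 := hX (A + 3) (by omega)
    have h0 : 0 ≤ Z ^ (A + 3) * Real.exp (-√Z) := by positivity
    calc Real.exp (-lam) * Z ^ (A + 3) ≤ Real.exp (-√Z) * Z ^ (A + 3) :=
          mul_le_mul_of_nonneg_right (Real.exp_le_exp.2 (neg_le_neg hlam1)) (by positivity)
      _ = Z ^ (A + 3) * Real.exp (-√Z) := mul_comm _ _
      _ ≤ 1 := by linarith only [h1, h0]
  have hlamZ' : lam ≤ Z := by linarith only [hlamZ, hZ20]
  -- the non principal characters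
  obtain ⟨M, hM⟩ : ∃ M : ℝ, M = Kc * (Z ^ 2 / Z ^ (A + 12)) := ⟨_, rfl⟩
  have hM0 : 0 ≤ M := by rw [hM]; positivity
  have hw1 : 1 ≤ 2 * Q ^ 5 := by have := Nat.one_le_pow 5 Q hQ1; omega
  have hNP := np_total (Q := Q) (N := N) (u0 := u0) (U := U) (w := 2 * Q ^ 5) (h := h) (Z := Z)
    (E := Real.exp (-(2 * lam))) (M := M) hQ1 hN1 hh.ge hh1 le_rfl (Real.exp_pos _).le hM0 hUN
    (by
      intro q _ hqQ χ hχ u hu ξ
      rw [mem_Icc] at hu
      have hu1 : (u0 : ℝ) ≤ u := by exact_mod_cast hu.1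
      have hu2 : (u : ℝ) ≤ U := by exact_mod_cast hu.2
      have h1 : (1 : ℝ) ≤ u := le_trans (by exact_mod_cast hu01) hu1
      rw [hM]
      exact hMG Q hNR q hqQ χ hχ Z h u hZ20 hE1 (by rw [← hlam]; exact hlam1)
        (by rw [← hlam]; exact hlamZ') hh.ge hh1 h1
        (by rw [← hlam]; exact hu0a.trans hu1) (by linarith only [hu2, hU2]) ξ)
    (by
      intro q _ hqQ χ hχ z hz1 hz2
      have hq : 0 < q := Nat.pos_of_ne_zero (NeZero.ne q)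
      have h1 := decomp_tau hχ hh0 hh1 (2 * Q ^ 5) N u0 U hw1
        hz1 hz2 hu01 hu0U hU1 hUN hZw
      refine h1.trans ?_
      have h2 := hX 4 (by omega)
      exact E_bound (Z := Z) (lam := lam) (q := (q : ℝ)) (Q := (Q : ℝ)) (w := ((2 * Q ^ 5 : ℕ) : ℝ))
        (z := z) (u0 := (u0 : ℝ)) (L2 := (Nat.log 2 N : ℝ)) (lN := Real.log N) hZ20 h2 hlam1 hlamZ hQe
        (Nat.cast_nonneg _) (by exact_mod_cast hqQ) hwr hz1 hz2
        (Nat.cast_nonneg _) hu0b hu0c (Nat.cast_nonneg _) hL2 hlN0 hlN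
        (by rw [hlam]; exact Real.log_le_log (by exact_mod_cast hq) (by exact_mod_cast hqQ)) hh)
  have hcard : ((Icc u0 U).card : ℝ) ≤ 2 * Z := by
    rw [Nat.card_Icc]
    have : ((U + 1 - u0 : ℕ) : ℝ) ≤ U := by exact_mod_cast (by omega : U + 1 - u0 ≤ U)
    linarith only [this, hU2, hZ20]
  have hNPb := NP_bound (Z := Z) (lam := lam) (Q := (Q : ℝ)) (card := ((Icc u0 U).card : ℝ)) (M := M)
    (lN := Real.log N) (Kc := Kc) A hZ20 hQe hel hlam00 (Nat.cast_nonneg _) hcard hM hlN0 hlN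
  -- the truncated sieve
  have hV0 := Vz_pos Q
  have hVinv0 : 0 ≤ (Vz Q)⁻¹ := (inv_pos.2 hV0).le
  obtain ⟨BM, hBM⟩ : ∃ BM : ℝ, (Vz Q)⁻¹ * (((Q : ℝ) + 1) ^ R * (Q * Q * (48 * (Real.exp (-Z) / h ^ 2)))) = BM :=
    ⟨_, rfl⟩
  have hBMb : BM ≤ Real.exp (-lam) := by
    rw [← hBM]
    exact BM_bound hZ20 hX0 hlamZ hQe (Vz_inv_le Q hQ1) (by positivity) hQR hh
  have hBM0 : 0 ≤ BM := by rw [← hBM]; positivity
  -- the sieve model for the principal character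
  obtain ⟨P, hP⟩ : ∃ P : ℝ, (Vz Q)⁻¹ * (((Q : ℝ) + 1) ^ R * (32 * Real.exp (-Z) / h ^ 2) +
        2 * Real.exp (3 * ∑ p ∈ pz Q, 1 / (p : ℝ) - R)) = P := ⟨_, rfl⟩
  have hVlog : (Vz Q)⁻¹ ≤ CV * Z := (hVl Q hQn).trans (by
    apply mul_le_mul_of_nonneg_left _ (zero_le_one.trans hCV)
    rw [← hlam]
    exact hlamZ')
  have h3' : Real.exp (3 * ∑ p ∈ pz Q, 1 / (p : ℝ)) ≤ C3 * Z ^ 3 := by
    have := h3l Q hQn
    push_cast at this
    refine this.trans ?_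
    rw [← hlam]
    exact mul_le_mul_of_nonneg_left (pow_le_pow_left₀ hlam00 hlamZ' 3) (zero_le_one.trans hC3)
  have h10' : Real.exp (10 * ∑ p ∈ pz Q, 1 / (p : ℝ)) ≤ C10 * Z ^ 10 := by
    have := h10l Q hQn
    push_cast at this
    refine this.trans ?_
    rw [← hlam]
    exact mul_le_mul_of_nonneg_left (pow_le_pow_left₀ hlam00 hlamZ' 10) (zero_le_one.trans hC10)
  have hPb : P ≤ 1 / Z ^ (A + 3) + 2 * CV * C3 * (1 / Z ^ (A + 3)) := by
    rw [← hP, sub_eq_add_neg, Real.exp_add]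
    exact P_bound A hZ20 hel hQr1 hCV hC3 hVinv0 hVlog (by positivity) hh0 hBM hBMb
      (Real.exp_pos _).le hexpR (Real.exp_pos _).le h3'
  have hP0 : 0 ≤ P := by rw [← hP]; positivity
  -- the large sieve terms
  have hT2 : ∫ z, EE h Q (Ioc z0 N) (c2 Q) z ≤ 1 / Z ^ (A + 3) := by
    rw [EE_integral hh0]
    refine (ls_weight hQ1 hz0Q (c2 Q) hh.ge hh1).trans ?_
    refine (mul_le_mul_of_nonneg_left (c2_sum hQ1 hz0Q) (by norm_num)).trans ?_
    have hz0r : (Q : ℝ) ^ 2 ≤ √z0 := by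
      apply Real.le_sqrt_of_sq_le
      rw [← pow_mul]
      have e1 : (Q : ℝ) ^ (2 * 2) ≤ (Q : ℝ) ^ 5 := pow_le_pow_right₀ hQr1 (by norm_num)
      have e2 : 2 * (Q : ℝ) ^ 5 ≤ z0 := by exact_mod_cast hz0Q
      have e3 : 0 < (Q : ℝ) ^ 5 := by positivity
      linarith only [e1, e2, e3]
    exact (T2_bound hZ20 (hX 4 (by omega)) hlam1 hQe hz0r hlN0 hlN (Nat.cast_nonneg _) hL2).trans hel
  have hTe : ∫ z, EE h Q (Ioc z0 N) (ce Q R) z ≤ 480 * CV ^ 2 * C10 * (1 / Z ^ (A + 3)) := by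
    rw [EE_integral hh0]
    refine (ls_weight hQ1 hz0Q (ce Q R) hh.ge hh1).trans ?_
    refine (mul_le_mul_of_nonneg_left (ce_sum Q R z0 N) (by norm_num)).trans ?_
    exact Te_bound A hZ20 hCV hC10 hVinv0 hVlog hlN0 hlN (Real.exp_pos _).le hexpR
      (Real.exp_pos _).le h10'
  have hT1 := hKT Z (3 * lam) h hZk' hhe (by linarith only [hlam1, hlam00]) (by
    have h1 : 3 ≤ ck * K := by
      rw [div_le_iff₀ hck] at hKck
      linarith only [hKck]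
    have hlogZ : 0 ≤ Real.log Z := Real.log_nonneg hZ1'
    calc 3 * lam * Real.log Z = 3 * (lam * Real.log Z) := by ring
      _ ≤ (ck * K) * (lam * Real.log Z) := mul_le_mul_of_nonneg_right h1 (by positivity)
      _ = ck * (K * lam * Real.log Z) := by ring
      _ ≤ ck * Z := mul_le_mul_of_nonneg_left hlam2 hck.le) N
      (le_trans (Real.exp_le_exp.2 (by linarith only)) hN)
  have hΦ := hφs Q hQ1
  have hW := window_raw (Q := Q) (R := R) (z0 := z0) (N := N) hQ1 (h := h) (Z := Z) (BM := BM) (P := P)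
    hh.ge hz0Q (by linarith only [hz0, hh1]) hΦ (by
      intro z hz1 hz2 q _ hqQ χ hχ
      refine (Mq_np hχ Q R N hh0 hh1 (by linarith only [hRZ, hz1])
        (le_trans (Real.exp_le_exp.2 (by linarith only [hz2, hh1])) hN)).trans ?_
      rw [← hBM]
      have e1 : (q : ℝ) ≤ Q := by exact_mod_cast hqQ
      have e2 : Real.exp (-z) ≤ Real.exp (-Z) := Real.exp_le_exp.2 (neg_le_neg hz1)
      gcongr) (by
      intro z hz1 hz2
      refine (lamz_pr Q R N hh0 hh1 (by linarith only [hRZ, hz1])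
        (le_trans (Real.exp_le_exp.2 (by linarith only [hz2, hh1])) hN)).trans ?_
      rw [← hP]
      have e2 : Real.exp (-z) ≤ Real.exp (-Z) := Real.exp_le_exp.2 (neg_le_neg hz1)
      gcongr) (hNP.trans hNPb) hT1 hT2 hTe
  refine hW.trans ?_
  refine le_trans (le_of_eq ?_) (final_bound (lQ := Real.log Q) A hZ20 hQe hel hCV hC3 hC10 hCφ hKc hKK hZKK
    (by rw [← hlam]; linarith only [hlamZ, hZ20]) hP0 hPb hBM0 hBMb)
  ring

end Pool.Agent.R521.F6
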