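import Pool.Agent.Helper112.LS

set_option autoImplicit false

/-!
# The discrete circle method: an L¹ bound for correlations
-/

open Finset
open scoped Real
open Pool.Agent.Helper112

namespace Pool.Agent.R521.F6

lemma ee_int_one (j : ℤ) : ee (j : ℝ) = 1 := by
  unfold ee
  rw [Complex.exp_eq_one_iff]
  exact ⟨j, by push_cast; ring⟩

lemma ee_eq_one_iff (x : ℝ) : ee x = 1 ↔ ∃ j : ℤ, x = j := by
  unfold ee
  rw [Complex.exp_eq_one_iff]
  constructor
  · rintro ⟨j, hj⟩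
    refine ⟨j, ?_⟩
    have h1 : (2 * (Real.pi : ℂ) * Complex.I) ≠ 0 := by
      simp [Real.pi_ne_zero, Complex.I_ne_zero]
    have h2 : (2 * (Real.pi : ℂ) * Complex.I) * (x : ℂ) = (2 * (Real.pi : ℂ) * Complex.I) * (j : ℂ) := by
      linear_combination hj
    have h3 := mul_left_cancel₀ h1 h2
    exact_mod_cast h3
  · rintro ⟨j, rfl⟩
    exact ⟨j, by push_cast; ring⟩

lemma ee_mul (x y : ℝ) : ee (x + y) = ee x * ee y := ls_ee_add x y

lemma ee_nat_mul (a : ℕ) (x : ℝ) : ee (a * x) = ee x ^ a := by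
  unfold ee
  rw [← Complex.exp_nat_mul]
  congr 1
  push_cast
  ring

/-- orthogonality -/
lemma orth_ee {X : ℕ} (hX : 0 < X) (j : ℤ) :
    ∑ a ∈ range X, ee (a * ((j : ℝ) / X)) = if (X : ℤ) ∣ j then (X : ℂ) else 0 := by
  have hX0 : (X : ℝ) ≠ 0 := by exact_mod_cast hX.ne'
  split_ifs with h
  · obtain ⟨m, rfl⟩ := h
    have h1 : ∀ a ∈ range X, ee (a * ((((X : ℤ) * m : ℤ) : ℝ) / X)) = 1 := by
      intro a _
      have : (a : ℝ) * ((((X : ℤ) * m : ℤ) : ℝ) / X) = (((a : ℤ) * m : ℤ) : ℝ) := by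
        push_cast
        field_simp
      rw [this, ee_int_one]
    rw [sum_congr rfl h1]
    simp
  · have h1 : ∀ a ∈ range X, ee (a * ((j : ℝ) / X)) = ee ((j : ℝ) / X) ^ a := fun a _ => ee_nat_mul a _
    rw [sum_congr rfl h1]
    have h2 : ee ((j : ℝ) / X) ≠ 1 := by
      rw [Ne, ee_eq_one_iff]
      rintro ⟨m, hm⟩
      apply h
      refine ⟨m, ?_⟩
      rw [div_eq_iff hX0] at hm
      have : (j : ℝ) = ((X * m : ℤ) : ℝ) := by push_cast; linarith
      exact_mod_cast this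
    rw [geom_sum_eq h2]
    have h3 : ee ((j : ℝ) / X) ^ X = 1 := by
      rw [← ee_nat_mul]
      have : (X : ℝ) * ((j : ℝ) / X) = (j : ℝ) := by field_simp
      rw [this, ee_int_one]
    rw [h3, sub_self, zero_div]

lemma conj_ee' (x : ℝ) : (starRingEnd ℂ) (ee x) = ee (-x) := by
  unfold ee
  rw [← Complex.exp_conj]
  congr 1
  simp only [map_mul, Complex.conj_I, Complex.conj_ofReal, map_ofNat]
  push_cast
  ring

/-- Parseval on `range X` -/
lemma parseval_X {X : ℕ} (hX : 0 < X) (K : Finset ℕ) (hK : K ⊆ range X) (c : ℕ → ℂ) :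
    ∑ a ∈ range X, ‖∑ k ∈ K, c k * ee (-(a * ((k : ℝ) / X)))‖ ^ 2 = X * ∑ k ∈ K, ‖c k‖ ^ 2 := by
  have h1 : ∀ a ∈ range X, ((‖∑ k ∈ K, c k * ee (-(a * ((k : ℝ) / X)))‖ ^ 2 : ℝ) : ℂ) =
      ∑ k ∈ K, ∑ l ∈ K, (c k * (starRingEnd ℂ) (c l)) * ee (a * ((((l : ℤ) - k : ℤ) : ℝ) / X)) := by
    intro a _
    push_cast
    rw [← Complex.mul_conj', map_sum, sum_mul_sum]
    apply sum_congr rfl
    intro k _
    apply sum_congr rfl
    intro l _
    rw [map_mul, conj_ee', neg_neg]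
    have e : (a : ℝ) * (((l : ℝ) - k) / X) = -(a * ((k : ℝ) / X)) + a * ((l : ℝ) / X) := by ring
    rw [e, ee_mul]
    ring
  have h2 : ((∑ a ∈ range X, ‖∑ k ∈ K, c k * ee (-(a * ((k : ℝ) / X)))‖ ^ 2 : ℝ) : ℂ) =
      ((X * ∑ k ∈ K, ‖c k‖ ^ 2 : ℝ) : ℂ) := by
    rw [Complex.ofReal_sum, sum_congr rfl h1, sum_comm, Complex.ofReal_mul, Complex.ofReal_sum,
      mul_sum]
    apply sum_congr rfl
    intro k hk
    rw [sum_comm, sum_eq_single k]
    · rw [← mul_sum, orth_ee hX, if_pos (by simp), Complex.mul_conj']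
      push_cast
      ring
    · intro l hl hlk
      rw [← mul_sum, orth_ee hX, if_neg, mul_zero]
      intro hd
      have hk1 := mem_range.1 (hK hk)
      have hl1 := mem_range.1 (hK hl)
      have h5 : |(l : ℤ) - k| < X := by rw [abs_lt]; constructor <;> omega
      have h6 := Int.eq_zero_of_abs_lt_dvd hd h5
      omega
    · intro h3
      exact absurd hk h3
  exact_mod_cast h2

/-- the discrete Fourier transform -/
noncomputable def dft (X M : ℕ) (f : ℕ → ℂ) (k : ℕ) : ℂ := ∑ n ∈ Icc 1 M, f n * ee (n * ((k : ℝ) / X))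

lemma dft_add (X M : ℕ) (f g : ℕ → ℂ) (k : ℕ) :
    dft X M (fun n => f n + g n) k = dft X M f k + dft X M g k := by
  unfold dft
  rw [← sum_add_distrib]
  apply sum_congr rfl
  intro n _
  ring

/-- Fourier inversion -/
lemma inversion {X M : ℕ} (hM : M < X) (f : ℕ → ℂ) {m : ℕ} (hm1 : 1 ≤ m) (hmM : m ≤ M) :
    ∑ k ∈ range X, dft X M f k * ee (-(m * ((k : ℝ) / X))) = X * f m := by
  have hX : 0 < X := by omega
  unfold dft
  simp only [sum_mul]
  rw [sum_comm, sum_eq_single m]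
  · have h1 : ∀ k ∈ range X, f m * ee (m * ((k : ℝ) / X)) * ee (-(m * ((k : ℝ) / X))) = f m := by
      intro k _
      rw [mul_assoc, ← ee_mul, add_neg_cancel, ls_ee_zero, mul_one]
    rw [sum_congr rfl h1]
    simp
  · intro n hn hnm
    rw [mem_Icc] at hn
    have h1 : ∀ k ∈ range X, f n * ee (n * ((k : ℝ) / X)) * ee (-(m * ((k : ℝ) / X))) =
        f n * ee (k * ((((n : ℤ) - m : ℤ) : ℝ) / X)) := by
      intro k _
      rw [mul_assoc, ← ee_mul]
      congr 2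
      push_cast
      ring
    rw [sum_congr rfl h1, ← mul_sum, orth_ee hX, if_neg, mul_zero]
    intro hd
    have h5 : |(n : ℤ) - m| < X := by rw [abs_lt]; constructor <;> omega
    have h6 := Int.eq_zero_of_abs_lt_dvd hd h5
    omega
  · intro h
    exact absurd (mem_Icc.2 ⟨hm1, hmM⟩) h

/-- Parseval for the transform -/
lemma parseval_dft {X M : ℕ} (hM : M < X) (f : ℕ → ℂ) :
    ∑ k ∈ range X, ‖dft X M f k‖ ^ 2 = X * ∑ n ∈ Icc 1 M, ‖f n‖ ^ 2 := by
  have hX : 0 < X := by omega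
  have h := parseval_X hX (Icc 1 M) (fun n hn => by
    rw [mem_Icc] at hn
    rw [mem_range]
    omega) (fun n => (starRingEnd ℂ) (f n))
  have h1 : ∀ k ∈ range X, ‖∑ n ∈ Icc 1 M, (starRingEnd ℂ) (f n) * ee (-(k * ((n : ℝ) / X)))‖ ^ 2 =
      ‖dft X M f k‖ ^ 2 := by
    intro k _
    congr 1
    rw [← RCLike.norm_conj (dft X M f k)]
    congr 1
    unfold dft
    rw [map_sum]
    apply sum_congr rfl
    intro n _
    rw [map_mul, conj_ee']
    congr 2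
    ring
  rw [sum_congr rfl h1] at h
  rw [h]
  congr 1
  apply sum_congr rfl
  intro n _
  rw [RCLike.norm_conj]

/-- the sum of the norms of a function with small square norm along a translate -/
lemma l1_shift {X : ℕ} (S : Finset ℕ) (n : ℕ) (hS : ∀ a ∈ S, n + a < X) (p : ℕ → ℂ) {A : ℝ}
    (hA : ∑ m ∈ range X, ‖p m‖ ^ 2 ≤ A) : ∑ a ∈ S, ‖p (n + a)‖ ≤ √(S.card) * √A := by
  have h1 : ∑ a ∈ S, ‖p (n + a)‖ ≤ √(S.card) * √(∑ a ∈ S, ‖p (n + a)‖ ^ 2) := by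
    rw [← Real.sqrt_mul (Nat.cast_nonneg _)]
    apply Real.le_sqrt_of_sq_le
    exact sq_sum_le_card_mul_sum_sq
  refine h1.trans (mul_le_mul_of_nonneg_left (Real.sqrt_le_sqrt ?_) (Real.sqrt_nonneg _))
  refine le_trans ?_ hA
  have h2 : ∑ a ∈ S, ‖p (n + a)‖ ^ 2 = ∑ m ∈ S.image (fun a => n + a), ‖p m‖ ^ 2 := by
    rw [sum_image]
    intro a _ b _ h
    exact Nat.add_left_cancel h
  rw [h2]
  apply sum_le_sum_of_subset_of_nonneg
  · intro m hm
    rw [mem_image] at hm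
    obtain ⟨a, ha, rfl⟩ := hm
    exact mem_range.2 (hS a ha)
  · intro _ _ _
    positivity

/-- **the L¹ bound of correlations** -/
theorem psi_abs {X M : ℕ} (hM : M < X) (S T : Finset ℕ)
    (hST : ∀ n ∈ T, ∀ a ∈ S, 1 ≤ n + a ∧ n + a ≤ M) (u v : ℕ → ℂ) (K : Finset ℕ) (hK : K ⊆ range X)
    {A1 A2 Mb : ℝ} (hA1 : ∑ k ∈ K, ‖dft X M u k‖ ^ 2 ≤ X * A1)
    (hA2 : ∑ n ∈ Icc 1 M, ‖v n‖ ^ 2 ≤ A2) (hMb0 : 0 ≤ Mb)
    (hMb : ∀ k ∈ range X, k ∉ K → ‖dft X M u k + dft X M v k‖ ≤ Mb) (g : ℕ → ℂ) :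
    ∑ a ∈ S, ‖∑ n ∈ T, g n * u (n + a)‖ ≤
      √(S.card) * (√A1 + √A2) * ∑ n ∈ T, ‖g n‖ + √(S.card) * Mb * √(∑ n ∈ T, ‖g n‖ ^ 2) := by
  have hX : 0 < X := by omega
  have hX0 : (0 : ℝ) < X := by exact_mod_cast hX
  have hXc : (X : ℂ) ≠ 0 := by exact_mod_cast hX.ne'
  set K' := range X \ K with hK'
  have hK'X : K' ⊆ range X := sdiff_subset
  set p : ℕ → ℂ := fun m => (X : ℂ)⁻¹ * ∑ k ∈ K, dft X M u k * ee (-(m * ((k : ℝ) / X))) with hp
  set q : ℕ → ℂ := fun m => (X : ℂ)⁻¹ * ∑ k ∈ K', (dft X M u k + dft X M v k) * ee (-(m * ((k : ℝ) / X)))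
    with hq
  set s : ℕ → ℂ := fun m => (X : ℂ)⁻¹ * ∑ k ∈ K', dft X M v k * ee (-(m * ((k : ℝ) / X))) with hs
  have hu : ∀ m, 1 ≤ m → m ≤ M → u m = p m - s m + q m := by
    intro m hm1 hmM
    have h1 := inversion hM u hm1 hmM
    rw [← sum_sdiff hK, ← hK'] at h1
    have h2 : ∑ k ∈ K', dft X M u k * ee (-(m * ((k : ℝ) / X))) =
        ∑ k ∈ K', (dft X M u k + dft X M v k) * ee (-(m * ((k : ℝ) / X))) -
        ∑ k ∈ K', dft X M v k * ee (-(m * ((k : ℝ) / X))) := by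
      rw [← sum_sub_distrib]
      apply sum_congr rfl
      intro k _
      ring
    rw [h2] at h1
    have h3 : u m = (X : ℂ)⁻¹ * (X * u m) := by field_simp
    rw [h3, ← h1, hp, hq, hs]
    ring
  -- square norms
  have hnorm : ∀ (L : Finset ℕ) (_ : L ⊆ range X) (c : ℕ → ℂ),
      ∑ m ∈ range X, ‖(X : ℂ)⁻¹ * ∑ k ∈ L, c k * ee (-(m * ((k : ℝ) / X)))‖ ^ 2 =
      (X : ℝ)⁻¹ * ∑ k ∈ L, ‖c k‖ ^ 2 := by
    intro L hL c
    simp only [norm_mul, mul_pow]
    rw [← mul_sum, parseval_X hX L hL c, norm_inv, Complex.norm_natCast]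
    field_simp
  have hpn : ∑ m ∈ range X, ‖p m‖ ^ 2 ≤ A1 := by
    rw [hp]
    simp only
    rw [hnorm K hK, inv_mul_le_iff₀ hX0]
    exact hA1
  have hsn : ∑ m ∈ range X, ‖s m‖ ^ 2 ≤ A2 := by
    rw [hs]
    simp only
    rw [hnorm K' hK'X, inv_mul_le_iff₀ hX0]
    have h1 := parseval_dft hM v
    have h2 : ∑ k ∈ K', ‖dft X M v k‖ ^ 2 ≤ ∑ k ∈ range X, ‖dft X M v k‖ ^ 2 :=
      sum_le_sum_of_subset_of_nonneg hK'X fun _ _ _ => by positivity
    rw [h1] at h2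
    exact h2.trans (mul_le_mul_of_nonneg_left hA2 hX0.le)
  have hT1 : ∀ n ∈ T, ∀ a ∈ S, n + a < X := fun n hn a ha => by
    have := (hST n hn a ha).2
    omega
  -- split
  have hsplit : ∀ a ∈ S, ‖∑ n ∈ T, g n * u (n + a)‖ ≤
      ∑ n ∈ T, ‖g n‖ * ‖p (n + a)‖ + ∑ n ∈ T, ‖g n‖ * ‖s (n + a)‖ + ‖∑ n ∈ T, g n * q (n + a)‖ := by
    intro a ha
    have h1 : ∑ n ∈ T, g n * u (n + a) = ∑ n ∈ T, g n * p (n + a) - ∑ n ∈ T, g n * s (n + a) +
        ∑ n ∈ T, g n * q (n + a) := by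
      rw [← sum_sub_distrib, ← sum_add_distrib]
      apply sum_congr rfl
      intro n hn
      have h2 := hST n hn a ha
      rw [hu (n + a) h2.1 h2.2]
      ring
    rw [h1]
    refine (norm_add_le _ _).trans (add_le_add ((norm_sub_le _ _).trans (add_le_add ?_ ?_)) le_rfl)
    · refine (norm_sum_le _ _).trans (le_of_eq (sum_congr rfl fun n _ => norm_mul _ _))
    · refine (norm_sum_le _ _).trans (le_of_eq (sum_congr rfl fun n _ => norm_mul _ _))
  refine (sum_le_sum hsplit).trans ?_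
  rw [sum_add_distrib, sum_add_distrib]
  have b1 : ∑ a ∈ S, ∑ n ∈ T, ‖g n‖ * ‖p (n + a)‖ ≤ √(S.card) * √A1 * ∑ n ∈ T, ‖g n‖ := by
    rw [sum_comm, mul_sum]
    apply sum_le_sum
    intro n hn
    rw [← mul_sum, mul_comm]
    exact mul_le_mul_of_nonneg_right (l1_shift S n (hT1 n hn) p hpn) (norm_nonneg _)
  have b2 : ∑ a ∈ S, ∑ n ∈ T, ‖g n‖ * ‖s (n + a)‖ ≤ √(S.card) * √A2 * ∑ n ∈ T, ‖g n‖ := by
    rw [sum_comm, mul_sum]
    apply sum_le_sum
    intro n hn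
    rw [← mul_sum, mul_comm]
    exact mul_le_mul_of_nonneg_right (l1_shift S n (hT1 n hn) s hsn) (norm_nonneg _)
  have b3 : ∑ a ∈ S, ‖∑ n ∈ T, g n * q (n + a)‖ ≤ √(S.card) * Mb * √(∑ n ∈ T, ‖g n‖ ^ 2) := by
    rcases T.eq_empty_or_nonempty with hTe | ⟨n0, hn0⟩
    · subst hTe
      simp
    rcases S.eq_empty_or_nonempty with hSe | ⟨a0, ha0⟩
    · subst hSe
      simp
    set G : ℕ → ℂ := fun k => ∑ n ∈ T, g n * ee (-(n * ((k : ℝ) / X))) with hG
    have h1 : ∀ a, ∑ n ∈ T, g n * q (n + a) =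
        (X : ℂ)⁻¹ * ∑ k ∈ K', ((dft X M u k + dft X M v k) * G k) * ee (-(a * ((k : ℝ) / X))) := by
      intro a
      rw [hq, hG]
      simp only [mul_sum, sum_mul]
      rw [sum_comm]
      apply sum_congr rfl
      intro k _
      apply sum_congr rfl
      intro n _
      have e : -(((n + a : ℕ) : ℝ) * ((k : ℝ) / X)) = -(n * ((k : ℝ) / X)) + -(a * ((k : ℝ) / X)) := by
        push_cast
        ring
      rw [e, ee_mul]
      ring
    have hTX : T ⊆ range X := by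
      intro n hn
      rw [mem_range]
      have := hT1 n hn a0 ha0
      omega
    have hSX : S ⊆ range X := by
      intro a ha
      rw [mem_range]
      have := hT1 n0 hn0 a ha
      omega
    have h2 : ∑ a ∈ range X, ‖∑ n ∈ T, g n * q (n + a)‖ ^ 2 ≤ Mb ^ 2 * ∑ n ∈ T, ‖g n‖ ^ 2 := by
      simp only [h1]
      rw [hnorm K' hK'X]
      have h3 : ∑ k ∈ K', ‖(dft X M u k + dft X M v k) * G k‖ ^ 2 ≤ Mb ^ 2 * ∑ k ∈ range X, ‖G k‖ ^ 2 := by
        rw [mul_sum]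
        refine le_trans (sum_le_sum fun k hk => ?_) (sum_le_sum_of_subset_of_nonneg hK'X
          fun _ _ _ => by positivity)
        rw [norm_mul, mul_pow]
        apply mul_le_mul_of_nonneg_right _ (by positivity)
        rw [hK', mem_sdiff] at hk
        exact pow_le_pow_left₀ (norm_nonneg _) (hMb k hk.1 hk.2) 2
      have h4 : ∑ k ∈ range X, ‖G k‖ ^ 2 = X * ∑ n ∈ T, ‖g n‖ ^ 2 := by
        have h5 := parseval_X hX T hTX g
        rw [← h5]
        apply sum_congr rfl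
        intro k _
        rw [hG]
        simp only
        congr 2
        apply sum_congr rfl
        intro n _
        congr 2
        ring
      rw [h4] at h3
      rw [inv_mul_le_iff₀ hX0]
      linarith
    have h3 : ∑ a ∈ S, ‖∑ n ∈ T, g n * q (n + a)‖ ≤ √(S.card) *
        √(∑ a ∈ S, ‖∑ n ∈ T, g n * q (n + a)‖ ^ 2) := by
      rw [← Real.sqrt_mul (Nat.cast_nonneg _)]
      apply Real.le_sqrt_of_sq_le
      exact sq_sum_le_card_mul_sum_sq
    refine h3.trans ?_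
    rw [mul_assoc]
    apply mul_le_mul_of_nonneg_left _ (Real.sqrt_nonneg _)
    calc √(∑ a ∈ S, ‖∑ n ∈ T, g n * q (n + a)‖ ^ 2) ≤ √(Mb ^ 2 * ∑ n ∈ T, ‖g n‖ ^ 2) := by
          apply Real.sqrt_le_sqrt
          refine le_trans ?_ h2
          exact sum_le_sum_of_subset_of_nonneg hSX fun _ _ _ => by positivity
      _ = _ := by
          rw [Real.sqrt_mul (by positivity), Real.sqrt_sq hMb0]
  linarith

end Pool.Agent.R521.F6
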