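import Pool.Agent.R521.F6.B8
import Pool.Agent.R521.F6.C2

set_option autoImplicit false

/-!
# The total energy up to `log Y` at a good scale
-/

open Finset MeasureTheory Filter Topology
open scoped Real
open Pool.Agent.Helper112
open scoped ArithmeticFunction.vonMangoldt

namespace Pool.Agent.R521.F6

open Pool.Agent.W66 Pool.Agent.W66L Pool.Agent.TH823.PS
open Pool.Agent.H373R2.T7 (pz Vz lamz mem_pz Vz_pos Vz_le_one lamz_nonneg)

lemma EE_exp_int {h : ℝ} (hh : 0 < h) (Q : ℕ) (L : Finset ℕ) (c : ℕ → ℂ) (b : ℝ) :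
    IntegrableOn (fun x => Real.exp x * EE h Q L c x) (Set.Iic b) := by
  have h1 : IntegrableOn (EE h Q L c) (Set.Iic b) := (EE_int hh Q L c).integrableOn
  refine Integrable.bdd_mul (c := Real.exp b) h1 Real.continuous_exp.aestronglyMeasurable ?_
  refine (ae_restrict_iff' measurableSet_Iic).2 (Eventually.of_forall fun x hx => ?_)
  rw [Real.norm_of_nonneg (Real.exp_pos x).le]
  exact Real.exp_le_exp.2 hx

/-- the part of small `x` -/
lemma EE_low {h : ℝ} (hh : 0 < h) (Q : ℕ) (L : Finset ℕ) (c : ℕ → ℂ) (b : ℝ) :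
    ∫ x in Set.Iic b, Real.exp x * EE h Q L c x ≤ Real.exp b * ∫ x, EE h Q L c x := by
  have h1 : IntegrableOn (EE h Q L c) (Set.Iic b) := (EE_int hh Q L c).integrableOn
  calc ∫ x in Set.Iic b, Real.exp x * EE h Q L c x ≤ ∫ x in Set.Iic b, Real.exp b * EE h Q L c x := by
        apply setIntegral_mono_on (EE_exp_int hh Q L c b) (h1.const_mul _) measurableSet_Iic
        intro x hx
        exact mul_le_mul_of_nonneg_right (Real.exp_le_exp.2 hx) (EE_nonneg _ _ _ _ _)
    _ = Real.exp b * ∫ x in Set.Iic b, EE h Q L c x := integral_const_mul _ _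
    _ ≤ _ := by
        apply mul_le_mul_of_nonneg_left _ (Real.exp_pos b).le
        exact setIntegral_le_integral (EE_int hh Q L c)
          (Eventually.of_forall fun z => EE_nonneg _ _ _ _ _)

lemma exp_geom (J : ℕ) : ∑ j ∈ range J, Real.exp (j : ℝ) ≤ Real.exp J := by
  induction J with
  | zero => simp
  | succ n ih =>
    rw [sum_range_succ]
    have h1 : Real.exp ((n + 1 : ℕ) : ℝ) = Real.exp 1 * Real.exp n := by
      rw [← Real.exp_add]
      congr 1
      push_cast
      ring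
    rw [h1]
    have h2 := Real.exp_one_gt_d9
    have h3 := Real.exp_pos (n : ℝ)
    nlinarith

/-- the windows -/
lemma EE_high {h : ℝ} (Q : ℕ) (L : Finset ℕ) (c : ℕ → ℂ) (x0 b D : ℝ) (hD : 0 ≤ D)
    (hxb : x0 ≤ b)
    (hW : ∀ Z, x0 ≤ Z → Z ≤ b → ∫ z in Z..(Z + 1), EE h Q L c z ≤ D) :
    ∫ x in x0..b, Real.exp x * EE h Q L c x ≤ Real.exp (b + 2) * D := by
  set J := ⌈b - x0⌉₊ with hJ
  have hJ1 : b - x0 ≤ J := Nat.le_ceil _
  have hJ2 : (J : ℝ) < b - x0 + 1 := Nat.ceil_lt_add_one (by linarith)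
  have hc : Continuous fun x => Real.exp x * EE h Q L c x := Real.continuous_exp.mul (EE_cont _ _ _ _)
  have h1 : ∫ x in x0..b, Real.exp x * EE h Q L c x ≤ ∫ x in x0..(x0 + J), Real.exp x * EE h Q L c x := by
    apply intervalIntegral.integral_mono_interval le_rfl hxb (by linarith)
    · exact Eventually.of_forall fun x => mul_nonneg (Real.exp_pos x).le (EE_nonneg _ _ _ _ _)
    · exact hc.intervalIntegrable _ _
  have h2 : ∫ x in x0..(x0 + J), Real.exp x * EE h Q L c x =
      ∑ j ∈ range J, ∫ x in (x0 + j)..(x0 + j + 1), Real.exp x * EE h Q L c x := by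
    have h3 := intervalIntegral.sum_integral_adjacent_intervals (μ := volume)
      (f := fun x => Real.exp x * EE h Q L c x) (a := fun j : ℕ => x0 + j) (n := J)
      (fun j _ => hc.intervalIntegrable _ _)
    simp only [Nat.cast_zero, add_zero] at h3
    rw [← h3]
    apply sum_congr rfl
    intro j _
    push_cast
    rw [add_assoc]
  have h4 : ∀ j ∈ range J, ∫ x in (x0 + j)..(x0 + j + 1), Real.exp x * EE h Q L c x ≤
      Real.exp (x0 + 1) * D * Real.exp j := by
    intro j hj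
    rw [mem_range] at hj
    have hjb : x0 + j ≤ b := by
      have h5 : (j : ℝ) + 1 ≤ J := by exact_mod_cast hj
      linarith
    have hj0 : (0 : ℝ) ≤ j := Nat.cast_nonneg j
    calc ∫ x in (x0 + j)..(x0 + j + 1), Real.exp x * EE h Q L c x ≤
        ∫ x in (x0 + j)..(x0 + j + 1), Real.exp (x0 + j + 1) * EE h Q L c x := by
          apply intervalIntegral.integral_mono_on (by linarith)
          · exact hc.intervalIntegrable _ _
          · exact ((EE_cont _ _ _ _).intervalIntegrable _ _).const_mul _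
          · intro x hx
            exact mul_le_mul_of_nonneg_right (Real.exp_le_exp.2 hx.2) (EE_nonneg _ _ _ _ _)
      _ = Real.exp (x0 + j + 1) * ∫ x in (x0 + j)..(x0 + j + 1), EE h Q L c x :=
          intervalIntegral.integral_const_mul _ _
      _ ≤ Real.exp (x0 + j + 1) * D := by
          apply mul_le_mul_of_nonneg_left _ (Real.exp_pos _).le
          exact hW (x0 + j) (by linarith) hjb
      _ = Real.exp (x0 + 1) * D * Real.exp j := by
          rw [show x0 + j + 1 = (x0 + 1) + j by ring, Real.exp_add]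
          ring
  calc _ ≤ _ := h1
    _ = _ := h2
    _ ≤ ∑ j ∈ range J, Real.exp (x0 + 1) * D * Real.exp j := sum_le_sum h4
    _ = Real.exp (x0 + 1) * D * ∑ j ∈ range J, Real.exp (j : ℝ) := (mul_sum _ _ _).symm
    _ ≤ Real.exp (x0 + 1) * D * Real.exp J :=
        mul_le_mul_of_nonneg_left (exp_geom J) (by positivity)
    _ = Real.exp (x0 + 1 + J) * D := by rw [Real.exp_add (x0 + 1)]; ring
    _ ≤ _ := by
        apply mul_le_mul_of_nonneg_right _ hD
        apply Real.exp_le_exp.2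
        linarith

/-- size of `Eb` -/
lemma Eb_abs {Q n : ℕ} {B : ℝ} (hB0 : 0 ≤ B) (hB1 : Real.log n ≤ B) (hB2 : (Vz Q)⁻¹ ≤ B) :
    |Eb Q n| ≤ B := by
  have h1 : Pq Q n ≤ B := by
    unfold Pq
    split_ifs
    · exact hB1
    · exact hB0
  have h2 : lamz Q n ≤ B := by
    unfold lamz
    split_ifs
    · exact hB2
    · exact hB0
  have h3 := Pq_nonneg Q n
  have h4 := lamz_nonneg Q n
  unfold Eb
  rw [abs_le]
  constructor <;> linarith

lemma cE_sum {Q z0 N : ℕ} {B : ℝ} (hB1 : Real.log N ≤ B) (hB2 : (Vz Q)⁻¹ ≤ B) :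
    ∑ n ∈ Ioc z0 N, (n : ℝ) * ‖cE Q n‖ ^ 2 ≤ B ^ 2 * (1 + Real.log N) := by
  have hB0 : 0 ≤ B := (Real.log_natCast_nonneg N).trans hB1
  have h1 : ∀ n ∈ Ioc z0 N, (n : ℝ) * ‖cE Q n‖ ^ 2 ≤ B ^ 2 * (1 / n) := by
    intro n hn
    rw [mem_Ioc] at hn
    have hn0 : (0 : ℝ) < n := by
      have : 0 < n := by omega
      exact_mod_cast this
    have h2 := Eb_abs (Q := Q) (n := n) hB0
      ((Real.log_le_log hn0 (by exact_mod_cast hn.2)).trans hB1) hB2
    unfold cE
    rw [Complex.norm_real, Real.norm_eq_abs, abs_div, abs_of_pos hn0]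
    have h3 := pow_le_pow_left₀ (abs_nonneg _) h2 2
    calc (n : ℝ) * (|Eb Q n| / n) ^ 2 = |Eb Q n| ^ 2 * (1 / n) := by field_simp
      _ ≤ _ := mul_le_mul_of_nonneg_right h3 (by positivity)
  refine (sum_le_sum h1).trans ?_
  rw [← mul_sum]
  apply mul_le_mul_of_nonneg_left _ (by positivity)
  have h2 := harm_mult N 1 le_rfl
  simp only [one_dvd, if_true, Nat.cast_one, div_one] at h2
  refine le_trans ?_ h2
  apply sum_le_sum_of_subset_of_nonneg
  · intro n hn
    rw [mem_Ioc] at hn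
    rw [mem_Icc]
    omega
  · intro n _ _
    positivity

/-- eventually a power of the logarithm is below the square root -/
lemma ev_logpow (k : ℕ) (C : ℝ) : ∀ᶠ Y : ℝ in atTop, C * Real.log Y ^ k ≤ √Y := by
  have h2 := (Real.isLittleO_pow_log_id_atTop (n := 2 * k)).bound
    (show (0 : ℝ) < 1 / (C ^ 2 + 1) by positivity)
  filter_upwards [h2, eventually_ge_atTop 1] with Y h3 h4
  have hl : 0 ≤ Real.log Y := Real.log_nonneg h4
  simp only [id] at h3
  rw [Real.norm_of_nonneg (by positivity), Real.norm_of_nonneg (by linarith), one_div, inv_mul_eq_div,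
    le_div_iff₀ (by positivity)] at h3
  apply Real.le_sqrt_of_sq_le
  have h5 : 0 ≤ Real.log Y ^ (2 * k) := by positivity
  calc (C * Real.log Y ^ k) ^ 2 = C ^ 2 * Real.log Y ^ (2 * k) := by rw [mul_pow, ← pow_mul, mul_comm k 2]
    _ ≤ Y := by nlinarith

/-- **the total energy** -/
theorem energy_total : ∃ c₀ : ℝ, 0 < c₀ ∧ ∀ c₁ : ℝ, 0 < c₁ → c₁ ≤ c₀ → ∀ A : ℕ, ∃ K Y0 : ℝ,
    1 ≤ K ∧ ∀ Q : ℕ, NRZ c₁ Q → ∀ Y : ℕ, Y0 ≤ Y → Real.log Y ≤ Real.log Q ^ 2 →
    K * Real.log Q * Real.log (Real.log Y) ≤ Real.log Y →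
    ∫ x in Set.Iic (Real.log Y), Real.exp x * EE (1 / (Q : ℝ) ^ 3) Q (Ioc (2 * Q ^ 5) (200 * Y)) (cE Q) x ≤
      Y / Real.log Y ^ A := by
  obtain ⟨c₀, hc₀, hWE⟩ := window_energy
  refine ⟨c₀, hc₀, fun c₁ hc₁ hc₁₀ A => ?_⟩
  obtain ⟨K, Z0, hK, hZ0, hW⟩ := hWE c₁ hc₁ hc₁₀ (A + 1)
  clear hWE
  obtain ⟨CV, hCV, hVl⟩ := Vz_inv_log
  have hlogt := Real.tendsto_log_atTop
  have e1 : ∀ᶠ Y : ℝ in atTop, max (max (2 * Z0) 100) (16 * 2 ^ (A + 1) * 2) ≤ Real.log Y :=
    hlogt.eventually_ge_atTop _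
  have e2 := ev_logpow (A + 3) (96 * CV ^ 2 * 2 ^ 3 * 4)
  have e3 : ∀ᶠ Y : ℝ in atTop, (1 : ℝ) ≤ Real.log (Real.log Y) :=
    (hlogt.comp hlogt).eventually_ge_atTop 1
  obtain ⟨Y0, hY0⟩ := (e1.and (e2.and e3)).exists_forall_of_atTop
  refine ⟨max 100 (4 * K), max Y0 200, le_trans (by norm_num) (le_max_left _ _),
    fun Q hNR Y hY hYQ hYK => ?_⟩
  obtain ⟨h1, h2, h3⟩ := hY0 Y ((le_max_left _ _).trans hY)
  clear e1 e2 e3 hY0
  have hY200 : (200 : ℝ) ≤ Y := (le_max_right _ _).trans hY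
  have hYpos : (0 : ℝ) < Y := by linarith only [hY200]
  obtain ⟨lY, hlY⟩ : ∃ lY : ℝ, lY = Real.log Y := ⟨_, rfl⟩
  obtain ⟨lam, hlam⟩ : ∃ lam : ℝ, lam = Real.log Q := ⟨_, rfl⟩
  rw [← hlY] at h1 h2 h3 hYK hYQ
  rw [← hlam] at hYK hYQ
  have hlZ0 : 2 * Z0 ≤ lY := ((le_max_left _ _).trans (le_max_left _ _)).trans h1
  have hl100 : 100 ≤ lY := ((le_max_right _ _).trans (le_max_left _ _)).trans h1
  have hlA : 16 * 2 ^ (A + 1) * 2 ≤ lY := (le_max_right _ _).trans h1
  clear h1
  have hl0 : 0 < lY := by linarith only [hl100]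
  have hlam0 : 0 ≤ lam := by rw [hlam]; exact Real.log_natCast_nonneg Q
  have hlam10 : 10 ≤ lam := by
    by_contra hcon
    push Not at hcon
    nlinarith only [hcon, hYQ, hl100, hlam0]
  have hQn : 2 ≤ Q := by
    by_contra hcon
    have : Q = 0 ∨ Q = 1 := by omega
    rcases this with h | h
    · rw [h] at hlam
      simp only [Nat.cast_zero, Real.log_zero] at hlam
      linarith only [hlam, hlam10]
    · rw [h] at hlam
      simp only [Nat.cast_one, Real.log_one] at hlam
      linarith only [hlam, hlam10]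
  have hQ1 : 1 ≤ Q := by omega
  have hQr : (0 : ℝ) < Q := by exact_mod_cast (by omega : 0 < Q)
  have hK100 : 100 * (lam * Real.log lY) ≤ lY := by
    have : 100 * (lam * Real.log lY) ≤ max 100 (4 * K) * (lam * Real.log lY) :=
      mul_le_mul_of_nonneg_right (le_max_left _ _) (by positivity)
    linarith only [this, hYK]
  have hK4 : 4 * K * (lam * Real.log lY) ≤ lY := by
    have : 4 * K * (lam * Real.log lY) ≤ max 100 (4 * K) * (lam * Real.log lY) :=
      mul_le_mul_of_nonneg_right (le_max_right _ _) (by positivity)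
    linarith only [this, hYK]
  have hlamY : 100 * lam ≤ lY := by
    have : lam ≤ lam * Real.log lY := le_mul_of_one_le_right hlam0 h3
    linarith only [this, hK100]
  obtain ⟨h, hh⟩ : ∃ h : ℝ, h = 1 / (Q : ℝ) ^ 3 := ⟨_, rfl⟩
  rw [← hh, ← hlY]
  have hh0 : 0 < h := by rw [hh]; positivity
  have hh1 : h ≤ 1 := by
    rw [hh, div_le_one (by positivity)]
    exact one_le_pow₀ (by exact_mod_cast hQ1)
  obtain ⟨N, hN⟩ : ∃ N : ℕ, N = 200 * Y := ⟨_, rfl⟩
  rw [← hN]
  have hNr : (N : ℝ) = 200 * Y := by rw [hN]; push_cast; ring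
  have hN1 : 1 ≤ N := by
    have : (1 : ℝ) ≤ N := by rw [hNr]; linarith only [hY200]
    exact_mod_cast this
  have hlN : Real.log N ≤ 2 * lY := by
    rw [hNr, hlY]
    have h4 : 200 * (Y : ℝ) ≤ (Y : ℝ) ^ 2 := by nlinarith only [hY200]
    have h5 := Real.log_le_log (by positivity) h4
    rw [Real.log_pow] at h5
    exact_mod_cast h5
  have hlN0 : 0 ≤ Real.log N := Real.log_natCast_nonneg N
  have hc := EE_exp_int hh0 Q (Ioc (2 * Q ^ 5) N) (cE Q)
  have hsplit : ∫ x in Set.Iic lY, Real.exp x * EE h Q (Ioc (2 * Q ^ 5) N) (cE Q) x =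
      (∫ x in Set.Iic (lY / 2), Real.exp x * EE h Q (Ioc (2 * Q ^ 5) N) (cE Q) x) +
      ∫ x in (lY / 2)..lY, Real.exp x * EE h Q (Ioc (2 * Q ^ 5) N) (cE Q) x := by
    have := intervalIntegral.integral_Iic_sub_Iic (hc (lY / 2)) (hc lY)
    linarith only [this]
  rw [hsplit]
  -- low part
  have hlow : ∫ x in Set.Iic (lY / 2), Real.exp x * EE h Q (Ioc (2 * Q ^ 5) N) (cE Q) x ≤
      Y / lY ^ A / 2 := by
    refine (EE_low hh0 Q _ _ _).trans ?_
    rw [EE_integral hh0]
    have h4 := ls_weight (Q := Q) (z0 := 2 * Q ^ 5) (N := N) hQ1 le_rfl (cE Q) hh.ge hh1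
    have h5 := cE_sum (Q := Q) (z0 := 2 * Q ^ 5) (N := N) (B := CV * (2 * lY)) (by
      refine hlN.trans ?_
      exact le_mul_of_one_le_left (by positivity) hCV) (by
      refine (hVl Q hQn).trans ?_
      apply mul_le_mul_of_nonneg_left _ (zero_le_one.trans hCV)
      rw [← hlam]
      linarith only [hlamY, hl0, hlam0])
    have h6 : Real.exp (lY / 2) = √Y := by
      rw [Real.sqrt_eq_rpow, Real.rpow_def_of_pos hYpos, ← hlY]
      congr 1
      ring
    rw [h6]
    calc √(Y : ℝ) * ∑ q ∈ Icc 1 Q, ∑ a ∈ rr q,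
          ∫ x, ‖ggC h (Ioc (2 * Q ^ 5) N) (fun n => cE Q n * ee (n * a / q)) x‖ ^ 2 ≤
        √(Y : ℝ) * (96 * ((CV * (2 * lY)) ^ 2 * (1 + Real.log N))) := by
          apply mul_le_mul_of_nonneg_left _ (Real.sqrt_nonneg _)
          refine h4.trans ?_
          exact mul_le_mul_of_nonneg_left h5 (by norm_num)
      _ ≤ √(Y : ℝ) * (96 * ((CV * (2 * lY)) ^ 2 * (4 * lY))) := by
          apply mul_le_mul_of_nonneg_left _ (Real.sqrt_nonneg _)
          apply mul_le_mul_of_nonneg_left _ (by norm_num)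
          apply mul_le_mul_of_nonneg_left _ (by positivity)
          linarith only [hlN, hl100]
      _ = (√(Y : ℝ) / lY ^ A / 2) * (96 * CV ^ 2 * 2 ^ 3 * 4 * lY ^ (A + 3)) := by
          field_simp
          ring
      _ ≤ (√(Y : ℝ) / lY ^ A / 2) * √Y :=
          mul_le_mul_of_nonneg_left h2 (by positivity)
      _ = (√(Y : ℝ) * √Y) / lY ^ A / 2 := by ring
      _ = _ := by rw [Real.mul_self_sqrt hYpos.le]
  -- high part
  have hhigh : ∫ x in (lY / 2)..lY, Real.exp x * EE h Q (Ioc (2 * Q ^ 5) N) (cE Q) x ≤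
      Y / lY ^ A / 2 := by
    have h4 := EE_high (h := h) Q (Ioc (2 * Q ^ 5) N) (cE Q) (lY / 2) lY (1 / (lY / 2) ^ (A + 1))
      (by positivity) (by linarith only [hl0]) (by
      intro Z hZ1 hZ2
      have hZpos : 0 < Z := by linarith only [hZ1, hl0]
      have h5 := hW Q hNR Z (by linarith only [hZ1, hlZ0]) (by
          rw [← hlam]
          rw [Real.sqrt_le_left hlam0]
          exact hZ2.trans hYQ) (by
          rw [← hlam]
          have h6 : Real.log Z ≤ Real.log lY := Real.log_le_log hZpos hZ2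
          have h7 : K * lam * Real.log Z ≤ K * lam * Real.log lY :=
            mul_le_mul_of_nonneg_left h6 (by positivity)
          linarith only [h7, hK4, hZ1, hl0]) N (2 * Q ^ 5) (by
          rw [hNr, Real.exp_add]
          have h6 : Real.exp Z ≤ Y := by
            rw [← Real.exp_log hYpos, ← hlY]
            exact Real.exp_le_exp.2 hZ2
          have h7 : Real.exp 5 ≤ 200 := by
            have e5 : Real.exp 5 = Real.exp 1 ^ 5 := by rw [← Real.exp_nat_mul]; norm_num
            rw [e5]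
            have := Real.exp_one_lt_d9
            calc Real.exp 1 ^ 5 ≤ (2.72 : ℝ) ^ 5 := pow_le_pow_left₀ (Real.exp_pos 1).le (by linarith only [this]) 5
              _ ≤ 200 := by norm_num
          calc Real.exp Z * Real.exp 5 ≤ Y * 200 := mul_le_mul h6 h7 (Real.exp_pos _).le hYpos.le
            _ = _ := by ring) (by linarith only [hlN, hZ1]) (by
          push_cast
          rw [Real.log_mul (by norm_num) (by positivity), Real.log_pow, ← hlam]
          have := Real.log_two_lt_d9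
          push_cast
          linarith only [this, hlamY, hZ1, hl100]) le_rfl
      rw [← hh] at h5
      refine h5.trans ?_
      apply one_div_le_one_div_of_le (by positivity)
      exact pow_le_pow_left₀ (by positivity) hZ1 _)
    refine h4.trans ?_
    have h5 : Real.exp (lY + 2) = Y * Real.exp 2 := by
      rw [Real.exp_add, hlY, Real.exp_log hYpos]
    have h6 : Real.exp 2 ≤ 8 := by
      have e5 : Real.exp 2 = Real.exp 1 ^ 2 := by rw [← Real.exp_nat_mul]; norm_num
      rw [e5]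
      have := Real.exp_one_lt_d9
      calc Real.exp 1 ^ 2 ≤ (2.72 : ℝ) ^ 2 := pow_le_pow_left₀ (Real.exp_pos 1).le (by linarith only [this]) 2
        _ ≤ 8 := by norm_num
    rw [h5]
    calc Y * Real.exp 2 * (1 / (lY / 2) ^ (A + 1)) ≤ Y * 8 * (1 / (lY / 2) ^ (A + 1)) := by gcongr
      _ = (Y / lY ^ A / 2) * ((16 * 2 ^ (A + 1)) / lY) := by
          rw [div_pow, pow_succ lY A]
          field_simp
          ring
      _ ≤ (Y / lY ^ A / 2) * 1 := by
          apply mul_le_mul_of_nonneg_left _ (by positivity)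
          rw [div_le_one hl0]
          linarith only [hlA, hl0]
      _ = _ := mul_one _
  linarith only [hlow, hhigh]

end Pool.Agent.R521.F6
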