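import Pool.Agent.R521.F6.C2
import Pool.Agent.R521.F6.B5
import Pool.Agent.W93.MA
import Pool.Agent.W93.MC

set_option autoImplicit false

/-!
# The minor arcs
-/

open Finset MeasureTheory Filter Topology
open scoped Real
open scoped ArithmeticFunction.vonMangoldt

namespace Pool.Agent.R521.F6

open Pool.Agent.H373R2.T7 (pz Vz lamz mem_pz Vz_pos Vz_le_one lamz_nonneg sum_small_le sum_mult
  typeI_lin)
open Pool.Agent.H807R2.Dav (KK KK_nonneg geo_bound)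

/-- the exponential sum of the truncated sieve -/
lemma Mq_expsum (Q R N : ℕ) (α : ℝ) :
    ‖∑ n ∈ Icc 1 N, ((Mq Q R n : ℝ) : ℂ) * Pool.Agent.H807R2.Dav.ee ((n : ℝ) * α)‖ ≤
      (Vz Q)⁻¹ * ∑ d ∈ Icc 1 ((Q + 1) ^ R), KK (2 * N / d) (d * α) := by
  have hV0 : 0 ≤ (Vz Q)⁻¹ := (inv_pos.2 (Vz_pos Q)).le
  have hpos : ∀ j, ∀ S ∈ (pz Q).powersetCard j, 1 ≤ ∏ p ∈ S, p := fun j S hS =>
    Nat.pos_of_ne_zero (prod_ne_zero_iff.2 fun p hp =>
      ((mem_pz.1 ((mem_powersetCard.1 hS).1 hp)).2).ne_zero)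
  have h4 : ∑ n ∈ Icc 1 N, ((Mq Q R n : ℝ) : ℂ) * Pool.Agent.H807R2.Dav.ee ((n : ℝ) * α) =
      (((Vz Q)⁻¹ : ℝ) : ℂ) * ∑ j ∈ range R, (-1 : ℂ) ^ j * ∑ S ∈ (pz Q).powersetCard j,
        ∑ n ∈ Icc 1 N, (if (∏ p ∈ S, p) ∣ n then Pool.Agent.H807R2.Dav.ee ((n : ℝ) * α) else 0) := by
    unfold Mq
    have e2 : ∀ n ∈ Icc 1 N, ((((Vz Q)⁻¹ * ∑ j ∈ range R, (-1 : ℝ) ^ j * ∑ S ∈ (pz Q).powersetCard j,
        if (∏ p ∈ S, p) ∣ n then (1 : ℝ) else 0 : ℝ)) : ℂ) * Pool.Agent.H807R2.Dav.ee ((n : ℝ) * α) =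
        ∑ j ∈ range R, ∑ S ∈ (pz Q).powersetCard j, (((Vz Q)⁻¹ : ℝ) : ℂ) * ((-1 : ℂ) ^ j *
        (if (∏ p ∈ S, p) ∣ n then Pool.Agent.H807R2.Dav.ee ((n : ℝ) * α) else 0)) := by
      intro n _
      rw [Complex.ofReal_mul, Complex.ofReal_sum, mul_assoc, sum_mul, mul_sum]
      apply sum_congr rfl
      intro j _
      rw [Complex.ofReal_mul, Complex.ofReal_sum, mul_assoc, sum_mul, mul_sum, mul_sum]
      apply sum_congr rfl
      intro S _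
      split_ifs
      · push_cast
        ring
      · push_cast
        ring
    rw [sum_congr rfl e2, sum_comm, mul_sum]
    apply sum_congr rfl
    intro j _
    rw [sum_comm, mul_sum, mul_sum]
    apply sum_congr rfl
    intro S _
    rw [← mul_sum, ← mul_sum]
  rw [h4, norm_mul, Complex.norm_real, Real.norm_of_nonneg hV0]
  apply mul_le_mul_of_nonneg_left _ hV0
  refine (norm_sum_le _ _).trans ?_
  have h5 : ∀ j ∈ range R, ‖(-1 : ℂ) ^ j * ∑ S ∈ (pz Q).powersetCard j,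
        ∑ n ∈ Icc 1 N, (if (∏ p ∈ S, p) ∣ n then Pool.Agent.H807R2.Dav.ee ((n : ℝ) * α) else 0)‖ ≤
      ∑ S ∈ (pz Q).powersetCard j, KK (2 * N / ((∏ p ∈ S, p : ℕ) : ℝ)) (((∏ p ∈ S, p : ℕ) : ℝ) * α) := by
    intro j _
    rw [norm_mul, norm_pow, norm_neg, norm_one, one_pow, one_mul]
    refine (norm_sum_le _ _).trans (sum_le_sum fun S hS => ?_)
    set d := ∏ p ∈ S, p with hd
    have hd1 : 1 ≤ d := hpos j S hS
    have hd0 : (0 : ℝ) < d := by exact_mod_cast hd1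
    rw [← sum_filter, sum_mult N d hd1]
    have h7 : ∀ m ∈ Icc 1 (N / d), Pool.Agent.H807R2.Dav.ee (((d * m : ℕ) : ℝ) * α) =
        Pool.Agent.H807R2.Dav.ee ((m : ℝ) * (d * α)) := by
      intro m _; congr 1; push_cast; ring
    rw [sum_congr rfl h7]
    have h8 : Icc 1 (N / d) = Ico 1 (N / d + 1) := by ext x; rw [mem_Icc, mem_Ico]; omega
    rw [h8]
    apply geo_bound _ _ (Nat.le_add_left 1 _)
    push_cast
    have h9 : ((N / d : ℕ) : ℝ) ≤ N / d := Nat.cast_div_le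
    have h10 : 0 ≤ (N : ℝ) / d := by positivity
    have h11 : 2 * (N : ℝ) / d = 2 * (N / d) := by ring
    rw [h11]
    linarith
  refine (sum_le_sum h5).trans ?_
  have h6 := sum_small_le Q R (fun d => KK (2 * N / (d : ℝ)) ((d : ℝ) * α)) (fun d => KK_nonneg (by positivity) _)
  rw [sum_range_succ] at h6
  have h7 : 0 ≤ ∑ S ∈ (pz Q).powersetCard R, KK (2 * N / ((∏ p ∈ S, p : ℕ) : ℝ)) (((∏ p ∈ S, p : ℕ) : ℝ) * α) :=
    sum_nonneg fun S _ => KK_nonneg (by positivity) _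
  linarith

/-- the L¹ norm of the difference between `Λ` and the large primes -/
lemma lam_Pq_l1 (Q Y : ℕ) (hY : 1 ≤ Y) :
    ∑ n ∈ Icc 1 Y, |Λ n - Pq Q n| ≤ 2 * √Y * Real.log Y + 2 * Q := by
  have h1 : ∀ n ∈ Icc 1 Y, |Λ n - Pq Q n| = (Λ n - if n.Prime then Real.log n else 0) +
      (if n.Prime ∧ n ≤ Q then Real.log n else 0) := by
    intro n hn
    have hl : 0 ≤ Real.log n := Real.log_natCast_nonneg n
    have hv : 0 ≤ Λ n := ArithmeticFunction.vonMangoldt_nonneg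
    unfold Pq
    by_cases hp : n.Prime
    · rw [ArithmeticFunction.vonMangoldt_apply_prime hp]
      by_cases hq : Q < n
      · have : ¬ (n.Prime ∧ n ≤ Q) := by rintro ⟨_, h⟩; omega
        simp only [hp, hq, and_self, if_true, true_and]
        rw [if_neg (by omega)]
        simp
      · simp only [hp, hq, and_false, if_false, if_true, true_and]
        rw [if_pos (by omega)]
        simp [abs_of_nonneg hl]
    · simp only [hp, false_and, if_false, sub_zero, add_zero, abs_of_nonneg hv]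
  rw [sum_congr rfl h1, sum_add_distrib, sum_sub_distrib]
  have h2 : ∑ n ∈ Icc 1 Y, Λ n = Chebyshev.psi (Y : ℝ) := by
    rw [Chebyshev.psi_eq_sum_Icc, Nat.floor_natCast]
    have : Icc 0 Y = insert 0 (Icc 1 Y) := by
      ext n; simp only [mem_Icc, mem_insert]; omega
    rw [this, sum_insert (by simp)]
    simp
  have h3 : ∑ n ∈ Icc 1 Y, (if n.Prime then Real.log n else 0) = Chebyshev.theta (Y : ℝ) := by
    rw [Chebyshev.theta_eq_sum_Icc, Nat.floor_natCast, sum_filter]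
    have : Icc 0 Y = insert 0 (Icc 1 Y) := by
      ext n; simp only [mem_Icc, mem_insert]; omega
    rw [this, sum_insert (by simp)]
    simp
  have h4 : ∑ n ∈ Icc 1 Y, (if n.Prime ∧ n ≤ Q then Real.log n else 0) ≤ Chebyshev.theta (Q : ℝ) := by
    rw [Chebyshev.theta_eq_sum_Icc, Nat.floor_natCast, ← sum_filter]
    apply sum_le_sum_of_subset_of_nonneg
    · intro n hn
      simp only [mem_filter, mem_Icc] at hn ⊢
      exact ⟨⟨by omega, hn.2.2⟩, hn.2.1⟩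
    · intro n _ _
      exact Real.log_natCast_nonneg n
  have h5 := Chebyshev.psi_sub_theta_le (x := (Y : ℝ)) (by exact_mod_cast hY)
  have h6 := Chebyshev.theta_le_log4_mul_x (x := (Q : ℝ)) (Nat.cast_nonneg _)
  have h7 : Real.log 4 ≤ 2 := by
    have e : (4 : ℝ) = 2 ^ 2 := by norm_num
    rw [e, Real.log_pow]
    have := Real.log_two_lt_d9
    push_cast
    linarith
  have h8 : Real.log 4 * (Q : ℝ) ≤ 2 * Q := mul_le_mul_of_nonneg_right h7 (Nat.cast_nonneg _)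
  rw [h2, h3]
  linarith

/-- **the minor arcs** -/
theorem minor_sup : ∃ (C : ℝ) (N1 : ℕ), 1 ≤ C ∧ ∀ Y : ℕ, N1 ≤ Y → ∀ Q R : ℕ, 4 ≤ Q →
    (Q * Q) * (Q * Q) ≤ Y → (Q + 1) ^ R * Q ≤ Y → ∀ α : ℝ,
    (¬ ∃ (q : ℕ) (c : ℤ), Pool.Agent.W93.LM.MajAt Y Q α q c) →
    ‖∑ n ∈ Icc 1 Y, (((Pq Q n - Mq Q R n : ℝ)) : ℂ) * Pool.Agent.H807R2.Dav.ee ((n : ℝ) * α)‖ ≤
      C * Real.log Y ^ 8 * (Y / √(Q : ℝ)) := by
  obtain ⟨N0, h0⟩ := Pool.Agent.W93.DG.minor_quant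
  obtain ⟨CV, hCV, hVl⟩ := Vz_inv_log
  refine ⟨1000000 * CV, max N0 16, by linarith, fun Y hY Q R hQ hQ4 hQR α hno => ?_⟩
  have hYN0 : N0 ≤ Y := (le_max_left _ _).trans hY
  have hY16 : 16 ≤ Y := (le_max_right _ _).trans hY
  have hYr : (16 : ℝ) ≤ Y := by exact_mod_cast hY16
  have hY0 : (0 : ℝ) < Y := by linarith only [hYr]
  have hQr : (4 : ℝ) ≤ Q := by exact_mod_cast hQ
  have hQ0 : (0 : ℝ) < Q := by linarith only [hQr]
  have hl1 : 1 ≤ Real.log Y := by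
    rw [Real.le_log_iff_exp_le hY0]
    linarith only [Real.exp_one_lt_d9, hYr]
  have hl0 : 0 < Real.log Y := by linarith only [hl1]
  have hQQ : Q * Q ≤ Y := (Nat.le_mul_of_pos_left _ (by positivity)).trans hQ4
  have hsQ : 0 < √(Q : ℝ) := Real.sqrt_pos.2 hQ0
  have hsQ1 : 1 ≤ √(Q : ℝ) := by rw [Real.one_le_sqrt]; linarith only [hQr]
  have hsQ2 : √(Q : ℝ) ≤ Q := by
    rw [Real.sqrt_le_left hQ0.le]
    nlinarith only [hQr]
  obtain ⟨q, c, hq, hc, h | h⟩ := Pool.Agent.W93.DG.diri Y Q (by omega) hQQ α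
  · exact absurd ⟨q, c, hq, hc, h.1, h.2⟩ hno
  obtain ⟨h1, h2, h3⟩ := h
  -- the primes
  have h4 := h0 Y hYN0 Q q (by omega) hQ4 hq ((Nat.le_mul_of_pos_right _ (by omega)).trans h2) c hc α h3
  rw [← mul_assoc (100000 * Real.log (Y : ℝ) ^ 7)] at h4
  have h5 := Pool.Agent.W93.DG.minor_of Y Q hQ _ (100000 * Real.log Y ^ 7 * Y) (by positivity) q h1 h2 h4
  -- the truncated sieve
  have hD1 : 1 ≤ (Q + 1) ^ R := Nat.one_le_pow _ _ (by omega)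
  have h6 := typeI_lin hq hc h3 Y ((Q + 1) ^ R) (by omega) hD1
  have hqr : (Q : ℝ) < q := by exact_mod_cast h1
  have hq0 : (0 : ℝ) < q := by linarith only [hqr, hQ0]
  have hqY : (q : ℝ) * Q ≤ Y := by exact_mod_cast h2
  have hDY : (((Q + 1) ^ R : ℕ) : ℝ) * Q ≤ Y := by exact_mod_cast hQR
  have a1 : (Y : ℝ) / q ≤ Y / Q := div_le_div_of_nonneg_left hY0.le hQ0 hqr.le
  have a2 : (((Q + 1) ^ R : ℕ) : ℝ) ≤ Y / Q := by rw [le_div_iff₀ hQ0]; exact hDY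
  have a3 : (q : ℝ) ≤ Y / Q := by rw [le_div_iff₀ hQ0]; exact hqY
  have a4 : Real.log q ≤ Real.log Y := by
    apply Real.log_le_log hq0
    have : (q : ℝ) * 1 ≤ q * Q := mul_le_mul_of_nonneg_left (by linarith only [hQr]) hq0.le
    linarith only [this, hqY]
  have a5 : (Nat.log 2 ((Q + 1) ^ R) : ℝ) ≤ 2 * Real.log Y := by
    have h7 : (2 : ℝ) ^ Nat.log 2 ((Q + 1) ^ R) ≤ (((Q + 1) ^ R : ℕ) : ℝ) := by
      exact_mod_cast Nat.pow_log_le_self 2 (by omega : (Q + 1) ^ R ≠ 0)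
    have h8 : (((Q + 1) ^ R : ℕ) : ℝ) ≤ Y := a2.trans (div_le_self hY0.le (by linarith only [hQr]))
    have h9 := Real.log_le_log (by positivity) (h7.trans h8)
    rw [Real.log_pow] at h9
    have := Real.log_two_gt_d9
    have h10 : (0 : ℝ) ≤ Nat.log 2 ((Q + 1) ^ R) := Nat.cast_nonneg _
    nlinarith only [h9, this, h10]
  have hV0 : 0 ≤ (Vz Q)⁻¹ := (inv_pos.2 (Vz_pos Q)).le
  have hVY : (Vz Q)⁻¹ ≤ CV * Real.log Y := by
    refine (hVl Q (by omega)).trans ?_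
    apply mul_le_mul_of_nonneg_left _ (zero_le_one.trans hCV)
    apply Real.log_le_log hQ0
    have : (Q : ℝ) * 1 ≤ Q * Q := mul_le_mul_of_nonneg_left (by linarith only [hQr]) hQ0.le
    have : (Q : ℝ) * Q ≤ Y := by exact_mod_cast hQQ
    linarith
  have h7 : ‖∑ n ∈ Icc 1 Y, ((Mq Q R n : ℝ) : ℂ) * Pool.Agent.H807R2.Dav.ee ((n : ℝ) * α)‖ ≤
      16200 * CV * (Real.log Y ^ 3 * (Y / √(Q : ℝ))) := by
    refine (Mq_expsum Q R Y α).trans ?_
    have hYQ : (Y : ℝ) / Q ≤ Y / √(Q : ℝ) := div_le_div_of_nonneg_left hY0.le hsQ hsQ2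
    have hYQ0 : 0 ≤ (Y : ℝ) / Q := by positivity
    have hlq0 : 0 ≤ Real.log q := Real.log_natCast_nonneg q
    calc (Vz Q)⁻¹ * ∑ d ∈ Icc 1 ((Q + 1) ^ R), KK (2 * Y / d) (d * α) ≤
        (CV * Real.log Y) * (600 * (Nat.log 2 ((Q + 1) ^ R) + 1 : ℝ) *
          ((Y : ℝ) / q + ((Q + 1) ^ R : ℕ) + q) * (1 + Real.log q)) := by
          apply mul_le_mul hVY h6 _ (by positivity)
          exact sum_nonneg fun d _ => KK_nonneg (by positivity) _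
      _ ≤ (CV * Real.log Y) * (600 * (3 * Real.log Y) * (3 * (Y / Q)) * (3 * Real.log Y)) := by
          apply mul_le_mul_of_nonneg_left _ (by positivity)
          have b1 : (Nat.log 2 ((Q + 1) ^ R) + 1 : ℝ) ≤ 3 * Real.log Y := by linarith only [a5, hl1]
          have b2 : (Y : ℝ) / q + ((Q + 1) ^ R : ℕ) + q ≤ 3 * (Y / Q) := by linarith only [a1, a2, a3]
          have b3 : 1 + Real.log q ≤ 3 * Real.log Y := by linarith only [a4, hl1]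
          gcongr
      _ = 16200 * CV * (Real.log Y ^ 3 * (Y / Q)) := by ring
      _ ≤ _ := by gcongr
  -- the small primes and the prime powers
  have h8 : ‖∑ n ∈ Icc 1 Y, (((Λ n - Pq Q n : ℝ)) : ℂ) * Pool.Agent.H807R2.Dav.ee ((n : ℝ) * α)‖ ≤
      2 * √Y * Real.log Y + 2 * Q := by
    refine le_trans ?_ (lam_Pq_l1 Q Y (by omega))
    refine (norm_sum_le _ _).trans (sum_le_sum fun n _ => ?_)
    rw [norm_mul, Pool.Agent.H807R2.Dav.norm_ee, mul_one, Complex.norm_real, Real.norm_eq_abs]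
  have h9 : 2 * √Y * Real.log Y + 2 * Q ≤ 4 * (Real.log Y * (Y / √(Q : ℝ))) := by
    have b1 : √(Y : ℝ) ≤ Y / √(Q : ℝ) := by
      rw [le_div_iff₀ hsQ]
      calc √(Y : ℝ) * √(Q : ℝ) ≤ √Y * √Y := by
            apply mul_le_mul_of_nonneg_left _ (Real.sqrt_nonneg _)
            apply Real.sqrt_le_sqrt
            have : (Q : ℝ) * 1 ≤ Q * Q := mul_le_mul_of_nonneg_left (by linarith only [hQr]) hQ0.le
            have : (Q : ℝ) * Q ≤ Y := by exact_mod_cast hQQ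
            linarith
        _ = Y := Real.mul_self_sqrt hY0.le
    have b2 : (Q : ℝ) ≤ Y / √(Q : ℝ) := by
      rw [le_div_iff₀ hsQ]
      have : (Q : ℝ) * Q ≤ Y := by exact_mod_cast hQQ
      have : (Q : ℝ) * √(Q : ℝ) ≤ Q * Q := mul_le_mul_of_nonneg_left hsQ2 hQ0.le
      linarith
    have b3 : (Y : ℝ) / √(Q : ℝ) ≤ Real.log Y * (Y / √(Q : ℝ)) :=
      le_mul_of_one_le_left (by positivity) hl1
    have b4 : √(Y : ℝ) * Real.log Y ≤ Real.log Y * (Y / √(Q : ℝ)) := by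
      rw [mul_comm]
      exact mul_le_mul_of_nonneg_left b1 hl0.le
    linarith only [b2, b3, b4]
  -- total
  have h10 : ∑ n ∈ Icc 1 Y, (((Pq Q n - Mq Q R n : ℝ)) : ℂ) * Pool.Agent.H807R2.Dav.ee ((n : ℝ) * α) =
      ∑ n ∈ Icc 1 Y, ((Λ n : ℝ) : ℂ) * Pool.Agent.H807R2.Dav.ee ((n : ℝ) * α) -
      ∑ n ∈ Icc 1 Y, (((Λ n - Pq Q n : ℝ)) : ℂ) * Pool.Agent.H807R2.Dav.ee ((n : ℝ) * α) -
      ∑ n ∈ Icc 1 Y, ((Mq Q R n : ℝ) : ℂ) * Pool.Agent.H807R2.Dav.ee ((n : ℝ) * α) := by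
    rw [← sum_sub_distrib, ← sum_sub_distrib]
    apply sum_congr rfl
    intro n _
    push_cast
    ring
  rw [h10]
  have h11 := norm_sub_le (∑ n ∈ Icc 1 Y, ((Λ n : ℝ) : ℂ) * Pool.Agent.H807R2.Dav.ee ((n : ℝ) * α) -
      ∑ n ∈ Icc 1 Y, (((Λ n - Pq Q n : ℝ)) : ℂ) * Pool.Agent.H807R2.Dav.ee ((n : ℝ) * α))
      (∑ n ∈ Icc 1 Y, ((Mq Q R n : ℝ) : ℂ) * Pool.Agent.H807R2.Dav.ee ((n : ℝ) * α))
  have h12 := norm_sub_le (∑ n ∈ Icc 1 Y, ((Λ n : ℝ) : ℂ) * Pool.Agent.H807R2.Dav.ee ((n : ℝ) * α))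
      (∑ n ∈ Icc 1 Y, (((Λ n - Pq Q n : ℝ)) : ℂ) * Pool.Agent.H807R2.Dav.ee ((n : ℝ) * α))
  have hP : 0 ≤ (Y : ℝ) / √(Q : ℝ) := by positivity
  have g1 : Real.log Y ^ 7 * (Y / √(Q : ℝ)) ≤ Real.log Y ^ 8 * (Y / √(Q : ℝ)) :=
    mul_le_mul_of_nonneg_right (pow_le_pow_right₀ hl1 (by norm_num)) hP
  have g2 : Real.log Y ^ 3 * (Y / √(Q : ℝ)) ≤ Real.log Y ^ 8 * (Y / √(Q : ℝ)) :=
    mul_le_mul_of_nonneg_right (pow_le_pow_right₀ hl1 (by norm_num)) hP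
  have g3 : Real.log Y * (Y / √(Q : ℝ)) ≤ Real.log Y ^ 8 * (Y / √(Q : ℝ)) := by
    apply mul_le_mul_of_nonneg_right _ hP
    calc Real.log Y = Real.log Y ^ 1 := (pow_one _).symm
      _ ≤ _ := pow_le_pow_right₀ hl1 (by norm_num)
  have g5 : 100000 * Real.log (Y : ℝ) ^ 7 * Y * (4 / √(Q : ℝ)) = 400000 * (Real.log Y ^ 7 * (Y / √(Q : ℝ))) := by
    ring
  rw [g5] at h5
  obtain ⟨T, hT⟩ : ∃ T : ℝ, T = Real.log Y ^ 8 * (Y / √(Q : ℝ)) := ⟨_, rfl⟩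
  have hT0 : 0 ≤ T := by rw [hT]; positivity
  rw [← hT] at g1 g2 g3
  have g6 : 16200 * CV * (Real.log Y ^ 3 * (Y / √(Q : ℝ))) ≤ 16200 * CV * T :=
    mul_le_mul_of_nonneg_left g2 (by positivity)
  have g7 : T ≤ CV * T := le_mul_of_one_le_left hT0 hCV
  rw [mul_assoc, mul_assoc, ← hT]
  linarith only [h5, h7, h8, h9, h11, h12, g1, g3, g6, g7, hT0]

end Pool.Agent.R521.F6
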