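import Pool.Agent.R521.F6.C3
import Pool.Agent.R521.F6.C4

set_option autoImplicit false

/-!
# The L¹ bound for the primes minus the sieve model at a good scale
-/

open Finset MeasureTheory Filter Topology
open scoped Real
open Pool.Agent.Helper112
open scoped ArithmeticFunction.vonMangoldt

namespace Pool.Agent.R521.F6

open Pool.Agent.W66 Pool.Agent.W66L Pool.Agent.TH823.PS
open Pool.Agent.H373R2.T7 (pz Vz lamz mem_pz Vz_pos Vz_le_one lamz_nonneg)

lemma EE_scale (h : ℝ) (Q : ℕ) (L : Finset ℕ) (c : ℕ → ℂ) (b : ℝ) (x : ℝ) :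
    EE h Q L (fun n => ((b : ℝ) : ℂ) * c n) x = b ^ 2 * EE h Q L c x := by
  unfold EE
  rw [mul_sum]
  apply sum_congr rfl
  intro q _
  rw [mul_sum]
  apply sum_congr rfl
  intro a _
  have : ggC h L (fun n => ((b : ℝ) : ℂ) * c n * ee (n * a / q)) x =
      ((b : ℝ) : ℂ) * ggC h L (fun n => c n * ee (n * a / q)) x := by
    unfold ggC
    rw [mul_sum]
    apply sum_congr rfl
    intro n _
    ring
  rw [this, norm_mul, mul_pow, Complex.norm_real, Real.norm_eq_abs, sq_abs]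

/-- the major frequencies for `Eb` -/
theorem major_Eb {Q M N : ℕ} {B : ℝ} (hQ : 4 ≤ Q) (hQM : 2 * Q ^ 7 ≤ M) (hMN : M ≤ N)
    (hB1 : Real.log N ≤ B) (hB2 : (Vz Q)⁻¹ ≤ B) (hB0 : 0 < B)
    (KM : Finset ℕ) (hK : KM ⊆ range (2 * M))
    (hKM : ∀ k ∈ KM, ∃ (q : ℕ) (c : ℤ), Pool.Agent.W93.LM.MajAt M Q ((k : ℝ) / (2 * M : ℕ)) q c) :
    ∑ k ∈ KM, ‖dft (2 * M) M (fun n => ((Eb Q n : ℝ) : ℂ)) k‖ ^ 2 ≤
      (2 * M : ℕ) * (16000 * B ^ 2 * M / Q +
        2 * ∫ x in Set.Iic (Real.log M), Real.exp x *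
          EE (1 / (Q : ℝ) ^ 3) Q (Ioc (2 * Q ^ 5) N) (cE Q) x) := by
  have hQ0 : (4 : ℝ) ≤ Q := by exact_mod_cast hQ
  have hQpos : (0 : ℝ) < Q := by linarith only [hQ0]
  have hQ7 : Q ≤ Q ^ 7 := Nat.le_self_pow (by norm_num) Q
  have hM1 : 1 ≤ M := by omega
  have hM0 : (0 : ℝ) < M := by exact_mod_cast hM1
  have hQ5 : 2 * Q ^ 5 ≤ M := by
    have : Q ^ 5 ≤ Q ^ 7 := Nat.pow_le_pow_right (by omega) (by norm_num)
    omega
  have hQ51 : 1 ≤ 2 * Q ^ 5 := by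
    have := Nat.one_le_pow 5 Q (by omega)
    omega
  set f : ℕ → ℂ := fun n => if n ≤ N then (((Eb Q n) / B : ℝ) : ℂ) else 0 with hf
  have hf1 : ∀ n, ‖f n‖ ≤ 1 := by
    intro n
    rw [hf]
    simp only
    split_ifs with hn
    · rw [Complex.norm_real, Real.norm_eq_abs, abs_div, abs_of_pos hB0, div_le_one hB0]
      apply Eb_abs hB0.le _ hB2
      rcases Nat.eq_zero_or_pos n with h0 | h0
      · rw [h0]
        simp only [Nat.cast_zero, Real.log_zero]
        exact hB0.le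
      · exact (Real.log_le_log (by exact_mod_cast h0) (by exact_mod_cast hn)).trans hB1
    · simp
  set h : ℝ := 1 / (Q : ℝ) ^ 3 with hh
  have hh0 : 0 < h := by positivity
  have hh1 : h ≤ 1 := by
    rw [hh, div_le_one (by positivity)]
    exact one_le_pow₀ (by linarith only [hQ0])
  have h1 := major_sum (f := f) hf1 (Q := Q) (X := 2 * M) (Y := M) (z := 2 * Q ^ 5) (N := N)
    (by omega) hQ51 hQ5 hMN (by omega) hh0 hh1 KM hK hKM
  have hcard := card_major (Q := Q) (X := 2 * M) (Y := M) (by omega) (by omega) (by omega) KM hK hKM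
  have e1 : ∀ k ∈ KM, ‖dft (2 * M) M (fun n => ((Eb Q n : ℝ) : ℂ)) k‖ ^ 2 =
      B ^ 2 * ‖∑ n ∈ Icc 1 M, f n * ee (n * ((k : ℝ) / (2 * M : ℕ)))‖ ^ 2 := by
    intro k _
    have e2 : dft (2 * M) M (fun n => ((Eb Q n : ℝ) : ℂ)) k =
        ((B : ℝ) : ℂ) * ∑ n ∈ Icc 1 M, f n * ee (n * ((k : ℝ) / (2 * M : ℕ))) := by
      unfold dft
      rw [mul_sum]
      apply sum_congr rfl
      intro n hn
      rw [mem_Icc] at hn
      rw [hf]
      simp only
      rw [if_pos (by omega)]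
      have : (B : ℂ) ≠ 0 := by exact_mod_cast hB0.ne'
      push_cast
      field_simp
    rw [e2, norm_mul, mul_pow, Complex.norm_real, Real.norm_eq_abs, sq_abs]
  rw [sum_congr rfl e1, ← mul_sum]
  have e3 : ∀ x, EE h Q (Ioc (2 * Q ^ 5) N) (fun n => f n / n) x =
      (1 / B) ^ 2 * EE h Q (Ioc (2 * Q ^ 5) N) (cE Q) x := by
    intro x
    rw [← EE_scale]
    unfold EE
    apply sum_congr rfl
    intro q _
    apply sum_congr rfl
    intro a _
    congr 2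
    unfold ggC
    apply sum_congr rfl
    intro n hn
    rw [mem_Ioc] at hn
    congr 2
    rw [hf]
    simp only
    rw [if_pos hn.2]
    unfold cE
    push_cast
    ring
  have e4 : ∫ x in Set.Iic (Real.log M), Real.exp x * EE h Q (Ioc (2 * Q ^ 5) N) (fun n => f n / n) x =
      (1 / B) ^ 2 * ∫ x in Set.Iic (Real.log M), Real.exp x * EE h Q (Ioc (2 * Q ^ 5) N) (cE Q) x := by
    rw [← integral_const_mul]
    congr 1
    ext x
    rw [e3]
    ring
  rw [e4] at h1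
  set I := ∫ x in Set.Iic (Real.log M), Real.exp x * EE h Q (Ioc (2 * Q ^ 5) N) (cE Q) x with hI
  have h2 := mul_le_mul_of_nonneg_left h1 (by positivity : 0 ≤ B ^ 2)
  refine h2.trans ?_
  -- the numerical part
  have hMQ : ((2 * M : ℕ) : ℝ) / M = 2 := by
    push_cast
    field_simp
  rw [hMQ] at hcard
  have hc2 : (KM.card : ℝ) ≤ 10 * Q ^ 3 := by
    refine hcard.trans ?_
    have : (1 : ℝ) ≤ Q := by linarith only [hQ0]
    calc 2 * (Q : ℝ) ^ 2 * (2 * (Q : ℝ) * 2 + 1) = 8 * (Q : ℝ) ^ 3 + 2 * ((Q : ℝ) ^ 2 * 1) := by ring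
      _ ≤ 8 * (Q : ℝ) ^ 3 + 2 * ((Q : ℝ) ^ 2 * (Q : ℝ)) := by gcongr
      _ = _ := by ring
  have hEr : ((2 * Q ^ 5 : ℕ) : ℝ) + 4 + 18 * h * M + 4 * π * h * Q * M ≤ 20 * (M / (Q : ℝ) ^ 2) := by
    have b1 : ((2 * Q ^ 5 : ℕ) : ℝ) ≤ M / (Q : ℝ) ^ 2 := by
      rw [le_div_iff₀ (by positivity)]
      push_cast
      have : (2 : ℝ) * Q ^ 7 ≤ M := by exact_mod_cast hQM
      have e : (2 : ℝ) * (Q : ℝ) ^ 5 * (Q : ℝ) ^ 2 = 2 * (Q : ℝ) ^ 7 := by ring
      rw [e]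
      exact this
    have b2 : (4 : ℝ) ≤ M / (Q : ℝ) ^ 2 / 4 := by
      have : (16 : ℝ) ≤ ((2 * Q ^ 5 : ℕ) : ℝ) := by
        push_cast
        have : (4 : ℝ) ^ 5 ≤ (Q : ℝ) ^ 5 := pow_le_pow_left₀ (by norm_num) hQ0 5
        linarith only [this]
      linarith only [this, b1]
    have b3 : 18 * h * M ≤ 5 * (M / (Q : ℝ) ^ 2) := by
      have : 18 * h * M = (18 / Q) * (M / (Q : ℝ) ^ 2) := by
        rw [hh]
        field_simp
      rw [this]
      apply mul_le_mul_of_nonneg_right _ (by positivity)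
      rw [div_le_iff₀ hQpos]
      linarith only [hQ0]
    have b4 : 4 * π * h * Q * M ≤ 13 * (M / (Q : ℝ) ^ 2) := by
      have : 4 * π * h * Q * M = (4 * π) * (M / (Q : ℝ) ^ 2) := by
        rw [hh]
        field_simp
      rw [this]
      apply mul_le_mul_of_nonneg_right _ (by positivity)
      linarith only [Real.pi_lt_d2]
    have b5 : 0 ≤ M / (Q : ℝ) ^ 2 := by positivity
    linarith only [b1, b2, b3, b4, b5]
  have hEr0 : 0 ≤ ((2 * Q ^ 5 : ℕ) : ℝ) + 4 + 18 * h * M + 4 * π * h * Q * M := by positivity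
  have h3 : 2 * (KM.card : ℝ) * (((2 * Q ^ 5 : ℕ) : ℝ) + 4 + 18 * h * M + 4 * π * h * Q * M) ^ 2 ≤
      2 * (10 * Q ^ 3) * (20 * (M / (Q : ℝ) ^ 2)) ^ 2 := by
    have := pow_le_pow_left₀ hEr0 hEr 2
    gcongr
  have e5 : 2 * (10 * (Q : ℝ) ^ 3) * (20 * (M / (Q : ℝ) ^ 2)) ^ 2 = 8000 * M * (M / Q) := by
    field_simp
    ring
  rw [e5] at h3
  calc B ^ 2 * (2 * (KM.card : ℝ) * (((2 * Q ^ 5 : ℕ) : ℝ) + 4 + 18 * h * M + 4 * π * h * Q * M) ^ 2 +
      2 * (((2 * M : ℕ) : ℝ) * ((1 / B) ^ 2 * I))) ≤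
      B ^ 2 * (8000 * M * (M / Q) + 2 * (((2 * M : ℕ) : ℝ) * ((1 / B) ^ 2 * I))) := by
        apply mul_le_mul_of_nonneg_left _ (by positivity)
        linarith only [h3]
    _ = 8000 * B ^ 2 * M * (M / Q) + 2 * (((2 * M : ℕ) : ℝ) * I) := by
        field_simp
    _ ≤ _ := by
        have b6 : 0 ≤ B ^ 2 * M * (M / Q) := by positivity
        push_cast
        have e6 : 2 * (M : ℝ) * (16000 * B ^ 2 * M / Q + 2 * I) =
            32000 * (B ^ 2 * M * (M / Q)) + 2 * (2 * M * I) := by ring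
        rw [e6]
        linarith only [b6]

/-- **the L¹ bound at a good scale** -/
theorem psi_good : ∃ c₀ : ℝ, 0 < c₀ ∧ ∀ c₁ : ℝ, 0 < c₁ → c₁ ≤ c₀ → ∀ A : ℕ, ∃ K H0 C : ℝ,
    1 ≤ K ∧ 1 ≤ C ∧ ∀ Q : ℕ, NRZ c₁ Q → ∀ H : ℕ, H0 ≤ H → Real.log H + 1 ≤ Real.log Q ^ 2 →
    K * Real.log Q * Real.log (Real.log H) ≤ Real.log H → ∀ S T : Finset ℕ,
    (∀ a ∈ S, a ≤ H) → (∀ n ∈ T, 1 ≤ n ∧ n ≤ H) → ∀ g : ℕ → ℝ,
    ∑ a ∈ S, |∑ n ∈ T, g n * Eb Q (n + a)| ≤
      √(S.card) * (√H / Real.log H ^ A) * ∑ n ∈ T, |g n| +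
      √(S.card) * (C * Real.log H ^ 8 * (H / √(Q : ℝ))) * √(∑ n ∈ T, g n ^ 2) := by
  obtain ⟨c₀, hc₀, hET⟩ := energy_total
  refine ⟨c₀, hc₀, fun c₁ hc₁ hc₁₀ A => ?_⟩
  obtain ⟨K, Y0, hK, hE⟩ := hET c₁ hc₁ hc₁₀ (2 * A + 1)
  clear hET
  obtain ⟨Cm, N1, hCm, hMS⟩ := minor_sup
  obtain ⟨CV, hCV, hVl⟩ := Vz_inv_log
  obtain ⟨C10, hC10, h10l⟩ := exp_sum_inv 10
  have hlogt := Real.tendsto_log_atTop
  -- the truncation parameter
  set cR : ℕ := 2 * A + 14 with hcR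
  have e1 : ∀ᶠ Y : ℝ in atTop, max (max 100 (2 * CV ^ 2 * C10)) (100 * (CV ^ 2)) ≤ Real.log Y :=
    hlogt.eventually_ge_atTop _
  have e2 : ∀ᶠ Y : ℝ in atTop, 16000 * (2 ^ 2 * 100) *
      (Real.log Y ^ (2 * A + 4) * Real.exp (-√(Real.log Y))) ≤ 1 :=
    hlogt.eventually (ev_exp_sqrt (2 * A + 4) (16000 * (2 ^ 2 * 100)) (by norm_num))
  have e3 : ∀ᶠ Y : ℝ in atTop, (1 : ℝ) ≤ Real.log (Real.log Y) :=
    (hlogt.comp hlogt).eventually_ge_atTop 1
  obtain ⟨H0, hH0⟩ := (e1.and (e2.and e3)).exists_forall_of_atTop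
  clear e1 e2 e3
  refine ⟨max (max 100 (16 * (cR : ℝ))) (2 * K), max (max H0 Y0) (max N1 200), 512 * Cm, ?_, ?_,
    fun Q hNR H hH hHQ hHK S T hS hT g => ?_⟩
  · exact le_trans (by norm_num) ((le_max_left _ _).trans (le_max_left _ _))
  · linarith only [hCm]
  have hHH0 : H0 ≤ H := ((le_max_left _ _).trans (le_max_left _ _)).trans hH
  have hHY0 : Y0 ≤ H := ((le_max_right _ _).trans (le_max_left _ _)).trans hH
  have hHN1 : (N1 : ℝ) ≤ H := ((le_max_left _ _).trans (le_max_right _ _)).trans hH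
  have hH200 : (200 : ℝ) ≤ H := ((le_max_right _ _).trans (le_max_right _ _)).trans hH
  clear hH
  have hHpos : (0 : ℝ) < H := by linarith only [hH200]
  -- `M = 2 H`
  obtain ⟨M, hM⟩ : ∃ M : ℕ, M = 2 * H := ⟨_, rfl⟩
  have hMr : (M : ℝ) = 2 * H := by rw [hM]; push_cast; ring
  have hMpos : (0 : ℝ) < M := by rw [hMr]; linarith only [hHpos]
  obtain ⟨h1, h2, h3⟩ := hH0 M (by rw [hMr]; linarith only [hHH0, hHpos])
  clear hH0
  obtain ⟨lM, hlM⟩ : ∃ lM : ℝ, lM = Real.log M := ⟨_, rfl⟩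
  obtain ⟨lH, hlH⟩ : ∃ lH : ℝ, lH = Real.log H := ⟨_, rfl⟩
  obtain ⟨lam, hlam⟩ : ∃ lam : ℝ, lam = Real.log Q := ⟨_, rfl⟩
  rw [← hlM] at h1 h2 h3
  rw [← hlam, ← hlH] at hHK hHQ
  rw [← hlH]
  have hl100 : 100 ≤ lM := ((le_max_left _ _).trans (le_max_left _ _)).trans h1
  have hlC : 2 * CV ^ 2 * C10 ≤ lM := ((le_max_right _ _).trans (le_max_left _ _)).trans h1
  have hlV : 100 * CV ^ 2 ≤ lM := (le_max_right _ _).trans h1
  clear h1
  have hl0 : 0 < lM := by linarith only [hl100]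
  have hlM1 : lM = Real.log 2 + lH := by
    rw [hlM, hMr, Real.log_mul (by norm_num) hHpos.ne', ← hlH]
  have hl2a := Real.log_two_lt_d9
  have hl2b := Real.log_two_gt_d9
  have hlHM : lH ≤ lM := by linarith only [hlM1, hl2b]
  have hlMH : lM ≤ lH + 1 := by linarith only [hlM1, hl2a]
  have hlH99 : 99 ≤ lH := by linarith only [hlMH, hl100]
  have hlH0 : 0 < lH := by linarith only [hlH99]
  have hlam0 : 0 ≤ lam := by rw [hlam]; exact Real.log_natCast_nonneg Q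
  have hlamM : lM ≤ lam ^ 2 := hlMH.trans hHQ
  have hlam10 : 10 ≤ lam := by
    by_contra hcon
    push Not at hcon
    nlinarith only [hcon, hlamM, hl100, hlam0]
  have hlamsq : √lM ≤ lam := by
    rw [Real.sqrt_le_left hlam0]
    exact hlamM
  have hQn : 4 ≤ Q := by
    by_contra hcon
    have hQ3 : Q ≤ 3 := by omega
    have : lam ≤ 2 := by
      rw [hlam]
      rcases Nat.eq_zero_or_pos Q with h0 | h0
      · rw [h0]; simp
      · have h4 : Real.log Q ≤ Real.log 4 := Real.log_le_log (by exact_mod_cast h0) (by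
          have : (Q : ℝ) ≤ 3 := by exact_mod_cast hQ3
          linarith)
        have e : (4 : ℝ) = 2 ^ 2 := by norm_num
        rw [e, Real.log_pow] at h4
        push_cast at h4
        linarith
    linarith only [this, hlam10]
  have hQr : (0 : ℝ) < Q := by exact_mod_cast (by omega : 0 < Q)
  have hQe : (Q : ℝ) = Real.exp lam := by rw [hlam, Real.exp_log hQr]
  have hllH : 0 < Real.log lH := Real.log_pos (by linarith only [hlH99])
  have hllM2 : Real.log lM ≤ 2 * Real.log lH := by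
    have h4 : lM ≤ lH ^ 2 := by nlinarith only [hlMH, hlH99]
    have h5 := Real.log_le_log hl0 h4
    rw [Real.log_pow] at h5
    exact_mod_cast h5
  have hK0 : 0 < lam * Real.log lH := by positivity
  have hK100 : 100 * (lam * Real.log lH) ≤ lH := by
    have : 100 * (lam * Real.log lH) ≤ max (max 100 (16 * (cR : ℝ))) (2 * K) * (lam * Real.log lH) :=
      mul_le_mul_of_nonneg_right ((le_max_left _ _).trans (le_max_left _ _)) hK0.le
    linarith only [this, hHK]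
  have hKR : 16 * (cR : ℝ) * (lam * Real.log lH) ≤ lH := by
    have : 16 * (cR : ℝ) * (lam * Real.log lH) ≤ max (max 100 (16 * (cR : ℝ))) (2 * K) * (lam * Real.log lH) :=
      mul_le_mul_of_nonneg_right ((le_max_right _ _).trans (le_max_left _ _)) hK0.le
    linarith only [this, hHK]
  have hK2 : 2 * K * (lam * Real.log lH) ≤ lH := by
    have : 2 * K * (lam * Real.log lH) ≤ max (max 100 (16 * (cR : ℝ))) (2 * K) * (lam * Real.log lH) :=
      mul_le_mul_of_nonneg_right (le_max_right _ _) hK0.le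
    linarith only [this, hHK]
  have hKM : K * lam * Real.log lM ≤ lM := by
    have h4 : K * lam * Real.log lM ≤ K * lam * (2 * Real.log lH) :=
      mul_le_mul_of_nonneg_left hllM2 (by positivity)
    linarith only [h4, hK2, hlHM]
  have hllH1 : 1 ≤ Real.log lH := by
    rw [Real.le_log_iff_exp_le hlH0]
    linarith only [Real.exp_one_lt_d9, hlH99]
  have hlamH : 100 * lam ≤ lH := by
    have : lam ≤ lam * Real.log lH := le_mul_of_one_le_right hlam0 hllH1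
    linarith only [this, hK100]
  -- powers of `Q`
  have hQpow : ∀ k : ℕ, ∀ x : ℝ, (k : ℝ) * lam + x ≤ lM → (Q : ℝ) ^ k * Real.exp x ≤ M := by
    intro k x hk
    rw [hQe, ← Real.exp_nat_mul, ← Real.exp_add, ← Real.exp_log hMpos, ← hlM]
    exact Real.exp_le_exp.2 hk
  have he1 : (2 : ℝ) ≤ Real.exp 1 := by linarith only [Real.exp_one_gt_d9]
  have hQM : 2 * Q ^ 7 ≤ M := by
    have h4 := hQpow 7 1 (by push_cast; linarith only [hlamH, hlHM, hlH99])
    have h5 : (2 : ℝ) * Q ^ 7 ≤ M := by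
      calc (2 : ℝ) * Q ^ 7 = Q ^ 7 * 2 := by ring
        _ ≤ Q ^ 7 * Real.exp 1 := by gcongr
        _ ≤ M := h4
    exact_mod_cast h5
  have hQ4 : (Q * Q) * (Q * Q) ≤ M := by
    have h4 : (Q * Q) * (Q * Q) ≤ 2 * Q ^ 7 := by
      calc (Q * Q) * (Q * Q) = Q ^ 4 := by ring
        _ ≤ Q ^ 7 := Nat.pow_le_pow_right (by omega) (by norm_num)
        _ ≤ 2 * Q ^ 7 := by omega
    exact h4.trans hQM
  -- the number of terms
  set R := ⌈(cR : ℝ) * Real.log lM⌉₊ with hR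
  have hR1 : (cR : ℝ) * Real.log lM ≤ R := Nat.le_ceil _
  have hcR1 : (1 : ℝ) ≤ cR := by exact_mod_cast (by omega : 1 ≤ cR)
  have hR2 : (R : ℝ) ≤ 2 * (cR * Real.log lM) := by
    have h4 : (R : ℝ) < cR * Real.log lM + 1 := Nat.ceil_lt_add_one (by positivity)
    have h5 : 1 ≤ cR * Real.log lM := by nlinarith only [hcR1, h3]
    linarith only [h4, h5]
  have hlogQ1 : Real.log ((Q : ℝ) + 1) ≤ 2 * lam := by
    have h4 : (Q : ℝ) + 1 ≤ (Q : ℝ) ^ 2 := by
      have : (4 : ℝ) ≤ Q := by exact_mod_cast hQn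
      nlinarith only [this]
    have h5 := Real.log_le_log (by positivity) h4
    rw [Real.log_pow, ← hlam] at h5
    exact_mod_cast h5
  have hRl : (R : ℝ) * Real.log ((Q : ℝ) + 1) ≤ lH / 2 := by
    calc (R : ℝ) * Real.log ((Q : ℝ) + 1) ≤ (2 * (cR * Real.log lM)) * (2 * lam) := by
          apply mul_le_mul hR2 hlogQ1 (Real.log_nonneg (by linarith only [hQr])) (by positivity)
      _ ≤ (2 * (cR * (2 * Real.log lH))) * (2 * lam) := by gcongr
      _ = (16 * cR * (lam * Real.log lH)) / 2 := by ring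
      _ ≤ lH / 2 := by linarith only [hKR]
  have hQR : (Q + 1) ^ R * Q ≤ M := by
    have h4 : (((Q + 1) ^ R * Q : ℕ) : ℝ) ≤ M := by
      push_cast
      rw [hQe, ← hQe, ← Real.exp_log (by positivity : 0 < ((Q : ℝ) + 1) ^ R), Real.log_pow]
      nth_rewrite 2 [hQe]
      rw [← Real.exp_add, ← Real.exp_log hMpos, ← hlM]
      apply Real.exp_le_exp.2
      linarith only [hRl, hlamH, hlHM, hlH0]
    exact_mod_cast h4
  have hexpR : Real.exp (-(R : ℝ)) ≤ 1 / lM ^ cR := by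
    have e2 : 1 / lM ^ cR = Real.exp (-((cR : ℝ) * Real.log lM)) := by
      rw [Real.exp_neg, Real.exp_nat_mul, Real.exp_log hl0, one_div]
    rw [e2]
    exact Real.exp_le_exp.2 (neg_le_neg hR1)
  -- the constants
  have hV0 : 0 ≤ (Vz Q)⁻¹ := (inv_pos.2 (Vz_pos Q)).le
  have hCV0 : 0 < CV := by linarith only [hCV]
  have hVb : (Vz Q)⁻¹ ≤ CV * (lM / 100) := by
    refine (hVl Q (by omega)).trans (mul_le_mul_of_nonneg_left ?_ hCV0.le)
    rw [← hlam]
    linarith only [hlamH, hlHM]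
  obtain ⟨B, hB⟩ : ∃ B : ℝ, B = CV * (2 * lM) := ⟨_, rfl⟩
  have hB0 : 0 < B := by rw [hB]; positivity
  have hB2 : (Vz Q)⁻¹ ≤ B := by
    rw [hB]
    refine hVb.trans (mul_le_mul_of_nonneg_left ?_ hCV0.le)
    linarith only [hl0]
  have hB1 : Real.log ((200 * M : ℕ) : ℝ) ≤ B := by
    have h4 : Real.log ((200 * M : ℕ) : ℝ) ≤ 2 * lM := by
      push_cast
      have h5 : 200 * (M : ℝ) ≤ (M : ℝ) ^ 2 := by nlinarith only [hMr, hH200]
      have h6 := Real.log_le_log (by positivity) h5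
      rw [Real.log_pow, ← hlM] at h6
      exact_mod_cast h6
    rw [hB]
    refine h4.trans ?_
    exact le_mul_of_one_le_left (by positivity) hCV
  classical
  obtain ⟨KM, hKMd⟩ : ∃ KM : Finset ℕ, KM = (range (2 * M)).filter (fun k : ℕ => ∃ (q : ℕ) (c : ℤ),
    Pool.Agent.W93.LM.MajAt M Q ((k : ℝ) / (2 * M : ℕ)) q c) := ⟨_, rfl⟩
  have hKsub : KM ⊆ range (2 * M) := by rw [hKMd]; exact filter_subset _ _
  have hmaj := major_Eb (Q := Q) (M := M) (N := 200 * M) (B := B) hQn hQM (by omega) hB1 hB2 hB0 KM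
    hKsub (fun k hk => by rw [hKMd, mem_filter] at hk; exact hk.2)
  have hYM : Y0 ≤ M := by rw [hMr]; linarith only [hHY0, hHpos]
  have hen := hE Q hNR M hYM (by rw [← hlM, ← hlam]; exact hlamM) (by rw [← hlM, ← hlam]; exact hKM)
  rw [← hlM] at hen hmaj
  obtain ⟨I, hI⟩ : ∃ I : ℝ, I = ∫ x in Set.Iic lM, Real.exp x *
          EE (1 / (Q : ℝ) ^ 3) Q (Ioc (2 * Q ^ 5) (200 * M)) (cE Q) x := ⟨_, rfl⟩
  rw [← hI] at hen hmaj
  have hA1 : 16000 * B ^ 2 * M / Q + 2 * I ≤ 3 * (M / lM ^ (2 * A + 1)) := by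
    have h4 : 16000 * B ^ 2 / Q ≤ 1 / lM ^ (2 * A + 1) := by
      rw [le_div_iff₀ (by positivity)]
      have h5 : 1 / (Q : ℝ) ≤ Real.exp (-√lM) := by
        rw [hQe, one_div, ← Real.exp_neg]
        exact Real.exp_le_exp.2 (neg_le_neg hlamsq)
      calc 16000 * B ^ 2 / Q * lM ^ (2 * A + 1) =
          16000 * 4 / 100 * (100 * CV ^ 2) * lM ^ 2 * lM ^ (2 * A + 1) * (1 / Q) := by
            rw [hB]
            ring
        _ ≤ 16000 * 4 / 100 * lM * lM ^ 2 * lM ^ (2 * A + 1) * Real.exp (-√lM) := by gcongr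
        _ = 640 * (lM ^ (2 * A + 4) * Real.exp (-√lM)) := by ring
        _ ≤ 1 := by
            have h0 : 0 ≤ lM ^ (2 * A + 4) * Real.exp (-√lM) := by positivity
            linarith only [h0, h2]
    have h5 : 16000 * B ^ 2 * M / Q = (16000 * B ^ 2 / Q) * M := by ring
    have h6 := mul_le_mul_of_nonneg_right h4 hMpos.le
    rw [h5]
    have h7 : 1 / lM ^ (2 * A + 1) * M = M / lM ^ (2 * A + 1) := by ring
    rw [h7] at h6
    linarith only [h6, hen]
  have hA2 : ∑ n ∈ Icc 1 M, ‖(((lamz Q n - Mq Q R n : ℝ)) : ℂ)‖ ^ 2 ≤ M / lM ^ (2 * A + 1) := by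
    have h4 := eR_sum Q R (Icc 1 M) (fun _ => (1 : ℝ)) (fun _ _ => zero_le_one) M (by
      intro d hd
      rw [← sum_filter, sum_const, nsmul_eq_mul, mul_one]
      have h6 : ((Icc 1 M).filter (fun n => d ∣ n)).card = M / d := by
        rw [← Nat.Ioc_filter_dvd_card_eq_div M d]
        congr 1
      rw [h6]
      exact Nat.cast_div_le)
    have h5 : ∑ n ∈ Icc 1 M, ‖(((lamz Q n - Mq Q R n : ℝ)) : ℂ)‖ ^ 2 ≤
        (Vz Q)⁻¹ ^ 2 * ∑ n ∈ Icc 1 M, 1 * eR Q R n ^ 2 := by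
      rw [mul_sum]
      apply sum_le_sum
      intro n _
      rw [Complex.norm_real, Real.norm_eq_abs]
      have := pow_le_pow_left₀ (abs_nonneg _) (lamz_sub Q R n) 2
      rw [mul_pow] at this
      linarith only [this]
    refine h5.trans ?_
    have h6 : Real.exp (10 * ∑ p ∈ pz Q, 1 / (p : ℝ)) ≤ C10 * lM ^ 10 := by
      have := h10l Q (by omega)
      push_cast at this
      refine this.trans ?_
      rw [← hlam]
      apply mul_le_mul_of_nonneg_left _ (by linarith only [hC10])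
      exact pow_le_pow_left₀ hlam0 (by linarith only [hlamH, hlHM, hlH0]) 10
    calc (Vz Q)⁻¹ ^ 2 * ∑ n ∈ Icc 1 M, 1 * eR Q R n ^ 2 ≤
        (CV * lM) ^ 2 * ((1 / lM ^ cR) * (M * (C10 * lM ^ 10))) := by
          apply mul_le_mul
          · apply pow_le_pow_left₀ hV0
            refine hVb.trans (mul_le_mul_of_nonneg_left ?_ hCV0.le)
            linarith only [hl0]
          · refine h4.trans ?_
            gcongr
          · exact sum_nonneg fun n _ => by positivity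
          · positivity
      _ = (CV ^ 2 * C10) * (lM ^ 12 / lM ^ cR) * M := by ring
      _ ≤ lM * (lM ^ 12 / lM ^ cR) * M := by
          gcongr
          have : 0 ≤ CV ^ 2 * C10 := by positivity
          linarith only [hlC, this]
      _ = M / lM ^ (2 * A + 1) := by
          have : lM ^ cR = lM ^ (2 * A + 1) * lM ^ 13 := by
            rw [← pow_add]
          rw [this]
          field_simp
  have hmin : ∀ k ∈ range (2 * M), k ∉ KM → ‖dft (2 * M) M (fun n => ((Eb Q n : ℝ) : ℂ)) k +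
      dft (2 * M) M (fun n => (((lamz Q n - Mq Q R n : ℝ)) : ℂ)) k‖ ≤ Cm * lM ^ 8 * (M / √(Q : ℝ)) := by
    intro k hk hkK
    have h4 := hMS M (by
      have : (N1 : ℝ) ≤ M := by rw [hMr]; linarith only [hHN1, hHpos]
      exact_mod_cast this) Q R hQn hQ4 hQR ((k : ℝ) / (2 * M : ℕ)) (by
      intro h5
      apply hkK
      rw [hKMd, mem_filter]
      exact ⟨hk, h5⟩)
    rw [← hlM] at h4
    refine le_trans (le_of_eq ?_) h4
    rw [← dft_add]
    unfold dft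
    congr 1
    apply sum_congr rfl
    intro n _
    rw [ee_eq]
    congr 1
    unfold Eb
    push_cast
    ring
  have hpsi := psi_abs (X := 2 * M) (M := M) (by
    have : 1 ≤ M := by exact_mod_cast hMpos
    omega) S T (fun n hn a ha => by
      have h4 := hT n hn
      have h5 := hS a ha
      omega) (fun n => ((Eb Q n : ℝ) : ℂ)) (fun n => (((lamz Q n - Mq Q R n : ℝ)) : ℂ)) KM hKsub
      (A1 := 3 * (M / lM ^ (2 * A + 1))) (A2 := M / lM ^ (2 * A + 1))
      (Mb := Cm * lM ^ 8 * (M / √(Q : ℝ)))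
      (hmaj.trans (mul_le_mul_of_nonneg_left hA1 (Nat.cast_nonneg _))) hA2 (by positivity) hmin
      (fun n => ((g n : ℝ) : ℂ))
  have hlhs : ∑ a ∈ S, |∑ n ∈ T, g n * Eb Q (n + a)| =
      ∑ a ∈ S, ‖∑ n ∈ T, ((g n : ℝ) : ℂ) * ((Eb Q (n + a) : ℝ) : ℂ)‖ := by
    apply sum_congr rfl
    intro a _
    rw [← Real.norm_eq_abs, ← Complex.norm_real]
    congr 1
    push_cast
    rfl
  rw [hlhs]
  refine hpsi.trans ?_
  have hg1 : ∑ n ∈ T, ‖((g n : ℝ) : ℂ)‖ = ∑ n ∈ T, |g n| :=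
    sum_congr rfl fun n _ => by rw [Complex.norm_real, Real.norm_eq_abs]
  have hg2 : ∑ n ∈ T, ‖((g n : ℝ) : ℂ)‖ ^ 2 = ∑ n ∈ T, g n ^ 2 :=
    sum_congr rfl fun n _ => by rw [Complex.norm_real, Real.norm_eq_abs, sq_abs]
  rw [hg1, hg2]
  -- the final numerical bounds
  have hpowHM : lH ^ A ≤ lM ^ A := pow_le_pow_left₀ hlH0.le hlHM A
  have hsqrt : √(3 * (M / lM ^ (2 * A + 1))) + √(M / lM ^ (2 * A + 1)) ≤ √H / lH ^ A := by
    have h4 : √(3 * (M / lM ^ (2 * A + 1))) ≤ 2 * √(M / lM ^ (2 * A + 1)) := by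
      have h5 : √(3 * (M / lM ^ (2 * A + 1))) ≤ √(2 ^ 2 * (M / lM ^ (2 * A + 1))) := by
        apply Real.sqrt_le_sqrt
        have : 0 ≤ M / lM ^ (2 * A + 1) := by positivity
        linarith only [this]
      refine h5.trans (le_of_eq ?_)
      rw [Real.sqrt_mul (by norm_num), Real.sqrt_sq (by norm_num)]
    have h6 : 3 * √(M / lM ^ (2 * A + 1)) ≤ √H / lM ^ A := by
      have e : √(H : ℝ) / lM ^ A = √(H / lM ^ (2 * A)) := by
        rw [Real.sqrt_div hHpos.le, mul_comm 2 A, pow_mul, Real.sqrt_sq (by positivity)]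
      have e2 : 3 * √(M / lM ^ (2 * A + 1)) = √(9 * (M / lM ^ (2 * A + 1))) := by
        rw [Real.sqrt_mul (by norm_num)]
        congr 1
        rw [show (9 : ℝ) = 3 ^ 2 by norm_num, Real.sqrt_sq (by norm_num)]
      rw [e, e2]
      apply Real.sqrt_le_sqrt
      rw [hMr, pow_succ]
      have : 9 * (2 * (H : ℝ) / (lM ^ (2 * A) * lM)) = (H / lM ^ (2 * A)) * (18 / lM) := by
        field_simp
        ring
      rw [this]
      apply mul_le_of_le_one_right (by positivity)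
      rw [div_le_one hl0]
      linarith only [hl100]
    have h7 : √(H : ℝ) / lM ^ A ≤ √H / lH ^ A := by gcongr
    linarith only [h4, h6, h7]
  have hmb : Cm * lM ^ 8 * (M / √(Q : ℝ)) ≤ 512 * Cm * lH ^ 8 * (H / √(Q : ℝ)) := by
    have h4 : lM ^ 8 ≤ (2 * lH) ^ 8 := pow_le_pow_left₀ hl0.le (by linarith only [hlMH, hlH99]) 8
    calc Cm * lM ^ 8 * (M / √(Q : ℝ)) ≤ Cm * (2 * lH) ^ 8 * (M / √(Q : ℝ)) := by gcongr
      _ = _ := by
          rw [hMr]
          ring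
  have hg0 : 0 ≤ ∑ n ∈ T, |g n| := sum_nonneg fun _ _ => abs_nonneg _
  apply add_le_add
  · apply mul_le_mul_of_nonneg_right _ hg0
    exact mul_le_mul_of_nonneg_left hsqrt (Real.sqrt_nonneg _)
  · apply mul_le_mul_of_nonneg_right _ (Real.sqrt_nonneg _)
    exact mul_le_mul_of_nonneg_left hmb (Real.sqrt_nonneg _)

end Pool.Agent.R521.F6
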