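import Mathlib

set_option autoImplicit false

/-!
# The telescoping inequality for products over tuples
-/

open Finset

namespace Pool.Agent.R521.F6

/-- the tuples -/
def tup (k : ℕ) (S : Finset ℕ) : Finset (Fin k → ℕ) := Fintype.piFinset fun _ => S

lemma mem_tup {k : ℕ} {S : Finset ℕ} {a : Fin k → ℕ} : a ∈ tup k S ↔ ∀ i, a i ∈ S := by
  unfold tup
  rw [Fintype.mem_piFinset]

lemma tup_sum_succ (k : ℕ) (S : Finset ℕ) (f : (Fin (k + 1) → ℕ) → ℝ) :
    ∑ a ∈ tup (k + 1) S, f a = ∑ b ∈ S, ∑ a ∈ tup k S, f (Fin.cons b a) := by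
  rw [← sum_product']
  refine sum_nbij' (fun a => (a 0, Fin.tail a)) (fun x => Fin.cons x.1 x.2) ?_ ?_ ?_ ?_ ?_
  · intro a ha
    rw [mem_tup] at ha
    rw [mem_product, mem_tup]
    exact ⟨ha 0, fun i => ha i.succ⟩
  · intro x hx
    rw [mem_product, mem_tup] at hx
    rw [mem_tup]
    intro i
    refine Fin.cases ?_ (fun j => ?_) i
    · simpa using hx.1
    · simpa using hx.2 j
  · intro a _
    exact Fin.cons_self_tail a
  · intro x _
    simp
  · intro a _
    rw [Fin.cons_self_tail]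

lemma tup_prod_sum (k : ℕ) (S : Finset ℕ) (f : ℕ → ℝ) :
    ∑ a ∈ tup k S, ∏ i, f (a i) = (∑ b ∈ S, f b) ^ k := by
  unfold tup
  rw [Finset.sum_prod_piFinset S (fun (_ : Fin k) b => f b)]
  simp

lemma card_tup (k : ℕ) (S : Finset ℕ) : (tup k S).card = S.card ^ k := by
  unfold tup
  simp

lemma l1_l2 {ι : Type*} (s : Finset ι) (f : ι → ℝ) (hf : ∀ i ∈ s, 0 ≤ f i) :
    ∑ i ∈ s, √(f i) ≤ √(s.card) * √(∑ i ∈ s, f i) := by
  rw [← Real.sqrt_mul (Nat.cast_nonneg _)]
  apply Real.le_sqrt_of_sq_le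
  refine (sq_sum_le_card_mul_sum_sq (s := s) (f := fun i => √(f i))).trans (le_of_eq ?_)
  congr 1
  apply sum_congr rfl
  intro i hi
  exact Real.sq_sqrt (hf i hi)

/-- **telescoping** -/
theorem telescope (S T : Finset ℕ) (F G : ℕ → ℝ) (hF : ∀ m, 0 ≤ F m) (hG : ∀ m, 0 ≤ G m)
    {B Hh α β : ℝ} (hBF : ∀ n ∈ T, ∑ a ∈ S, F (n + a) ≤ B) (hBG : ∀ n ∈ T, ∑ a ∈ S, G (n + a) ≤ B)
    (hHF : ∀ n ∈ T, ∑ a ∈ S, F (n + a) ^ 2 ≤ Hh) (hHG : ∀ n ∈ T, ∑ a ∈ S, G (n + a) ^ 2 ≤ Hh)
    (hα : 0 ≤ α) (hβ : 0 ≤ β) (hB0 : 0 ≤ B) (hH0 : 0 ≤ Hh)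
    (hpsi : ∀ g : ℕ → ℝ, ∑ a ∈ S, |∑ n ∈ T, g n * (F (n + a) - G (n + a))| ≤
      α * ∑ n ∈ T, |g n| + β * √(∑ n ∈ T, g n ^ 2)) (k : ℕ) : ∀ v : ℕ → ℝ,
    ∑ a ∈ tup k S, |∑ n ∈ T, v n * (∏ i, F (n + a i) - ∏ i, G (n + a i))| ≤
      k * (α * B ^ (k - 1) * ∑ n ∈ T, |v n| + β * √(S.card * Hh) ^ (k - 1) * √(∑ n ∈ T, v n ^ 2)) := by
  set s := √((S.card : ℝ) * Hh) with hs
  have hs0 : 0 ≤ s := Real.sqrt_nonneg _
  induction k with
  | zero =>
    intro v
    simp
  | succ k ih =>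
    intro v
    rw [tup_sum_succ, Nat.add_sub_cancel]
    set V1 := ∑ n ∈ T, |v n| with hV1
    set V2 := ∑ n ∈ T, v n ^ 2 with hV2
    have hV10 : 0 ≤ V1 := sum_nonneg fun _ _ => abs_nonneg _
    have hV20 : 0 ≤ V2 := sum_nonneg fun _ _ => sq_nonneg _
    have h1 : ∀ b ∈ S, ∀ a ∈ tup k S,
        |∑ n ∈ T, v n * (∏ i, F (n + (Fin.cons b a : Fin (k + 1) → ℕ) i) -
          ∏ i, G (n + (Fin.cons b a : Fin (k + 1) → ℕ) i))| ≤
        |∑ n ∈ T, (v n * F (n + b)) * (∏ i, F (n + a i) - ∏ i, G (n + a i))| +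
        |∑ n ∈ T, (v n * ∏ i, G (n + a i)) * (F (n + b) - G (n + b))| := by
      intro b _ a _
      refine le_trans (le_of_eq ?_) (abs_add_le _ _)
      congr 1
      rw [← sum_add_distrib]
      apply sum_congr rfl
      intro n _
      rw [Fin.prod_univ_succ, Fin.prod_univ_succ]
      simp only [Fin.cons_zero, Fin.cons_succ]
      ring
    have h2 : ∑ b ∈ S, ∑ a ∈ tup k S, |∑ n ∈ T, (v n * F (n + b)) * (∏ i, F (n + a i) - ∏ i, G (n + a i))| ≤
        k * (α * B ^ k * V1 + β * s ^ k * √V2) := by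
      have h3 : ∀ b ∈ S, ∑ a ∈ tup k S,
          |∑ n ∈ T, (v n * F (n + b)) * (∏ i, F (n + a i) - ∏ i, G (n + a i))| ≤
          k * (α * B ^ (k - 1) * ∑ n ∈ T, |v n * F (n + b)| +
            β * s ^ (k - 1) * √(∑ n ∈ T, (v n * F (n + b)) ^ 2)) := fun b _ => ih _
      refine (sum_le_sum h3).trans ?_
      rw [← mul_sum, sum_add_distrib, ← mul_sum, ← mul_sum]
      rcases Nat.eq_zero_or_pos k with hk | hk
      · subst hk
        simp
      have hk1 : B ^ k = B ^ (k - 1) * B := by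
        rw [← pow_succ, Nat.sub_add_cancel hk]
      have hk2 : s ^ k = s ^ (k - 1) * s := by
        rw [← pow_succ, Nat.sub_add_cancel hk]
      apply mul_le_mul_of_nonneg_left _ (Nat.cast_nonneg _)
      apply add_le_add
      · rw [hk1, ← mul_assoc, mul_assoc (α * B ^ (k - 1))]
        apply mul_le_mul_of_nonneg_left _ (by positivity)
        rw [sum_comm, hV1, mul_sum]
        apply sum_le_sum
        intro n hn
        simp only [abs_mul, abs_of_nonneg (hF _)]
        rw [← mul_sum, mul_comm B]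
        exact mul_le_mul_of_nonneg_left (hBF n hn) (abs_nonneg _)
      · rw [hk2, ← mul_assoc, mul_assoc (β * s ^ (k - 1))]
        apply mul_le_mul_of_nonneg_left _ (by positivity)
        refine (l1_l2 S _ (fun b _ => sum_nonneg fun _ _ => sq_nonneg _)).trans ?_
        rw [hs, ← Real.sqrt_mul (Nat.cast_nonneg _), ← Real.sqrt_mul (by positivity)]
        apply Real.sqrt_le_sqrt
        rw [mul_assoc]
        apply mul_le_mul_of_nonneg_left _ (Nat.cast_nonneg _)
        rw [sum_comm, hV2, mul_sum]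
        apply sum_le_sum
        intro n hn
        simp only [mul_pow]
        rw [← mul_sum, mul_comm Hh]
        exact mul_le_mul_of_nonneg_left (hHF n hn) (sq_nonneg _)
    have h3 : ∑ b ∈ S, ∑ a ∈ tup k S, |∑ n ∈ T, (v n * ∏ i, G (n + a i)) * (F (n + b) - G (n + b))| ≤
        α * B ^ k * V1 + β * s ^ k * √V2 := by
      rw [sum_comm]
      refine (sum_le_sum fun a _ => hpsi (fun n => v n * ∏ i, G (n + a i))).trans ?_
      rw [sum_add_distrib, ← mul_sum, ← mul_sum]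
      apply add_le_add
      · rw [mul_assoc]
        apply mul_le_mul_of_nonneg_left _ hα
        rw [sum_comm, hV1, mul_sum]
        apply sum_le_sum
        intro n hn
        have h4 : ∀ a : Fin k → ℕ, |v n * ∏ i, G (n + a i)| = |v n| * ∏ i, G (n + a i) := by
          intro a
          rw [abs_mul, abs_of_nonneg (prod_nonneg fun _ _ => hG _)]
        simp only [h4]
        rw [← mul_sum, tup_prod_sum k S (fun b => G (n + b)), mul_comm (B ^ k)]
        apply mul_le_mul_of_nonneg_left _ (abs_nonneg _)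
        exact pow_le_pow_left₀ (sum_nonneg fun _ _ => hG _) (hBG n hn) k
      · rw [mul_assoc]
        apply mul_le_mul_of_nonneg_left _ hβ
        refine (l1_l2 (tup k S) _ (fun b _ => sum_nonneg fun _ _ => sq_nonneg _)).trans ?_
        have h5 : s ^ k * √V2 = √((S.card : ℝ) ^ k) * √(Hh ^ k * V2) := by
          have h6 : s ^ k = √(((S.card : ℝ) * Hh) ^ k) := by
            rw [← Real.sqrt_sq (pow_nonneg hs0 k), ← pow_mul, mul_comm k 2, pow_mul, hs,
              Real.sq_sqrt (by positivity)]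
          rw [h6, ← Real.sqrt_mul (by positivity), ← Real.sqrt_mul (by positivity)]
          congr 1
          rw [mul_pow]
          ring
        rw [h5, card_tup]
        push_cast
        apply mul_le_mul_of_nonneg_left _ (Real.sqrt_nonneg _)
        apply Real.sqrt_le_sqrt
        rw [sum_comm, hV2, mul_sum]
        apply sum_le_sum
        intro n hn
        simp only [mul_pow, ← prod_pow]
        rw [← mul_sum, tup_prod_sum k S (fun b => G (n + b) ^ 2), mul_comm (Hh ^ k)]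
        apply mul_le_mul_of_nonneg_left _ (sq_nonneg _)
        exact pow_le_pow_left₀ (sum_nonneg fun _ _ => sq_nonneg _) (hHG n hn) k
    calc _ ≤ ∑ b ∈ S, ∑ a ∈ tup k S,
          (|∑ n ∈ T, (v n * F (n + b)) * (∏ i, F (n + a i) - ∏ i, G (n + a i))| +
          |∑ n ∈ T, (v n * ∏ i, G (n + a i)) * (F (n + b) - G (n + b))|) :=
          sum_le_sum fun b hb => sum_le_sum fun a ha => h1 b hb a ha
      _ = _ := by simp only [sum_add_distrib]
      _ ≤ k * (α * B ^ k * V1 + β * s ^ k * √V2) + (α * B ^ k * V1 + β * s ^ k * √V2) := add_le_add h2 h3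
      _ = _ := by push_cast; ring

end Pool.Agent.R521.F6
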