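import Pool.Agent.R521.F6.B3
import Pool.Agent.H373R2.T7.Cnt

set_option autoImplicit false

/-!
# The sieve counts for the model
-/

open Finset
open scoped Real

namespace Pool.Agent.R521.F6

open Pool.Agent.H373R2.T7 (pz Vz lamz mem_pz Vz_pos Vz_le_one es bonf sieve_gen' es_le bonf_ind
  card_small prod_dvd_iff prod_le_pow card_pz_le lamz_nonneg es_nonneg count_sys)

lemma card_sets' (Q r : ℕ) : ∑ j ∈ range (r + 1), (((pz Q).powersetCard j).card : ℝ) ≤ ((Q : ℝ) + 1) ^ r := by
  have h := card_small (pz Q) r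
  push_cast at h
  refine h.trans ?_
  apply pow_le_pow_left₀ (by positivity)
  have := card_pz_le Q
  have : ((pz Q).card : ℝ) ≤ Q := by exact_mod_cast this
  linarith

/-- the sieve error -/
noncomputable def serr (x z r : ℕ) : ℝ :=
  (2 * ((z : ℝ) + 1)) ^ r + 2 * x * Real.exp (6 * ∑ p ∈ pz z, 1 / (p : ℝ) - r)

lemma serr_nonneg (x z r : ℕ) : 0 ≤ serr x z r := by
  unfold serr
  positivity

/-- the sieve for a system of conditions with at most two classes for each prime -/
theorem sieve_sys (A : ℕ → ℕ → Prop) [∀ p a, Decidable (A p a)] (x z r : ℕ)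
    (hρ : ∀ p ∈ pz z, ((range p).filter (fun c => A p c)).card ≤ 2) :
    |(((Icc 1 x).filter (fun n => ∀ p ∈ pz z, ¬ A p (n % p))).card : ℝ) -
      x * ∏ p ∈ pz z, (1 - (((range p).filter (fun c => A p c)).card : ℝ) / p)| ≤ serr x z r := by
  set ρ : ℕ → ℝ := fun p => (((range p).filter (fun c => A p c)).card : ℝ) with hρd
  have hρ0 : ∀ p, 0 ≤ ρ p := fun p => Nat.cast_nonneg _
  have hρ2 : ∀ p ∈ pz z, ρ p ≤ 2 := fun p hp => by
    show (((range p).filter (fun c => A p c)).card : ℝ) ≤ 2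
    have := hρ p hp
    calc (((range p).filter (fun c => A p c)).card : ℝ) ≤ ((2 : ℕ) : ℝ) := Nat.cast_le.2 this
      _ = 2 := by norm_num
  have hρp : ∀ p, ρ p ≤ (p : ℝ) := fun p => by
    have : ((range p).filter (fun c => A p c)).card ≤ p := (card_filter_le _ _).trans (by simp)
    show (((range p).filter (fun c => A p c)).card : ℝ) ≤ p
    exact Nat.cast_le.2 this
  have key := sieve_gen' (Icc 1 x) (fun _ => (1 : ℝ)) (fun _ _ => zero_le_one)
    (fun p n => A p (n % p)) (pz z) (fun p => ρ p / p) (fun p hp => by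
      have hp0 : (0 : ℝ) < p := by exact_mod_cast (mem_pz.1 hp).2.pos
      constructor
      · have := hρ0 p
        positivity
      · rw [div_le_one hp0]
        exact hρp p) (x : ℝ) (by positivity) (fun _ => (2 : ℝ) ^ r) r (by
      intro S hS hr
      have hSp : ∀ p ∈ S, p.Prime := fun p hp => (mem_pz.1 (hS hp)).2
      have h := count_sys A x S hSp 1 le_rfl (fun p hp h1 => by
        rw [Nat.dvd_one] at h1
        exact (hSp p hp).one_lt.ne' h1) 0
      have h3 : ∑ i ∈ Icc 1 x with ∀ p ∈ S, A p (i % p), (1 : ℝ) =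
          (((Icc 1 x).filter (fun n => n ≡ 0 [MOD 1] ∧ ∀ p ∈ S, A p (n % p))).card : ℝ) := by
        rw [sum_const, nsmul_eq_mul, mul_one]
        congr 2
        apply filter_congr
        intro n _
        constructor
        · intro h5
          exact ⟨Nat.modEq_one, h5⟩
        · intro h5
          exact h5.2
      rw [h3]
      simp only [Nat.cast_one, div_one] at h
      refine h.trans ?_
      calc ∏ p ∈ S, ρ p ≤ ∏ _p ∈ S, (2 : ℝ) := prod_le_prod (fun p _ => hρ0 p) fun p hp => hρ2 p (hS hp)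
        _ = 2 ^ S.card := by rw [prod_const]
        _ ≤ 2 ^ r := pow_le_pow_right₀ (by norm_num) hr)
  have e2 : ∑ i ∈ Icc 1 x with ∀ p ∈ pz z, ¬ A p (i % p), (1 : ℝ) =
      (((Icc 1 x).filter (fun n => ∀ p ∈ pz z, ¬ A p (n % p))).card : ℝ) := by
    rw [sum_const, nsmul_eq_mul, mul_one]
  rw [e2] at key
  refine key.trans ?_
  unfold serr
  apply add_le_add
  · simp only [sum_const, nsmul_eq_mul]
    rw [← sum_mul, mul_pow, mul_comm ((2 : ℝ) ^ r)]
    exact mul_le_mul_of_nonneg_right (card_sets' z r) (by positivity)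
  · apply mul_le_mul_of_nonneg_left _ (by positivity)
    refine (es_le (fun p _ => by have := hρ0 p; positivity) r).trans ?_
    apply Real.exp_le_exp.2
    have h6 : ∑ p ∈ pz z, ρ p / (p : ℝ) ≤ ∑ p ∈ pz z, 2 * (1 / (p : ℝ)) := by
      apply sum_le_sum
      intro p hp
      have := hρ2 p hp
      calc ρ p / (p : ℝ) ≤ 2 / p := by gcongr
        _ = _ := by ring
    rw [← mul_sum] at h6
    linarith

lemma dvd_add_mod (p m n : ℕ) : p ∣ m + n % p ↔ p ∣ m + n := by
  rw [Nat.dvd_iff_mod_eq_zero, Nat.dvd_iff_mod_eq_zero, Nat.add_mod, Nat.mod_mod, ← Nat.add_mod]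

/-- one class -/
lemma rho_one {p : ℕ} (hp : p.Prime) (m : ℕ) : ((range p).filter (fun c => p ∣ m + c)).card = 1 := by
  rw [card_eq_one]
  have hp0 := hp.pos
  refine ⟨(p - m % p) % p, ?_⟩
  ext c
  rw [mem_filter, mem_range, mem_singleton]
  have hm := Nat.mod_lt m hp0
  have hdm := Nat.div_add_mod m p
  constructor
  · rintro ⟨h1, h2⟩
    rw [← Nat.mod_eq_of_lt h1]
    have h3 : c ≡ p - m % p [MOD p] := by
      have h4 : m + c ≡ m + (p - m % p) [MOD p] := by
        have h5 : p ∣ m + (p - m % p) := ⟨m / p + 1, by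
          rw [mul_add, mul_one]
          omega⟩
        exact ((Nat.modEq_zero_iff_dvd).2 h2).trans ((Nat.modEq_zero_iff_dvd).2 h5).symm
      exact Nat.ModEq.add_left_cancel' m h4
    exact h3
  · rintro rfl
    refine ⟨Nat.mod_lt _ hp0, ?_⟩
    rw [dvd_add_mod]
    exact ⟨m / p + 1, by
      rw [mul_add, mul_one]
      omega⟩

/-- two classes -/
lemma rho_two {p : ℕ} (hp : p.Prime) (m n : ℕ) :
    ((range p).filter (fun c => p ∣ m + c ∨ p ∣ n + c)).card = if m ≡ n [MOD p] then 1 else 2 := by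
  classical
  have h1 : (range p).filter (fun c => p ∣ m + c ∨ p ∣ n + c) =
      (range p).filter (fun c => p ∣ m + c) ∪ (range p).filter (fun c => p ∣ n + c) := filter_or _ _ _
  split_ifs with h
  · have h2 : (range p).filter (fun c => p ∣ m + c ∨ p ∣ n + c) = (range p).filter (fun c => p ∣ m + c) := by
      apply filter_congr
      intro c _
      have h3 : p ∣ m + c ↔ p ∣ n + c := by
        have h4 : m + c ≡ n + c [MOD p] := h.add_right c
        exact h4.dvd_iff dvd_rfl
      rw [← h3, or_self]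
    rw [h2, rho_one hp]
  · rw [h1, card_union_of_disjoint, rho_one hp, rho_one hp]
    rw [disjoint_left]
    intro c hc1 hc2
    rw [mem_filter] at hc1 hc2
    apply h
    have h4 : m + c ≡ n + c [MOD p] :=
      ((Nat.modEq_zero_iff_dvd).2 hc1.2).trans ((Nat.modEq_zero_iff_dvd).2 hc2.2).symm
    exact Nat.ModEq.add_right_cancel' c h4

/-- shift of the range -/
lemma card_range_shift (H : ℕ) (P : ℕ → Prop) [DecidablePred P] :
    ((range (H + 1)).filter P).card = ((Icc 1 (H + 1)).filter (fun n => P (n - 1))).card := by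
  apply card_bij (fun a _ => a + 1)
  · intro a ha
    rw [mem_filter, mem_range] at ha
    rw [mem_filter, mem_Icc]
    exact ⟨by omega, by simpa using ha.2⟩
  · intro a _ b _ h
    omega
  · intro n hn
    rw [mem_filter, mem_Icc] at hn
    refine ⟨n - 1, ?_, by omega⟩
    rw [mem_filter, mem_range]
    exact ⟨by omega, hn.2⟩

/-- the number of `a ≤ H` with `n + a` free of primes up to `z` -/
theorem cnt_one (n H z r : ℕ) (hn : 1 ≤ n) :
    |(((range (H + 1)).filter (fun a => ∀ p ∈ pz z, ¬ p ∣ n + a)).card : ℝ) - ((H : ℝ) + 1) * Vz z| ≤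
      serr (H + 1) z r := by
  have h := sieve_sys (fun p c => p ∣ (n - 1) + c) (H + 1) z r (fun p hp => by
    rw [rho_one (mem_pz.1 hp).2]
    norm_num)
  rw [card_range_shift]
  have e1 : (Icc 1 (H + 1)).filter (fun m => ∀ p ∈ pz z, ¬ p ∣ n + (m - 1)) =
      (Icc 1 (H + 1)).filter (fun m => ∀ p ∈ pz z, ¬ p ∣ (n - 1) + m % p) := by
    apply filter_congr
    intro m hm
    rw [mem_Icc] at hm
    have e : n + (m - 1) = (n - 1) + m := by omega
    simp only [dvd_add_mod, e]
  have e2 : ∏ p ∈ pz z, (1 - ((((range p).filter (fun c => p ∣ (n - 1) + c)).card : ℕ) : ℝ) / p) = Vz z := by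
    unfold Vz
    apply prod_congr rfl
    intro p hp
    rw [rho_one (mem_pz.1 hp).2]
    push_cast
    rfl
  rw [e1]
  rw [e2] at h
  push_cast at h
  exact h

/-- the local factor for two shifts -/
noncomputable def rh (n m p : ℕ) : ℝ := if n ≡ m [MOD p] then 1 else 2

/-- the number of `a ≤ H` with `n + a` and `m + a` free of primes up to `z` -/
theorem cnt_two (n m H z r : ℕ) (hn : 1 ≤ n) (hm : 1 ≤ m) :
    |(((range (H + 1)).filter (fun a => ∀ p ∈ pz z, ¬ (p ∣ n + a ∨ p ∣ m + a))).card : ℝ) -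
      ((H : ℝ) + 1) * ∏ p ∈ pz z, (1 - rh n m p / p)| ≤ serr (H + 1) z r := by
  have h := sieve_sys (fun p c => p ∣ (n - 1) + c ∨ p ∣ (m - 1) + c) (H + 1) z r (fun p hp => by
    rw [rho_two (mem_pz.1 hp).2]
    split_ifs <;> norm_num)
  rw [card_range_shift]
  have e1 : (Icc 1 (H + 1)).filter (fun l => ∀ p ∈ pz z, ¬ (p ∣ n + (l - 1) ∨ p ∣ m + (l - 1))) =
      (Icc 1 (H + 1)).filter (fun l => ∀ p ∈ pz z, ¬ (p ∣ (n - 1) + l % p ∨ p ∣ (m - 1) + l % p)) := by
    apply filter_congr
    intro l hl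
    rw [mem_Icc] at hl
    have e : n + (l - 1) = (n - 1) + l := by omega
    have e' : m + (l - 1) = (m - 1) + l := by omega
    simp only [dvd_add_mod, e, e']
  have e2 : ∏ p ∈ pz z, (1 - ((((range p).filter (fun c => p ∣ (n - 1) + c ∨ p ∣ (m - 1) + c)).card : ℕ) : ℝ) / p) =
      ∏ p ∈ pz z, (1 - rh n m p / p) := by
    apply prod_congr rfl
    intro p hp
    rw [rho_two (mem_pz.1 hp).2]
    unfold rh
    have h3 : (n - 1 ≡ m - 1 [MOD p]) ↔ (n ≡ m [MOD p]) := by
      constructor
      · intro h4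
        have := h4.add_right 1
        rwa [Nat.sub_add_cancel hn, Nat.sub_add_cancel hm] at this
      · intro h4
        rw [← Nat.sub_add_cancel hn, ← Nat.sub_add_cancel hm] at h4
        exact Nat.ModEq.add_right_cancel' 1 h4
    by_cases h4 : n ≡ m [MOD p]
    · rw [if_pos (h3.2 h4), if_pos h4]
      push_cast
      rfl
    · rw [if_neg (fun h5 => h4 (h3.1 h5)), if_neg h4]
      push_cast
      rfl
  rw [e1]
  rw [e2] at h
  push_cast at h
  exact h

end Pool.Agent.R521.F6
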