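import Pool.Agent.R521.F6.E1
import Pool.Agent.R521.F6.D1
import Pool.Agent.R521.F6.B5

set_option autoImplicit false

/-!
# The single sums of the model over the sifted set
-/

open Finset
open scoped Real

namespace Pool.Agent.R521.F6

open Pool.Agent.H373R2.T7 (pz Vz lamz mem_pz Vz_pos Vz_le_one es bonf sieve_gen' es_le bonf_ind
  card_small prod_dvd_iff prod_le_pow card_pz_le lamz_nonneg es_nonneg count_sys)

/-- the sifted set -/
def Sb (w : ℕ) (b : ℕ → ℕ) (H : ℕ) : Finset ℕ :=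
  (range (H + 1)).filter (fun a => ∀ p ∈ pz w, ¬ a ≡ b p [MOD p])

/-- the shifts -/
def Tb (w : ℕ) (b : ℕ → ℕ) (H : ℕ) : Finset ℕ :=
  (Icc 1 H).filter (fun n => ∀ p ∈ pz w, p ∣ n + b p)

lemma mem_Sb {w : ℕ} {b : ℕ → ℕ} {H a : ℕ} :
    a ∈ Sb w b H ↔ a ≤ H ∧ ∀ p ∈ pz w, ¬ a ≡ b p [MOD p] := by
  unfold Sb
  rw [mem_filter, mem_range, Nat.lt_succ_iff]

lemma mem_Tb {w : ℕ} {b : ℕ → ℕ} {H n : ℕ} :
    n ∈ Tb w b H ↔ (1 ≤ n ∧ n ≤ H) ∧ ∀ p ∈ pz w, p ∣ n + b p := by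
  unfold Tb
  rw [mem_filter, mem_Icc]

lemma modEq_iff_dvd_add {p n a c : ℕ} (h : p ∣ n + c) : a ≡ c [MOD p] ↔ p ∣ n + a := by
  constructor
  · intro h1
    exact ((h1.add_left n).dvd_iff dvd_rfl).2 h
  · intro h1
    have h2 : n + a ≡ n + c [MOD p] :=
      ((Nat.modEq_zero_iff_dvd).2 h1).trans ((Nat.modEq_zero_iff_dvd).2 h).symm
    exact Nat.ModEq.add_left_cancel' n h2

/-- the sifted set seen from a shift -/
lemma Sb_eq {w : ℕ} {b : ℕ → ℕ} {H n : ℕ} (hn : n ∈ Tb w b H) :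
    Sb w b H = (range (H + 1)).filter (fun a => ∀ p ∈ pz w, ¬ p ∣ n + a) := by
  rw [mem_Tb] at hn
  unfold Sb
  apply filter_congr
  intro a _
  constructor
  · intro h p hp h1
    exact h p hp ((modEq_iff_dvd_add (hn.2 p hp)).2 h1)
  · intro h p hp h1
    exact h p hp ((modEq_iff_dvd_add (hn.2 p hp)).1 h1)

lemma pz_mono {w Q : ℕ} (h : w ≤ Q) : pz w ⊆ pz Q := by
  intro p hp
  rw [mem_pz] at hp ⊢
  exact ⟨hp.1.trans h, hp.2⟩

lemma Sb_filter {w Q : ℕ} (hwQ : w ≤ Q) {b : ℕ → ℕ} {H n : ℕ} (hn : n ∈ Tb w b H) :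
    (Sb w b H).filter (fun a => ∀ p ∈ pz Q, ¬ p ∣ n + a) =
      (range (H + 1)).filter (fun a => ∀ p ∈ pz Q, ¬ p ∣ n + a) := by
  rw [Sb_eq hn, filter_filter]
  apply filter_congr
  intro a _
  constructor
  · intro h
    exact h.2
  · intro h
    exact ⟨fun p hp => h p (pz_mono hwQ hp), h⟩

/-- the model -/
noncomputable def Gm (w Q m : ℕ) : ℝ := Vz w * lamz Q m

/-- the primes -/
noncomputable def Fm (w Q m : ℕ) : ℝ := Vz w * Pq Q m

lemma Gm_nonneg (w Q m : ℕ) : 0 ≤ Gm w Q m := mul_nonneg (Vz_pos w).le (lamz_nonneg _ _)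

lemma Fm_nonneg (w Q m : ℕ) : 0 ≤ Fm w Q m := mul_nonneg (Vz_pos w).le (Pq_nonneg _ _)

lemma Fm_sub_Gm (w Q m : ℕ) : Fm w Q m - Gm w Q m = Vz w * Eb Q m := by
  unfold Fm Gm Eb
  ring

/-- the size of the sifted set -/
theorem card_Sb {w : ℕ} {b : ℕ → ℕ} {H n : ℕ} (hn : n ∈ Tb w b H) (r : ℕ) :
    |((Sb w b H).card : ℝ) - ((H : ℝ) + 1) * Vz w| ≤ serr (H + 1) w r := by
  rw [Sb_eq hn]
  exact cnt_one n H w r (mem_Tb.1 hn).1.1

/-- sum of the model over the sifted set -/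
theorem sum_Gm {w Q : ℕ} (hwQ : w ≤ Q) {b : ℕ → ℕ} {H n : ℕ} (hn : n ∈ Tb w b H) (r : ℕ) :
    |∑ a ∈ Sb w b H, Gm w Q (n + a) - ((H : ℝ) + 1) * Vz w| ≤
      Vz w * (Vz Q)⁻¹ * serr (H + 1) Q r := by
  have h1 : ∑ a ∈ Sb w b H, Gm w Q (n + a) = Vz w * (Vz Q)⁻¹ *
      (((range (H + 1)).filter (fun a => ∀ p ∈ pz Q, ¬ p ∣ n + a)).card : ℝ) := by
    rw [← Sb_filter hwQ hn, card_eq_sum_ones]
    push_cast
    rw [sum_filter, mul_sum]
    apply sum_congr rfl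
    intro a _
    unfold Gm lamz
    split_ifs <;> ring
  rw [h1]
  have h2 := cnt_one n H Q r (mem_Tb.1 hn).1.1
  have hV := Vz_pos Q
  have hw := Vz_pos w
  have e : Vz w * (Vz Q)⁻¹ * (((range (H + 1)).filter (fun a => ∀ p ∈ pz Q, ¬ p ∣ n + a)).card : ℝ) -
      ((H : ℝ) + 1) * Vz w = Vz w * (Vz Q)⁻¹ *
        ((((range (H + 1)).filter (fun a => ∀ p ∈ pz Q, ¬ p ∣ n + a)).card : ℝ) - ((H : ℝ) + 1) * Vz Q) := by
    field_simp
  rw [e, abs_mul, abs_of_nonneg (by positivity)]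
  exact mul_le_mul_of_nonneg_left h2 (by positivity)

/-- the singular series of two shifts -/
noncomputable def Sg (w Q n m : ℕ) : ℝ :=
  ∏ p ∈ pz Q \ pz w, (if n ≡ m [MOD p] then 1 + 1 / ((p : ℝ) - 1) else 1)

lemma Sg_factor (n m p : ℕ) (hp : 2 ≤ p) :
    (1 : ℝ) ≤ (if n ≡ m [MOD p] then 1 + 1 / ((p : ℝ) - 1) else 1) := by
  have hp0 : (2 : ℝ) ≤ p := by exact_mod_cast hp
  split_ifs
  · have : 0 ≤ 1 / ((p : ℝ) - 1) := div_nonneg zero_le_one (by linarith only [hp0])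
    linarith only [this]
  · exact le_rfl

lemma one_le_Sg (w Q n m : ℕ) : 1 ≤ Sg w Q n m := by
  unfold Sg
  calc (1 : ℝ) = ∏ _p ∈ pz Q \ pz w, (1 : ℝ) := by rw [prod_const_one]
    _ ≤ _ := by
      apply prod_le_prod (fun _ _ => zero_le_one)
      intro p hp
      exact Sg_factor n m p (mem_pz.1 (mem_sdiff.1 hp).1).2.two_le

lemma prod_rh {w Q : ℕ} (hwQ : w ≤ Q) {b : ℕ → ℕ} {H n m : ℕ} (hn : n ∈ Tb w b H) (hm : m ∈ Tb w b H) :
    ∏ p ∈ pz Q, (1 - rh n m p / p) ≤ (Vz Q) ^ 2 * (Vz w)⁻¹ * Sg w Q n m := by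
  have hV := Vz_pos Q
  have hw := Vz_pos w
  have h1 : ∏ p ∈ pz Q, (1 - rh n m p / p) =
      (∏ p ∈ pz Q \ pz w, (1 - rh n m p / p)) * ∏ p ∈ pz w, (1 - rh n m p / p) :=
    (prod_sdiff (pz_mono hwQ)).symm
  have h2 : ∏ p ∈ pz w, (1 - rh n m p / (p : ℝ)) = Vz w := by
    unfold Vz
    apply prod_congr rfl
    intro p hp
    have h3 : n ≡ m [MOD p] := by
      have h4 : n + b p ≡ m + b p [MOD p] :=
        ((Nat.modEq_zero_iff_dvd).2 ((mem_Tb.1 hn).2 p hp)).trans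
          ((Nat.modEq_zero_iff_dvd).2 ((mem_Tb.1 hm).2 p hp)).symm
      exact Nat.ModEq.add_right_cancel' _ h4
    unfold rh
    rw [if_pos h3]
  have h3 : Vz Q = (∏ p ∈ pz Q \ pz w, (1 - 1 / (p : ℝ))) * Vz w := by
    unfold Vz
    exact (prod_sdiff (pz_mono hwQ)).symm
  have h4 : ∏ p ∈ pz Q \ pz w, (1 - rh n m p / (p : ℝ)) ≤
      (∏ p ∈ pz Q \ pz w, (1 - 1 / (p : ℝ))) ^ 2 * Sg w Q n m := by
    unfold Sg
    rw [← prod_pow, ← prod_mul_distrib]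
    apply prod_le_prod
    · intro p hp
      have hp2 := (mem_pz.1 (mem_sdiff.1 hp).1).2.two_le
      have hp0 : (2 : ℝ) ≤ p := by exact_mod_cast hp2
      have : rh n m p ≤ 2 := by unfold rh; split_ifs <;> norm_num
      rw [sub_nonneg, div_le_one (by linarith only [hp0])]
      linarith only [this, hp0]
    · intro p hp
      have hp2 := (mem_pz.1 (mem_sdiff.1 hp).1).2.two_le
      have hp0 : (2 : ℝ) ≤ p := by exact_mod_cast hp2
      have hp1 : (p : ℝ) - 1 ≠ 0 := by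
        intro h
        linarith only [h, hp0]
      have hp3 : (p : ℝ) ≠ 0 := by
        intro h
        linarith only [h, hp0]
      unfold rh
      split_ifs with h
      · apply le_of_eq
        field_simp
        ring
      · have h5 : 0 ≤ (1 / (p : ℝ)) ^ 2 := sq_nonneg _
        have h6 : (2 : ℝ) / p = 2 * (1 / p) := by ring
        rw [h6]
        nlinarith only [h5]
  rw [h1, h2]
  calc _ ≤ ((∏ p ∈ pz Q \ pz w, (1 - 1 / (p : ℝ))) ^ 2 * Sg w Q n m) * Vz w :=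
        mul_le_mul_of_nonneg_right h4 hw.le
    _ = _ := by
      rw [h3]
      field_simp

/-- the correlation of the model over the sifted set -/
theorem sum_Gm2 {w Q : ℕ} (hwQ : w ≤ Q) {b : ℕ → ℕ} {H n m : ℕ} (hn : n ∈ Tb w b H) (hm : m ∈ Tb w b H)
    (r : ℕ) : ∑ a ∈ Sb w b H, Gm w Q (n + a) * Gm w Q (m + a) ≤
      ((H : ℝ) + 1) * Vz w * Sg w Q n m + (Vz w) ^ 2 * ((Vz Q)⁻¹) ^ 2 * serr (H + 1) Q r := by
  have hV := Vz_pos Q
  have hw := Vz_pos w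
  have hsub : (Sb w b H).filter (fun a => ∀ p ∈ pz Q, ¬ (p ∣ n + a ∨ p ∣ m + a)) ⊆
      (range (H + 1)).filter (fun a => ∀ p ∈ pz Q, ¬ (p ∣ n + a ∨ p ∣ m + a)) := by
    intro a ha
    rw [mem_filter] at ha ⊢
    refine ⟨?_, ha.2⟩
    have := (mem_Sb.1 ha.1).1
    rw [mem_range]
    omega
  have h1 : ∑ a ∈ Sb w b H, Gm w Q (n + a) * Gm w Q (m + a) ≤ (Vz w) ^ 2 * ((Vz Q)⁻¹) ^ 2 *
      (((range (H + 1)).filter (fun a => ∀ p ∈ pz Q, ¬ (p ∣ n + a ∨ p ∣ m + a))).card : ℝ) := by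
    calc _ = (Vz w) ^ 2 * ((Vz Q)⁻¹) ^ 2 *
        (((Sb w b H).filter (fun a => ∀ p ∈ pz Q, ¬ (p ∣ n + a ∨ p ∣ m + a))).card : ℝ) := by
          rw [card_eq_sum_ones]
          push_cast
          rw [sum_filter, mul_sum]
          apply sum_congr rfl
          intro a _
          unfold Gm lamz
          by_cases h3 : ∀ p ∈ pz Q, ¬ p ∣ n + a
          · by_cases h4 : ∀ p ∈ pz Q, ¬ p ∣ m + a
            · rw [if_pos h3, if_pos h4, if_pos (fun p hp h5 => h5.elim (h3 p hp) (h4 p hp))]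
              ring
            · have h7 : ¬ ∀ p ∈ pz Q, ¬ (p ∣ n + a ∨ p ∣ m + a) := fun h5 => h4 fun p hp h6 => h5 p hp (Or.inr h6)
              rw [if_neg h4, if_neg h7]
              ring
          · have h7 : ¬ ∀ p ∈ pz Q, ¬ (p ∣ n + a ∨ p ∣ m + a) := fun h5 => h3 fun p hp h6 => h5 p hp (Or.inl h6)
            rw [if_neg h3, if_neg h7]
            ring
      _ ≤ _ := by
          apply mul_le_mul_of_nonneg_left _ (by positivity)
          exact_mod_cast card_le_card hsub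
  refine h1.trans ?_
  have h2 := (abs_le.1 (cnt_two n m H Q r (mem_Tb.1 hn).1.1 (mem_Tb.1 hm).1.1)).2
  have h3 := prod_rh hwQ hn hm
  calc _ ≤ (Vz w) ^ 2 * ((Vz Q)⁻¹) ^ 2 *
        (((H : ℝ) + 1) * ((Vz Q) ^ 2 * (Vz w)⁻¹ * Sg w Q n m) + serr (H + 1) Q r) := by
        apply mul_le_mul_of_nonneg_left _ (by positivity)
        have h5 : ((H : ℝ) + 1) * ∏ p ∈ pz Q, (1 - rh n m p / p) ≤
            ((H : ℝ) + 1) * ((Vz Q) ^ 2 * (Vz w)⁻¹ * Sg w Q n m) :=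
          mul_le_mul_of_nonneg_left h3 (by positivity)
        linarith only [h2, h5]
    _ = _ := by
      field_simp

/-- the squares of the model -/
lemma sum_Gm_sq (w Q : ℕ) (S : Finset ℕ) (n : ℕ) :
    ∑ a ∈ S, Gm w Q (n + a) ^ 2 = Vz w * (Vz Q)⁻¹ * ∑ a ∈ S, Gm w Q (n + a) := by
  rw [mul_sum]
  apply sum_congr rfl
  intro a _
  unfold Gm lamz
  split_ifs <;> ring

end Pool.Agent.R521.F6
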