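import Pool.Agent.R521.F6.E2

set_option autoImplicit false

/-!
# The average of the singular series over the shifts
-/

open Finset
open scoped Real

namespace Pool.Agent.R521.F6

open Pool.Agent.H373R2.T7 (pz Vz lamz mem_pz Vz_pos Vz_le_one es bonf sieve_gen' es_le bonf_ind
  card_small prod_dvd_iff prod_le_pow card_pz_le lamz_nonneg es_nonneg count_sys)

/-- one class for each prime -/
lemma count_one (A : ℕ → ℕ → Prop) [∀ p a, Decidable (A p a)] (x : ℕ) (S : Finset ℕ)
    (hS : ∀ p ∈ S, p.Prime) (hA : ∀ p ∈ S, ((range p).filter (fun a => A p a)).card = 1) :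
    |(((Icc 1 x).filter (fun n => ∀ p ∈ S, A p (n % p))).card : ℝ) - x / ∏ p ∈ S, (p : ℝ)| ≤ 1 := by
  have h := count_sys A x S hS 1 le_rfl (fun p hp h1 => by
    rw [Nat.dvd_one] at h1
    exact (hS p hp).one_lt.ne' h1) 0
  have e1 : (Icc 1 x).filter (fun n => n ≡ 0 [MOD 1] ∧ ∀ p ∈ S, A p (n % p)) =
      (Icc 1 x).filter (fun n => ∀ p ∈ S, A p (n % p)) := by
    apply filter_congr
    intro n _
    constructor
    · intro h5
      exact h5.2
    · intro h5
      exact ⟨Nat.modEq_one, h5⟩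
  have e2 : ∏ p ∈ S, ((((range p).filter (fun a => A p a)).card : ℝ) / p) = (∏ p ∈ S, (p : ℝ))⁻¹ := by
    rw [← prod_inv_distrib]
    apply prod_congr rfl
    intro p hp
    rw [hA p hp]
    norm_num
  have e3 : ∏ p ∈ S, (((range p).filter (fun a => A p a)).card : ℝ) = 1 := by
    apply prod_eq_one
    intro p hp
    rw [hA p hp]
    norm_num
  rw [e1, e2, e3] at h
  rw [Nat.cast_one, div_one] at h
  rw [div_eq_mul_inv]
  exact h

/-- the product of the primes up to `w` -/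
noncomputable def Wp (w : ℕ) : ℝ := ∏ p ∈ pz w, (p : ℝ)

lemma Wp_ge (w : ℕ) : 1 ≤ Wp w := by
  unfold Wp
  calc (1 : ℝ) = ∏ _p ∈ pz w, (1 : ℝ) := by rw [prod_const_one]
    _ ≤ _ := by
      apply prod_le_prod (fun _ _ => zero_le_one)
      intro p hp
      have := (mem_pz.1 hp).2.one_le
      exact_mod_cast this

lemma Wp_le (w : ℕ) : Wp w ≤ 4 ^ w := by
  unfold Wp
  have h1 : primorial w = ∏ p ∈ pz w, p := by
    unfold primorial
    apply prod_congr _ (fun _ _ => rfl)
    ext p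
    rw [mem_filter, mem_range, mem_pz]
    constructor
    · rintro ⟨h1, h2⟩; exact ⟨by omega, h2⟩
    · rintro ⟨h1, h2⟩; exact ⟨by omega, h2⟩
  have h2 := primorial_le_four_pow w
  rw [h1] at h2
  have h3 : ((∏ p ∈ pz w, p : ℕ) : ℝ) ≤ ((4 ^ w : ℕ) : ℝ) := Nat.cast_le.2 h2
  push_cast at h3
  exact h3

/-- the number of shifts -/
theorem card_Tb (w : ℕ) (b : ℕ → ℕ) (H : ℕ) : |((Tb w b H).card : ℝ) - H / Wp w| ≤ 1 := by
  have h := count_one (fun p c => p ∣ c + b p) H (pz w) (fun p hp => (mem_pz.1 hp).2) (fun p hp => by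
    have := rho_one (mem_pz.1 hp).2 (b p)
    simpa only [add_comm] using this)
  have e : Tb w b H = (Icc 1 H).filter (fun n => ∀ p ∈ pz w, p ∣ n % p + b p) := by
    unfold Tb
    apply filter_congr
    intro n _
    constructor
    · intro h1 p hp
      have := h1 p hp
      rw [add_comm, dvd_add_mod, add_comm]
      exact this
    · intro h1 p hp
      have := h1 p hp
      rw [add_comm, dvd_add_mod, add_comm] at this
      exact this
  rw [e]
  exact h

/-- the shifts congruent to a given one -/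
theorem card_Tb_cong {w Q : ℕ} {b : ℕ → ℕ} {H n : ℕ} (hn : n ∈ Tb w b H) (E : Finset ℕ)
    (hE : E ⊆ pz Q \ pz w) :
    ((((Tb w b H).erase n).filter (fun m => ∀ p ∈ E, n ≡ m [MOD p])).card : ℝ) ≤
      H / Wp w * (∏ p ∈ E, (p : ℝ))⁻¹ := by
  classical
  have hEp : ∀ p ∈ E, p.Prime := fun p hp => (mem_pz.1 (mem_sdiff.1 (hE hp)).1).2
  have hdis : Disjoint (pz w) E := by
    rw [disjoint_left]
    intro p hp hpE
    exact (mem_sdiff.1 (hE hpE)).2 hp
  have hpr : ∀ p ∈ pz w ∪ E, p.Prime := by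
    intro p hp
    rw [mem_union] at hp
    exact hp.elim (fun h => (mem_pz.1 h).2) (hEp p)
  have h := count_one (fun p c => c ≡ n [MOD p]) H (pz w ∪ E) hpr (fun p hp => by
    have hp0 := (hpr p hp).pos
    rw [card_eq_one]
    refine ⟨n % p, ?_⟩
    ext c
    rw [mem_filter, mem_range, mem_singleton]
    constructor
    · rintro ⟨h1, h2⟩
      rw [← Nat.mod_eq_of_lt h1]
      exact h2
    · rintro rfl
      exact ⟨Nat.mod_lt _ hp0, Nat.mod_modEq _ _⟩)
  have h1 : ∏ p ∈ pz w ∪ E, (p : ℝ) = Wp w * ∏ p ∈ E, (p : ℝ) := by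
    rw [prod_union hdis]
    rfl
  rw [h1] at h
  have hmem : n ∈ (Icc 1 H).filter (fun m => ∀ p ∈ pz w ∪ E, m % p ≡ n [MOD p]) := by
    rw [mem_filter]
    refine ⟨mem_Icc.2 (mem_Tb.1 hn).1, fun p _ => Nat.mod_modEq _ _⟩
  have hsub : ((Tb w b H).erase n).filter (fun m => ∀ p ∈ E, n ≡ m [MOD p]) ⊆
      ((Icc 1 H).filter (fun m => ∀ p ∈ pz w ∪ E, m % p ≡ n [MOD p])).erase n := by
    intro m hm
    rw [mem_filter, mem_erase] at hm
    rw [mem_erase, mem_filter]
    refine ⟨hm.1.1, mem_Icc.2 (mem_Tb.1 hm.1.2).1, ?_⟩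
    intro p hp
    refine (Nat.mod_modEq _ _).trans ?_
    rw [mem_union] at hp
    rcases hp with hp | hp
    · have h4 : m + b p ≡ n + b p [MOD p] :=
        ((Nat.modEq_zero_iff_dvd).2 ((mem_Tb.1 hm.1.2).2 p hp)).trans
          ((Nat.modEq_zero_iff_dvd).2 ((mem_Tb.1 hn).2 p hp)).symm
      exact Nat.ModEq.add_right_cancel' _ h4
    · exact (hm.2 p hp).symm
  have h2 := card_le_card hsub
  rw [card_erase_of_mem hmem] at h2
  have h3 : 1 ≤ ((Icc 1 H).filter (fun m => ∀ p ∈ pz w ∪ E, m % p ≡ n [MOD p])).card :=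
    card_pos.2 ⟨n, hmem⟩
  have h4 : ((((Tb w b H).erase n).filter (fun m => ∀ p ∈ E, n ≡ m [MOD p])).card : ℝ) + 1 ≤
      (((Icc 1 H).filter (fun m => ∀ p ∈ pz w ∪ E, m % p ≡ n [MOD p])).card : ℝ) := by
    have : (((Tb w b H).erase n).filter (fun m => ∀ p ∈ E, n ≡ m [MOD p])).card + 1 ≤
      ((Icc 1 H).filter (fun m => ∀ p ∈ pz w ∪ E, m % p ≡ n [MOD p])).card := by omega
    exact_mod_cast this
  have h5 := (abs_le.1 h).2
  have h6 : (H : ℝ) / Wp w * (∏ p ∈ E, (p : ℝ))⁻¹ = H / (Wp w * ∏ p ∈ E, (p : ℝ)) := by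
    rw [div_mul_eq_div_div, div_eq_mul_inv (H / Wp w)]
  rw [h6]
  linarith only [h4, h5]

/-- `h_p` -/
noncomputable def hp' (k p : ℕ) : ℝ := (1 + 1 / ((p : ℝ) - 1)) ^ k - 1

lemma hp'_nonneg {k p : ℕ} (hp : 2 ≤ p) : 0 ≤ hp' k p := by
  have hp0 : (2 : ℝ) ≤ p := by exact_mod_cast hp
  unfold hp'
  have h1 : 0 ≤ 1 / ((p : ℝ) - 1) := div_nonneg zero_le_one (by linarith only [hp0])
  have : (1 : ℝ) ≤ (1 + 1 / ((p : ℝ) - 1)) ^ k := one_le_pow₀ (by linarith only [h1])
  linarith only [this]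

lemma exp_sub_one_le {x : ℝ} (h0 : 0 ≤ x) (h1 : x ≤ 1) : Real.exp x ≤ 1 + 2 * x := by
  have h := Real.exp_bound' h0 h1 (n := 2) (by norm_num)
  simp [sum_range_succ] at h
  norm_num at h
  nlinarith only [h, h0, h1]

lemma hp'_le {k p : ℕ} (hk : k < p) (hp : 2 ≤ p) : hp' k p ≤ 4 * k / p := by
  have hp0 : (2 : ℝ) ≤ p := by exact_mod_cast hp
  have hk1 : (k : ℝ) + 1 ≤ p := by exact_mod_cast hk
  have hpos : 0 < (p : ℝ) - 1 := by linarith only [hp0]
  have hk0 : (0 : ℝ) ≤ k := Nat.cast_nonneg _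
  have h1 : (1 + 1 / ((p : ℝ) - 1)) ^ k ≤ Real.exp (k / ((p : ℝ) - 1)) := by
    have h2 : 1 + 1 / ((p : ℝ) - 1) ≤ Real.exp (1 / ((p : ℝ) - 1)) := by
      have := Real.add_one_le_exp (1 / ((p : ℝ) - 1))
      linarith only [this]
    calc _ ≤ (Real.exp (1 / ((p : ℝ) - 1))) ^ k := pow_le_pow_left₀ (by positivity) h2 k
      _ = _ := by
        rw [← Real.exp_nat_mul]
        congr 1
        ring
  have h2 : (k : ℝ) / ((p : ℝ) - 1) ≤ 1 := by
    rw [div_le_one hpos]
    linarith only [hk1]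
  have h3 := exp_sub_one_le (div_nonneg hk0 hpos.le) h2
  have h4 : 2 * ((k : ℝ) / ((p : ℝ) - 1)) ≤ 4 * k / p := by
    rw [← mul_div_assoc, div_le_div_iff₀ hpos (by linarith only [hp0])]
    nlinarith only [mul_nonneg hk0 (by linarith only [hp0] : 0 ≤ (p : ℝ) - 2)]
  unfold hp'
  linarith only [h1, h3, h4]

lemma sum_sq_tail {w : ℕ} (hw : 1 ≤ w) (D : Finset ℕ) (hD : ∀ p ∈ D, w < p) :
    ∑ p ∈ D, 1 / (p : ℝ) ^ 2 ≤ 1 / (w : ℝ) := by
  have h1 : D ⊆ Ioc w (max w (D.sup id)) := by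
    intro p hp
    rw [mem_Ioc]
    exact ⟨hD p hp, (le_sup (f := id) hp).trans (le_max_right _ _)⟩
  have h2 := sum_Ioc_inv_sq_le_sub (α := ℝ) (k := w) (n := max w (D.sup id)) (by omega) (le_max_left _ _)
  have h3 : ∑ p ∈ D, 1 / (p : ℝ) ^ 2 ≤ ∑ p ∈ Ioc w (max w (D.sup id)), 1 / (p : ℝ) ^ 2 :=
    sum_le_sum_of_subset_of_nonneg h1 (fun _ _ _ => by positivity)
  have h4 : (0 : ℝ) ≤ ((max w (D.sup id) : ℕ) : ℝ)⁻¹ := by positivity
  simp only [one_div] at h3 ⊢
  linarith only [h2, h3, h4]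

/-- the average of the powers of the singular series -/
theorem sum_Sg {w Q k : ℕ} (hw : 1 ≤ w) (hkw : k ≤ w) {b : ℕ → ℕ} {H n : ℕ} (hn : n ∈ Tb w b H) :
    ∑ m ∈ (Tb w b H).erase n, Sg w Q n m ^ k ≤ H / Wp w * Real.exp (4 * k / w) := by
  classical
  obtain ⟨D, hD⟩ : ∃ D, D = pz Q \ pz w := ⟨_, rfl⟩
  have hDw : ∀ p ∈ D, w < p ∧ 2 ≤ p := by
    intro p hp
    rw [hD, mem_sdiff, mem_pz, mem_pz] at hp
    refine ⟨?_, hp.1.2.two_le⟩
    by_contra h
    exact hp.2 ⟨by omega, hp.1.2⟩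
  have hW : 0 < Wp w := lt_of_lt_of_le one_pos (Wp_ge w)
  have h1 : ∀ m, Sg w Q n m ^ k = ∑ E ∈ D.powerset, (∏ p ∈ E, hp' k p) * (if ∀ p ∈ E, n ≡ m [MOD p] then 1 else 0) := by
    intro m
    unfold Sg
    rw [← prod_pow, ← hD]
    have h2 : ∀ p ∈ D, (if n ≡ m [MOD p] then 1 + 1 / ((p : ℝ) - 1) else 1) ^ k =
        1 + (if n ≡ m [MOD p] then hp' k p else 0) := by
      intro p _
      split_ifs
      · unfold hp'
        ring
      · ring
    rw [prod_congr rfl h2, prod_one_add]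
    apply sum_congr rfl
    intro E _
    split_ifs with h3
    · rw [mul_one]
      apply prod_congr rfl
      intro p hp
      rw [if_pos (h3 p hp)]
    · rw [mul_zero]
      push Not at h3
      obtain ⟨p, hp, h4⟩ := h3
      exact prod_eq_zero hp (if_neg h4)
  calc ∑ m ∈ (Tb w b H).erase n, Sg w Q n m ^ k
      = ∑ E ∈ D.powerset, (∏ p ∈ E, hp' k p) *
        ((((Tb w b H).erase n).filter (fun m => ∀ p ∈ E, n ≡ m [MOD p])).card : ℝ) := by
        rw [sum_congr rfl (fun m _ => h1 m), sum_comm]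
        apply sum_congr rfl
        intro E _
        rw [← mul_sum, card_eq_sum_ones]
        push_cast
        rw [sum_filter]
    _ ≤ ∑ E ∈ D.powerset, (∏ p ∈ E, hp' k p) * (H / Wp w * (∏ p ∈ E, (p : ℝ))⁻¹) := by
        apply sum_le_sum
        intro E hE
        rw [mem_powerset] at hE
        apply mul_le_mul_of_nonneg_left
        · exact card_Tb_cong (Q := Q) hn E (hD ▸ hE)
        · exact prod_nonneg fun p hp => hp'_nonneg (hDw p (hE hp)).2
    _ = H / Wp w * ∏ p ∈ D, (1 + hp' k p / p) := by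
        rw [prod_one_add, mul_sum]
        apply sum_congr rfl
        intro E _
        rw [prod_div_distrib]
        ring
    _ ≤ H / Wp w * Real.exp (4 * k / w) := by
        apply mul_le_mul_of_nonneg_left _ (by positivity)
        calc ∏ p ∈ D, (1 + hp' k p / p) ≤ ∏ p ∈ D, Real.exp (hp' k p / p) := by
              apply prod_le_prod
              · intro p hp
                have := hp'_nonneg (k := k) (hDw p hp).2
                positivity
              · intro p _
                have := Real.add_one_le_exp (hp' k p / p)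
                linarith only [this]
          _ = Real.exp (∑ p ∈ D, hp' k p / p) := (Real.exp_sum _ _).symm
          _ ≤ Real.exp (4 * k / w) := by
              apply Real.exp_le_exp.2
              have h5 : ∀ p ∈ D, hp' k p / p ≤ 4 * k * (1 / (p : ℝ) ^ 2) := by
                intro p hp
                have hp2 := (hDw p hp).2
                have hp0 : (2 : ℝ) ≤ p := by exact_mod_cast hp2
                have h6 := hp'_le (k := k) (p := p) (lt_of_le_of_lt hkw (hDw p hp).1) hp2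
                calc hp' k p / p ≤ (4 * k / p) / p := div_le_div_of_nonneg_right h6 (by linarith only [hp0])
                  _ = _ := by
                    rw [div_div]
                    ring
              refine (sum_le_sum h5).trans ?_
              rw [← mul_sum]
              calc _ ≤ 4 * (k : ℝ) * (1 / w) :=
                    mul_le_mul_of_nonneg_left (sum_sq_tail hw D fun p hp => (hDw p hp).1) (by positivity)
                _ = _ := by ring

end Pool.Agent.R521.F6
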