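import Pool.Agent.R521.F6.E3

set_option autoImplicit false

/-!
# The variance of the model count over tuples
-/

open Finset
open scoped Real

namespace Pool.Agent.R521.F6

open Pool.Agent.H373R2.T7 (pz Vz lamz mem_pz Vz_pos Vz_le_one es bonf sieve_gen' es_le bonf_ind
  card_small prod_dvd_iff prod_le_pow card_pz_le lamz_nonneg es_nonneg count_sys)

/-- the weighted number of shifts -/
noncomputable def XX {k : ℕ} (G : ℕ → ℝ) (T : Finset ℕ) (a : Fin k → ℕ) : ℝ :=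
  ∑ n ∈ T, ∏ i, G (n + a i)

/-- the first moment -/
lemma sum_XX (k : ℕ) (G : ℕ → ℝ) (S T : Finset ℕ) :
    ∑ a ∈ tup k S, XX G T a = ∑ n ∈ T, (∑ a ∈ S, G (n + a)) ^ k := by
  unfold XX
  rw [sum_comm]
  apply sum_congr rfl
  intro n _
  exact tup_prod_sum k S (fun b => G (n + b))

/-- the second moment -/
lemma sum_XX_sq (k : ℕ) (G : ℕ → ℝ) (S T : Finset ℕ) :
    ∑ a ∈ tup k S, XX G T a ^ 2 = ∑ n ∈ T, ∑ m ∈ T, (∑ a ∈ S, G (n + a) * G (m + a)) ^ k := by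
  have h1 : ∀ a ∈ tup k S, XX G T a ^ 2 = ∑ n ∈ T, ∑ m ∈ T, ∏ i, (G (n + a i) * G (m + a i)) := by
    intro a _
    unfold XX
    rw [sq, sum_mul_sum]
    apply sum_congr rfl
    intro n _
    apply sum_congr rfl
    intro m _
    rw [prod_mul_distrib]
  rw [sum_congr rfl h1, sum_comm]
  apply sum_congr rfl
  intro n _
  rw [sum_comm]
  apply sum_congr rfl
  intro m _
  exact tup_prod_sum k S (fun b => G (n + b) * G (m + b))

lemma pow_one_add_le {ε θ : ℝ} {k : ℕ} (hε : 0 ≤ ε) (hk : k * ε ≤ θ / 2) (hθ : θ ≤ 1) :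
    (1 + ε) ^ k ≤ 1 + θ := by
  have h1 : 1 + ε ≤ Real.exp ε := by
    have := Real.add_one_le_exp ε
    linarith only [this]
  have h0 : 0 ≤ (k : ℝ) * ε := by positivity
  calc (1 + ε) ^ k ≤ (Real.exp ε) ^ k := pow_le_pow_left₀ (by positivity) h1 k
    _ = Real.exp (k * ε) := by rw [← Real.exp_nat_mul]
    _ ≤ 1 + 2 * (k * ε) := exp_sub_one_le h0 (by linarith only [hk, hθ])
    _ ≤ 1 + θ := by linarith only [hk]

lemma pow_one_sub_ge {ε θ : ℝ} {k : ℕ} (hε : 0 ≤ ε) (hε1 : ε ≤ 1) (hk : k * ε ≤ θ / 2) :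
    1 - θ / 2 ≤ (1 - ε) ^ k := by
  have h := one_add_mul_le_pow (a := -ε) (by linarith only [hε1]) k
  have : (1 + -ε) ^ k = (1 - ε) ^ k := by ring
  rw [this] at h
  linarith only [h, hk]

lemma exp_four_le {θ : ℝ} (h0 : 0 ≤ θ) (h1 : θ ≤ 1) : Real.exp (4 * θ) ≤ 1 + 60 * θ := by
  have h2 : ConvexOn ℝ Set.univ Real.exp := convexOn_exp
  have h3 := h2.2 (Set.mem_univ (0 : ℝ)) (Set.mem_univ (4 : ℝ)) (by linarith only [h1] : 0 ≤ 1 - θ) h0 (by ring)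
  simp only [smul_eq_mul, mul_zero, zero_add, Real.exp_zero, mul_one] at h3
  have h4 : Real.exp 4 ≤ 60 := by
    have h5 : Real.exp 1 ≤ 2.7183 := by linarith only [Real.exp_one_lt_d9]
    have h6 : Real.exp 4 = (Real.exp 1) ^ 4 := by
      rw [← Real.exp_nat_mul]
      norm_num
    rw [h6]
    calc (Real.exp 1) ^ 4 ≤ (2.7183 : ℝ) ^ 4 := pow_le_pow_left₀ (Real.exp_pos _).le h5 4
      _ ≤ 60 := by norm_num
  have h5 : θ * Real.exp 4 ≤ θ * 60 := mul_le_mul_of_nonneg_left h4 h0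
  rw [mul_comm 4 θ]
  linarith only [h3, h5, h0]

/-- the variance for abstract moments -/
lemma var_abs {t μ θ ε L P Sk : ℝ} {k : ℕ} (ht : 0 < t) (hμ : μ ≤ t + 1) (hμ0 : 0 ≤ μ) (hθ0 : 0 ≤ θ) (hθ : θ ≤ 1)
    (hε : 0 ≤ ε) (hε1 : ε ≤ 1) (hkε : k * ε ≤ θ / 2) (hL : 0 ≤ L) (hP0 : 0 ≤ P) (hP : P ≤ θ * t)
    (h1t : 1 ≤ θ * t) (hSk : Sk ≤ (L * (1 + ε)) ^ k)
    {M1 M2 : ℝ} (hM1 : t * (L * (1 - ε)) ^ k ≤ M1)
    (hM2 : M2 ≤ t * ((L * (1 + ε)) ^ k * (μ * Real.exp (4 * θ) + P))) :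
    M2 - 2 * t * M1 + t ^ 2 * Sk ≤ 250 * θ * (L ^ k * t ^ 2) := by
  obtain ⟨u, hu⟩ : ∃ u, u = (1 + ε) ^ k := ⟨_, rfl⟩
  obtain ⟨v, hv⟩ : ∃ v, v = (1 - ε) ^ k := ⟨_, rfl⟩
  have hu1 : u ≤ 1 + θ := hu ▸ pow_one_add_le hε hkε hθ
  have hu0 : 0 ≤ u := by rw [hu]; positivity
  have hv1 : 1 - θ / 2 ≤ v := hv ▸ pow_one_sub_ge hε hε1 hkε
  have hLk : 0 ≤ L ^ k := by positivity
  rw [mul_pow, ← hv] at hM1
  rw [mul_pow, ← hu] at hM2 hSk
  have he := exp_four_le hθ0 hθ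
  have hb : μ * Real.exp (4 * θ) + P ≤ t * ((1 + θ) * (1 + 60 * θ) + θ) := by
    have h2 : μ ≤ t * (1 + θ) := by linarith only [hμ, h1t]
    have h3 : μ * Real.exp (4 * θ) ≤ (t * (1 + θ)) * (1 + 60 * θ) :=
      mul_le_mul h2 he (Real.exp_pos _).le (by positivity)
    linarith only [h3, hP]
  have hb0 : 0 ≤ μ * Real.exp (4 * θ) + P := by positivity
  have hub : u * (μ * Real.exp (4 * θ) + P) ≤ t * (1 + 245 * θ) := by
    calc _ ≤ (1 + θ) * (t * ((1 + θ) * (1 + 60 * θ) + θ)) := mul_le_mul hu1 hb hb0 (by linarith only [hθ0])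
      _ = t * ((1 + θ) * ((1 + θ) * (1 + 60 * θ) + θ)) := by ring
      _ ≤ t * (1 + 245 * θ) := by
        apply mul_le_mul_of_nonneg_left _ ht.le
        have h4 : 0 ≤ θ * (1 - θ) := mul_nonneg hθ0 (by linarith only [hθ])
        have h5 : 0 ≤ θ * (θ * (1 - θ)) := mul_nonneg hθ0 h4
        nlinarith only [h4, h5, hθ0]
  have hA : M2 ≤ L ^ k * t ^ 2 * (1 + 245 * θ) := by
    refine hM2.trans ?_
    calc t * (L ^ k * u * (μ * Real.exp (4 * θ) + P)) = (t * L ^ k) * (u * (μ * Real.exp (4 * θ) + P)) := by ring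
      _ ≤ (t * L ^ k) * (t * (1 + 245 * θ)) := mul_le_mul_of_nonneg_left hub (by positivity)
      _ = _ := by ring
  have hB : L ^ k * t ^ 2 * (1 - θ / 2) ≤ t * M1 := by
    calc L ^ k * t ^ 2 * (1 - θ / 2) ≤ L ^ k * t ^ 2 * v := mul_le_mul_of_nonneg_left hv1 (by positivity)
      _ = t * (t * (L ^ k * v)) := by ring
      _ ≤ t * M1 := mul_le_mul_of_nonneg_left hM1 ht.le
  have hC : t ^ 2 * Sk ≤ L ^ k * t ^ 2 * (1 + θ) := by
    calc t ^ 2 * Sk ≤ t ^ 2 * (L ^ k * u) := mul_le_mul_of_nonneg_left hSk (by positivity)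
      _ = L ^ k * t ^ 2 * u := by ring
      _ ≤ _ := mul_le_mul_of_nonneg_left hu1 (by positivity)
  have hD : 0 ≤ θ * (L ^ k * t ^ 2) := by positivity
  nlinarith only [hA, hB, hC, hD]

/-- **the variance of the model** -/
theorem model_var {w Q k H r : ℕ} (hk1 : 1 ≤ k) (hkw : k ≤ w) (hwQ : w ≤ Q) (b : ℕ → ℕ) {ε : ℝ} (hε : 0 ≤ ε)
    (hεw : w * ε ≤ 1 / 2) (hs1 : serr (H + 1) w r ≤ ε * (((H : ℝ) + 1) * Vz w))
    (hs2 : Vz w * (Vz Q)⁻¹ * serr (H + 1) Q r ≤ ε * (((H : ℝ) + 1) * Vz w))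
    (hs3 : (Vz w) ^ 2 * ((Vz Q)⁻¹) ^ 2 * serr (H + 1) Q r ≤ ε * (((H : ℝ) + 1) * Vz w))
    (hw0 : (w : ℝ) ≤ (Tb w b H).card) (hP : w * ((Vz Q)⁻¹) ^ k ≤ (Tb w b H).card) :
    ∑ a ∈ tup k (Sb w b H), (XX (Gm w Q) (Tb w b H) a - (Tb w b H).card) ^ 2 ≤
      250 * ((k : ℝ) / w) * ((((H : ℝ) + 1) * Vz w) ^ k * ((Tb w b H).card : ℝ) ^ 2) := by
  classical
  have hw1 : 1 ≤ w := hk1.trans hkw
  have hw0' : (0 : ℝ) < w := by exact_mod_cast hw1
  have hk0' : (1 : ℝ) ≤ k := by exact_mod_cast hk1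
  have hkw' : (k : ℝ) ≤ w := by exact_mod_cast hkw
  obtain ⟨t, ht⟩ : ∃ t : ℝ, t = ((Tb w b H).card : ℝ) := ⟨_, rfl⟩
  obtain ⟨L, hL⟩ : ∃ L : ℝ, L = ((H : ℝ) + 1) * Vz w := ⟨_, rfl⟩
  obtain ⟨θ, hθ⟩ : ∃ θ : ℝ, θ = (k : ℝ) / w := ⟨_, rfl⟩
  rw [← ht] at hw0 hP ⊢
  rw [← hL] at hs1 hs2 hs3 ⊢
  rw [← hθ]
  have ht0 : 0 < t := lt_of_lt_of_le hw0' hw0
  have hV := Vz_pos Q
  have hw := Vz_pos w
  have hL0 : 0 ≤ L := by rw [hL]; positivity
  have hθ0 : 0 ≤ θ := by rw [hθ]; positivity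
  have hθ1 : θ ≤ 1 := by rw [hθ, div_le_one hw0']; exact hkw'
  have hε1 : ε ≤ 1 := by
    have h1 : 1 ≤ (w : ℝ) := by exact_mod_cast hw1
    have : 1 * ε ≤ w * ε := mul_le_mul_of_nonneg_right h1 hε
    linarith only [this, hεw]
  have hθw : θ * w = k := by rw [hθ]; field_simp
  have hkε : k * ε ≤ θ / 2 := by
    rw [← hθw]
    have := mul_le_mul_of_nonneg_left hεw hθ0
    linarith only [this]
  have h1t : 1 ≤ θ * t := by
    have := mul_le_mul_of_nonneg_left hw0 hθ0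
    rw [hθw] at this
    linarith only [this, hk0']
  have hVk : 0 ≤ ((Vz Q)⁻¹) ^ k := by positivity
  have hPt : ((Vz Q)⁻¹) ^ k ≤ θ * t := by
    have h1 := mul_le_mul_of_nonneg_left hP hθ0
    rw [← mul_assoc, hθw] at h1
    have h2 := mul_le_mul_of_nonneg_right hk0' hVk
    linarith only [h1, h2]
  have hTn : ∃ n, n ∈ Tb w b H := by
    have h1 : (0 : ℝ) < ((Tb w b H).card : ℝ) := ht ▸ ht0
    have h2 : 0 < (Tb w b H).card := by exact_mod_cast h1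
    exact card_pos.1 h2
  obtain ⟨n0, hn0⟩ := hTn
  have hcard := card_Tb w b H
  rw [← ht] at hcard
  have hμ : (H : ℝ) / Wp w ≤ t + 1 := by
    have := (abs_le.1 hcard).1
    linarith only [this]
  have hμ0 : 0 ≤ (H : ℝ) / Wp w := div_nonneg (Nat.cast_nonneg _) (zero_le_one.trans (Wp_ge w))
  have hS := card_Sb hn0 r
  rw [← hL] at hS
  have hSu : ((Sb w b H).card : ℝ) ≤ L * (1 + ε) := by
    have := (abs_le.1 hS).2
    linarith only [this, hs1]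
  have hG : ∀ n ∈ Tb w b H, |∑ a ∈ Sb w b H, Gm w Q (n + a) - L| ≤ ε * L := by
    intro n hn
    have := sum_Gm hwQ hn r
    rw [← hL] at this
    exact this.trans hs2
  have hM1 : t * (L * (1 - ε)) ^ k ≤ ∑ a ∈ tup k (Sb w b H), XX (Gm w Q) (Tb w b H) a := by
    rw [sum_XX, ht, ← nsmul_eq_mul]
    apply card_nsmul_le_sum
    intro n hn
    apply pow_le_pow_left₀ (mul_nonneg hL0 (by linarith only [hε1]))
    have := (abs_le.1 (hG n hn)).1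
    linarith only [this]
  have hM2 : ∑ a ∈ tup k (Sb w b H), XX (Gm w Q) (Tb w b H) a ^ 2 ≤
      t * ((L * (1 + ε)) ^ k * ((H : ℝ) / Wp w * Real.exp (4 * θ) + ((Vz Q)⁻¹) ^ k)) := by
    rw [sum_XX_sq, ht, ← nsmul_eq_mul]
    apply sum_le_card_nsmul
    intro n hn
    rw [← add_sum_erase _ _ hn]
    have hdiag : (∑ a ∈ Sb w b H, Gm w Q (n + a) * Gm w Q (n + a)) ^ k ≤
        (L * (1 + ε)) ^ k * ((Vz Q)⁻¹) ^ k := by
      rw [← mul_pow]
      apply pow_le_pow_left₀ (sum_nonneg fun _ _ => mul_nonneg (Gm_nonneg _ _ _) (Gm_nonneg _ _ _))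
      have h1 := sum_Gm_sq w Q (Sb w b H) n
      simp only [sq] at h1
      rw [h1]
      have h2 : ∑ a ∈ Sb w b H, Gm w Q (n + a) ≤ L * (1 + ε) := by
        have := (abs_le.1 (hG n hn)).2
        linarith only [this]
      have h3 : Vz w * (Vz Q)⁻¹ ≤ (Vz Q)⁻¹ := by
        have := mul_le_mul_of_nonneg_right (Vz_le_one w) (inv_pos.2 hV).le
        linarith only [this]
      calc _ ≤ (Vz Q)⁻¹ * (L * (1 + ε)) := mul_le_mul h3 h2
            (sum_nonneg fun _ _ => Gm_nonneg _ _ _) (inv_pos.2 hV).le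
        _ = _ := mul_comm _ _
    have hoff : ∑ m ∈ (Tb w b H).erase n, (∑ a ∈ Sb w b H, Gm w Q (n + a) * Gm w Q (m + a)) ^ k ≤
        (L * (1 + ε)) ^ k * ((H : ℝ) / Wp w * Real.exp (4 * θ)) := by
      have h1 : ∀ m ∈ (Tb w b H).erase n, (∑ a ∈ Sb w b H, Gm w Q (n + a) * Gm w Q (m + a)) ^ k ≤
          (L * (1 + ε)) ^ k * Sg w Q n m ^ k := by
        intro m hm
        rw [← mul_pow]
        apply pow_le_pow_left₀ (sum_nonneg fun _ _ => mul_nonneg (Gm_nonneg _ _ _) (Gm_nonneg _ _ _))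
        have h2 := sum_Gm2 hwQ hn (mem_of_mem_erase hm) r
        rw [← hL] at h2
        have h3 := one_le_Sg w Q n m
        have h4 : ε * L * 1 ≤ ε * L * Sg w Q n m := mul_le_mul_of_nonneg_left h3 (by positivity)
        calc _ ≤ L * Sg w Q n m + ε * L := by linarith only [h2, hs3]
          _ ≤ L * Sg w Q n m + ε * L * Sg w Q n m := by linarith only [h4]
          _ = _ := by ring
      refine (sum_le_sum h1).trans ?_
      rw [← mul_sum]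
      apply mul_le_mul_of_nonneg_left _ (by positivity)
      have h5 := sum_Sg (Q := Q) hw1 hkw hn
      have e : 4 * (k : ℝ) / w = 4 * θ := by rw [hθ]; ring
      rw [e] at h5
      exact h5
    linarith only [hdiag, hoff]
  have hexp : ∑ a ∈ tup k (Sb w b H), (XX (Gm w Q) (Tb w b H) a - t) ^ 2 =
      ∑ a ∈ tup k (Sb w b H), XX (Gm w Q) (Tb w b H) a ^ 2 -
        2 * t * ∑ a ∈ tup k (Sb w b H), XX (Gm w Q) (Tb w b H) a + t ^ 2 * ((Sb w b H).card : ℝ) ^ k := by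
    have e1 : ∀ a ∈ tup k (Sb w b H), (XX (Gm w Q) (Tb w b H) a - t) ^ 2 =
        XX (Gm w Q) (Tb w b H) a ^ 2 - 2 * t * XX (Gm w Q) (Tb w b H) a + t ^ 2 := by
      intro a _
      ring
    rw [sum_congr rfl e1, sum_add_distrib, sum_sub_distrib, ← mul_sum, sum_const, card_tup, nsmul_eq_mul]
    push_cast
    ring
  rw [hexp]
  exact var_abs ht0 hμ hμ0 hθ0 hθ1 hε hε1 hkε hL0 hVk hPt h1t
    (pow_le_pow_left₀ (Nat.cast_nonneg _) hSu k) hM1 hM2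

end Pool.Agent.R521.F6
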