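import Pool.Agent.R521.F6.E4
import Pool.Agent.R521.F6.C3
import Pool.Agent.H373R2.T7.LamMaj

set_option autoImplicit false

/-!
# The single sums of the primes
-/

open Finset Filter
open scoped Real
open scoped ArithmeticFunction.vonMangoldt

namespace Pool.Agent.R521.F6

open Pool.Agent.H373R2.T7 (pz Vz lamz mem_pz Vz_pos Vz_le_one es bonf sieve_gen' es_le bonf_ind
  card_small prod_dvd_iff prod_le_pow card_pz_le lamz_nonneg es_nonneg count_sys lam1 lam1_le pnt_lam)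

/-- the prime number theorem, uniformly below `2H` -/
theorem pnt_unif (U : ℕ) : ∃ H0 : ℕ, 3 ≤ H0 ∧ ∀ H : ℕ, H0 ≤ H → ∀ y : ℕ, y ≤ 2 * H →
    |lam1 y - y| ≤ H / Real.log H ^ U := by
  obtain ⟨C, N1, hC, h⟩ := pnt_lam (U + 1)
  have h1 : ∀ᶠ Y : ℝ in atTop, 14 * Real.log Y ^ U ≤ √Y := ev_logpow U 14
  have h2 : ∀ᶠ Y : ℝ in atTop, 4 * C * 2 ^ (U + 1) ≤ Real.log Y :=
    Real.tendsto_log_atTop.eventually_ge_atTop _
  have h3 : ∀ᶠ Y : ℝ in atTop, 8 * Real.log Y ^ U ≤ √Y := ev_logpow U 8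
  have h4 := (((h1.and h2).and h3).and (eventually_ge_atTop (((N1 : ℝ) + 4) ^ 2))).natCast_atTop
  obtain ⟨H0, hH0⟩ := eventually_atTop.1 h4
  refine ⟨max H0 3, le_max_right _ _, fun H hH y hy => ?_⟩
  obtain ⟨⟨⟨g1, g2⟩, g3⟩, g4⟩ := hH0 H ((le_max_left _ _).trans hH)
  have hH3 : 3 ≤ H := (le_max_right _ _).trans hH
  have hH3' : (3 : ℝ) ≤ H := by exact_mod_cast hH3
  have hH0' : (0 : ℝ) < H := by linarith only [hH3']
  have hl : 1 ≤ Real.log H := by
    rw [Real.le_log_iff_exp_le hH0']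
    linarith only [Real.exp_one_lt_d9, hH3']
  have hlU : 0 < Real.log H ^ U := by positivity
  have hss : √(H : ℝ) * √H = H := Real.mul_self_sqrt hH0'.le
  have hs0 : 0 < √(H : ℝ) := Real.sqrt_pos.2 hH0'
  rcases lt_or_ge (y : ℝ) (√H) with hy1 | hy1
  · have h5 : |lam1 y - y| ≤ 7 * y := by
      have h6 := lam1_le y
      have h7 : 0 ≤ lam1 y := sum_nonneg fun _ _ => ArithmeticFunction.vonMangoldt_nonneg
      have h8 : (0 : ℝ) ≤ y := Nat.cast_nonneg _
      rw [abs_le]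
      constructor <;> linarith only [h6, h7, h8]
    refine h5.trans ?_
    rw [le_div_iff₀ hlU]
    have h9 : 7 * (y : ℝ) * Real.log H ^ U ≤ 7 * √H * Real.log H ^ U := by gcongr
    nlinarith only [h9, g1, hs0, hss, hlU]
  · have hyN : N1 + 4 ≤ y := by
      have h5 : ((N1 : ℝ) + 4) ≤ √H := Real.le_sqrt_of_sq_le g4
      have : ((N1 + 4 : ℕ) : ℝ) ≤ y := by push_cast; linarith only [h5, hy1]
      exact_mod_cast this
    have hy0 : (0 : ℝ) < y := lt_of_lt_of_le hs0 hy1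
    have h6 := h y (by omega)
    have h7 : Real.log H / 2 ≤ Real.log y := by
      rw [← Real.log_sqrt hH0'.le]
      exact Real.log_le_log hs0 hy1
    have hy2 : (y : ℝ) ≤ 2 * H := by exact_mod_cast hy
    have hl2 : 0 < Real.log H / 2 := by linarith only [hl]
    have h8 : (y : ℝ) / Real.log y ^ (U + 1) ≤ 2 * H / (Real.log H / 2) ^ (U + 1) := by
      apply div_le_div₀ (by positivity) hy2 (by positivity)
      exact pow_le_pow_left₀ hl2.le h7 _
    have h9 : 2 * (H : ℝ) / (Real.log H / 2) ^ (U + 1) = 2 * 2 ^ (U + 1) * H / Real.log H ^ (U + 1) := by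
      rw [div_pow, div_div_eq_mul_div]
      ring
    have h10 : C * (2 * 2 ^ (U + 1) * H / Real.log H ^ (U + 1)) ≤ H / Real.log H ^ U / 2 := by
      have e : Real.log H ^ (U + 1) = Real.log H ^ U * Real.log H := pow_succ _ _
      rw [e]
      have : C * (2 * 2 ^ (U + 1) * H / (Real.log H ^ U * Real.log H)) =
          (H / Real.log H ^ U / 2) * ((4 * C * 2 ^ (U + 1)) / Real.log H) := by
        field_simp
        ring
      rw [this]
      have h11 : (4 * C * 2 ^ (U + 1)) / Real.log H ≤ 1 := by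
        rw [div_le_one (by linarith only [hl])]
        exact g2
      have h12 : 0 ≤ (H : ℝ) / Real.log H ^ U / 2 := by positivity
      calc _ ≤ (H : ℝ) / Real.log H ^ U / 2 * 1 := mul_le_mul_of_nonneg_left h11 h12
        _ = _ := mul_one _
    have h13 : (2 : ℝ) ≤ H / Real.log H ^ U / 2 := by
      rw [le_div_iff₀ (by norm_num), le_div_iff₀ hlU]
      have h14 : 1 ≤ √(H : ℝ) := by
        rw [show (1 : ℝ) = √1 by simp]
        exact Real.sqrt_le_sqrt (by linarith only [hH3'])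
      nlinarith only [g3, h14, hss, hlU]
    have h15 := mul_le_mul_of_nonneg_left h8 hC.le
    rw [h9] at h15
    linarith only [h6, h15, h10, h13]

/-- the sum of the primes over the sifted set -/
theorem sum_Fm (U : ℕ) : ∃ H0 : ℕ, 3 ≤ H0 ∧ ∀ H : ℕ, H0 ≤ H → ∀ w Q n : ℕ, 1 ≤ n → n ≤ H →
    ∀ S : Finset ℕ, S ⊆ range (H + 1) →
      ∑ a ∈ S, Fm w Q (n + a) ≤ ((H : ℝ) + 1) * Vz w * (1 + 1 / Real.log H ^ U) := by
  obtain ⟨H0, h3, h⟩ := pnt_unif (U + 1)
  obtain ⟨H1, hH1⟩ := eventually_atTop.1 ((Real.tendsto_log_atTop.eventually_ge_atTop (2 : ℝ)).natCast_atTop)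
  refine ⟨max H0 H1, h3.trans (le_max_left _ _), fun H hH w Q n hn hnH S hS => ?_⟩
  have hHH := h H ((le_max_left _ _).trans hH)
  have hl2 : 2 ≤ Real.log H := hH1 H ((le_max_right _ _).trans hH)
  have hH3 : 3 ≤ H := h3.trans ((le_max_left _ _).trans hH)
  have hH0' : (0 : ℝ) < H := by exact_mod_cast (by omega : 0 < H)
  have h1 : ∑ a ∈ S, Fm w Q (n + a) ≤ Vz w * (lam1 (n + H) - lam1 (n - 1)) := by
    unfold Fm
    rw [← mul_sum]
    apply mul_le_mul_of_nonneg_left _ (Vz_pos w).le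
    have h2 : ∀ a ∈ S, Pq Q (n + a) ≤ Λ (n + a) := by
      intro a _
      unfold Pq
      split_ifs with h5
      · rw [ArithmeticFunction.vonMangoldt_apply_prime h5.1]
      · exact ArithmeticFunction.vonMangoldt_nonneg
    calc ∑ a ∈ S, Pq Q (n + a) ≤ ∑ a ∈ S, Λ (n + a) := sum_le_sum h2
      _ ≤ ∑ a ∈ range (H + 1), Λ (n + a) :=
          sum_le_sum_of_subset_of_nonneg hS (fun _ _ _ => ArithmeticFunction.vonMangoldt_nonneg)
      _ = ∑ m ∈ Ico n (n + H + 1), Λ m := by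
          rw [sum_Ico_eq_sum_range]
          congr 2
          omega
      _ = lam1 (n + H) - lam1 (n - 1) := by
          unfold lam1
          have e1 : Icc 1 (n + H) = Ico 1 (n + H + 1) := by
            ext m; rw [mem_Icc, mem_Ico]; omega
          have e2 : Icc 1 (n - 1) = Ico 1 n := by
            ext m; rw [mem_Icc, mem_Ico]; omega
          rw [e1, e2, ← sum_Ico_consecutive (fun m => Λ m) hn (by omega : n ≤ n + H + 1)]
          ring
  refine h1.trans ?_
  have h4 := (abs_le.1 (hHH (n + H) (by omega))).2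
  have h5 := (abs_le.1 (hHH (n - 1) (by omega))).1
  have h6 : ((n - 1 : ℕ) : ℝ) = (n : ℝ) - 1 := by
    push_cast [Nat.cast_sub hn]
    ring
  rw [h6] at h5
  push_cast at h4
  have h7 : 2 * ((H : ℝ) / Real.log H ^ (U + 1)) ≤ H / Real.log H ^ U := by
    rw [pow_succ, ← mul_div_assoc, div_le_div_iff₀ (by positivity) (by positivity)]
    have : 0 ≤ (H : ℝ) * Real.log H ^ U := by positivity
    nlinarith only [this, hl2]
  have h8 : (H : ℝ) / Real.log H ^ U ≤ (H + 1) * (1 / Real.log H ^ U) := by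
    rw [mul_one_div]
    apply div_le_div_of_nonneg_right _ (by positivity)
    linarith only
  have h9 : lam1 (n + H) - lam1 (n - 1) ≤ ((H : ℝ) + 1) * (1 + 1 / Real.log H ^ U) := by
    linarith only [h4, h5, h7, h8]
  calc Vz w * (lam1 (n + H) - lam1 (n - 1)) ≤ Vz w * (((H : ℝ) + 1) * (1 + 1 / Real.log H ^ U)) :=
        mul_le_mul_of_nonneg_left h9 (Vz_pos w).le
    _ = _ := by ring

/-- the squares of the primes -/
lemma sum_Fm_sq {w Q H n : ℕ} (hn : 1 ≤ n) (hnH : n ≤ H) (S : Finset ℕ) (hS : S ⊆ range (H + 1)) :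
    ∑ a ∈ S, Fm w Q (n + a) ^ 2 ≤ Real.log (2 * H) * ∑ a ∈ S, Fm w Q (n + a) := by
  rw [mul_sum]
  apply sum_le_sum
  intro a ha
  have ha1 := mem_range.1 (hS ha)
  have hH0 : (0 : ℝ) < H := by exact_mod_cast (by omega : 0 < H)
  have hlog : Real.log ((n + a : ℕ) : ℝ) ≤ Real.log (2 * H) := by
    apply Real.log_le_log
    · exact_mod_cast (by omega : 0 < n + a)
    · have : ((n + a : ℕ) : ℝ) ≤ ((2 * H : ℕ) : ℝ) := Nat.cast_le.2 (by omega)
      push_cast at this ⊢
      exact this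
  rw [sq]
  apply mul_le_mul_of_nonneg_right _ (Fm_nonneg _ _ _)
  have hl0 : 0 ≤ Real.log (2 * (H : ℝ)) := (Real.log_natCast_nonneg _).trans hlog
  unfold Fm Pq
  split_ifs
  · calc Vz w * Real.log ((n + a : ℕ) : ℝ) ≤ 1 * Real.log (2 * H) :=
        mul_le_mul (Vz_le_one w) hlog (Real.log_natCast_nonneg _) zero_le_one
      _ = _ := one_mul _
  · rw [mul_zero]
    exact hl0

end Pool.Agent.R521.F6
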