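import Pool.Agent.R521.F6.E5

set_option autoImplicit false

/-!
# The number of bad tuples
-/

open Finset Filter
open scoped Real

namespace Pool.Agent.R521.F6

open Pool.Agent.H373R2.T7 (pz Vz lamz mem_pz Vz_pos Vz_le_one es bonf sieve_gen' es_le bonf_ind
  card_small prod_dvd_iff prod_le_pow card_pz_le lamz_nonneg es_nonneg count_sys)

/-- Chebyshev and Markov -/
lemma cheb_markov {ι : Type*} (U : Finset ι) (X Y : ι → ℝ) {t V P : ℝ} (ht : 0 < t)
    (hV : ∑ a ∈ U, (Y a - t) ^ 2 ≤ V * t ^ 2) (hP : ∑ a ∈ U, |X a - Y a| ≤ P * t) :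
    ((U.filter (fun a => X a ≤ t / 4)).card : ℝ) ≤ 4 * V + 4 * P := by
  classical
  have h1 : U.filter (fun a => X a ≤ t / 4) ⊆
      U.filter (fun a => Y a ≤ t / 2) ∪ U.filter (fun a => t / 4 ≤ |X a - Y a|) := by
    intro a ha
    rw [mem_filter] at ha
    rw [mem_union, mem_filter, mem_filter]
    by_cases h : Y a ≤ t / 2
    · exact Or.inl ⟨ha.1, h⟩
    · right
      refine ⟨ha.1, ?_⟩
      have := neg_abs_le (X a - Y a)
      push Not at h
      linarith only [this, ha.2, h]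
  have h2 : ((U.filter (fun a => Y a ≤ t / 2)).card : ℝ) ≤ 4 * V := by
    have h3 : ((U.filter (fun a => Y a ≤ t / 2)).card : ℝ) * (t / 2) ^ 2 ≤ V * t ^ 2 := by
      refine le_trans ?_ hV
      rw [← nsmul_eq_mul]
      calc _ ≤ ∑ a ∈ U.filter (fun a => Y a ≤ t / 2), (Y a - t) ^ 2 := by
            apply card_nsmul_le_sum
            intro a ha
            have := (mem_filter.1 ha).2
            nlinarith only [this, ht]
        _ ≤ _ := sum_le_sum_of_subset_of_nonneg (filter_subset _ _) (fun _ _ _ => sq_nonneg _)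
    have ht2 : 0 < t ^ 2 := by positivity
    have e : ((U.filter (fun a => Y a ≤ t / 2)).card : ℝ) * (t / 2) ^ 2 =
      (((U.filter (fun a => Y a ≤ t / 2)).card : ℝ) / 4) * t ^ 2 := by ring
    rw [e] at h3
    have := le_of_mul_le_mul_right h3 ht2
    linarith only [this]
  have h4 : ((U.filter (fun a => t / 4 ≤ |X a - Y a|)).card : ℝ) ≤ 4 * P := by
    have h5 : ((U.filter (fun a => t / 4 ≤ |X a - Y a|)).card : ℝ) * (t / 4) ≤ P * t := by
      refine le_trans ?_ hP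
      rw [← nsmul_eq_mul]
      calc _ ≤ ∑ a ∈ U.filter (fun a => t / 4 ≤ |X a - Y a|), |X a - Y a| := by
            apply card_nsmul_le_sum
            intro a ha
            exact (mem_filter.1 ha).2
        _ ≤ _ := sum_le_sum_of_subset_of_nonneg (filter_subset _ _) (fun _ _ _ => abs_nonneg _)
    have e : ((U.filter (fun a => t / 4 ≤ |X a - Y a|)).card : ℝ) * (t / 4) =
      (((U.filter (fun a => t / 4 ≤ |X a - Y a|)).card : ℝ) / 4) * t := by ring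
    rw [e] at h5
    have := le_of_mul_le_mul_right h5 ht
    linarith only [this]
  have h6 := card_le_card h1
  have h7 := card_union_le (U.filter (fun a => Y a ≤ t / 2)) (U.filter (fun a => t / 4 ≤ |X a - Y a|))
  have h8 : ((U.filter (fun a => X a ≤ t / 4)).card : ℝ) ≤
      ((U.filter (fun a => Y a ≤ t / 2)).card : ℝ) + ((U.filter (fun a => t / 4 ≤ |X a - Y a|)).card : ℝ) := by
    exact_mod_cast h6.trans h7
  linarith only [h8, h2, h4]

/-- the first error term -/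
lemma err_one {V L s H ℓ B : ℝ} {k w : ℕ} (hV0 : 0 < V) (hV1 : V ≤ 1) (hH : 0 ≤ H)
    (hL : L = (H + 1) * V) (hs0 : 0 ≤ s) (hs : s ≤ 2 * L) (hk1 : 1 ≤ k) (hkw : k ≤ w) (hB0 : 0 ≤ B)
    (hB : B ^ (k - 1) ≤ 2 * L ^ (k - 1)) (hℓ : (w : ℝ) ≤ ℓ) :
    k * ((V * (√s * (√H / ℓ ^ 1))) * B ^ (k - 1)) ≤ 4 * ((k : ℝ) / w) * L ^ k := by
  have hw0 : (0 : ℝ) < w := by exact_mod_cast (by omega : 0 < w)
  have hℓ0 : 0 < ℓ := lt_of_lt_of_le hw0 hℓ
  have hL0 : 0 ≤ L := by rw [hL]; positivity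
  have h1 : V * √s * √H ≤ 2 * L := by
    have h2 : V * √s * √H = √(V ^ 2 * s * H) := by
      rw [Real.sqrt_mul (by positivity), Real.sqrt_mul (by positivity), Real.sqrt_sq hV0.le]
    rw [h2]
    apply Real.sqrt_le_iff.2
    refine ⟨by positivity, ?_⟩
    have h3 : V * H ≤ L := by
      rw [hL]
      nlinarith only [hV0, hH]
    calc V ^ 2 * s * H = V * s * (V * H) := by ring
      _ ≤ 1 * (2 * L) * L := by
        apply mul_le_mul _ h3 (by positivity) (by positivity)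
        exact mul_le_mul hV1 hs hs0 zero_le_one
      _ ≤ (2 * L) ^ 2 := by nlinarith only [sq_nonneg L]
  have hk0 : (0 : ℝ) ≤ k := Nat.cast_nonneg _
  have e : L ^ k = L ^ (k - 1) * L := by
    rw [← pow_succ, Nat.sub_add_cancel hk1]
  rw [pow_one]
  calc k * ((V * (√s * (√H / ℓ))) * B ^ (k - 1)) = k * ((V * √s * √H) / ℓ * B ^ (k - 1)) := by ring
    _ ≤ k * ((2 * L) / w * (2 * L ^ (k - 1))) := by
      apply mul_le_mul_of_nonneg_left _ hk0
      apply mul_le_mul _ hB (by positivity) (by positivity)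
      exact div_le_div₀ (by positivity) h1 hw0 hℓ
    _ = _ := by
      rw [e]
      ring

/-- the second error term -/
lemma err_two {V L s H ℓ t W C Q l8 Hh : ℝ} {k w : ℕ} (hV0 : 0 < V) (hV1 : V ≤ 1) (hH : 1 ≤ H)
    (hL : L = (H + 1) * V) (hs0 : 0 ≤ s) (hs : s ≤ 2 * L) (hk1 : 1 ≤ k) (hkw : k ≤ w)
    (hHh0 : 0 ≤ Hh) (hHh : Hh ≤ 2 * L * ℓ) (hℓ : 1 ≤ ℓ) (hW : 1 ≤ W) (ht : H ≤ 2 * W * t) (hC : 0 ≤ C)
    (hl8 : 0 ≤ l8) (hQ0 : 0 < Q) (ht0 : 0 < t)
    (hQ : 4 * w * (C * l8) * √W * (2 * ℓ) ^ w ≤ √Q) :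
    k * ((V * (√s * (C * l8 * (H / √Q)))) * √(s * Hh) ^ (k - 1) * √t) ≤ ((k : ℝ) / w) * L ^ k * t := by
  have hw0 : (0 : ℝ) < w := by exact_mod_cast (by omega : 0 < w)
  have hL0 : 0 < L := by rw [hL]; positivity
  have hk0 : (0 : ℝ) ≤ k := Nat.cast_nonneg _
  have hsQ : 0 < √Q := Real.sqrt_pos.2 hQ0
  have hst : 0 < √t := Real.sqrt_pos.2 ht0
  have hstt : √t * √t = t := Real.mul_self_sqrt ht0.le
  have h1 : √(s * Hh) ≤ 2 * ℓ * L := by
    apply Real.sqrt_le_iff.2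
    refine ⟨by positivity, ?_⟩
    calc s * Hh ≤ (2 * L) * (2 * L * ℓ) := mul_le_mul hs hHh hHh0 (by positivity)
      _ = 4 * L ^ 2 * ℓ := by ring
      _ ≤ 4 * L ^ 2 * ℓ ^ 2 := by
        apply mul_le_mul_of_nonneg_left _ (by positivity)
        nlinarith only [hℓ]
      _ = _ := by ring
  have h2 : √(s * Hh) ^ (k - 1) ≤ (2 * ℓ) ^ w * L ^ (k - 1) := by
    calc _ ≤ (2 * ℓ * L) ^ (k - 1) := pow_le_pow_left₀ (Real.sqrt_nonneg _) h1 _
      _ = (2 * ℓ) ^ (k - 1) * L ^ (k - 1) := mul_pow _ _ _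
      _ ≤ _ := by
        apply mul_le_mul_of_nonneg_right _ (by positivity)
        exact pow_le_pow_right₀ (by linarith only [hℓ]) (by omega)
  have h3 : V * √s * H ≤ L * (4 * √W * √t) := by
    have h4 : √s ≤ 4 * √W * √t := by
      apply Real.sqrt_le_iff.2
      refine ⟨by positivity, ?_⟩
      have h5 : (4 * √W * √t) ^ 2 = 16 * (√W * √W) * (√t * √t) := by ring
      rw [h5, hstt, Real.mul_self_sqrt (by linarith only [hW])]
      have h6 : L ≤ 2 * H := by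
        rw [hL]
        calc (H + 1) * V ≤ (H + 1) * 1 := mul_le_mul_of_nonneg_left hV1 (by linarith only [hH])
          _ ≤ 2 * H := by linarith only [hH]
      have h7 : 0 ≤ W * t := by positivity
      linarith only [hs, h6, ht, h7]
    have h5 : V * H ≤ L := by
      rw [hL]
      nlinarith only [hV0, hH]
    calc V * √s * H = (V * H) * √s := by ring
      _ ≤ L * (4 * √W * √t) := mul_le_mul h5 h4 (Real.sqrt_nonneg _) hL0.le
  have e : L ^ k = L ^ (k - 1) * L := by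
    rw [← pow_succ, Nat.sub_add_cancel hk1]
  calc k * ((V * (√s * (C * l8 * (H / √Q)))) * √(s * Hh) ^ (k - 1) * √t)
      = k * ((V * √s * H) * (C * l8 / √Q) * √(s * Hh) ^ (k - 1) * √t) := by ring
    _ ≤ k * ((L * (4 * √W * √t)) * (C * l8 / √Q) * ((2 * ℓ) ^ w * L ^ (k - 1)) * √t) := by
      apply mul_le_mul_of_nonneg_left _ hk0
      apply mul_le_mul_of_nonneg_right _ hst.le
      apply mul_le_mul _ h2 (by positivity) (by positivity)
      apply mul_le_mul_of_nonneg_right h3 (by positivity)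
    _ = (k / w) * (L ^ (k - 1) * L) * (√t * √t) * ((4 * w * (C * l8) * √W * (2 * ℓ) ^ w) / √Q) := by
      field_simp
    _ ≤ (k / w) * (L ^ (k - 1) * L) * (√t * √t) * 1 := by
      apply mul_le_mul_of_nonneg_left _ (by positivity)
      rw [div_le_one hsQ]
      exact hQ
    _ = _ := by
      rw [hstt, ← e]
      ring

/-- **the number of bad tuples** -/
theorem bad_tuples {w Q k H r : ℕ} (hk1 : 1 ≤ k) (hkw : k ≤ w) (hwQ : w ≤ Q) (b : ℕ → ℕ) {ε C : ℝ} (hε : 0 ≤ ε)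
    (hεw : w * ε ≤ 1 / 2) (hs1 : serr (H + 1) w r ≤ ε * (((H : ℝ) + 1) * Vz w))
    (hs2 : Vz w * (Vz Q)⁻¹ * serr (H + 1) Q r ≤ ε * (((H : ℝ) + 1) * Vz w))
    (hs3 : (Vz w) ^ 2 * ((Vz Q)⁻¹) ^ 2 * serr (H + 1) Q r ≤ ε * (((H : ℝ) + 1) * Vz w))
    (hw0 : (w : ℝ) ≤ (Tb w b H).card) (hP : w * ((Vz Q)⁻¹) ^ k ≤ (Tb w b H).card)
    (hF : ∀ n ∈ Tb w b H, ∑ a ∈ Sb w b H, Fm w Q (n + a) ≤ ((H : ℝ) + 1) * Vz w * (1 + ε))
    (hC : 0 ≤ C)
    (hpsi : ∀ g : ℕ → ℝ, ∑ a ∈ Sb w b H, |∑ n ∈ Tb w b H, g n * Eb Q (n + a)| ≤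
      √((Sb w b H).card) * (√H / Real.log H ^ 1) * ∑ n ∈ Tb w b H, |g n| +
      √((Sb w b H).card) * (C * Real.log H ^ 8 * (H / √Q)) * √(∑ n ∈ Tb w b H, g n ^ 2))
    (hwl : (w : ℝ) ≤ Real.log H) (hVQ : (Vz Q)⁻¹ ≤ Real.log (2 * H)) (hHW : 2 * Wp w ≤ H)
    (hQ : 4 * w * (C * Real.log H ^ 8) * √(Wp w) * (2 * Real.log (2 * H)) ^ w ≤ √Q) :
    (((tup k (Sb w b H)).filter (fun a => XX (Fm w Q) (Tb w b H) a ≤ ((Tb w b H).card : ℝ) / 4)).card : ℝ) ≤
      1020 * ((k : ℝ) / w) * (((H : ℝ) + 1) * Vz w) ^ k := by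
  classical
  have hvar := model_var (r := r) hk1 hkw hwQ b hε hεw hs1 hs2 hs3 hw0 hP
  have hw1 : 1 ≤ w := hk1.trans hkw
  have hw0' : (0 : ℝ) < w := by exact_mod_cast hw1
  have hkw' : (k : ℝ) ≤ w := by exact_mod_cast hkw
  have hV := Vz_pos Q
  have hw := Vz_pos w
  have hwle := Vz_le_one w
  obtain ⟨t, ht⟩ : ∃ t : ℝ, t = ((Tb w b H).card : ℝ) := ⟨_, rfl⟩
  obtain ⟨L, hL⟩ : ∃ L : ℝ, L = ((H : ℝ) + 1) * Vz w := ⟨_, rfl⟩
  have hcard := card_Tb w b H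
  have ht0 : 0 < t := by rw [ht]; exact lt_of_lt_of_le hw0' hw0
  have hWp := Wp_ge w
  have hH1 : (1 : ℝ) ≤ H := by linarith only [hWp, hHW]
  have hTn : ∃ n, n ∈ Tb w b H := by
    have h1 : (0 : ℝ) < ((Tb w b H).card : ℝ) := ht ▸ ht0
    have h2 : 0 < (Tb w b H).card := by exact_mod_cast h1
    exact card_pos.1 h2
  obtain ⟨n0, hn0⟩ := hTn
  have hS := card_Sb hn0 r
  have hε1 : ε ≤ 1 := by
    have h1 : 1 ≤ (w : ℝ) := by exact_mod_cast hw1
    have : 1 * ε ≤ w * ε := mul_le_mul_of_nonneg_right h1 hε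
    linarith only [this, hεw]
  have hL0 : 0 ≤ L := by rw [hL]; positivity
  have hSu : ((Sb w b H).card : ℝ) ≤ 2 * L := by
    have h1 := (abs_le.1 hS).2
    rw [← hL] at h1 hs1
    have h2 : ε * L ≤ 1 * L := mul_le_mul_of_nonneg_right hε1 hL0
    linarith only [h1, h2, hs1]
  have hG : ∀ n ∈ Tb w b H, ∑ a ∈ Sb w b H, Gm w Q (n + a) ≤ L * (1 + ε) := by
    intro n hn
    have h1 := (abs_le.1 (sum_Gm hwQ hn r)).2
    rw [← hL] at h1 hs2
    linarith only [h1, hs2]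
  rw [← hL] at hF
  have hB0 : 0 ≤ L * (1 + ε) := by positivity
  have hℓ1 : 1 ≤ Real.log (2 * H) := by
    refine le_trans ?_ hVQ
    rw [one_le_inv₀ hV]
    exact Vz_le_one Q
  have hHh0 : 0 ≤ L * (1 + ε) * Real.log (2 * H) := by positivity
  have hHF : ∀ n ∈ Tb w b H, ∑ a ∈ Sb w b H, Fm w Q (n + a) ^ 2 ≤ L * (1 + ε) * Real.log (2 * H) := by
    intro n hn
    have h1 := (mem_Tb.1 hn).1
    refine (sum_Fm_sq h1.1 h1.2 _ (filter_subset _ _)).trans ?_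
    rw [mul_comm]
    exact mul_le_mul_of_nonneg_right (hF n hn) (by linarith only [hℓ1])
  have hHG : ∀ n ∈ Tb w b H, ∑ a ∈ Sb w b H, Gm w Q (n + a) ^ 2 ≤ L * (1 + ε) * Real.log (2 * H) := by
    intro n hn
    rw [sum_Gm_sq]
    have h3 : Vz w * (Vz Q)⁻¹ ≤ Real.log (2 * H) := by
      have := mul_le_mul_of_nonneg_right hwle (inv_pos.2 hV).le
      linarith only [this, hVQ]
    rw [mul_comm (L * (1 + ε))]
    exact mul_le_mul h3 (hG n hn) (sum_nonneg fun _ _ => Gm_nonneg _ _ _) (by linarith only [hℓ1])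
  obtain ⟨α, hα⟩ : ∃ α : ℝ, α = Vz w * (√((Sb w b H).card) * (√H / Real.log H ^ 1)) := ⟨_, rfl⟩
  obtain ⟨β, hβ⟩ : ∃ β : ℝ, β = Vz w * (√((Sb w b H).card) * (C * Real.log H ^ 8 * (H / √Q))) := ⟨_, rfl⟩
  have hlogH : 0 ≤ Real.log H := hw0'.le.trans hwl
  have hα0 : 0 ≤ α := by rw [hα]; positivity
  have hβ0 : 0 ≤ β := by rw [hβ]; positivity
  have htel := telescope (Sb w b H) (Tb w b H) (Fm w Q) (Gm w Q) (Fm_nonneg w Q) (Gm_nonneg w Q)
    hF hG hHF hHG hα0 hβ0 hB0 hHh0 (fun g => by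
      have h1 : ∀ a ∈ Sb w b H, |∑ n ∈ Tb w b H, g n * (Fm w Q (n + a) - Gm w Q (n + a))| =
          Vz w * |∑ n ∈ Tb w b H, g n * Eb Q (n + a)| := by
        intro a _
        have e0 : ∑ n ∈ Tb w b H, g n * (Fm w Q (n + a) - Gm w Q (n + a)) =
            Vz w * ∑ n ∈ Tb w b H, g n * Eb Q (n + a) := by
          rw [mul_sum]
          apply sum_congr rfl
          intro n _
          rw [Fm_sub_Gm]
          ring
        rw [e0, abs_mul, abs_of_pos hw]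
      rw [sum_congr rfl h1, ← mul_sum, hα, hβ]
      refine (mul_le_mul_of_nonneg_left (hpsi g) hw.le).trans (le_of_eq ?_)
      ring) k (fun _ => 1)
  have e1 : ∑ n ∈ Tb w b H, |(1 : ℝ)| = t := by
    rw [ht, abs_one, sum_const, nsmul_eq_mul, mul_one]
  have e2 : ∑ n ∈ Tb w b H, (1 : ℝ) ^ 2 = t := by
    rw [ht, one_pow, sum_const, nsmul_eq_mul, mul_one]
  simp only [one_mul] at htel
  rw [e1, e2] at htel
  have hBk : (L * (1 + ε)) ^ (k - 1) ≤ 2 * L ^ (k - 1) := by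
    rw [mul_pow, mul_comm]
    apply mul_le_mul_of_nonneg_right _ (by positivity)
    have h1 : ((k - 1 : ℕ) : ℝ) * ε ≤ (1 : ℝ) / 2 := by
      refine le_trans ?_ hεw
      apply mul_le_mul_of_nonneg_right _ hε
      exact_mod_cast (by omega : k - 1 ≤ w)
    have := pow_one_add_le hε h1 le_rfl
    linarith only [this]
  have herr1 := err_one (V := Vz w) (L := L) (s := ((Sb w b H).card : ℝ)) (H := (H : ℝ)) (ℓ := Real.log H)
    (B := L * (1 + ε)) (k := k) (w := w) hw hwle (Nat.cast_nonneg _) hL (Nat.cast_nonneg _) hSu hk1 hkw hB0 hBk hwl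
  have hHt : (H : ℝ) ≤ 2 * Wp w * t := by
    have h1 := (abs_le.1 hcard).1
    rw [← ht] at h1
    have h2 : (H : ℝ) / Wp w ≤ t + 1 := by linarith only [h1]
    rw [div_le_iff₀ (by linarith only [hWp])] at h2
    linarith only [h2, hHW]
  have hHhle : L * (1 + ε) * Real.log (2 * H) ≤ 2 * L * Real.log (2 * H) := by
    apply mul_le_mul_of_nonneg_right _ (by linarith only [hℓ1])
    have := mul_le_mul_of_nonneg_left hε1 hL0
    linarith only [this]
  have herr2 := err_two (V := Vz w) (L := L) (s := ((Sb w b H).card : ℝ)) (H := (H : ℝ)) (ℓ := Real.log (2 * H))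
    (t := t) (W := Wp w) (C := C) (Q := (Q : ℝ)) (l8 := Real.log H ^ 8) (Hh := L * (1 + ε) * Real.log (2 * H))
    (k := k) (w := w) hw hwle hH1 hL (Nat.cast_nonneg _) hSu hk1 hkw hHh0 hHhle hℓ1 hWp hHt hC (by positivity)
    (by exact_mod_cast (by omega : 0 < Q)) ht0 hQ
  have hΦ : ∑ a ∈ tup k (Sb w b H), |XX (Fm w Q) (Tb w b H) a - XX (Gm w Q) (Tb w b H) a| ≤
      (5 * ((k : ℝ) / w) * L ^ k) * t := by
    have h1 : ∀ a ∈ tup k (Sb w b H), |XX (Fm w Q) (Tb w b H) a - XX (Gm w Q) (Tb w b H) a| =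
        |∑ n ∈ Tb w b H, (∏ i, Fm w Q (n + a i) - ∏ i, Gm w Q (n + a i))| := by
      intro a _
      unfold XX
      rw [← sum_sub_distrib]
    rw [sum_congr rfl h1]
    refine htel.trans ?_
    rw [mul_add, hα, hβ]
    have h2 := mul_le_mul_of_nonneg_right herr1 ht0.le
    linarith only [h2, herr2]
  have hvar' : ∑ a ∈ tup k (Sb w b H), (XX (Gm w Q) (Tb w b H) a - t) ^ 2 ≤
      (250 * ((k : ℝ) / w) * L ^ k) * t ^ 2 := by
    rw [ht]
    refine hvar.trans (le_of_eq ?_)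
    rw [← hL]
    ring
  have hfin := cheb_markov (tup k (Sb w b H)) (fun a => XX (Fm w Q) (Tb w b H) a)
    (fun a => XX (Gm w Q) (Tb w b H) a) ht0 hvar' hΦ
  rw [← ht, ← hL]
  refine hfin.trans (le_of_eq ?_)
  ring

end Pool.Agent.R521.F6
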