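import Pool.Agent.R521.F6.E6

set_option autoImplicit false

/-!
# From tuples to sets
-/

open Finset Filter
open scoped Real

namespace Pool.Agent.R521.F6

open Pool.Agent.H373R2.T7 (pz Vz lamz mem_pz Vz_pos Vz_le_one es bonf sieve_gen' es_le bonf_ind
  card_small prod_dvd_iff prod_le_pow card_pz_le lamz_nonneg es_nonneg count_sys)

open Classical in
/-- the tuples that enumerate a given set -/
lemma fiber_card {k : ℕ} {S A : Finset ℕ} (hA : A ⊆ S) (hk : A.card = k) :
    k.factorial ≤ ((tup k S).filter (fun a => univ.image a = A)).card := by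
  have h1 : k.factorial = (univ : Finset (Fin k ↪ A)).card := by
    rw [card_univ, Fintype.card_embedding_eq, Fintype.card_fin, Fintype.card_coe, hk, Nat.descFactorial_self]
  rw [h1]
  apply card_le_card_of_injOn (fun f => fun i => ((f i : A) : ℕ))
  · intro f _
    rw [coe_filter, Set.mem_setOf_eq, mem_tup]
    refine ⟨fun i => hA (f i).2, ?_⟩
    apply eq_of_subset_of_card_le
    · intro x hx
      rw [mem_image] at hx
      obtain ⟨i, _, rfl⟩ := hx
      exact (f i).2
    · rw [card_image_of_injective, card_univ, Fintype.card_fin, hk]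
      intro i j hij
      exact f.injective (Subtype.ext hij)
  · intro f _ g _ hfg
    ext i
    exact congrFun hfg i

open Classical in
/-- bad sets give bad tuples -/
lemma bad_sets {k : ℕ} {S : Finset ℕ} (P : Finset ℕ → Prop) (B : Finset (Fin k → ℕ))
    (hB : ∀ a ∈ tup k S, Function.Injective a → P (univ.image a) → a ∈ B) :
    ((S.powersetCard k).filter P).card * k.factorial ≤ B.card := by
  have h1 : ((S.powersetCard k).filter P).card * k.factorial ≤
      ∑ A ∈ (S.powersetCard k).filter P, ((tup k S).filter (fun a => univ.image a = A)).card := by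
    rw [← smul_eq_mul, ← sum_const]
    apply sum_le_sum
    intro A hA
    rw [mem_filter, mem_powersetCard] at hA
    exact fiber_card hA.1.1 hA.1.2
  refine h1.trans ?_
  rw [← card_biUnion]
  · apply card_le_card
    intro a ha
    rw [mem_biUnion] at ha
    obtain ⟨A, hA, haA⟩ := ha
    rw [mem_filter, mem_powersetCard] at hA
    rw [mem_filter] at haA
    apply hB a haA.1
    · have h3 : (univ.image a).card = (univ : Finset (Fin k)).card := by
        rw [haA.2, hA.1.2, card_univ, Fintype.card_fin]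
      have := card_image_iff.1 h3
      intro i j hij
      exact this (by simp) (by simp) hij
    · rw [haA.2]
      exact hA.2
  · intro A _ A' _ hAA'
    rw [Function.onFun, disjoint_left]
    intro a ha ha'
    rw [mem_filter] at ha ha'
    exact hAA' (ha.2.symm.trans ha'.2)

/-- powers and binomial coefficients -/
lemma pow_le_choose {s k : ℕ} (hk : 1 ≤ k) (hs : 2 * k ^ 2 ≤ s) :
    ((s : ℝ)) ^ k ≤ 2 * ((s.choose k : ℕ) : ℝ) * (k.factorial : ℝ) := by
  have hks : k ≤ s := by nlinarith only [hk, hs]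
  have hs0 : (0 : ℝ) < s := by exact_mod_cast (by omega : 0 < s)
  have h1 := Nat.pow_sub_le_descFactorial s k
  rw [Nat.descFactorial_eq_factorial_mul_choose] at h1
  have h2 : (((s + 1 - k : ℕ) : ℝ)) ^ k ≤ ((s.choose k : ℕ) : ℝ) * (k.factorial : ℝ) := by
    have : (((s + 1 - k) ^ k : ℕ) : ℝ) ≤ ((k.factorial * s.choose k : ℕ) : ℝ) := Nat.cast_le.2 h1
    push_cast at this
    linarith only [this]
  have h3 : (s : ℝ) * (1 - k / s) ≤ ((s + 1 - k : ℕ) : ℝ) := by
    rw [Nat.cast_sub (by omega)]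
    push_cast
    have : (s : ℝ) * (1 - k / s) = s - k := by field_simp
    rw [this]
    linarith only
  have hks' : (k : ℝ) / s ≤ 1 := by
    rw [div_le_one hs0]
    exact_mod_cast hks
  have h4 := one_add_mul_le_pow (a := -((k : ℝ) / s)) (by linarith only [hks']) k
  have h5 : (k : ℝ) * ((k : ℝ) / s) ≤ 1 / 2 := by
    rw [← mul_div_assoc, div_le_div_iff₀ hs0 (by norm_num)]
    have : ((2 * k ^ 2 : ℕ) : ℝ) ≤ s := Nat.cast_le.2 hs
    push_cast at this
    linarith only [this]
  have h6 : (1 : ℝ) / 2 ≤ (1 - k / s) ^ k := by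
    have e : 1 + -((k : ℝ) / s) = 1 - k / s := by ring
    rw [e] at h4
    linarith only [h4, h5]
  have h7 : (s : ℝ) ^ k * (1 / 2) ≤ ((s : ℝ) * (1 - k / s)) ^ k := by
    rw [mul_pow]
    exact mul_le_mul_of_nonneg_left h6 (by positivity)
  have h8 : ((s : ℝ) * (1 - k / s)) ^ k ≤ ((s + 1 - k : ℕ) : ℝ) ^ k :=
    pow_le_pow_left₀ (mul_nonneg hs0.le (by linarith only [hks'])) h3 k
  linarith only [h2, h7, h8]

/-- few shifts, small weight -/
lemma XX_small {w Q H k : ℕ} {b : ℕ → ℕ} {a : Fin k → ℕ} (ha : ∀ i, a i ≤ H) {M : ℝ}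
    (hM : ((((Icc 1 H).filter (fun n => ∀ i, (n + a i).Prime)).card : ℕ) : ℝ) ≤ M)
    (hl : 1 ≤ Real.log (2 * H)) : XX (Fm w Q) (Tb w b H) a ≤ M * Real.log (2 * H) ^ k := by
  unfold XX
  have h1 : ∀ n ∈ Tb w b H, ∏ i, Fm w Q (n + a i) ≤
      if (∀ i, (n + a i).Prime) then Real.log (2 * H) ^ k else 0 := by
    intro n hn
    have hn1 := (mem_Tb.1 hn).1
    split_ifs with h
    · calc ∏ i, Fm w Q (n + a i) ≤ ∏ _i : Fin k, Real.log (2 * H) := by
            apply prod_le_prod (fun i _ => Fm_nonneg _ _ _)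
            intro i _
            unfold Fm Pq
            have hH0 : (0 : ℝ) < H := by exact_mod_cast (by omega : 0 < H)
            have hlog : Real.log ((n + a i : ℕ) : ℝ) ≤ Real.log (2 * H) := by
              apply Real.log_le_log
              · exact_mod_cast (by omega : 0 < n + a i)
              · have h3 := ha i
                have : ((n + a i : ℕ) : ℝ) ≤ ((2 * H : ℕ) : ℝ) := Nat.cast_le.2 (by omega)
                push_cast at this ⊢
                exact this
            split_ifs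
            · calc Vz w * Real.log ((n + a i : ℕ) : ℝ) ≤ 1 * Real.log (2 * H) :=
                    mul_le_mul (Vz_le_one w) hlog (Real.log_natCast_nonneg _) zero_le_one
                _ = _ := one_mul _
            · rw [mul_zero]
              linarith only [hl]
        _ = _ := by rw [prod_const, card_univ, Fintype.card_fin]
    · push Not at h
      obtain ⟨i, hi⟩ := h
      apply le_of_eq
      apply prod_eq_zero (mem_univ i)
      unfold Fm Pq
      rw [if_neg (fun h2 => hi h2.1), mul_zero]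
  refine (sum_le_sum h1).trans ?_
  rw [← sum_filter, sum_const, nsmul_eq_mul]
  apply mul_le_mul_of_nonneg_right _ (by positivity)
  refine le_trans ?_ hM
  apply Nat.cast_le.2
  apply card_le_card
  intro n hn
  rw [mem_filter] at hn ⊢
  exact ⟨mem_Icc.2 (mem_Tb.1 hn.1).1, hn.2⟩

open Classical in
/-- **bad sets are few, from bad tuples** -/
theorem bad_sets_few {w Q k H r : ℕ} (hk1 : 1 ≤ k) (hkw : k ≤ w) (b : ℕ → ℕ) {ε M : ℝ} (hε : 0 ≤ ε)
    (hεw : w * ε ≤ 1 / 2) (hs1 : serr (H + 1) w r ≤ ε * (((H : ℝ) + 1) * Vz w))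
    (hT : (Tb w b H).Nonempty) (hl : 1 ≤ Real.log (2 * H)) (hM0 : 0 ≤ M)
    (hMt : M * Real.log (2 * H) ^ w ≤ ((Tb w b H).card : ℝ) / 4)
    (hkS : 2 * k ^ 2 ≤ (Sb w b H).card)
    (hbad : (((tup k (Sb w b H)).filter (fun a => XX (Fm w Q) (Tb w b H) a ≤ ((Tb w b H).card : ℝ) / 4)).card : ℝ) ≤
      1020 * ((k : ℝ) / w) * (((H : ℝ) + 1) * Vz w) ^ k) :
    ((((Sb w b H).powersetCard k).filter (fun A => ((((Icc 1 H).filter
      (fun n => ∀ a ∈ A, (n + a).Prime)).card : ℕ) : ℝ) ≤ M)).card : ℝ) ≤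
      4080 * ((k : ℝ) / w) * ((Sb w b H).card.choose k : ℕ) := by
  have hw1 : 1 ≤ w := hk1.trans hkw
  have hw0' : (0 : ℝ) < w := by exact_mod_cast hw1
  have hkw' : (k : ℝ) ≤ w := by exact_mod_cast hkw
  have hw := Vz_pos w
  obtain ⟨n0, hn0⟩ := hT
  have hε1 : ε ≤ 1 := by
    have h1 : 1 ≤ (w : ℝ) := by exact_mod_cast hw1
    have : 1 * ε ≤ w * ε := mul_le_mul_of_nonneg_right h1 hε
    linarith only [this, hεw]
  obtain ⟨L, hL⟩ : ∃ L : ℝ, L = ((H : ℝ) + 1) * Vz w := ⟨_, rfl⟩
  rw [← hL] at hs1 hbad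
  have hL0 : 0 ≤ L := by rw [hL]; positivity
  have hS := (abs_le.1 (card_Sb hn0 r)).1
  rw [← hL] at hS
  have hS2 : L * (1 - ε) ≤ ((Sb w b H).card : ℝ) := by linarith only [hS, hs1]
  have hLk : L ^ k ≤ 2 * ((Sb w b H).card : ℝ) ^ k := by
    have h1 : (L * (1 - ε)) ^ k ≤ ((Sb w b H).card : ℝ) ^ k :=
      pow_le_pow_left₀ (mul_nonneg hL0 (by linarith only [hε1])) hS2 k
    have h2 : (k : ℝ) * ε ≤ (1 : ℝ) / 2 := (mul_le_mul_of_nonneg_right hkw' hε).trans hεw
    have h3 := pow_one_sub_ge hε hε1 h2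
    rw [mul_pow] at h1
    have h4 : L ^ k * (1 / 2) ≤ L ^ k * (1 - ε) ^ k := by
      apply mul_le_mul_of_nonneg_left _ (by positivity)
      linarith only [h3]
    linarith only [h1, h4]
  have h5 := bad_sets (k := k) (S := Sb w b H) (fun A => ((((Icc 1 H).filter
      (fun n => ∀ a ∈ A, (n + a).Prime)).card : ℕ) : ℝ) ≤ M)
      ((tup k (Sb w b H)).filter (fun a => XX (Fm w Q) (Tb w b H) a ≤ ((Tb w b H).card : ℝ) / 4)) (by
    intro a ha _ hP
    rw [mem_filter]
    refine ⟨ha, ?_⟩
    rw [mem_tup] at ha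
    have h6 : (Icc 1 H).filter (fun n => ∀ c ∈ univ.image a, (n + c).Prime) =
        (Icc 1 H).filter (fun n => ∀ i, (n + a i).Prime) := by
      apply filter_congr
      intro n _
      constructor
      · intro h i
        exact h _ (mem_image_of_mem _ (mem_univ i))
      · intro h c hc
        rw [mem_image] at hc
        obtain ⟨i, _, rfl⟩ := hc
        exact h i
    rw [h6] at hP
    refine (XX_small (fun i => (mem_Sb.1 (ha i)).1) hP hl).trans (le_trans ?_ hMt)
    exact mul_le_mul_of_nonneg_left (pow_le_pow_right₀ hl hkw) hM0)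
  have h6 := pow_le_choose hk1 hkS
  have h7 : ((((Sb w b H).powersetCard k).filter (fun A => ((((Icc 1 H).filter
      (fun n => ∀ a ∈ A, (n + a).Prime)).card : ℕ) : ℝ) ≤ M)).card : ℝ) * (k.factorial : ℝ) ≤
      1020 * ((k : ℝ) / w) * L ^ k := by
    refine le_trans ?_ hbad
    have : (((((Sb w b H).powersetCard k).filter (fun A => ((((Icc 1 H).filter
      (fun n => ∀ a ∈ A, (n + a).Prime)).card : ℕ) : ℝ) ≤ M)).card * k.factorial : ℕ) : ℝ) ≤ _ := Nat.cast_le.2 h5
    push_cast at this
    exact this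
  have hθ0 : 0 ≤ (k : ℝ) / w := by positivity
  have h8 : 1020 * ((k : ℝ) / w) * L ^ k ≤
      (4080 * ((k : ℝ) / w) * ((Sb w b H).card.choose k : ℕ)) * (k.factorial : ℝ) := by
    calc 1020 * ((k : ℝ) / w) * L ^ k ≤ 1020 * ((k : ℝ) / w) *
          (2 * (2 * (((Sb w b H).card.choose k : ℕ) : ℝ) * (k.factorial : ℝ))) := by
          apply mul_le_mul_of_nonneg_left _ (by positivity)
          linarith only [hLk, h6]
      _ = _ := by ring
  have hf : (0 : ℝ) < k.factorial := by exact_mod_cast Nat.factorial_pos k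
  exact le_of_mul_le_mul_right (h7.trans h8) hf

end Pool.Agent.R521.F6
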