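import Pool.Agent.R521.F6.E7
import Pool.Agent.R521.F6.C5

set_option autoImplicit false

/-!
# Numerical conditions
-/

open Finset Filter
open scoped Real

namespace Pool.Agent.R521.F6

/-- the size conditions on the parameters -/
structure Par (D l y w : ℝ) : Prop where
  hD : 30 ≤ D
  hDl : D ≤ Real.log l
  hl : 1 ≤ l
  hy : D * l * Real.log l ≤ y
  hy2 : y + 1 ≤ l ^ 2
  hw : D * w * Real.log l ≤ l
  hw1 : 1 ≤ w

lemma exp_big {s : ℝ} (hs : 30 ≤ s) : 144 * s ≤ Real.exp s := by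
  have h1 : s ^ 3 / Nat.factorial 3 ≤ Real.exp s := Real.pow_div_factorial_le_exp s (by linarith only [hs]) 3
  have h2 : (Nat.factorial 3 : ℝ) = 6 := by norm_num [Nat.factorial]
  rw [h2] at h1
  have h3 : 900 ≤ s ^ 2 := by nlinarith only [hs]
  have h4 : 144 * s ≤ s ^ 3 / 6 := by nlinarith only [h3, hs]
  linarith only [h1, h4]

namespace Par

variable {D l y w : ℝ} (h : Par D l y w)
include h

lemma l_eq : l = Real.exp (Real.log l) := (Real.exp_log (by linarith only [h.hl])).symm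

lemma ll : 144 * Real.log l ≤ l := by
  have h1 := exp_big (h.hD.trans h.hDl)
  rw [← h.l_eq] at h1
  exact h1

lemma wl : D * w ≤ l := by
  have h1 := h.hw
  have h2 : 1 ≤ Real.log l := by linarith only [h.hD, h.hDl]
  have h3 : 0 ≤ D * w := by
    have := h.hD
    have := h.hw1
    positivity
  nlinarith only [h1, h2, h3]

lemma wl2 : w * Real.log l ≤ l / D := by
  rw [le_div_iff₀ (by linarith only [h.hD])]
  linarith only [h.hw]

lemma wl3 : w ≤ l / D := by
  rw [le_div_iff₀ (by linarith only [h.hD])]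
  linarith only [h.wl]

lemma wl4 : w ≤ l := by
  have h1 := h.wl
  have h2 := h.hD
  have h3 := h.hw1
  nlinarith only [h1, h2, h3]

lemma l_ge : 30 * 144 ≤ l := by
  have h1 := h.ll
  have h2 := h.hD
  have h3 := h.hDl
  linarith only [h1, h2, h3]

lemma yl : D * l ≤ y := by
  have h1 := h.hy
  have h2 : 1 ≤ Real.log l := by linarith only [h.hD, h.hDl]
  have h3 : 0 ≤ D * l := by
    have := h.hD
    have := h.hl
    positivity
  nlinarith only [h1, h2, h3]

lemma yl2 : 30 * l ≤ y := by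
  have h1 := h.yl
  have h2 := h.hD
  have h3 := h.hl
  nlinarith only [h1, h2, h3]

lemma four_pow {n : ℕ} (hn : (n : ℝ) ≤ w) : (4 : ℝ) ^ n ≤ Real.exp (2 * w) := by
  have h4 : (4 : ℝ) ≤ Real.exp 2 := by
    have h5 : (2 : ℝ) ≤ Real.exp 1 := by linarith only [Real.add_one_le_exp (1 : ℝ)]
    have : Real.exp 2 = Real.exp 1 * Real.exp 1 := by
      rw [← Real.exp_add]
      norm_num
    rw [this]
    nlinarith only [h5]
  calc (4 : ℝ) ^ n ≤ (Real.exp 2) ^ n := pow_le_pow_left₀ (by norm_num) h4 n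
    _ = Real.exp (n * 2) := by rw [← Real.exp_nat_mul]
    _ ≤ _ := by
      apply Real.exp_le_exp.2
      linarith only [hn]

/-- bound for `(2 log 2H)^w` -/
lemma logpow {n : ℕ} (hn : (n : ℝ) ≤ w) {u : ℝ} (hu0 : 0 ≤ u) (hu : u ≤ y + 1) :
    (2 * u) ^ n ≤ Real.exp (3 * (l / D)) := by
  have hll : 30 ≤ Real.log l := h.hD.trans h.hDl
  have h1 : 2 * u ≤ Real.exp (3 * Real.log l) := by
    have h2 : 2 * u ≤ 2 * l ^ 2 := by linarith only [hu, h.hy2]
    have h3 : Real.exp (3 * Real.log l) = l ^ 3 := by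
      rw [show 3 * Real.log l = ((3 : ℕ) : ℝ) * Real.log l by norm_num, Real.exp_nat_mul, ← h.l_eq]
    rw [h3]
    have h4 := h.l_ge
    nlinarith only [h2, h4, sq_nonneg l]
  calc (2 * u) ^ n ≤ (Real.exp (3 * Real.log l)) ^ n := pow_le_pow_left₀ (by positivity) h1 n
    _ = Real.exp (n * (3 * Real.log l)) := by rw [← Real.exp_nat_mul]
    _ ≤ Real.exp (w * (3 * Real.log l)) := by
      apply Real.exp_le_exp.2
      apply mul_le_mul_of_nonneg_right hn (by linarith only [hll])
    _ ≤ _ := by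
      apply Real.exp_le_exp.2
      linarith only [h.wl2]

/-- condition (j) -/
lemma condQ {n : ℕ} (hn : (n : ℝ) ≤ w) {u C W : ℝ} (hu0 : 0 ≤ u) (hu : u ≤ y + 1) (hC : 0 ≤ C)
    (hCD : 4 * C ≤ D) (hW0 : 0 ≤ W) (hW : W ≤ 4 ^ n) :
    4 * n * (C * y ^ 8) * √W * (2 * u) ^ n ≤ √(Real.exp l) := by
  have hy0 : 0 ≤ y := by
    have := h.yl2
    have := h.hl
    linarith
  have hD := h.hD
  have hl0 : 0 < l := by linarith only [h.hl]
  have h1 := h.logpow hn hu0 hu
  have h2 : √W ≤ Real.exp (l / D) := by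
    apply Real.sqrt_le_iff.2
    refine ⟨(Real.exp_pos _).le, ?_⟩
    refine (hW.trans (h.four_pow hn)).trans ?_
    rw [← Real.exp_nat_mul]
    apply Real.exp_le_exp.2
    have := h.wl3
    push_cast
    linarith only [this]
  have h3 : 4 * (n : ℝ) * (C * y ^ 8) ≤ Real.exp (18 * Real.log l) := by
    have e : Real.exp (18 * Real.log l) = l ^ 18 := by
      rw [show 18 * Real.log l = ((18 : ℕ) : ℝ) * Real.log l by norm_num, Real.exp_nat_mul, ← h.l_eq]
    rw [e]
    have h4 : (n : ℝ) ≤ l := hn.trans h.wl4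
    have h5 : y ^ 8 ≤ l ^ 16 := by
      calc y ^ 8 ≤ (l ^ 2) ^ 8 := pow_le_pow_left₀ hy0 (by linarith only [h.hy2]) 8
        _ = l ^ 16 := by ring
    have h6 : 4 * C ≤ l := by
      have := h.ll
      have := h.hDl
      linarith
    calc 4 * (n : ℝ) * (C * y ^ 8) = (4 * C) * n * y ^ 8 := by ring
      _ ≤ l * l * l ^ 16 := by
        apply mul_le_mul _ h5 (by positivity) (by positivity)
        exact mul_le_mul h6 h4 (Nat.cast_nonneg _) hl0.le
      _ = l ^ 18 := by ring
  have h7 : √(Real.exp l) = Real.exp (l / 2) := by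
    rw [Real.exp_half]
  rw [h7]
  calc 4 * n * (C * y ^ 8) * √W * (2 * u) ^ n ≤
      Real.exp (18 * Real.log l) * Real.exp (l / D) * Real.exp (3 * (l / D)) := by
        apply mul_le_mul _ h1 (by positivity) (by positivity)
        exact mul_le_mul h3 h2 (Real.sqrt_nonneg _) (Real.exp_pos _).le
    _ = Real.exp (18 * Real.log l + l / D + 3 * (l / D)) := by rw [← Real.exp_add, ← Real.exp_add]
    _ ≤ _ := by
      apply Real.exp_le_exp.2
      have h8 := h.ll
      have h9 : l / D ≤ l / 30 := div_le_div_of_nonneg_left hl0.le (by norm_num) hD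
      linarith only [h8, h9, hl0]

/-- the number of shifts is large -/
lemma T_large {n : ℕ} (hn : (n : ℝ) ≤ w) {W t : ℝ} (hW0 : 1 ≤ W) (hW : W ≤ 4 ^ n)
    (ht : |t - Real.exp y / W| ≤ 1) : 2 * W ≤ Real.exp y ∧ Real.exp y ≤ 2 * W * t ∧ Real.exp (28 * l) ≤ t := by
  have h1 : W ≤ Real.exp l := by
    refine (hW.trans (h.four_pow hn)).trans (Real.exp_le_exp.2 ?_)
    have h2 := h.wl
    have h3 := h.hD
    have h4 := h.hw1
    nlinarith only [h2, h3, h4]
  have hl1 := h.hl
  have h2 : 2 ≤ Real.exp l := by linarith only [Real.add_one_le_exp l, hl1]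
  have h3 : 2 * W ≤ Real.exp y := by
    calc 2 * W ≤ Real.exp l * Real.exp l := mul_le_mul h2 h1 (by linarith only [hW0]) (by positivity)
      _ = Real.exp (l + l) := (Real.exp_add _ _).symm
      _ ≤ _ := Real.exp_le_exp.2 (by linarith only [h.yl2, hl1])
  have hW0' : 0 < W := by linarith only [hW0]
  have h4 : Real.exp y / W ≤ t + 1 := by
    have := (abs_le.1 ht).1
    linarith only [this]
  have h5 := h4
  rw [div_le_iff₀ hW0'] at h5
  refine ⟨h3, by linarith only [h5, h3], ?_⟩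
  have h6 : Real.exp (29 * l) ≤ Real.exp y / W := by
    rw [le_div_iff₀ hW0']
    calc Real.exp (29 * l) * W ≤ Real.exp (29 * l) * Real.exp l := mul_le_mul_of_nonneg_left h1 (Real.exp_pos _).le
      _ = Real.exp (29 * l + l) := (Real.exp_add _ _).symm
      _ ≤ _ := Real.exp_le_exp.2 (by linarith only [h.yl2])
  have h7 : Real.exp (28 * l) + 1 ≤ Real.exp (29 * l) := by
    have e : Real.exp (29 * l) = Real.exp (28 * l) * Real.exp l := by
      rw [← Real.exp_add]
      ring_nf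
    rw [e]
    have h8 : 1 ≤ Real.exp (28 * l) := Real.one_le_exp (by positivity)
    nlinarith only [h2, h8]
  linarith only [h4, h6, h7]

/-- conditions (e), (f) -/
lemma condP {n k : ℕ} (hn : (n : ℝ) ≤ w) (hkn : k ≤ n) {V C1 : ℝ} (hV0 : 1 ≤ V) (hV : V ≤ C1 * l) (hC : C1 ≤ D) :
    (n : ℝ) ≤ Real.exp (28 * l) ∧ n * V ^ k ≤ Real.exp (28 * l) := by
  have hl1 := h.hl
  have hn1 : (n : ℝ) ≤ Real.exp l := by
    have h1 := h.wl4
    linarith only [hn, h1, Real.add_one_le_exp l]
  have h1 : (n : ℝ) ≤ Real.exp (28 * l) := hn1.trans (Real.exp_le_exp.2 (by linarith only [hl1]))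
  refine ⟨h1, ?_⟩
  have h2 : V ^ k ≤ Real.exp (2 * l) := by
    have h3 : V ≤ Real.exp (2 * Real.log l) := by
      have e : Real.exp (2 * Real.log l) = l ^ 2 := by
        rw [show 2 * Real.log l = ((2 : ℕ) : ℝ) * Real.log l by norm_num, Real.exp_nat_mul, ← h.l_eq]
      rw [e]
      have h4 : C1 ≤ l := by
        have := h.ll
        have := h.hDl
        have := h.hD
        linarith
      have : C1 * l ≤ l * l := mul_le_mul_of_nonneg_right h4 (by linarith only [hl1])
      linarith only [this, hV, sq l]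
    have hlog0 : 0 ≤ Real.log l := Real.log_nonneg hl1
    calc V ^ k ≤ V ^ n := pow_le_pow_right₀ hV0 hkn
      _ ≤ (Real.exp (2 * Real.log l)) ^ n := pow_le_pow_left₀ (by linarith only [hV0]) h3 n
      _ = Real.exp (n * (2 * Real.log l)) := by rw [← Real.exp_nat_mul]
      _ ≤ _ := by
        apply Real.exp_le_exp.2
        have h5 : (n : ℝ) * Real.log l ≤ w * Real.log l := mul_le_mul_of_nonneg_right hn hlog0
        have h6 := h.hw
        have h7 : 1 * (w * Real.log l) ≤ D * (w * Real.log l) := by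
          apply mul_le_mul_of_nonneg_right (by linarith only [h.hD])
          have := h.hw1
          positivity
        linarith only [h5, h6, h7]
  calc (n : ℝ) * V ^ k ≤ Real.exp l * Real.exp (2 * l) := mul_le_mul hn1 h2 (by positivity) (by positivity)
    _ = Real.exp (l + 2 * l) := (Real.exp_add _ _).symm
    _ ≤ _ := Real.exp_le_exp.2 (by linarith only [hl1])

/-- the sieve error -/
lemma serr_small {H Q r : ℕ} (hH : (H : ℝ) = Real.exp y) (hQ : (Q : ℝ) = Real.exp l)
    {C1 C6 V E : ℝ} (hr : r = ⌈10 * Real.log l⌉₊) (hC1 : 1 ≤ C1) (hC1D : 4 * C1 ^ 2 ≤ D) (hC6 : 1 ≤ C6)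
    (hCD : 8 * C1 ^ 2 * C6 ≤ D)
    (hV0 : 1 ≤ V) (hV : V ≤ C1 * l) (hE : Real.exp (6 * E) ≤ C6 * l ^ 6) :
    ((2 * ((Q : ℝ) + 1)) ^ r + 2 * ((H : ℝ) + 1) * Real.exp (6 * E - r)) * V ^ 2 * (2 * w) ≤ (H : ℝ) + 1 := by
  have hl1 := h.hl
  have hD := h.hD
  have hDl := h.hDl
  have hl0 : 0 < l := by linarith only [hl1]
  have hlog : 30 ≤ Real.log l := hD.trans hDl
  have hr1 : 10 * Real.log l ≤ r := by rw [hr]; exact Nat.le_ceil _
  have hr2 : (r : ℝ) ≤ 11 * Real.log l := by
    rw [hr]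
    have := Nat.ceil_lt_add_one (a := 10 * Real.log l) (by linarith only [hlog])
    linarith only [this, hlog]
  have hVw : V ^ 2 * (2 * w) ≤ 2 * C1 ^ 2 * l ^ 3 := by
    have h1 : V ^ 2 ≤ (C1 * l) ^ 2 := pow_le_pow_left₀ (by linarith only [hV0]) hV 2
    have h2 : 2 * w ≤ 2 * l := by linarith only [h.wl4]
    calc V ^ 2 * (2 * w) ≤ (C1 * l) ^ 2 * (2 * l) := mul_le_mul h1 h2 (by linarith only [h.hw1]) (by positivity)
      _ = _ := by ring
  have hVw0 : 0 ≤ V ^ 2 * (2 * w) := by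
    have := h.hw1
    positivity
  have hl8 : 8 * C1 ^ 2 * C6 ≤ l := by
    have := h.ll
    linarith only [this, hCD, hDl, hlog]
  have hl4 : 4 * C1 ^ 2 ≤ l := by
    have := h.ll
    linarith only [this, hC1D, hDl, hlog]
  have hsec : 2 * ((H : ℝ) + 1) * Real.exp (6 * E - r) * (V ^ 2 * (2 * w)) ≤ ((H : ℝ) + 1) / 2 := by
    have h1 : Real.exp (6 * E - r) ≤ C6 * l ^ 6 * Real.exp (-(10 * Real.log l)) := by
      rw [sub_eq_add_neg, Real.exp_add]
      exact mul_le_mul hE (Real.exp_le_exp.2 (by linarith only [hr1])) (Real.exp_pos _).le (by positivity)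
    have h2 : Real.exp (-(10 * Real.log l)) = (l ^ 10)⁻¹ := by
      rw [Real.exp_neg, show 10 * Real.log l = ((10 : ℕ) : ℝ) * Real.log l by norm_num, Real.exp_nat_mul, ← h.l_eq]
    rw [h2] at h1
    have h3 : C6 * l ^ 6 * (l ^ 10)⁻¹ * (2 * C1 ^ 2 * l ^ 3) = 2 * C1 ^ 2 * C6 / l := by
      field_simp
    have h4 : Real.exp (6 * E - r) * (V ^ 2 * (2 * w)) ≤ 2 * C1 ^ 2 * C6 / l := by
      rw [← h3]
      exact mul_le_mul h1 hVw hVw0 (by positivity)
    have h5 : 2 * C1 ^ 2 * C6 / l ≤ 1 / 4 := by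
      rw [div_le_iff₀ hl0]
      linarith only [hl8]
    have h6 : 0 ≤ (H : ℝ) + 1 := by positivity
    calc _ = (2 * ((H : ℝ) + 1)) * (Real.exp (6 * E - r) * (V ^ 2 * (2 * w))) := by ring
      _ ≤ (2 * ((H : ℝ) + 1)) * (1 / 4) := mul_le_mul_of_nonneg_left (h4.trans h5) (by positivity)
      _ = _ := by ring
  have hfirst : (2 * ((Q : ℝ) + 1)) ^ r * (V ^ 2 * (2 * w)) ≤ ((H : ℝ) + 1) / 2 := by
    have h1 : 2 * ((Q : ℝ) + 1) ≤ Real.exp (2 * l) := by
      have h2 : Real.exp (2 * l) = Real.exp l * Real.exp l := by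
        rw [← Real.exp_add]
        ring_nf
      rw [hQ, h2]
      have h3 : 30 * 144 ≤ Real.exp l := by linarith only [h.l_ge, Real.add_one_le_exp l]
      nlinarith only [h3]
    have h2 : (2 * ((Q : ℝ) + 1)) ^ r ≤ Real.exp (22 * (l * Real.log l)) := by
      calc _ ≤ (Real.exp (2 * l)) ^ r := pow_le_pow_left₀ (by positivity) h1 r
        _ = Real.exp (r * (2 * l)) := by rw [← Real.exp_nat_mul]
        _ ≤ Real.exp ((11 * Real.log l) * (2 * l)) := by
          apply Real.exp_le_exp.2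
          exact mul_le_mul_of_nonneg_right hr2 (by positivity)
        _ = _ := by ring_nf
    have h3 : V ^ 2 * (2 * w) * 2 ≤ Real.exp (4 * (l * Real.log l)) := by
      have h4 : V ^ 2 * (2 * w) * 2 ≤ l ^ 4 := by
        calc V ^ 2 * (2 * w) * 2 ≤ 2 * C1 ^ 2 * l ^ 3 * 2 := by linarith only [hVw]
          _ = (4 * C1 ^ 2) * l ^ 3 := by ring
          _ ≤ l * l ^ 3 := mul_le_mul_of_nonneg_right hl4 (by positivity)
          _ = l ^ 4 := by ring
      refine h4.trans ?_
      have e : l ^ 4 = Real.exp (4 * Real.log l) := by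
        rw [show 4 * Real.log l = ((4 : ℕ) : ℝ) * Real.log l by norm_num, Real.exp_nat_mul, ← h.l_eq]
      rw [e]
      apply Real.exp_le_exp.2
      have : 1 * Real.log l ≤ l * Real.log l := mul_le_mul_of_nonneg_right hl1 (by linarith only [hlog])
      linarith only [this]
    have h5 : (2 * ((Q : ℝ) + 1)) ^ r * (V ^ 2 * (2 * w) * 2) ≤ (H : ℝ) + 1 := by
      calc _ ≤ Real.exp (22 * (l * Real.log l)) * Real.exp (4 * (l * Real.log l)) :=
            mul_le_mul h2 h3 (by linarith only [hVw0]) (Real.exp_pos _).le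
        _ = Real.exp (26 * (l * Real.log l)) := by
            rw [← Real.exp_add]
            ring_nf
        _ ≤ Real.exp y := by
            apply Real.exp_le_exp.2
            refine le_trans ?_ h.hy
            have : 26 * (l * Real.log l) ≤ D * (l * Real.log l) := by
              apply mul_le_mul_of_nonneg_right (by linarith only [hD]) (by positivity)
            linarith only [this]
        _ ≤ _ := by rw [hH]; linarith only
    linarith only [h5]
  calc _ = (2 * ((Q : ℝ) + 1)) ^ r * (V ^ 2 * (2 * w)) +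
        2 * ((H : ℝ) + 1) * Real.exp (6 * E - r) * (V ^ 2 * (2 * w)) := by ring
    _ ≤ _ := by linarith only [hsec, hfirst]

end Par

end Pool.Agent.R521.F6
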