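import Pool.Agent.R521.F6.F1

set_option autoImplicit false

/-!
# The theorem at a good scale
-/

open Finset Filter
open scoped Real

namespace Pool.Agent.R521.F6

open Pool.Agent.H373R2.T7 (pz Vz lamz mem_pz Vz_pos Vz_le_one es bonf sieve_gen' es_le bonf_ind
  card_small prod_dvd_iff prod_le_pow card_pz_le lamz_nonneg es_nonneg count_sys)

lemma serr_mono {x w Q r : ℕ} (h : w ≤ Q) : serr x w r ≤ serr x Q r := by
  unfold serr
  have h1 : (w : ℝ) ≤ Q := Nat.cast_le.2 h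
  have h2 : ∑ p ∈ pz w, 1 / (p : ℝ) ≤ ∑ p ∈ pz Q, 1 / (p : ℝ) :=
    sum_le_sum_of_subset_of_nonneg (pz_mono h) (fun _ _ _ => by positivity)
  apply add_le_add
  · apply pow_le_pow_left₀ (by positivity)
    linarith only [h1]
  · apply mul_le_mul_of_nonneg_left _ (by positivity)
    apply Real.exp_le_exp.2
    linarith only [h2]

lemma Vz_anti {w Q : ℕ} (h : w ≤ Q) : Vz Q ≤ Vz w := by
  have h3 : Vz Q = (∏ p ∈ pz Q \ pz w, (1 - 1 / (p : ℝ))) * Vz w := by
    unfold Vz
    exact (prod_sdiff (pz_mono h)).symm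
  rw [h3]
  have h4 : ∏ p ∈ pz Q \ pz w, (1 - 1 / (p : ℝ)) ≤ 1 := by
    apply prod_le_one
    · intro p hp
      have hp2 := (mem_pz.1 (mem_sdiff.1 hp).1).2.two_le
      have hp0 : (2 : ℝ) ≤ p := by exact_mod_cast hp2
      rw [sub_nonneg, div_le_one (by linarith only [hp0])]
      linarith only [hp0]
    · intro p _
      have : 0 ≤ 1 / (p : ℝ) := by positivity
      linarith only [this]
  have := mul_le_mul_of_nonneg_right h4 (Vz_pos w).le
  linarith only [this]

open Classical in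
/-- **the theorem at a good scale** -/
theorem scale_theorem {δ : ℝ} (hδ : 0 < δ) : ∃ c₁ : ℝ, 0 < c₁ ∧ (∀ Q0 : ℕ, ∃ Q, Q0 ≤ Q ∧ NRZ c₁ Q) ∧ ∃ D : ℝ, 30 ≤ D ∧
    ∀ Q H w : ℕ, NRZ c₁ Q → Par D (Real.log Q) (Real.log H) w → ∀ b : ℕ → ℕ, ∀ k : ℕ, 1 ≤ k → k ≤ w →
      ((((Sb w b H).powersetCard k).filter (fun A => ((((Icc 1 H).filter
        (fun n => ∀ a ∈ A, (n + a).Prime)).card : ℕ) : ℝ) ≤ (H : ℝ) ^ (1 - δ))).card : ℝ) ≤
        4080 * ((k : ℝ) / w) * ((Sb w b H).card.choose k : ℕ) := by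
  obtain ⟨c₀, hc₀, hpsi⟩ := psi_good
  obtain ⟨c, hc, hgood⟩ := good_NRZ
  obtain ⟨K, H0, C, hK, hC, hpsi'⟩ := hpsi (min c c₀) (lt_min hc hc₀) (min_le_right _ _) 1
  obtain ⟨C1, hC1, hV⟩ := Vz_inv_log
  obtain ⟨C6, hC6, hE⟩ := exp_sum_inv 6
  obtain ⟨HF, hHF3, hF⟩ := sum_Fm 1
  refine ⟨min c c₀, lt_min hc hc₀, ?_, ?_⟩
  · intro Q0
    obtain ⟨Q, hQ, hN⟩ := hgood Q0
    exact ⟨Q, hQ, NRZ_mono hN (min_le_left _ _)⟩
  have hC1sq : 1 ≤ C1 ^ 2 := one_le_pow₀ hC1
  obtain ⟨D, hD⟩ : ∃ D : ℝ, D = 30 + 2 * K + |H0| + 4 * C + 8 * C1 ^ 2 * C6 + 4 * C1 ^ 2 + 8 / δ + HF := ⟨_, rfl⟩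
  have hδ8 : 0 < 8 / δ := by positivity
  have hHF0 : (0 : ℝ) ≤ HF := Nat.cast_nonneg _
  have hC16 : 0 ≤ 8 * C1 ^ 2 * C6 := by positivity
  have habs := abs_nonneg H0
  refine ⟨D, by linarith only [hD, hK, hC, hδ8, hHF0, hC16, hC1sq, habs], fun Q H w hN hPar b k hk1 hkw => ?_⟩
  obtain ⟨l, hl⟩ : ∃ l : ℝ, l = Real.log Q := ⟨_, rfl⟩
  obtain ⟨y, hy⟩ : ∃ y : ℝ, y = Real.log H := ⟨_, rfl⟩
  rw [← hl, ← hy] at hPar
  have hl1 := hPar.hl
  have hlge := hPar.l_ge
  have hy30 := hPar.yl2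
  have hll := hPar.ll
  have hlog30 : 30 ≤ Real.log l := hPar.hD.trans hPar.hDl
  have hQpos : 0 < Q := by
    rcases Nat.eq_zero_or_pos Q with h | h
    · rw [h] at hl
      simp at hl
      linarith only [hl, hl1]
    · exact h
  have hHpos : 0 < H := by
    rcases Nat.eq_zero_or_pos H with h | h
    · rw [h] at hy
      simp at hy
      linarith only [hy, hy30, hl1]
    · exact h
  have hQe : (Q : ℝ) = Real.exp l := by
    rw [hl, Real.exp_log (by exact_mod_cast hQpos)]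
  have hHe : (H : ℝ) = Real.exp y := by
    rw [hy, Real.exp_log (by exact_mod_cast hHpos)]
  have hQ2 : 2 ≤ Q := by
    have : (2 : ℝ) ≤ Q := by
      rw [hQe]
      linarith only [Real.add_one_le_exp l, hlge]
    exact_mod_cast this
  have hyH : y + 1 ≤ H := by
    rw [hHe]
    exact Real.add_one_le_exp y
  have hDy : D ≤ y := by
    have h1 := hPar.yl
    have h2 : 0 ≤ D := by linarith only [hPar.hD]
    nlinarith only [h1, h2, hl1]
  have hwl := hPar.wl4
  have hwQ : w ≤ Q := by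
    have : (w : ℝ) ≤ Q := by
      rw [hQe]
      linarith only [Real.add_one_le_exp l, hwl]
    exact_mod_cast this
  have hw1 : 1 ≤ w := hk1.trans hkw
  have hw0' : (0 : ℝ) < w := by exact_mod_cast hw1
  -- the sieve
  obtain ⟨r, hr⟩ : ∃ r : ℕ, r = ⌈10 * Real.log l⌉₊ := ⟨_, rfl⟩
  have hVQ0 : 1 ≤ (Vz Q)⁻¹ := by
    rw [one_le_inv₀ (Vz_pos Q)]
    exact Vz_le_one Q
  have hVQ : (Vz Q)⁻¹ ≤ C1 * l := by
    rw [hl]
    exact hV Q hQ2
  have hEQ : Real.exp (6 * ∑ p ∈ pz Q, 1 / (p : ℝ)) ≤ C6 * l ^ 6 := by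
    have := hE Q hQ2
    rw [← hl] at this
    push_cast at this
    exact this
  have hserr := hPar.serr_small (H := H) (Q := Q) (r := r) hHe hQe hr hC1
    (by linarith only [hD, hK, hC, hδ8, hHF0, hC16, hC1sq, habs]) hC6
    (by linarith only [hD, hK, hC, hδ8, hHF0, hC16, hC1sq, habs]) hVQ0 hVQ hEQ
  obtain ⟨ε, hε⟩ : ∃ ε : ℝ, ε = 1 / (2 * w) := ⟨_, rfl⟩
  have hε0 : 0 ≤ ε := by rw [hε]; positivity
  have hεw : (w : ℝ) * ε ≤ 1 / 2 := by
    rw [hε]
    apply le_of_eq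
    field_simp
  have hH1 : 0 < (H : ℝ) + 1 := by positivity
  have hse : serr (H + 1) Q r * ((Vz Q)⁻¹) ^ 2 ≤ ε * ((H : ℝ) + 1) := by
    have h1 : serr (H + 1) Q r = (2 * ((Q : ℝ) + 1)) ^ r + 2 * ((H : ℝ) + 1) * Real.exp (6 * ∑ p ∈ pz Q, 1 / (p : ℝ) - r) := by
      unfold serr
      push_cast
      ring
    rw [h1, hε, div_mul_eq_mul_div, le_div_iff₀ (by positivity), one_mul]
    exact hserr
  have hs0 := serr_nonneg (H + 1) Q r
  have hse1 : serr (H + 1) Q r * (Vz Q)⁻¹ ≤ ε * ((H : ℝ) + 1) := by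
    refine le_trans ?_ hse
    apply mul_le_mul_of_nonneg_left _ hs0
    nlinarith only [hVQ0]
  have hVw := Vz_pos w
  have hVw1 := Vz_le_one w
  have hVwQ : Vz Q ≤ Vz w := Vz_anti hwQ
  have hs1 : serr (H + 1) w r ≤ ε * (((H : ℝ) + 1) * Vz w) := by
    refine (serr_mono hwQ).trans ?_
    have h1 : 1 ≤ (Vz Q)⁻¹ * Vz w := by
      rw [inv_mul_eq_div, le_div_iff₀ (Vz_pos Q)]
      linarith only [hVwQ]
    calc serr (H + 1) Q r = serr (H + 1) Q r * 1 := (mul_one _).symm
      _ ≤ serr (H + 1) Q r * ((Vz Q)⁻¹ * Vz w) := mul_le_mul_of_nonneg_left h1 hs0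
      _ = (serr (H + 1) Q r * (Vz Q)⁻¹) * Vz w := by ring
      _ ≤ (ε * ((H : ℝ) + 1)) * Vz w := mul_le_mul_of_nonneg_right hse1 hVw.le
      _ = _ := by ring
  have hs2 : Vz w * (Vz Q)⁻¹ * serr (H + 1) Q r ≤ ε * (((H : ℝ) + 1) * Vz w) := by
    calc _ = (serr (H + 1) Q r * (Vz Q)⁻¹) * Vz w := by ring
      _ ≤ (ε * ((H : ℝ) + 1)) * Vz w := mul_le_mul_of_nonneg_right hse1 hVw.le
      _ = _ := by ring
  have hs3 : (Vz w) ^ 2 * ((Vz Q)⁻¹) ^ 2 * serr (H + 1) Q r ≤ ε * (((H : ℝ) + 1) * Vz w) := by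
    calc _ = (serr (H + 1) Q r * ((Vz Q)⁻¹) ^ 2) * (Vz w * Vz w) := by ring
      _ ≤ (ε * ((H : ℝ) + 1)) * (Vz w * 1) := by
        apply mul_le_mul hse _ (by positivity) (by positivity)
        exact mul_le_mul_of_nonneg_left hVw1 hVw.le
      _ = _ := by ring
  -- the shifts
  have hcard := card_Tb w b H
  have hWp := Wp_ge w
  have hWp4 := Wp_le w
  rw [hHe] at hcard
  obtain ⟨hT1, hT2, hT3⟩ := hPar.T_large (n := w) le_rfl hWp hWp4 hcard
  have hCP := hPar.condP (n := w) (k := k) le_rfl hkw hVQ0 hVQ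
    (by
      have : C1 ≤ C1 ^ 2 := by nlinarith only [hC1]
      linarith only [hD, hK, hC, hδ8, hHF0, hC16, hC1sq, habs, this])
  have hw0 : (w : ℝ) ≤ (Tb w b H).card := hCP.1.trans hT3
  have hP : w * ((Vz Q)⁻¹) ^ k ≤ (Tb w b H).card := hCP.2.trans hT3
  -- the primes
  have hHF : HF ≤ H := by
    have : (HF : ℝ) ≤ H := by linarith only [hyH, hDy, hD, hK, hC, hδ8, hC16, hC1sq, habs]
    exact_mod_cast this
  have hFm : ∀ n ∈ Tb w b H, ∑ a ∈ Sb w b H, Fm w Q (n + a) ≤ ((H : ℝ) + 1) * Vz w * (1 + ε) := by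
    intro n hn
    have h1 := (mem_Tb.1 hn).1
    refine (hF H hHF w Q n h1.1 h1.2 _ (filter_subset _ _)).trans ?_
    apply mul_le_mul_of_nonneg_left _ (by positivity)
    rw [← hy, pow_one, hε]
    have h2 : 1 / y ≤ 1 / (2 * w) := by
      apply one_div_le_one_div_of_le (by positivity)
      linarith only [hwl, hy30, hl1]
    linarith only [h2]
  -- the circle method
  have hlly : Real.log y ≤ 2 * Real.log l := by
    have h1 : y ≤ l ^ 2 := by linarith only [hPar.hy2]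
    have h2 := Real.log_le_log (by linarith only [hy30, hl1] : 0 < y) h1
    rw [Real.log_pow] at h2
    push_cast at h2
    exact h2
  have hpsiH := hpsi' Q hN H (by
      have : H0 ≤ |H0| := le_abs_self _
      linarith only [hyH, hDy, hD, hK, hC, hδ8, hC16, hC1sq, habs, this, hHF0])
    (by rw [← hl, ← hy]; exact hPar.hy2)
    (by
      rw [← hl, ← hy]
      refine le_trans ?_ hPar.hy
      have h1 : K * l * Real.log y ≤ K * l * (2 * Real.log l) :=
        mul_le_mul_of_nonneg_left hlly (by positivity)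
      have h2 : 2 * K ≤ D := by linarith only [hD, hK, hC, hδ8, hHF0, hC16, hC1sq, habs]
      have h3 : 2 * K * (l * Real.log l) ≤ D * (l * Real.log l) :=
        mul_le_mul_of_nonneg_right h2 (by positivity)
      linarith only [h1, h3]) (Sb w b H) (Tb w b H) (fun a ha => (mem_Sb.1 ha).1)
      (fun n hn => (mem_Tb.1 hn).1)
  have hlogH2 : Real.log (2 * H) ≤ y + 1 := by
    rw [Real.log_mul (by norm_num) (by positivity), ← hy]
    linarith only [Real.log_two_lt_d9]
  have hlogH2' : y ≤ Real.log (2 * H) := by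
    rw [Real.log_mul (by norm_num) (by positivity), ← hy]
    linarith only [Real.log_pos one_lt_two]
  have hVQl : (Vz Q)⁻¹ ≤ Real.log (2 * H) := by
    refine hVQ.trans (le_trans ?_ hlogH2')
    have h1 := hPar.yl
    have h2 : C1 ≤ D := by
      have : C1 ≤ C1 ^ 2 := by nlinarith only [hC1]
      linarith only [hD, hK, hC, hδ8, hHF0, hC16, hC1sq, habs, this]
    have h3 : C1 * l ≤ D * l := mul_le_mul_of_nonneg_right h2 (by linarith only [hl1])
    linarith only [h1, h3]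
  have hcondQ := hPar.condQ (n := w) le_rfl (u := Real.log (2 * H)) (C := C) (W := Wp w)
    (by linarith only [hlogH2', hy30, hl1]) hlogH2 (by linarith only [hC])
    (by linarith only [hD, hK, hC, hδ8, hHF0, hC16, hC1sq, habs]) (by linarith only [hWp]) hWp4
  have hbad := bad_tuples (r := r) hk1 hkw hwQ b hε0 hεw hs1 hs2 hs3 hw0 hP hFm (by linarith only [hC]) hpsiH
    (by rw [← hy]; linarith only [hwl, hy30, hl1]) hVQl (by rw [hHe]; exact hT1)
    (by rw [← hy, hQe]; exact hcondQ)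
  -- the conclusion
  have ht0 : (0 : ℝ) < ((Tb w b H).card : ℝ) := lt_of_lt_of_le (Real.exp_pos _) hT3
  have hTne : (Tb w b H).Nonempty := by
    have : 0 < (Tb w b H).card := by exact_mod_cast ht0
    exact card_pos.1 this
  refine bad_sets_few (r := r) hk1 hkw b hε0 hεw hs1 hTne (by linarith only [hlogH2', hy30, hl1])
    (by positivity) ?_ ?_ hbad
  · -- `M (log 2H)^w ≤ t / 4`
    have hu0 : 0 ≤ Real.log (2 * H) := by linarith only [hlogH2', hy30, hl1]
    have h1 : Real.log (2 * H) ^ w ≤ Real.exp (3 * (l / D)) := by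
      refine le_trans ?_ (hPar.logpow (n := w) le_rfl hu0 hlogH2)
      apply pow_le_pow_left₀ hu0
      linarith only [hu0]
    have h2 : (H : ℝ) ^ (1 - δ) = Real.exp y * Real.exp (-(δ * y)) := by
      rw [hHe, ← Real.exp_mul, ← Real.exp_add]
      congr 1
      ring
    have h3 : Wp w ≤ Real.exp (2 * (l / D)) := by
      refine hWp4.trans ((hPar.four_pow (n := w) le_rfl).trans (Real.exp_le_exp.2 ?_))
      linarith only [hPar.wl3]
    have h8 : (8 : ℝ) ≤ Real.exp (2 * l) := by linarith only [Real.add_one_le_exp (2 * l), hlge]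
    have h9 : 8 * Wp w * (Real.exp (-(δ * y)) * Real.log (2 * H) ^ w) ≤ 1 := by
      calc 8 * Wp w * (Real.exp (-(δ * y)) * Real.log (2 * H) ^ w) ≤
            Real.exp (2 * l) * Real.exp (2 * (l / D)) * (Real.exp (-(δ * y)) * Real.exp (3 * (l / D))) := by
            apply mul_le_mul _ _ (by positivity) (by positivity)
            · exact mul_le_mul h8 h3 (by linarith only [hWp]) (by positivity)
            · exact mul_le_mul_of_nonneg_left h1 (by positivity)
        _ = Real.exp (2 * l + 2 * (l / D) + (-(δ * y) + 3 * (l / D))) := by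
            rw [← Real.exp_add, ← Real.exp_add, ← Real.exp_add]
        _ ≤ Real.exp 0 := by
            apply Real.exp_le_exp.2
            have h10 : l / D ≤ l := by
              rw [div_le_iff₀ (by linarith only [hPar.hD])]
              nlinarith only [hPar.hD, hl1]
            have h11 : 8 * l ≤ δ * y := by
              have h12 : 8 ≤ δ * D := by
                have h13 : 8 / δ ≤ D := by linarith only [hD, hK, hC, hHF0, hC16, hC1sq, habs]
                rw [div_le_iff₀ hδ] at h13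
                linarith only [h13]
              calc 8 * l ≤ (δ * D) * l := mul_le_mul_of_nonneg_right h12 (by linarith only [hl1])
                _ = δ * (D * l) := by ring
                _ ≤ δ * y := mul_le_mul_of_nonneg_left hPar.yl hδ.le
            have h14 : 0 ≤ l := by linarith only [hl1]
            linarith only [h10, h11, h14]
        _ = 1 := Real.exp_zero
    have hWp0 : 0 < Wp w := by linarith only [hWp]
    have h15 : Real.exp y * (8 * Wp w * (Real.exp (-(δ * y)) * Real.log (2 * H) ^ w)) ≤ Real.exp y * 1 :=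
      mul_le_mul_of_nonneg_left h9 (Real.exp_pos _).le
    have h16 : (Real.exp y * Real.exp (-(δ * y)) * Real.log (2 * H) ^ w) * (8 * Wp w) ≤
        (((Tb w b H).card : ℝ) / 4) * (8 * Wp w) := by
      linarith only [h15, hT2]
    rw [h2]
    exact le_of_mul_le_mul_right h16 (by positivity)
  · -- `2 k² ≤ |S|`
    obtain ⟨n0, hn0⟩ := hTne
    have h1 := (abs_le.1 (card_Sb hn0 r)).1
    have hε2 : ε ≤ 1 / 2 := by
      have h2 : 1 ≤ (w : ℝ) := by exact_mod_cast hw1
      have : 1 * ε ≤ w * ε := mul_le_mul_of_nonneg_right h2 hε0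
      linarith only [this, hεw]
    have h2 : ((H : ℝ) + 1) * Vz w / 2 ≤ ((Sb w b H).card : ℝ) := by
      have : ε * (((H : ℝ) + 1) * Vz w) ≤ 1 / 2 * (((H : ℝ) + 1) * Vz w) :=
        mul_le_mul_of_nonneg_right hε2 (by positivity)
      linarith only [h1, hs1, this]
    have h3 : 1 ≤ C1 * l * Vz w := by
      have h4 : (Vz w)⁻¹ ≤ C1 * l := by
        refine le_trans ?_ hVQ
        exact inv_anti₀ (Vz_pos Q) hVwQ
      rw [inv_le_iff_one_le_mul₀ hVw] at h4
      exact h4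
    have h5 : 4 * C1 * l ^ 3 ≤ H := by
      rw [hHe]
      have h6 : 4 * C1 ≤ l := by
        have : C1 ≤ C1 ^ 2 := by nlinarith only [hC1]
        have := hPar.hDl
        have hC16' : 0 ≤ 8 * C1 ^ 2 * C6 := hC16
        linarith only [hD, hK, hC, hδ8, hHF0, hC16, hC1sq, habs, this, hll, hPar.hDl, hlog30, ‹C1 ≤ C1 ^ 2›]
      have h7 : l ^ 4 ≤ Real.exp (4 * l) := by
        have : l ≤ Real.exp l := by linarith only [Real.add_one_le_exp l]
        calc l ^ 4 ≤ (Real.exp l) ^ 4 := pow_le_pow_left₀ (by linarith only [hl1]) this 4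
          _ = _ := by
            rw [← Real.exp_nat_mul]
            norm_num
      calc 4 * C1 * l ^ 3 ≤ l * l ^ 3 := mul_le_mul_of_nonneg_right h6 (by positivity)
        _ = l ^ 4 := by ring
        _ ≤ Real.exp (4 * l) := h7
        _ ≤ _ := Real.exp_le_exp.2 (by linarith only [hy30, hl1])
    have h8 : (2 * (k : ℝ) ^ 2) * (2 * (C1 * l)) ≤ H := by
      have h9 : (k : ℝ) ≤ l := (Nat.cast_le.2 hkw).trans hwl
      have h10 : (k : ℝ) ^ 2 ≤ l ^ 2 := pow_le_pow_left₀ (Nat.cast_nonneg _) h9 2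
      calc (2 * (k : ℝ) ^ 2) * (2 * (C1 * l)) ≤ (2 * l ^ 2) * (2 * (C1 * l)) := by
            apply mul_le_mul_of_nonneg_right _ (by positivity)
            linarith only [h10]
        _ = 4 * C1 * l ^ 3 := by ring
        _ ≤ H := h5
    have h11 : (2 * (k : ℝ) ^ 2) ≤ ((Sb w b H).card : ℝ) := by
      refine le_trans ?_ h2
      have h12 : (2 * (k : ℝ) ^ 2) * 1 ≤ (2 * (k : ℝ) ^ 2) * (C1 * l * Vz w) :=
        mul_le_mul_of_nonneg_left h3 (by positivity)
      have h13 : (2 * (k : ℝ) ^ 2) * (2 * (C1 * l)) * Vz w ≤ H * Vz w :=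
        mul_le_mul_of_nonneg_right h8 hVw.le
      linarith only [h12, h13, hVw]
    have h14 : ((2 * k ^ 2 : ℕ) : ℝ) ≤ ((Sb w b H).card : ℝ) := by
      push_cast
      exact h11
    exact_mod_cast h14

end Pool.Agent.R521.F6
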