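import Pool.Agent.R521.F6.F2

set_option autoImplicit false

/-!
# From good scales to good `x`
-/

open Finset Filter
open scoped Real

namespace Pool.Agent.R521.F6

open Pool.Agent.H373R2.T7 (pz Vz lamz mem_pz Vz_pos Vz_le_one)

/-- the large parameters -/
lemma ev_params (D M : ℝ) (hD : 1 ≤ D) : ∀ᶠ l : ℝ in atTop,
    D ≤ Real.log l ∧ M * (l * Real.log l) + 1 ≤ l ^ 2 ∧ 1 ≤ l := by
  have h1 : ∀ᶠ l : ℝ in atTop, D ≤ Real.log l := Real.tendsto_log_atTop.eventually_ge_atTop _
  have h2 : ∀ᶠ l : ℝ in atTop, (2 * |M|) * Real.log l ^ 1 ≤ √l := ev_logpow 1 (2 * |M|)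
  filter_upwards [h1, h2, eventually_ge_atTop (4 : ℝ)] with l g1 g2 g3
  refine ⟨g1, ?_, by linarith only [g3]⟩
  have hs : √l ≤ l := by
    rw [Real.sqrt_le_left (by linarith only [g3])]
    nlinarith only [g3]
  rw [pow_one] at g2
  have hlog : 0 ≤ Real.log l := by linarith only [g1, hD]
  have h3 : M * (l * Real.log l) ≤ |M| * (l * Real.log l) :=
    mul_le_mul_of_nonneg_right (le_abs_self M) (by
      have : 0 ≤ l := by linarith only [g3]
      positivity)
  have h4 : |M| * (l * Real.log l) ≤ l * l / 2 := by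
    have h5 : 2 * |M| * Real.log l ≤ l := g2.trans hs
    have h6 := mul_le_mul_of_nonneg_left h5 (by linarith only [g3] : 0 ≤ l)
    linarith only [h6]
  nlinarith only [h3, h4, g3]

open Classical in
/-- **the theorem, for arbitrarily large `x`** -/
theorem main_sifted {η : ℝ} (hη : 0 < η) (hη1 : η < 1) : ∃ c : ℝ, 0 < c ∧ ∀ X0 : ℝ, ∃ x : ℝ, X0 ≤ x ∧
    Real.exp 1 < x ∧ ∀ H : ℕ, x ^ η ≤ H → (H : ℝ) ≤ x → ∀ k w : ℕ, 1 ≤ k → k ≤ w →
      (w : ℝ) ≤ c * Real.log x / Real.log (Real.log x) ^ 2 → ∀ b : ℕ → ℕ,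
      ((((Sb w b H).powersetCard k).filter (fun A => ((((Icc 1 H).filter
        (fun n => ∀ a ∈ A, (n + a).Prime)).card : ℕ) : ℝ) ≤ (H : ℝ) ^ (1 - η))).card : ℝ) ≤
        4080 * ((k : ℝ) / w) * ((Sb w b H).card.choose k : ℕ) := by
  obtain ⟨c₁, hc₁, hgood, D, hD30, hmain⟩ := scale_theorem hη
  have hD0 : 0 < D := by linarith only [hD30]
  refine ⟨η / D ^ 2, by positivity, fun X0 => ?_⟩
  obtain ⟨l0, hl0⟩ := (ev_params D (D / η) (by linarith only [hD30])).exists_forall_of_atTop
  obtain ⟨Q, hQ, hN⟩ := hgood (max ⌈Real.exp l0⌉₊ (max ⌈Real.exp X0⌉₊ 2))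
  obtain ⟨l, hl⟩ : ∃ l : ℝ, l = Real.log Q := ⟨_, rfl⟩
  have hQ2 : 2 ≤ Q := (le_max_right _ _).trans ((le_max_right _ _).trans hQ)
  have hQ0 : (0 : ℝ) < Q := by exact_mod_cast (by omega : 0 < Q)
  have hll0 : l0 ≤ l := by
    rw [hl, Real.le_log_iff_exp_le hQ0]
    exact (Nat.le_ceil _).trans (Nat.cast_le.2 ((le_max_left _ _).trans hQ))
  have hlX0 : X0 ≤ l := by
    rw [hl, Real.le_log_iff_exp_le hQ0]
    exact (Nat.le_ceil _).trans (Nat.cast_le.2 ((le_max_left _ _).trans ((le_max_right _ _).trans hQ)))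
  obtain ⟨g1, g2, g3⟩ := hl0 l hll0
  have hlog30 : 30 ≤ Real.log l := hD30.trans g1
  obtain ⟨X, hX⟩ : ∃ X : ℝ, X = D / η * (l * Real.log l) := ⟨_, rfl⟩
  have hDη : 1 ≤ D / η := by
    rw [le_div_iff₀ hη]
    linarith only [hη1, hD30]
  have hll : l ≤ l * Real.log l := by nlinarith only [g3, hlog30]
  have hXl : l * Real.log l ≤ X := by
    rw [hX]
    have : 0 ≤ l * Real.log l := by linarith only [hll, g3]
    have := mul_le_mul_of_nonneg_right hDη this
    linarith only [this]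
  have hX1 : 30 ≤ X := by nlinarith only [hXl, g3, hlog30]
  refine ⟨Real.exp X, ?_, ?_, ?_⟩
  · have := Real.add_one_le_exp X
    linarith only [this, hXl, hll, hlX0]
  · exact Real.exp_lt_exp.2 (by linarith only [hX1])
  · intro H hH1 hH2 k w hk hkw hw b
    rw [Real.log_exp] at hw
    have hH0 : (0 : ℝ) < H := lt_of_lt_of_le (Real.rpow_pos_of_pos (Real.exp_pos _) _) hH1
    have hy1 : η * X ≤ Real.log H := by
      rw [Real.le_log_iff_exp_le hH0]
      refine le_trans (le_of_eq ?_) hH1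
      rw [← Real.exp_mul, mul_comm]
    have hy2 : Real.log H ≤ X := by
      rw [← Real.log_exp X]
      exact Real.log_le_log hH0 hH2
    have hηX : η * X = D * l * Real.log l := by
      rw [hX]
      field_simp
    have hlogX : Real.log l ≤ Real.log X := by
      apply Real.log_le_log (by linarith only [g3])
      linarith only [hXl, hll]
    have hw1 : 1 ≤ w := hk.trans hkw
    have hPar : Par D (Real.log Q) (Real.log H) w := by
      rw [← hl]
      refine ⟨hD30, g1, g3, by rw [← hηX]; exact hy1, ?_, ?_, by exact_mod_cast hw1⟩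
      · have : X + 1 ≤ l ^ 2 := by rw [hX]; exact g2
        linarith only [hy2, this]
      · have h1 : (w : ℝ) ≤ η / D ^ 2 * X / Real.log l ^ 2 := by
          refine hw.trans ?_
          apply div_le_div_of_nonneg_left (by positivity) (by positivity)
          exact pow_le_pow_left₀ (by linarith only [hlog30]) hlogX 2
        have h2 : η / D ^ 2 * X / Real.log l ^ 2 = l / (D * Real.log l) := by
          rw [hX]
          field_simp
        rw [h2, le_div_iff₀ (by positivity)] at h1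
        linarith only [h1]
    exact hmain Q H w hN hPar b k hk hkw

end Pool.Agent.R521.F6
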