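import Pool.Agent.R521.F6.F2

set_option autoImplicit false

/-!
# The number of missed classes
-/

open Finset
open scoped Real

namespace Pool.Agent.R521.F6

open Pool.Agent.H373R2.T7 (pz Vz lamz mem_pz Vz_pos Vz_le_one count_sys)

/-- the classes missed modulo `p` -/
def miss (p : ℕ) (E : Finset ℕ) : Finset ℕ := (range p).filter (fun c => ∀ e ∈ E, ¬ e ≡ c [MOD p])

/-- the number of systems of missed classes -/
noncomputable def om (w : ℕ) (E : Finset ℕ) : ℝ := ∏ p ∈ pz w, ((miss p E).card : ℝ)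

/-- `E` avoids the classes `b` -/
def okE (w : ℕ) (b : ℕ → ℕ) (E : Finset ℕ) : Prop := ∀ p ∈ pz w, ∀ e ∈ E, ¬ e ≡ b p [MOD p]

lemma mem_miss {p c : ℕ} {E : Finset ℕ} : c ∈ miss p E ↔ c < p ∧ ∀ e ∈ E, ¬ e ≡ c [MOD p] := by
  unfold miss
  rw [mem_filter, mem_range]

lemma miss_insert {p c : ℕ} (hp : 0 < p) (E : Finset ℕ) : miss p (insert c E) = (miss p E).erase (c % p) := by
  ext x
  rw [mem_miss, mem_erase, mem_miss]
  constructor
  · rintro ⟨h1, h2⟩
    refine ⟨?_, h1, fun e he => h2 e (mem_insert_of_mem he)⟩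
    rintro rfl
    exact h2 c (mem_insert_self _ _) (Nat.mod_modEq c p).symm
  · rintro ⟨h1, h2, h3⟩
    refine ⟨h2, fun e he => ?_⟩
    rw [mem_insert] at he
    rcases he with rfl | he
    · intro h4
      apply h1
      have h5 : e % p = x % p := h4
      rw [Nat.mod_eq_of_lt h2] at h5
      exact h5.symm
    · exact h3 e he

lemma b_mem_miss {w : ℕ} {b : ℕ → ℕ} {E : Finset ℕ} (h : okE w b E) {p : ℕ} (hp : p ∈ pz w) :
    b p % p ∈ miss p E := by
  rw [mem_miss]
  refine ⟨Nat.mod_lt _ (mem_pz.1 hp).2.pos, fun e he h1 => ?_⟩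
  exact h p hp e he (h1.trans (Nat.mod_modEq _ _))

lemma miss_pos {w : ℕ} {b : ℕ → ℕ} {E : Finset ℕ} (h : okE w b E) {p : ℕ} (hp : p ∈ pz w) :
    1 ≤ (miss p E).card := card_pos.2 ⟨_, b_mem_miss h hp⟩

lemma one_le_om {w : ℕ} {b : ℕ → ℕ} {E : Finset ℕ} (h : okE w b E) : 1 ≤ om w E := by
  unfold om
  calc (1 : ℝ) = ∏ _p ∈ pz w, (1 : ℝ) := by rw [prod_const_one]
    _ ≤ _ := by
      apply prod_le_prod (fun _ _ => zero_le_one)
      intro p hp
      exact_mod_cast miss_pos h hp

lemma om_le (w : ℕ) (E : Finset ℕ) : om w E ≤ Wp w := by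
  unfold om Wp
  apply prod_le_prod (fun _ _ => Nat.cast_nonneg _)
  intro p _
  have : (miss p E).card ≤ p := (card_filter_le _ _).trans (by simp)
  exact Nat.cast_le.2 this

lemma om_anti {w : ℕ} {E E' : Finset ℕ} (h : E ⊆ E') : om w E' ≤ om w E := by
  unfold om
  apply prod_le_prod (fun _ _ => Nat.cast_nonneg _)
  intro p _
  apply Nat.cast_le.2
  apply card_le_card
  intro c hc
  rw [mem_miss] at hc ⊢
  exact ⟨hc.1, fun e he => hc.2 e (h he)⟩

lemma okE_insert {w : ℕ} {b : ℕ → ℕ} {E : Finset ℕ} {c H : ℕ} (h : okE w b E) (hc : c ∈ Sb w b H) :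
    okE w b (insert c E) := by
  intro p hp e he
  rw [mem_insert] at he
  rcases he with rfl | he
  · exact (mem_Sb.1 hc).2 p hp
  · exact h p hp e he

/-- the local ratio -/
noncomputable def rt (p : ℕ) (E : Finset ℕ) (r : ℕ) : ℝ :=
  if r ∈ miss p E then ((miss p E).card : ℝ) / ((miss p E).card - 1) else 1

lemma om_ratio {w : ℕ} {b : ℕ → ℕ} {E : Finset ℕ} {c H : ℕ} (h : okE w b E) (hc : c ∈ Sb w b H) :
    om w E = om w (insert c E) * ∏ p ∈ pz w, rt p E (c % p) := by
  unfold om
  rw [← prod_mul_distrib]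
  apply prod_congr rfl
  intro p hp
  have hp0 := (mem_pz.1 hp).2.pos
  rw [miss_insert hp0]
  unfold rt
  split_ifs with h1
  · rw [card_erase_of_mem h1]
    have h2 : b p % p ∈ (miss p E).erase (c % p) := by
      rw [mem_erase]
      refine ⟨?_, b_mem_miss h hp⟩
      intro h3
      exact (mem_Sb.1 hc).2 p hp h3.symm
    have h3 : 1 ≤ ((miss p E).erase (c % p)).card := card_pos.2 ⟨_, h2⟩
    rw [card_erase_of_mem h1] at h3
    have h4 : (2 : ℝ) ≤ (miss p E).card := by exact_mod_cast (by omega : 2 ≤ (miss p E).card)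
    rw [Nat.cast_sub (by omega)]
    push_cast
    have h5 : ((miss p E).card : ℝ) - 1 ≠ 0 := by
      intro h6
      linarith only [h4, h6]
    field_simp
  · rw [erase_eq_of_notMem h1, mul_one]

/-- sums of products of functions of the residues over an interval -/
theorem per_sum (P : Finset ℕ) (f : ℕ → ℕ → ℝ) (hf : ∀ p r, 0 ≤ f p r) (X : ℕ) (hP : ∀ p ∈ P, p.Prime) :
    ∀ q : ℕ, 1 ≤ q → (∀ p ∈ P, ¬ p ∣ q) → q * ∏ p ∈ P, p ≤ X → ∀ c : ℕ,
      ∑ a ∈ (range X).filter (fun a => a ≡ c [MOD q]), ∏ p ∈ P, f p (a % p) ≤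
        2 * (X : ℝ) / q * ∏ p ∈ P, ((∑ r ∈ range p, f p r) / p) := by
  classical
  induction P using Finset.induction_on with
  | empty =>
    intro q hq _ hX c
    simp only [prod_empty, sum_const, nsmul_eq_mul, mul_one] at hX ⊢
    have hq0 : (0 : ℝ) < q := by exact_mod_cast (by omega : 0 < q)
    have h2 : ((range X).filter (fun a => a ≡ c [MOD q])).card ≤ X / q + 1 := by
      have h3 : X / q + 1 = (range (X / q + 1)).card := (card_range _).symm
      rw [h3]
      apply card_le_card_of_injOn (fun a => a / q)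
      · intro a ha
        rw [mem_coe, mem_filter, mem_range] at ha
        rw [mem_coe, mem_range]
        exact Nat.lt_succ_of_le (Nat.div_le_div_right ha.1.le)
      · intro a ha a' ha' haa
        rw [mem_coe, mem_filter] at ha ha'
        have e1 : a % q = a' % q := ha.2.trans ha'.2.symm
        have e2 : a / q = a' / q := haa
        rw [← Nat.div_add_mod a q, ← Nat.div_add_mod a' q, e1, e2]
    have h3 : (((range X).filter (fun a => a ≡ c [MOD q])).card : ℝ) ≤ (X / q : ℕ) + 1 := by
      exact_mod_cast h2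
    have h4 : ((X / q : ℕ) : ℝ) ≤ X / q := Nat.cast_div_le
    have h5 : (1 : ℝ) ≤ X / q := by
      rw [le_div_iff₀ hq0, one_mul]
      exact_mod_cast hX
    calc _ ≤ ((X / q : ℕ) : ℝ) + 1 := h3
      _ ≤ X / q + X / q := by linarith only [h4, h5]
      _ = _ := by ring
  | insert p P hpP ih =>
    intro q hq hdq hX c
    have hpp := hP p (mem_insert_self _ _)
    have hP' : ∀ p' ∈ P, p'.Prime := fun p' h => hP p' (mem_insert_of_mem h)
    have hp0 : (0 : ℝ) < p := by exact_mod_cast hpp.pos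
    have hq0 : (0 : ℝ) < q := by exact_mod_cast (by omega : 0 < q)
    have hpq : q.Coprime p := by
      rw [Nat.coprime_comm]
      exact (Nat.Prime.coprime_iff_not_dvd hpp).2 (hdq p (mem_insert_self _ _))
    rw [prod_insert hpP] at hX ⊢
    have hsplit : ∑ a ∈ (range X).filter (fun a => a ≡ c [MOD q]), ∏ p' ∈ insert p P, f p' (a % p') =
        ∑ r ∈ range p, f p r * ∑ a ∈ (range X).filter (fun a => a ≡ c [MOD q] ∧ a ≡ r [MOD p]),
          ∏ p' ∈ P, f p' (a % p') := by
      rw [← sum_fiberwise_of_maps_to (s := (range X).filter (fun a => a ≡ c [MOD q])) (t := range p)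
        (g := fun a => a % p) (fun a _ => mem_range.2 (Nat.mod_lt a hpp.pos))]
      apply sum_congr rfl
      intro r hr
      rw [mem_range] at hr
      rw [mul_sum, filter_filter]
      have e : (range X).filter (fun a => a ≡ c [MOD q] ∧ a % p = r) =
          (range X).filter (fun a => a ≡ c [MOD q] ∧ a ≡ r [MOD p]) := by
        apply filter_congr
        intro a _
        have : a % p = r ↔ a ≡ r [MOD p] := by
          unfold Nat.ModEq
          rw [Nat.mod_eq_of_lt hr]
        rw [this]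
      rw [e]
      apply sum_congr rfl
      intro a ha
      rw [prod_insert hpP]
      have h2 : a % p = r := by
        have h3 : a % p = r % p := (mem_filter.1 ha).2.2
        rwa [Nat.mod_eq_of_lt hr] at h3
      rw [h2]
    rw [hsplit]
    have hr : ∀ r ∈ range p, f p r * ∑ a ∈ (range X).filter (fun a => a ≡ c [MOD q] ∧ a ≡ r [MOD p]),
          ∏ p' ∈ P, f p' (a % p') ≤ f p r * (2 * (X : ℝ) / ((q * p : ℕ) : ℝ) *
            ∏ p' ∈ P, ((∑ r ∈ range p', f p' r) / p')) := by
      intro r _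
      apply mul_le_mul_of_nonneg_left _ (hf p r)
      obtain ⟨z, hz1, hz2⟩ := Nat.chineseRemainder hpq c r
      have e : (range X).filter (fun a => a ≡ c [MOD q] ∧ a ≡ r [MOD p]) =
          (range X).filter (fun a => a ≡ z [MOD q * p]) := by
        apply filter_congr
        intro a _
        rw [← Nat.modEq_and_modEq_iff_modEq_mul hpq]
        constructor
        · rintro ⟨h1, h2⟩
          exact ⟨h1.trans hz1.symm, h2.trans hz2.symm⟩
        · rintro ⟨h1, h2⟩
          exact ⟨h1.trans hz1, h2.trans hz2⟩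
      rw [e]
      apply ih hP' (q * p) (Nat.mul_pos hq hpp.pos)
      · intro p' hp' hd
        rcases (Nat.Prime.dvd_mul (hP' p' hp')).1 hd with h1 | h1
        · exact hdq p' (mem_insert_of_mem hp') h1
        · have := (Nat.prime_dvd_prime_iff_eq (hP' p' hp') hpp).1 h1
          rw [this] at hp'
          exact hpP hp'
      · rw [mul_assoc]
        exact hX
    refine (sum_le_sum hr).trans (le_of_eq ?_)
    rw [← sum_mul]
    push_cast
    field_simp

end Pool.Agent.R521.F6
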