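import Pool.Agent.R521.F6.U9

set_option autoImplicit false

/-!
# Numerical conditions, second part
-/

open Finset Filter
open scoped Real

namespace Pool.Agent.R521.F6

namespace Par

variable {D l y w : ℝ} (h : Par D l y w)
include h

lemma exp_log_mul (n : ℕ) : Real.exp ((n : ℝ) * Real.log l) = l ^ n := by
  rw [Real.exp_nat_mul, ← h.l_eq]

/-- the sieve error in a class -/
lemma qerr_small {n H Q r : ℕ} (hn : (n : ℝ) = w) (hH : (H : ℝ) = Real.exp y) (hQ : (Q : ℝ) = Real.exp l)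
    {C1 C6 V E W : ℝ} (hr : r = ⌈10 * Real.log l⌉₊) (hC1 : 1 ≤ C1) (hC1D : 16 * C1 ^ 2 ≤ D) (hC6 : 1 ≤ C6)
    (hCD : 16 * C1 ^ 2 * C6 ≤ D)
    (hV0 : 1 ≤ V) (hV : V ≤ C1 * l) (hE : Real.exp (6 * E) ≤ C6 * l ^ 6) (hW0 : 1 ≤ W) (hW : W ≤ 4 ^ n) :
    1 + V ^ 2 * ((2 * ((Q : ℝ) + 1)) ^ r + 2 * (((H : ℝ) + 1) / W) * Real.exp (6 * E - r)) ≤
      1 / (4 * w) * (((H : ℝ) + 1) / W - 1) := by
  have hl1 := h.hl
  have hD := h.hD
  have hDl := h.hDl
  have hl0 : 0 < l := by linarith only [hl1]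
  have hw1 := h.hw1
  have hw0 : 0 < w := by linarith only [hw1]
  have hwl := h.wl4
  have hlog : 30 ≤ Real.log l := hD.trans hDl
  have hW0' : 0 < W := by linarith only [hW0]
  obtain ⟨X, hX⟩ : ∃ X : ℝ, X = ((H : ℝ) + 1) / W := ⟨_, rfl⟩
  rw [← hX]
  have hX0 : 0 < X := by rw [hX]; positivity
  have hr1 : 10 * Real.log l ≤ r := by rw [hr]; exact Nat.le_ceil _
  have hr2 : (r : ℝ) ≤ 11 * Real.log l := by
    rw [hr]
    have := Nat.ceil_lt_add_one (a := 10 * Real.log l) (by linarith only [hlog])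
    linarith only [this, hlog]
  have hV2 : V ^ 2 ≤ C1 ^ 2 * l ^ 2 := by
    have h1 : V ^ 2 ≤ (C1 * l) ^ 2 := pow_le_pow_left₀ (by linarith only [hV0]) hV 2
    linarith only [h1, mul_pow C1 l 2]
  have hl16 : 16 * C1 ^ 2 * C6 ≤ l := by
    have := h.ll
    linarith only [this, hCD, hDl, hlog]
  have hl16' : 16 * C1 ^ 2 ≤ l := by
    have := h.ll
    linarith only [this, hC1D, hDl, hlog]
  -- second term
  have hsec : 4 * w * (V ^ 2 * (2 * X * Real.exp (6 * E - r))) ≤ X / 2 := by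
    have h1 : Real.exp (6 * E - r) ≤ C6 * l ^ 6 * Real.exp (-(10 * Real.log l)) := by
      rw [sub_eq_add_neg, Real.exp_add]
      exact mul_le_mul hE (Real.exp_le_exp.2 (by linarith only [hr1])) (Real.exp_pos _).le (by positivity)
    have h2 : Real.exp (-(10 * Real.log l)) = (l ^ 10)⁻¹ := by
      rw [Real.exp_neg]
      have := h.exp_log_mul 10
      push_cast at this
      rw [this]
    rw [h2] at h1
    have h4 : w * V ^ 2 * Real.exp (6 * E - r) ≤ C1 ^ 2 * C6 / l := by
      have h5 : w * V ^ 2 ≤ l * (C1 ^ 2 * l ^ 2) := mul_le_mul hwl hV2 (sq_nonneg _) hl0.le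
      have h3 : l * (C1 ^ 2 * l ^ 2) * (C6 * l ^ 6 * (l ^ 10)⁻¹) = C1 ^ 2 * C6 / l := by
        field_simp
      rw [← h3]
      exact mul_le_mul h5 h1 (Real.exp_pos _).le (by positivity)
    have h5 : C1 ^ 2 * C6 / l ≤ 1 / 16 := by
      rw [div_le_iff₀ hl0]
      linarith only [hl16]
    calc _ = (8 * X) * (w * V ^ 2 * Real.exp (6 * E - r)) := by ring
      _ ≤ (8 * X) * (1 / 16) := mul_le_mul_of_nonneg_left (h4.trans h5) (by positivity)
      _ = _ := by ring
  -- first term
  have hfirst : 4 * w + 1 + 4 * w * (V ^ 2 * (2 * ((Q : ℝ) + 1)) ^ r) ≤ X / 2 := by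
    have h1 : 2 * ((Q : ℝ) + 1) ≤ Real.exp (2 * l) := by
      have h2 : Real.exp (2 * l) = Real.exp l * Real.exp l := by
        rw [← Real.exp_add]
        ring_nf
      rw [hQ, h2]
      have h3 : 30 * 144 ≤ Real.exp l := by linarith only [h.l_ge, Real.add_one_le_exp l]
      nlinarith only [h3]
    have h2 : (2 * ((Q : ℝ) + 1)) ^ r ≤ Real.exp (22 * (l * Real.log l)) := by
      calc _ ≤ (Real.exp (2 * l)) ^ r := pow_le_pow_left₀ (by positivity) h1 r
        _ = Real.exp (r * (2 * l)) := by rw [← Real.exp_nat_mul]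
        _ ≤ Real.exp ((11 * Real.log l) * (2 * l)) := by
          apply Real.exp_le_exp.2
          exact mul_le_mul_of_nonneg_right hr2 (by positivity)
        _ = _ := by ring_nf
    have h2' : 1 ≤ (2 * ((Q : ℝ) + 1)) ^ r := by
      apply one_le_pow₀
      have : (0 : ℝ) ≤ Q := Nat.cast_nonneg _
      linarith only [this]
    have h3 : (4 * w + 1 + 4 * w * (V ^ 2)) * (2 * W) ≤ Real.exp (2 * (l * Real.log l)) := by
      have h5 : 4 * w + 1 + 4 * w * (V ^ 2) ≤ l ^ 4 := by
        have h6 : w * V ^ 2 ≤ l * (C1 ^ 2 * l ^ 2) := mul_le_mul hwl hV2 (sq_nonneg _) hl0.le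
        have h7 : 1 ≤ V ^ 2 := one_le_pow₀ hV0
        have h8 : w ≤ w * V ^ 2 := by nlinarith only [h7, hw0]
        have h9 : 9 * (l * (C1 ^ 2 * l ^ 2)) ≤ l ^ 4 := by
          have h10 : 9 * C1 ^ 2 ≤ l := by
            have : 0 ≤ C1 ^ 2 := sq_nonneg _
            linarith only [hl16', this]
          calc 9 * (l * (C1 ^ 2 * l ^ 2)) = (9 * C1 ^ 2) * l ^ 3 := by ring
            _ ≤ l * l ^ 3 := mul_le_mul_of_nonneg_right h10 (by positivity)
            _ = l ^ 4 := by ring
        linarith only [h6, h8, h9, hw1]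
      have h6 : 2 * W ≤ Real.exp (1 + 2 * w) := by
        rw [Real.exp_add]
        have h7 : (2 : ℝ) ≤ Real.exp 1 := by linarith only [Real.add_one_le_exp (1 : ℝ)]
        exact mul_le_mul h7 (hW.trans (h.four_pow hn.le)) hW0'.le (Real.exp_pos _).le
      have h7 := h.exp_log_mul 4
      push_cast at h7
      calc _ ≤ Real.exp (4 * Real.log l) * Real.exp (1 + 2 * w) := by
            rw [h7]
            exact mul_le_mul h5 h6 (by positivity) (by positivity)
        _ = Real.exp (4 * Real.log l + (1 + 2 * w)) := (Real.exp_add _ _).symm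
        _ ≤ _ := by
          apply Real.exp_le_exp.2
          have h8 := h.ll
          have h9 : 30 * l ≤ l * Real.log l := by nlinarith only [hlog, hl0]
          linarith only [h8, h9, hwl, hlog]
    have h5 : (4 * w + 1 + 4 * w * (V ^ 2 * (2 * ((Q : ℝ) + 1)) ^ r)) * (2 * W) ≤ (H : ℝ) + 1 := by
      calc _ ≤ ((4 * w + 1 + 4 * w * (V ^ 2)) * (2 * ((Q : ℝ) + 1)) ^ r) * (2 * W) := by
            apply mul_le_mul_of_nonneg_right _ (by positivity)
            have h6 : (4 * w + 1) * 1 ≤ (4 * w + 1) * (2 * ((Q : ℝ) + 1)) ^ r :=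
              mul_le_mul_of_nonneg_left h2' (by positivity)
            linarith only [h6]
        _ = ((4 * w + 1 + 4 * w * (V ^ 2)) * (2 * W)) * (2 * ((Q : ℝ) + 1)) ^ r := by ring
        _ ≤ Real.exp (2 * (l * Real.log l)) * Real.exp (22 * (l * Real.log l)) :=
            mul_le_mul h3 h2 (by positivity) (Real.exp_pos _).le
        _ = Real.exp (24 * (l * Real.log l)) := by
            rw [← Real.exp_add]
            ring_nf
        _ ≤ Real.exp y := by
            apply Real.exp_le_exp.2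
            refine le_trans ?_ h.hy
            have : 24 * (l * Real.log l) ≤ D * (l * Real.log l) := by
              apply mul_le_mul_of_nonneg_right (by linarith only [hD]) (by positivity)
            linarith only [this]
        _ ≤ _ := by rw [hH]; linarith only
    have h6 : (H : ℝ) + 1 = X * W := by
      rw [hX]
      field_simp
    rw [h6] at h5
    have h7 : (4 * w + 1 + 4 * w * (V ^ 2 * (2 * ((Q : ℝ) + 1)) ^ r)) * 2 * W ≤ X * W := by
      linarith only [h5]
    have := le_of_mul_le_mul_right h7 hW0'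
    linarith only [this]
  rw [one_div, inv_mul_eq_div, le_div_iff₀ (by positivity)]
  have e : (1 + V ^ 2 * ((2 * ((Q : ℝ) + 1)) ^ r + 2 * X * Real.exp (6 * E - r))) * (4 * w) =
      4 * w + 4 * w * (V ^ 2 * (2 * ((Q : ℝ) + 1)) ^ r) + 4 * w * (V ^ 2 * (2 * X * Real.exp (6 * E - r))) := by ring
  rw [e]
  linarith only [hsec, hfirst]

/-- condition (j), with the extra factor -/
lemma condQ' {n : ℕ} (hn : (n : ℝ) ≤ w) {u C W : ℝ} (hu0 : 0 ≤ u) (hu : u ≤ y + 1) (hC : 0 ≤ C)
    (hCD : 4 * C ≤ D) (hW0 : 0 ≤ W) (hW : W ≤ 4 ^ n) :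
    4 * n * ((C * (2 ^ n * W)) * y ^ 8) * √W * (2 * u) ^ n ≤ √(Real.exp l) := by
  have hy0 : 0 ≤ y := by
    have := h.yl2
    have := h.hl
    linarith
  have hD := h.hD
  have hl0 : 0 < l := by linarith only [h.hl]
  have h1 := h.logpow hn hu0 hu
  have hW2 : W ≤ Real.exp (2 * (l / D)) := by
    refine (hW.trans (h.four_pow hn)).trans (Real.exp_le_exp.2 ?_)
    linarith only [h.wl3]
  have h2 : √W ≤ Real.exp (l / D) := by
    apply Real.sqrt_le_iff.2
    refine ⟨(Real.exp_pos _).le, ?_⟩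
    rw [← Real.exp_nat_mul]
    push_cast
    exact hW2
  have h2n : (2 : ℝ) ^ n ≤ Real.exp (l / D) := by
    have h3 : (2 : ℝ) ≤ Real.exp 1 := by linarith only [Real.add_one_le_exp (1 : ℝ)]
    calc (2 : ℝ) ^ n ≤ (Real.exp 1) ^ n := pow_le_pow_left₀ (by norm_num) h3 n
      _ = Real.exp (n * 1) := by rw [← Real.exp_nat_mul]
      _ ≤ _ := by
        apply Real.exp_le_exp.2
        linarith only [hn, h.wl3]
  have h3 : 4 * (n : ℝ) * (C * y ^ 8) ≤ Real.exp (18 * Real.log l) := by
    have e := h.exp_log_mul 18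
    push_cast at e
    rw [e]
    have h4 : (n : ℝ) ≤ l := hn.trans h.wl4
    have h5 : y ^ 8 ≤ l ^ 16 := by
      calc y ^ 8 ≤ (l ^ 2) ^ 8 := pow_le_pow_left₀ hy0 (by linarith only [h.hy2]) 8
        _ = l ^ 16 := by ring
    have h6 : 4 * C ≤ l := by
      have := h.ll
      have := h.hDl
      linarith
    calc 4 * (n : ℝ) * (C * y ^ 8) = (4 * C) * n * y ^ 8 := by ring
      _ ≤ l * l * l ^ 16 := by
        apply mul_le_mul _ h5 (by positivity) (by positivity)
        exact mul_le_mul h6 h4 (Nat.cast_nonneg _) hl0.le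
      _ = l ^ 18 := by ring
  have h7 : √(Real.exp l) = Real.exp (l / 2) := by
    rw [Real.exp_half]
  rw [h7]
  calc 4 * n * ((C * (2 ^ n * W)) * y ^ 8) * √W * (2 * u) ^ n =
      (4 * n * (C * y ^ 8)) * (2 ^ n * W) * √W * (2 * u) ^ n := by ring
    _ ≤ Real.exp (18 * Real.log l) * (Real.exp (l / D) * Real.exp (2 * (l / D))) * Real.exp (l / D) *
        Real.exp (3 * (l / D)) := by
        apply mul_le_mul _ h1 (by positivity) (by positivity)
        apply mul_le_mul _ h2 (Real.sqrt_nonneg _) (by positivity)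
        apply mul_le_mul h3 _ (by positivity) (Real.exp_pos _).le
        exact mul_le_mul h2n hW2 hW0 (Real.exp_pos _).le
    _ = Real.exp (18 * Real.log l + (l / D + 2 * (l / D)) + l / D + 3 * (l / D)) := by
        simp only [← Real.exp_add]
    _ ≤ _ := by
      apply Real.exp_le_exp.2
      have h8 := h.ll
      have h9 : l / D ≤ l / 30 := div_le_div_of_nonneg_left hl0.le (by norm_num) hD
      linarith only [h8, h9, hl0]

end Par

end Pool.Agent.R521.F6
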