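import Pool.Agent.R521.F6.U10

set_option autoImplicit false

/-!
# Numerical conditions, third part
-/

open Finset Filter
open scoped Real

namespace Pool.Agent.R521.F6

lemma exists_J {H W N : ℕ} (hW : 1 ≤ W) (hN : 1 ≤ N) (h : W * N ≤ H) : ∃ J : ℕ, 1 ≤ J ∧ J * W ≤ H ∧
    (J : ℝ) ≤ H / ((W : ℝ) * N) ∧ (H : ℝ) / (2 * ((W : ℝ) * N)) ≤ J := by
  have hWN : 0 < W * N := Nat.mul_pos hW hN
  have hWN' : (0 : ℝ) < (W : ℝ) * N := by exact_mod_cast hWN
  refine ⟨H / (W * N), ?_, ?_, ?_, ?_⟩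
  · exact (Nat.one_le_div_iff hWN).2 h
  · calc H / (W * N) * W ≤ H / (W * N) * (W * N) := by
          apply Nat.mul_le_mul_left
          exact Nat.le_mul_of_pos_right W hN
      _ ≤ H := Nat.div_mul_le_self _ _
  · have := Nat.cast_div_le (α := ℝ) (m := H) (n := W * N)
    push_cast at this
    exact this
  · have h1 : 1 ≤ H / (W * N) := (Nat.one_le_div_iff hWN).2 h
    have h2 : H < (H / (W * N) + 1) * (W * N) := (Nat.div_lt_iff_lt_mul hWN).1 (Nat.lt_succ_self _)
    have h3 : (H : ℝ) ≤ ((H / (W * N) : ℕ) + 1) * ((W : ℝ) * N) := by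
      have : ((H : ℕ) : ℝ) ≤ (((H / (W * N) + 1) * (W * N) : ℕ) : ℝ) := Nat.cast_le.2 h2.le
      push_cast at this
      exact this
    have h4 : (1 : ℝ) ≤ ((H / (W * N) : ℕ) : ℝ) := by exact_mod_cast h1
    rw [div_le_iff₀ (by positivity)]
    nlinarith only [h3, h4, hWN']

namespace Par

variable {D l y w : ℝ} (h : Par D l y w)
include h

lemma y0 : 0 < y := by
  have h1 := h.yl2
  have h2 := h.hl
  linarith only [h1, h2]

/-- size of `V ρ √H` -/
lemma Vrho {V ρ S X2 C6 Hr : ℝ} (hV : 0 < V) (hH : 1 ≤ Hr) (hS : (Hr + 1) * V / 2 ≤ S) (hC6 : 1 ≤ C6)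
    (hX0 : 0 ≤ X2) (hX2 : X2 ≤ C6 * l ^ 6) (hρ : ρ = √(2 * (Hr + 1) * X2) / S) :
    V * ρ * √Hr ≤ 3 * C6 * l ^ 3 := by
  have hl0 : 0 < l := by linarith only [h.hl]
  have hS0 : 0 < S := lt_of_lt_of_le (by positivity) hS
  have h1 : √(2 * (Hr + 1) * X2) ≤ √(Hr + 1) * (3 / 2 * C6 * l ^ 3) := by
    rw [mul_comm (2 : ℝ), mul_assoc, Real.sqrt_mul (by positivity)]
    apply mul_le_mul_of_nonneg_left _ (Real.sqrt_nonneg _)
    apply Real.sqrt_le_iff.2
    refine ⟨by positivity, ?_⟩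
    have h2 : (3 / 2 * C6 * l ^ 3) ^ 2 = 9 / 4 * (C6 * C6) * l ^ 6 := by ring
    rw [h2]
    have h3 : C6 ≤ C6 * C6 := by nlinarith only [hC6]
    have h4 : C6 * l ^ 6 ≤ (C6 * C6) * l ^ 6 := mul_le_mul_of_nonneg_right h3 (by positivity)
    have h5 : 0 ≤ (C6 * C6) * l ^ 6 := by positivity
    linarith only [hX2, h4, h5]
  have h2 : V * ρ ≤ (3 * C6 * l ^ 3) / √(Hr + 1) := by
    have hs : 0 < √(Hr + 1) := Real.sqrt_pos.2 (by linarith only [hH])
    have hss : √(Hr + 1) * √(Hr + 1) = Hr + 1 := Real.mul_self_sqrt (by linarith only [hH])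
    rw [hρ, ← mul_div_assoc, div_le_div_iff₀ hS0 hs]
    calc V * √(2 * (Hr + 1) * X2) * √(Hr + 1) ≤ V * (√(Hr + 1) * (3 / 2 * C6 * l ^ 3)) * √(Hr + 1) := by
          apply mul_le_mul_of_nonneg_right _ hs.le
          exact mul_le_mul_of_nonneg_left h1 hV.le
      _ = (3 * C6 * l ^ 3) * ((√(Hr + 1) * √(Hr + 1)) * V / 2) := by ring
      _ = (3 * C6 * l ^ 3) * ((Hr + 1) * V / 2) := by rw [hss]
      _ ≤ (3 * C6 * l ^ 3) * S := mul_le_mul_of_nonneg_left hS (by positivity)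
  have h3 : √Hr ≤ √(Hr + 1) := Real.sqrt_le_sqrt (by linarith only)
  have hs : 0 < √(Hr + 1) := Real.sqrt_pos.2 (by linarith only [hH])
  calc V * ρ * √Hr ≤ (3 * C6 * l ^ 3) / √(Hr + 1) * √(Hr + 1) :=
        mul_le_mul h2 h3 (Real.sqrt_nonneg _) (by positivity)
    _ = _ := by field_simp

lemma pow_y (A C : ℝ) (hA : 0 ≤ A) (hAD : A ≤ D) (hC : C = A * l ^ 4) : C ≤ y ^ 5 := by
  have h1 := h.yl
  have hD := h.hD
  have hl1 := h.hl
  have h2 : (D * l) ^ 5 ≤ y ^ 5 := pow_le_pow_left₀ (by nlinarith) h1 5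
  have h3 : A * l ^ 4 ≤ (D * l) ^ 5 := by
    have h4 : (D * l) ^ 5 = D * l ^ 4 * (D ^ 4 * l) := by ring
    rw [h4]
    have h5 : 1 ≤ D ^ 4 * l := by
      have : 1 ≤ D ^ 4 := one_le_pow₀ (by linarith only [hD])
      nlinarith only [this, hl1]
    have h6 : A * l ^ 4 ≤ D * l ^ 4 := mul_le_mul_of_nonneg_right hAD (by positivity)
    have h7 : 0 ≤ D * l ^ 4 := by positivity
    nlinarith only [h5, h6, h7]
  rw [hC]
  exact h3.trans h2

/-- the first weight condition -/
lemma condα {V ρ C6 Hr : ℝ} (hC6 : 1 ≤ C6) (hCD : 3 * C6 ≤ D) (hVρ : V * ρ * √Hr ≤ 3 * C6 * l ^ 3) :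
    ρ * (V * (√Hr / y ^ 5)) ≤ 1 / w := by
  have hy0 := h.y0
  have hw1 := h.hw1
  have hwl := h.wl4
  have hl0 : 0 < l := by linarith only [h.hl]
  have h1 : 3 * C6 * l ^ 4 ≤ y ^ 5 := h.pow_y (3 * C6) _ (by positivity) hCD rfl
  have e : ρ * (V * (√Hr / y ^ 5)) = (V * ρ * √Hr) / y ^ 5 := by ring
  rw [e, div_le_div_iff₀ (by positivity) (by linarith only [hw1]), one_mul]
  calc V * ρ * √Hr * w ≤ (3 * C6 * l ^ 3) * l := by
        apply mul_le_mul hVρ hwl (by linarith only [hw1]) (by positivity)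
    _ = 3 * C6 * l ^ 4 := by ring
    _ ≤ y ^ 5 := h1

/-- the second weight condition -/
lemma condE {V ρ C6 C Hr Q E1 E2 B J W N y2 : ℝ} (hV0 : 0 < V) (hV1 : V ≤ 1) (hρ0 : 0 ≤ ρ) (hC6 : 1 ≤ C6)
    (hC : 1 ≤ C) (hCD : 80 * C6 ≤ D) (hCD2 : 49152 * C6 * C ≤ D)
    (hVρ : V * ρ * √Hr ≤ 3 * C6 * l ^ 3) (hHr : 1 ≤ Hr) (hQ : Q = Real.exp l)
    (hy2 : y ≤ y2) (hy2' : y2 ≤ 2 * y)
    (hE1 : E1 = √(2 * Hr) / y2 ^ 5) (hE2 : E2 = C * y2 ^ 8 * (2 * Hr / √Q)) (hB0 : 0 ≤ B)
    (hW1 : 1 ≤ W) (hW : W ≤ Real.exp (2 * w)) (hN1 : 64 * w * B ≤ N) (hN0 : 1 ≤ N) (hN2 : N ≤ l ^ 4)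
    (hJ0 : 0 < J) (hJ1 : J ≤ Hr / (W * N)) (hJ2 : Hr / (2 * (W * N)) ≤ J)
    {X : ℝ} (hX : Hr / (2 * W) ≤ X - 1) :
    V * (ρ * (E1 + E2 / √J) + 2 * B * (J / (X - 1))) ≤ 1 / (4 * w) := by
  have hy0 := h.y0
  have hw1 := h.hw1
  have hw0 : 0 < w := by linarith only [hw1]
  have hwl := h.wl4
  have hl1 := h.hl
  have hl0 : 0 < l := by linarith only [hl1]
  have hsH : 0 < √Hr := Real.sqrt_pos.2 (by linarith only [hHr])
  have hH0 : 0 < Hr := by linarith only [hHr]
  have hVρ' : V * ρ ≤ 3 * C6 * l ^ 3 / √Hr := by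
    rw [le_div_iff₀ hsH]
    exact hVρ
  -- first
  have p1 : V * (ρ * E1) ≤ 1 / (16 * w) := by
    have h1 : √(2 * Hr) ≤ 3 / 2 * √Hr := by
      rw [Real.sqrt_mul (by norm_num)]
      apply mul_le_mul_of_nonneg_right _ hsH.le
      apply Real.sqrt_le_iff.2
      norm_num
    have h2 : E1 ≤ 3 / 2 * √Hr / y ^ 5 := by
      rw [hE1]
      apply div_le_div₀ (by positivity) h1 (by positivity)
      exact pow_le_pow_left₀ hy0.le hy2 5
    have h3 : 80 * C6 * l ^ 4 ≤ y ^ 5 := h.pow_y (80 * C6) _ (by positivity) hCD rfl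
    calc V * (ρ * E1) = (V * ρ) * E1 := by ring
      _ ≤ (V * ρ) * (3 / 2 * √Hr / y ^ 5) := mul_le_mul_of_nonneg_left h2 (by positivity)
      _ = 3 / 2 * (V * ρ * √Hr) / y ^ 5 := by ring
      _ ≤ 3 / 2 * (3 * C6 * l ^ 3) / y ^ 5 := by
          apply div_le_div_of_nonneg_right _ (by positivity)
          linarith only [hVρ]
      _ ≤ 1 / (16 * w) := by
          rw [div_le_div_iff₀ (by positivity) (by positivity), one_mul]
          calc 3 / 2 * (3 * C6 * l ^ 3) * (16 * w) = 72 * (C6 * l ^ 3) * w := by ring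
            _ ≤ 72 * (C6 * l ^ 3) * l := mul_le_mul_of_nonneg_left hwl (by positivity)
            _ ≤ 80 * C6 * l ^ 4 := by
              have : 0 ≤ C6 * l ^ 4 := by positivity
              linarith only [this]
            _ ≤ y ^ 5 := h3
  -- second
  have hQ0 : 0 < Q := by rw [hQ]; exact Real.exp_pos _
  have hsQ : √Q = Real.exp (l / 2) := by
    rw [hQ, Real.exp_half]
  have p2 : V * (ρ * (E2 / √J)) ≤ 1 / (16 * w) := by
    have hWN : 0 < W * N := by positivity
    have h1 : √Hr / √J ≤ 2 * (W * N) := by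
      have h2 : √(Hr / (2 * (W * N))) ≤ √J := Real.sqrt_le_sqrt hJ2
      rw [Real.sqrt_div hH0.le] at h2
      have h3 : 0 < √(2 * (W * N)) := Real.sqrt_pos.2 (by positivity)
      have hsJ : 0 < √J := Real.sqrt_pos.2 hJ0
      rw [div_le_iff₀ h3] at h2
      rw [div_le_iff₀ hsJ]
      have h4 : √(2 * (W * N)) ≤ 2 * (W * N) := by
        rw [Real.sqrt_le_left (by positivity)]
        have h5 : 1 ≤ W * N := by nlinarith only [hW1, hN0]
        nlinarith only [h5]
      calc √Hr ≤ √J * √(2 * (W * N)) := h2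
        _ ≤ √J * (2 * (W * N)) := mul_le_mul_of_nonneg_left h4 hsJ.le
        _ = _ := mul_comm _ _
    have hy28 : y2 ^ 8 ≤ 256 * l ^ 16 := by
      have h5 : y2 ≤ 2 * l ^ 2 := by linarith only [hy2', h.hy2]
      calc y2 ^ 8 ≤ (2 * l ^ 2) ^ 8 := pow_le_pow_left₀ (by linarith only [hy0, hy2]) h5 8
        _ = _ := by ring
    have hss : √Hr * √Hr = Hr := Real.mul_self_sqrt hH0.le
    calc V * (ρ * (E2 / √J)) = (V * ρ * √Hr) * (C * y2 ^ 8 * 2 / √Q) * (√Hr / √J) := by
          rw [hE2]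
          have : 2 * Hr / √Q = 2 * (√Hr * √Hr) / √Q := by rw [hss]
          rw [this]
          ring
      _ ≤ (3 * C6 * l ^ 3) * (C * (256 * l ^ 16) * 2 / √Q) * (2 * (W * N)) := by
          apply mul_le_mul _ h1 (by positivity) (by positivity)
          apply mul_le_mul hVρ _ (by positivity) (by positivity)
          apply div_le_div_of_nonneg_right _ (Real.sqrt_nonneg _)
          apply mul_le_mul_of_nonneg_right _ (by norm_num)
          exact mul_le_mul_of_nonneg_left hy28 (by linarith only [hC])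
      _ = (3072 * C6 * C) * l ^ 19 * (W * N) / √Q := by ring
      _ ≤ (3072 * C6 * C) * l ^ 19 * (Real.exp (2 * w) * l ^ 4) / √Q := by
          apply div_le_div_of_nonneg_right _ (Real.sqrt_nonneg _)
          apply mul_le_mul_of_nonneg_left _ (by positivity)
          exact mul_le_mul hW hN2 (by linarith only [hN0]) (Real.exp_pos _).le
      _ ≤ 1 / (16 * w) := by
          rw [hsQ, div_le_div_iff₀ (Real.exp_pos _) (by positivity), one_mul]
          have h6 : 49152 * C6 * C ≤ l := by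
            have := h.ll
            have := h.hDl
            have := h.hD
            linarith
          calc (3072 * C6 * C) * l ^ 19 * (Real.exp (2 * w) * l ^ 4) * (16 * w) =
                (49152 * C6 * C) * w * l ^ 23 * Real.exp (2 * w) := by ring
            _ ≤ l * l * l ^ 23 * Real.exp (2 * w) := by
                apply mul_le_mul_of_nonneg_right _ (Real.exp_pos _).le
                apply mul_le_mul_of_nonneg_right _ (by positivity)
                exact mul_le_mul h6 hwl hw0.le hl0.le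
            _ = Real.exp (25 * Real.log l) * Real.exp (2 * w) := by
                have := h.exp_log_mul 25
                push_cast at this
                rw [this]
                ring
            _ = Real.exp (25 * Real.log l + 2 * w) := (Real.exp_add _ _).symm
            _ ≤ Real.exp (l / 2) := by
                apply Real.exp_le_exp.2
                have h7 := h.ll
                have h8 := h.wl3
                have h9 : l / D ≤ l / 30 := div_le_div_of_nonneg_left hl0.le (by norm_num) h.hD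
                linarith only [h7, h8, h9, hl0]
  -- third
  have p3 : V * (2 * B * (J / (X - 1))) ≤ 1 / (16 * w) := by
    have hX0 : 0 < X - 1 := lt_of_lt_of_le (by positivity) hX
    have h1 : J / (X - 1) ≤ 2 / N := by
      calc J / (X - 1) ≤ (Hr / (W * N)) / (Hr / (2 * W)) :=
            div_le_div₀ (by positivity) hJ1 (by positivity) hX
        _ = 2 / N := by field_simp
    calc V * (2 * B * (J / (X - 1))) ≤ 1 * (2 * B * (2 / N)) := by
          apply mul_le_mul hV1 _ (by positivity) zero_le_one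
          exact mul_le_mul_of_nonneg_left h1 (by positivity)
      _ = 4 * B / N := by ring
      _ ≤ 1 / (16 * w) := by
          rw [div_le_div_iff₀ (by linarith only [hN0]) (by positivity), one_mul]
          linarith only [hN1]
  have e : V * (ρ * (E1 + E2 / √J) + 2 * B * (J / (X - 1))) =
      V * (ρ * E1) + V * (ρ * (E2 / √J)) + V * (2 * B * (J / (X - 1))) := by ring
  rw [e]
  have e2 : 1 / (4 * w) = 4 * (1 / (16 * w)) := by
    field_simp
    norm_num
  have h16 : 0 ≤ 1 / (16 * w) := by positivity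
  rw [e2]
  linarith only [p1, p2, p3, h16]

end Par

end Pool.Agent.R521.F6
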