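import Pool.Agent.R521.F6.U12
import Pool.Agent.R521.F6.F3

set_option autoImplicit false

/-!
# Almost all admissible sets
-/

open Finset Filter
open scoped Real

namespace Pool.Agent.R521.F6

open Pool.Agent.H373R2.T7 (pz Vz lamz mem_pz Vz_pos Vz_le_one)

/-- admissible sets -/
def Adm (A : Finset ℕ) : Prop := ∀ p : ℕ, p.Prime → ∃ c : ℕ, ∀ a ∈ A, ¬ a ≡ c [MOD p]

lemma adm_iff {w : ℕ} {A : Finset ℕ} (hA : A.card ≤ w) : Adm A ↔ om w A ≠ 0 := by
  unfold om
  rw [prod_ne_zero_iff]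
  constructor
  · intro h p hp
    obtain ⟨c, hc⟩ := h p (mem_pz.1 hp).2
    have h1 : c % p ∈ miss p A := by
      rw [mem_miss]
      exact ⟨Nat.mod_lt _ (mem_pz.1 hp).2.pos, fun a ha h2 => hc a ha (h2.trans (Nat.mod_modEq _ _))⟩
    have h2 : 0 < (miss p A).card := card_pos.2 ⟨_, h1⟩
    exact_mod_cast h2.ne'
  · intro h p hp
    rcases le_or_gt p w with h1 | h1
    · have h2 := h p (mem_pz.2 ⟨h1, hp⟩)
      have h3 : (miss p A).card ≠ 0 := by exact_mod_cast h2
      obtain ⟨c, hc⟩ := card_pos.1 (Nat.pos_of_ne_zero h3)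
      exact ⟨c, (mem_miss.1 hc).2⟩
    · by_contra hcon
      push Not at hcon
      have h2 : range p ⊆ A.image (fun a => a % p) := by
        intro c hc
        rw [mem_range] at hc
        obtain ⟨a, ha, h3⟩ := hcon c
        rw [mem_image]
        refine ⟨a, ha, ?_⟩
        have h4 : a % p = c % p := h3
        rwa [Nat.mod_eq_of_lt hc] at h4
      have h3 := card_le_card h2
      rw [card_range] at h3
      have h4 := card_image_le (s := A) (f := fun a => a % p)
      omega

/-- the classes of a choice function -/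
noncomputable def bf (w : ℕ) (f : (p : ℕ) → p ∈ pz w → ℕ) : ℕ → ℕ := by
  classical
  exact fun p => if h : p ∈ pz w then f p h else 0

lemma bf_apply {w : ℕ} (f : (p : ℕ) → p ∈ pz w → ℕ) {p : ℕ} (hp : p ∈ pz w) : bf w f p = f p hp := by
  unfold bf
  simp [hp]

open Classical in
/-- the number of systems of classes missed by a set -/
lemma card_bf {w H : ℕ} {A : Finset ℕ} (hA : A ⊆ range (H + 1)) :
    ((((pz w).pi (fun p => range p)).filter (fun f => A ⊆ Sb w (bf w f) H)).card : ℝ) = om w A := by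
  have h1 : ((pz w).pi (fun p => range p)).filter (fun f => A ⊆ Sb w (bf w f) H) =
      (pz w).pi (fun p => miss p A) := by
    ext f
    rw [mem_filter, Finset.mem_pi, Finset.mem_pi]
    constructor
    · rintro ⟨h1, h2⟩ p hp
      rw [mem_miss]
      refine ⟨mem_range.1 (h1 p hp), fun a ha h3 => ?_⟩
      have h4 := (mem_Sb.1 (h2 ha)).2 p hp
      rw [bf_apply f hp] at h4
      exact h4 h3
    · intro h1
      refine ⟨fun p hp => mem_range.2 (mem_miss.1 (h1 p hp)).1, fun a ha => ?_⟩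
      rw [mem_Sb]
      refine ⟨by have := mem_range.1 (hA ha); omega, fun p hp => ?_⟩
      rw [bf_apply f hp]
      exact (mem_miss.1 (h1 p hp)).2 a ha
  rw [h1, card_pi]
  unfold om
  push_cast
  rfl

open Classical in
/-- the sum of the weights over all systems of classes -/
lemma sum_bf {w H k : ℕ} (P : Finset ℕ → Prop) :
    ∑ f ∈ (pz w).pi (fun p => range p), ∑ A ∈ ((Sb w (bf w f) H).powersetCard k).filter P, wt w A =
      ((((range (H + 1)).powersetCard k).filter (fun A => om w A ≠ 0 ∧ P A)).card : ℝ) := by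
  have h1 : ∀ f ∈ (pz w).pi (fun p => range p),
      ∑ A ∈ ((Sb w (bf w f) H).powersetCard k).filter P, wt w A =
      ∑ A ∈ ((range (H + 1)).powersetCard k).filter P, (if A ⊆ Sb w (bf w f) H then wt w A else 0) := by
    intro f _
    rw [← sum_filter, filter_filter]
    apply sum_congr _ fun _ _ => rfl
    ext A
    rw [mem_filter, mem_filter, mem_powersetCard, mem_powersetCard]
    constructor
    · rintro ⟨⟨h2, h3⟩, h4⟩
      exact ⟨⟨h2.trans (filter_subset _ _), h3⟩, h4, h2⟩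
    · rintro ⟨⟨_, h3⟩, h4, h5⟩
      exact ⟨⟨h5, h3⟩, h4⟩
  rw [sum_congr rfl h1, sum_comm]
  have h2 : ∀ A ∈ ((range (H + 1)).powersetCard k).filter P,
      ∑ f ∈ (pz w).pi (fun p => range p), (if A ⊆ Sb w (bf w f) H then wt w A else 0) =
      if om w A ≠ 0 then 1 else 0 := by
    intro A hA
    rw [mem_filter, mem_powersetCard] at hA
    rw [← sum_filter, sum_const, nsmul_eq_mul, card_bf hA.1.1]
    unfold wt
    split_ifs with h3
    · exact mul_inv_cancel₀ h3
    · push Not at h3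
      rw [h3, zero_mul]
  rw [sum_congr rfl h2, ← sum_filter, sum_const, nsmul_eq_mul, mul_one, filter_filter]
  congr 2
  ext A
  simp only [mem_filter]
  tauto

open Classical in
/-- **almost all admissible sets, at a good scale** -/
theorem scale_adm {δ : ℝ} (hδ : 0 < δ) : ∃ c₁ : ℝ, 0 < c₁ ∧ (∀ Q0 : ℕ, ∃ Q, Q0 ≤ Q ∧ NRZ c₁ Q) ∧
    ∃ D : ℝ, 30 ≤ D ∧
    ∀ Q H w : ℕ, NRZ c₁ Q → Par D (Real.log Q) (Real.log H) w → Real.log H + 2 ≤ Real.log Q ^ 2 →
      ∀ k : ℕ, 1 ≤ k → k ≤ w →
      ((((range (H + 1)).powersetCard k).filter (fun A => Adm A ∧ ((((Icc 1 H).filter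
        (fun n => ∀ a ∈ A, (n + a).Prime)).card : ℕ) : ℝ) ≤ (H : ℝ) ^ (1 - δ))).card : ℝ) ≤
        2040 * ((k : ℝ) / w) * (((range (H + 1)).powersetCard k).filter (fun A => Adm A)).card := by
  obtain ⟨c₁, hc₁, hgood, D, hD, hmain⟩ := scale_theorem_w hδ
  refine ⟨c₁, hc₁, hgood, D, hD, fun Q H w hN hPar hyl k hk hkw => ?_⟩
  have h1 : ∑ f ∈ (pz w).pi (fun p => range p), ∑ A ∈ ((Sb w (bf w f) H).powersetCard k).filter
      (fun A => ((((Icc 1 H).filter (fun n => ∀ a ∈ A, (n + a).Prime)).card : ℕ) : ℝ) ≤ (H : ℝ) ^ (1 - δ)), wt w A ≤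
      ∑ f ∈ (pz w).pi (fun p => range p), 2040 * ((k : ℝ) / w) *
        ∑ A ∈ (Sb w (bf w f) H).powersetCard k, wt w A := by
    apply sum_le_sum
    intro f _
    exact hmain Q H w hN hPar hyl (bf w f) k hk hkw
  have e3 : ∑ f ∈ (pz w).pi (fun p => range p), ∑ A ∈ (Sb w (bf w f) H).powersetCard k, wt w A =
      ((((range (H + 1)).powersetCard k).filter (fun A => om w A ≠ 0)).card : ℝ) := by
    have h := sum_bf (w := w) (H := H) (k := k) (fun _ => True)
    simp only [and_true, filter_true] at h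
    exact h
  rw [← mul_sum, sum_bf, e3] at h1
  have e1 : ((range (H + 1)).powersetCard k).filter (fun A => Adm A ∧ ((((Icc 1 H).filter
        (fun n => ∀ a ∈ A, (n + a).Prime)).card : ℕ) : ℝ) ≤ (H : ℝ) ^ (1 - δ)) =
      ((range (H + 1)).powersetCard k).filter (fun A => om w A ≠ 0 ∧ ((((Icc 1 H).filter
        (fun n => ∀ a ∈ A, (n + a).Prime)).card : ℕ) : ℝ) ≤ (H : ℝ) ^ (1 - δ)) := by
    apply filter_congr
    intro A hA
    rw [adm_iff (w := w) (by rw [(mem_powersetCard.1 hA).2]; exact hkw)]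
  have e2 : ((range (H + 1)).powersetCard k).filter (fun A => Adm A) =
      ((range (H + 1)).powersetCard k).filter (fun A => om w A ≠ 0) := by
    apply filter_congr
    intro A hA
    rw [adm_iff (w := w) (by rw [(mem_powersetCard.1 hA).2]; exact hkw)]
  rw [e1, e2]
  exact h1

open Classical in
/-- **almost all admissible sets, for arbitrarily large `x`** -/
theorem main_adm {η : ℝ} (hη : 0 < η) (hη1 : η < 1) : ∃ c C : ℝ, 0 < c ∧ 0 < C ∧ ∀ X0 : ℝ, ∃ x : ℝ, X0 ≤ x ∧
    Real.exp 1 < x ∧ ∀ H : ℕ, x ^ η ≤ H → (H : ℝ) ≤ x → ∀ k : ℕ, 1 ≤ k →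
      (k : ℝ) ≤ c * Real.log x / Real.log (Real.log x) ^ 2 →
      ((((range (H + 1)).powersetCard k).filter (fun A => Adm A ∧ ((((Icc 1 H).filter
        (fun n => ∀ a ∈ A, (n + a).Prime)).card : ℕ) : ℝ) ≤ (H : ℝ) ^ (1 - η))).card : ℝ) ≤
        C * k * Real.log (Real.log x) ^ 2 / Real.log x *
          (((range (H + 1)).powersetCard k).filter (fun A => Adm A)).card := by
  obtain ⟨c₁, hc₁, hgood, D, hD30, hmain⟩ := scale_adm hη
  have hD0 : 0 < D := by linarith only [hD30]
  refine ⟨η / D ^ 2, 4080 * D ^ 2 / η, by positivity, by positivity, fun X0 => ?_⟩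
  obtain ⟨l0, hl0⟩ := (ev_params D (2 * (D / η)) (by linarith only [hD30])).exists_forall_of_atTop
  obtain ⟨Q, hQ, hN⟩ := hgood (max ⌈Real.exp l0⌉₊ (max ⌈Real.exp X0⌉₊ 2))
  obtain ⟨l, hl⟩ : ∃ l : ℝ, l = Real.log Q := ⟨_, rfl⟩
  have hQ2 : 2 ≤ Q := (le_max_right _ _).trans ((le_max_right _ _).trans hQ)
  have hQ0 : (0 : ℝ) < Q := by exact_mod_cast (by omega : 0 < Q)
  have hll0 : l0 ≤ l := by
    rw [hl, Real.le_log_iff_exp_le hQ0]
    exact (Nat.le_ceil _).trans (Nat.cast_le.2 ((le_max_left _ _).trans hQ))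
  have hlX0 : X0 ≤ l := by
    rw [hl, Real.le_log_iff_exp_le hQ0]
    exact (Nat.le_ceil _).trans (Nat.cast_le.2 ((le_max_left _ _).trans ((le_max_right _ _).trans hQ)))
  obtain ⟨g1, g2, g3⟩ := hl0 l hll0
  have hlog30 : 30 ≤ Real.log l := hD30.trans g1
  obtain ⟨X, hX⟩ : ∃ X : ℝ, X = D / η * (l * Real.log l) := ⟨_, rfl⟩
  have hDη : 1 ≤ D / η := by
    rw [le_div_iff₀ hη]
    linarith only [hη1, hD30]
  have hll : l ≤ l * Real.log l := by nlinarith only [g3, hlog30]
  have hXl : l * Real.log l ≤ X := by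
    rw [hX]
    have : 0 ≤ l * Real.log l := by linarith only [hll, g3]
    have := mul_le_mul_of_nonneg_right hDη this
    linarith only [this]
  have hX1 : 30 ≤ X := by nlinarith only [hXl, g3, hlog30]
  refine ⟨Real.exp X, ?_, ?_, ?_⟩
  · have := Real.add_one_le_exp X
    linarith only [this, hXl, hll, hlX0]
  · exact Real.exp_lt_exp.2 (by linarith only [hX1])
  · intro H hH1 hH2 k hk hkx
    rw [Real.log_exp] at hkx ⊢
    have hH0 : (0 : ℝ) < H := lt_of_lt_of_le (Real.rpow_pos_of_pos (Real.exp_pos _) _) hH1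
    have hy1 : η * X ≤ Real.log H := by
      rw [Real.le_log_iff_exp_le hH0]
      refine le_trans (le_of_eq ?_) hH1
      rw [← Real.exp_mul, mul_comm]
    have hy2 : Real.log H ≤ X := by
      rw [← Real.log_exp X]
      exact Real.log_le_log hH0 hH2
    have hηX : η * X = D * l * Real.log l := by
      rw [hX]
      field_simp
    have hlogX : Real.log l ≤ Real.log X := by
      apply Real.log_le_log (by linarith only [g3])
      linarith only [hXl, hll]
    have hlogX0 : 0 < Real.log X := by linarith only [hlogX, hlog30]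
    obtain ⟨R, hR⟩ : ∃ R : ℝ, R = η / D ^ 2 * X / Real.log X ^ 2 := ⟨_, rfl⟩
    rw [← hR] at hkx
    have hk1 : (1 : ℝ) ≤ k := by exact_mod_cast hk
    have hR1 : 1 ≤ R := hk1.trans hkx
    obtain ⟨w, hw⟩ : ∃ w : ℕ, w = ⌊R⌋₊ := ⟨_, rfl⟩
    have hwR : (w : ℝ) ≤ R := by rw [hw]; exact Nat.floor_le (by linarith only [hR1])
    have hkw : k ≤ w := by rw [hw]; exact Nat.le_floor hkx
    have hw1 : 1 ≤ w := hk.trans hkw
    have hw1' : (1 : ℝ) ≤ w := by exact_mod_cast hw1
    have hRw : R ≤ 2 * w := by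
      have := Nat.lt_floor_add_one R
      rw [← hw] at this
      linarith only [this, hw1']
    have hX1' : X + 1 + X ≤ l ^ 2 := by
      rw [hX]
      linarith only [g2]
    have hPar : Par D (Real.log Q) (Real.log H) w := by
      rw [← hl]
      refine ⟨hD30, g1, g3, by rw [← hηX]; exact hy1, by linarith only [hy2, hX1', hX1], ?_, hw1'⟩
      have h1 : (w : ℝ) ≤ η / D ^ 2 * X / Real.log l ^ 2 := by
        refine hwR.trans ?_
        rw [hR]
        apply div_le_div_of_nonneg_left (by positivity) (by positivity)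
        exact pow_le_pow_left₀ (by linarith only [hlog30]) hlogX 2
      have h2 : η / D ^ 2 * X / Real.log l ^ 2 = l / (D * Real.log l) := by
        rw [hX]
        field_simp
      rw [h2, le_div_iff₀ (by positivity)] at h1
      linarith only [h1]
    refine (hmain Q H w hN hPar (by rw [← hl]; linarith only [hy2, hX1', hX1]) k hk hkw).trans ?_
    apply mul_le_mul_of_nonneg_right _ (Nat.cast_nonneg _)
    have hw0 : (0 : ℝ) < w := by linarith only [hw1']
    have h5 : 1 / (w : ℝ) ≤ 2 / R := by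
      rw [div_le_div_iff₀ hw0 (by linarith only [hR1])]
      linarith only [hRw]
    calc 2040 * ((k : ℝ) / w) = 2040 * k * (1 / w) := by ring
      _ ≤ 2040 * k * (2 / R) := mul_le_mul_of_nonneg_left h5 (by positivity)
      _ = 4080 * D ^ 2 / η * k * Real.log X ^ 2 / X := by
        rw [hR]
        field_simp
        ring

end Pool.Agent.R521.F6
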