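import Pool.Agent.R521.F6.U1

set_option autoImplicit false

/-!
# The regularity of the weight
-/

open Finset
open scoped Real

namespace Pool.Agent.R521.F6

open Pool.Agent.H373R2.T7 (pz Vz lamz mem_pz Vz_pos Vz_le_one count_sys)

lemma rt_nonneg {p : ℕ} {E : Finset ℕ} (h : 1 ≤ (miss p E).card) (r : ℕ) : 0 ≤ rt p E r := by
  unfold rt
  have h1 : (1 : ℝ) ≤ (miss p E).card := by exact_mod_cast h
  split_ifs
  · exact div_nonneg (by linarith only [h1]) (by linarith only [h1])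
  · exact zero_le_one

lemma one_le_rt {w : ℕ} {b : ℕ → ℕ} {E : Finset ℕ} (h : okE w b E) {p : ℕ} (hp : p ∈ pz w) {r : ℕ}
    (hr : r ≠ b p % p) : 1 ≤ rt p E r := by
  unfold rt
  split_ifs with h1
  · have h2 : ({r, b p % p} : Finset ℕ) ⊆ miss p E := by
      intro x hx
      rw [mem_insert, mem_singleton] at hx
      rcases hx with rfl | rfl
      · exact h1
      · exact b_mem_miss h hp
    have h3 := card_le_card h2
    rw [card_pair hr] at h3
    have h4 : (2 : ℝ) ≤ (miss p E).card := by exact_mod_cast h3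
    rw [one_le_div (by linarith only [h4])]
    linarith only
  · exact le_rfl

lemma local_sum {w : ℕ} {b : ℕ → ℕ} {E : Finset ℕ} (h : okE w b E) {p : ℕ} (hp : p ∈ pz w) :
    ∑ r ∈ range p, (if r = b p % p then 0 else rt p E r ^ 2) ≤ (p : ℝ) + 2 := by
  classical
  obtain ⟨m, hm⟩ : ∃ m : ℕ, m = (miss p E).card := ⟨_, rfl⟩
  have hb := b_mem_miss h hp
  have hm1 : 1 ≤ m := hm ▸ miss_pos h hp
  have hsub : miss p E ⊆ range p := filter_subset _ _
  have hmp : m ≤ p := by
    have := card_le_card hsub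
    rw [card_range, ← hm] at this
    exact this
  rw [← sum_sdiff hsub]
  have h1 : ∑ r ∈ range p \ miss p E, (if r = b p % p then (0 : ℝ) else rt p E r ^ 2) ≤ p - m := by
    calc _ ≤ ∑ _r ∈ range p \ miss p E, (1 : ℝ) := by
          apply sum_le_sum
          intro r hr
          rw [mem_sdiff] at hr
          split_ifs
          · exact zero_le_one
          · unfold rt
            rw [if_neg hr.2, one_pow]
      _ = _ := by
          rw [sum_const, nsmul_eq_mul, mul_one, card_sdiff_of_subset hsub, card_range, ← hm, Nat.cast_sub hmp]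
  have h2 : ∑ r ∈ miss p E, (if r = b p % p then (0 : ℝ) else rt p E r ^ 2) ≤ m + 2 := by
    have h3 : ∑ r ∈ miss p E, (if r = b p % p then (0 : ℝ) else rt p E r ^ 2) =
        ((m : ℝ) - 1) * ((m : ℝ) / (m - 1)) ^ 2 := by
      rw [← add_sum_erase _ _ hb, if_pos rfl, zero_add]
      have h4 : ∀ r ∈ (miss p E).erase (b p % p), (if r = b p % p then (0 : ℝ) else rt p E r ^ 2) =
          ((m : ℝ) / (m - 1)) ^ 2 := by
        intro r hr
        rw [mem_erase] at hr
        rw [if_neg hr.1]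
        unfold rt
        rw [if_pos hr.2, ← hm]
      rw [sum_congr rfl h4, sum_const, card_erase_of_mem hb, ← hm, nsmul_eq_mul, Nat.cast_sub hm1]
      push_cast
      ring
    rw [h3]
    rcases Nat.lt_or_ge m 2 with h5 | h5
    · have : m = 1 := by omega
      rw [this]
      norm_num
    · have h6 : (2 : ℝ) ≤ m := by exact_mod_cast h5
      have h7 : 0 < (m : ℝ) - 1 := by linarith only [h6]
      have h8 : ((m : ℝ) - 1) * ((m : ℝ) / (m - 1)) ^ 2 = (m : ℝ) ^ 2 / (m - 1) := by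
        field_simp
      rw [h8, div_le_iff₀ h7]
      nlinarith only [h6]
  linarith only [h1, h2]

/-- the square mean of the ratio -/
theorem sum_rt2 {w : ℕ} {b : ℕ → ℕ} {E : Finset ℕ} (h : okE w b E) {H : ℕ} (hW : Wp w ≤ (H : ℝ) + 1) :
    ∑ c ∈ Sb w b H, (∏ p ∈ pz w, rt p E (c % p)) ^ 2 ≤
      2 * ((H : ℝ) + 1) * Real.exp (2 * ∑ p ∈ pz w, 1 / (p : ℝ)) := by
  have h1 : ∀ c ∈ Sb w b H, (∏ p ∈ pz w, rt p E (c % p)) ^ 2 =
      ∏ p ∈ pz w, (if c % p = b p % p then 0 else rt p E (c % p) ^ 2) := by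
    intro c hc
    rw [← prod_pow]
    apply prod_congr rfl
    intro p hp
    rw [if_neg]
    intro h2
    exact (mem_Sb.1 hc).2 p hp h2
  rw [sum_congr rfl h1]
  have h0 : ∀ p r : ℕ, (0 : ℝ) ≤ (if r = b p % p then 0 else rt p E r ^ 2) := by
    intro p r
    split_ifs
    · exact le_rfl
    · exact sq_nonneg _
  have h2 := per_sum (pz w) (fun p r => if r = b p % p then 0 else rt p E r ^ 2) h0 (H + 1)
    (fun p hp => (mem_pz.1 hp).2) 1 le_rfl (fun p hp hd => by
      rw [Nat.dvd_one] at hd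
      exact (mem_pz.1 hp).2.one_lt.ne' hd) (by
      rw [one_mul]
      have : ((∏ p ∈ pz w, p : ℕ) : ℝ) ≤ ((H + 1 : ℕ) : ℝ) := by
        push_cast
        exact hW
      exact_mod_cast this) 0
  have h3 : (range (H + 1)).filter (fun a => a ≡ 0 [MOD 1]) = range (H + 1) := by
    rw [filter_true_of_mem]
    intro a _
    exact Nat.modEq_one
  rw [h3] at h2
  calc _ ≤ ∑ c ∈ range (H + 1), ∏ p ∈ pz w, (if c % p = b p % p then 0 else rt p E (c % p) ^ 2) :=
        sum_le_sum_of_subset_of_nonneg (filter_subset _ _)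
          (fun c _ _ => prod_nonneg fun p _ => h0 p (c % p))
    _ ≤ _ := h2
    _ ≤ 2 * ((H : ℝ) + 1) * ∏ p ∈ pz w, Real.exp (2 * (1 / (p : ℝ))) := by
        push_cast
        rw [div_one]
        apply mul_le_mul_of_nonneg_left _ (by positivity)
        apply prod_le_prod
        · intro p _
          exact div_nonneg (sum_nonneg fun r _ => h0 p r) (Nat.cast_nonneg _)
        · intro p hp
          have hp0 : (0 : ℝ) < p := by exact_mod_cast (mem_pz.1 hp).2.pos
          calc _ ≤ ((p : ℝ) + 2) / p := div_le_div_of_nonneg_right (local_sum h hp) hp0.le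
            _ = 2 * (1 / (p : ℝ)) + 1 := by field_simp; ring
            _ ≤ _ := Real.add_one_le_exp _
    _ = _ := by
        rw [← Real.exp_sum, ← mul_sum]

/-- the inverse weights -/
lemma inv_om_insert {w : ℕ} {b : ℕ → ℕ} {E : Finset ℕ} {c H : ℕ} (h : okE w b E) (hc : c ∈ Sb w b H) :
    (om w (insert c E))⁻¹ = (om w E)⁻¹ * ∏ p ∈ pz w, rt p E (c % p) := by
  have h1 := om_ratio h hc
  have h2 := one_le_om h
  have h3 := one_le_om (okE_insert h hc)
  have h4 : om w (insert c E) ≠ 0 := by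
    intro h5
    linarith only [h3, h5]
  have h5 : om w E ≠ 0 := by
    intro h6
    linarith only [h2, h6]
  field_simp
  exact h1

lemma inv_om_mono {w : ℕ} {b : ℕ → ℕ} {E : Finset ℕ} {c H : ℕ} (h : okE w b E) (hc : c ∈ Sb w b H) :
    (om w E)⁻¹ ≤ (om w (insert c E))⁻¹ := by
  have h3 := one_le_om (okE_insert h hc)
  exact inv_anti₀ (by linarith only [h3]) (om_anti (subset_insert _ _))

/-- **the regularity of the weight** -/
theorem om_reg {w : ℕ} {b : ℕ → ℕ} {E : Finset ℕ} (h : okE w b E) {H : ℕ} (hW : Wp w ≤ (H : ℝ) + 1)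
    (hS : 0 < (Sb w b H).card) :
    √(∑ c ∈ Sb w b H, ((om w (insert c E))⁻¹) ^ 2) ≤
      √(2 * ((H : ℝ) + 1) * Real.exp (2 * ∑ p ∈ pz w, 1 / (p : ℝ))) / (Sb w b H).card *
        ∑ c ∈ Sb w b H, (om w (insert c E))⁻¹ := by
  have h0 := one_le_om h
  have h00 : 0 < om w E := by linarith only [h0]
  have hS0 : (0 : ℝ) < (Sb w b H).card := by exact_mod_cast hS
  have h1 : ∑ c ∈ Sb w b H, ((om w (insert c E))⁻¹) ^ 2 ≤
      ((om w E)⁻¹) ^ 2 * (2 * ((H : ℝ) + 1) * Real.exp (2 * ∑ p ∈ pz w, 1 / (p : ℝ))) := by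
    have h2 : ∀ c ∈ Sb w b H, ((om w (insert c E))⁻¹) ^ 2 =
        ((om w E)⁻¹) ^ 2 * (∏ p ∈ pz w, rt p E (c % p)) ^ 2 := by
      intro c hc
      rw [inv_om_insert h hc, mul_pow]
    rw [sum_congr rfl h2, ← mul_sum]
    exact mul_le_mul_of_nonneg_left (sum_rt2 h hW) (sq_nonneg _)
  have h2 : ((Sb w b H).card : ℝ) * (om w E)⁻¹ ≤ ∑ c ∈ Sb w b H, (om w (insert c E))⁻¹ := by
    rw [← nsmul_eq_mul]
    exact card_nsmul_le_sum _ _ _ fun c hc => inv_om_mono h hc
  calc _ ≤ √(((om w E)⁻¹) ^ 2 * (2 * ((H : ℝ) + 1) * Real.exp (2 * ∑ p ∈ pz w, 1 / (p : ℝ)))) :=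
        Real.sqrt_le_sqrt h1
    _ = (om w E)⁻¹ * √(2 * ((H : ℝ) + 1) * Real.exp (2 * ∑ p ∈ pz w, 1 / (p : ℝ))) := by
        rw [Real.sqrt_mul (sq_nonneg _), Real.sqrt_sq (inv_nonneg.2 h00.le)]
    _ = √(2 * ((H : ℝ) + 1) * Real.exp (2 * ∑ p ∈ pz w, 1 / (p : ℝ))) / (Sb w b H).card *
        (((Sb w b H).card : ℝ) * (om w E)⁻¹) := by
        field_simp
    _ ≤ _ := mul_le_mul_of_nonneg_left h2 (by positivity)

end Pool.Agent.R521.F6
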