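import Pool.Agent.R521.F6.U2

set_option autoImplicit false

/-!
# The model in residue classes
-/

open Finset
open scoped Real

namespace Pool.Agent.R521.F6

open Pool.Agent.H373R2.T7 (pz Vz lamz mem_pz Vz_pos Vz_le_one es bonf sieve_gen' es_le bonf_ind
  card_small prod_dvd_iff prod_le_pow card_pz_le lamz_nonneg es_nonneg count_sys)

/-- the sieve error in a class -/
noncomputable def qerr (X : ℝ) (Q r : ℕ) : ℝ :=
  (2 * ((Q : ℝ) + 1)) ^ r + 2 * X * Real.exp (6 * ∑ p ∈ pz Q, 1 / (p : ℝ) - r)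

lemma card_sets_sub (Q r : ℕ) (D : Finset ℕ) (hD : D ⊆ pz Q) :
    ∑ j ∈ range (r + 1), ((D.powersetCard j).card : ℝ) ≤ ((Q : ℝ) + 1) ^ r := by
  refine le_trans (sum_le_sum fun j _ => ?_) (card_sets' Q r)
  exact Nat.cast_le.2 (card_le_card (powersetCard_mono hD))

/-- the sieve in a class -/
theorem sieve_cls (A : ℕ → ℕ → Prop) [∀ p a, Decidable (A p a)] (x Q r q c : ℕ) (D : Finset ℕ) (hD : D ⊆ pz Q)
    (hq : 1 ≤ q) (hqD : ∀ p ∈ D, ¬ p ∣ q)
    (hρ : ∀ p ∈ D, ((range p).filter (fun c => A p c)).card ≤ 2) :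
    |(((Icc 1 x).filter (fun n => n ≡ c [MOD q] ∧ ∀ p ∈ D, ¬ A p (n % p))).card : ℝ) -
      (x : ℝ) / q * ∏ p ∈ D, (1 - (((range p).filter (fun c => A p c)).card : ℝ) / p)| ≤
      qerr ((x : ℝ) / q) Q r := by
  set ρ : ℕ → ℝ := fun p => (((range p).filter (fun c => A p c)).card : ℝ) with hρd
  have hρ0 : ∀ p, 0 ≤ ρ p := fun p => Nat.cast_nonneg _
  have hρ2 : ∀ p ∈ D, ρ p ≤ 2 := fun p hp => by
    show (((range p).filter (fun c => A p c)).card : ℝ) ≤ 2
    have := hρ p hp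
    calc (((range p).filter (fun c => A p c)).card : ℝ) ≤ ((2 : ℕ) : ℝ) := Nat.cast_le.2 this
      _ = 2 := by norm_num
  have hρp : ∀ p, ρ p ≤ (p : ℝ) := fun p => by
    have : ((range p).filter (fun c => A p c)).card ≤ p := (card_filter_le _ _).trans (by simp)
    show (((range p).filter (fun c => A p c)).card : ℝ) ≤ p
    exact Nat.cast_le.2 this
  have key := sieve_gen' ((Icc 1 x).filter (fun n => n ≡ c [MOD q])) (fun _ => (1 : ℝ)) (fun _ _ => zero_le_one)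
    (fun p n => A p (n % p)) D (fun p => ρ p / p) (fun p hp => by
      have hp0 : (0 : ℝ) < p := by exact_mod_cast (mem_pz.1 (hD hp)).2.pos
      constructor
      · have := hρ0 p
        positivity
      · rw [div_le_one hp0]
        exact hρp p) ((x : ℝ) / q) (by positivity) (fun _ => (2 : ℝ) ^ r) r (by
      intro S hS hr
      have hSp : ∀ p ∈ S, p.Prime := fun p hp => (mem_pz.1 (hD (hS hp))).2
      have h := count_sys A x S hSp q hq (fun p hp => hqD p (hS hp)) c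
      have h3 : ∑ i ∈ (Icc 1 x).filter (fun n => n ≡ c [MOD q]) with ∀ p ∈ S, A p (i % p), (1 : ℝ) =
          (((Icc 1 x).filter (fun n => n ≡ c [MOD q] ∧ ∀ p ∈ S, A p (n % p))).card : ℝ) := by
        rw [sum_const, nsmul_eq_mul, mul_one, filter_filter]
      rw [h3]
      refine h.trans ?_
      calc ∏ p ∈ S, ρ p ≤ ∏ _p ∈ S, (2 : ℝ) := prod_le_prod (fun p _ => hρ0 p) fun p hp => hρ2 p (hS hp)
        _ = 2 ^ S.card := by rw [prod_const]
        _ ≤ 2 ^ r := pow_le_pow_right₀ (by norm_num) hr)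
  have e2 : ∑ i ∈ (Icc 1 x).filter (fun n => n ≡ c [MOD q]) with ∀ p ∈ D, ¬ A p (i % p), (1 : ℝ) =
      (((Icc 1 x).filter (fun n => n ≡ c [MOD q] ∧ ∀ p ∈ D, ¬ A p (n % p))).card : ℝ) := by
    rw [sum_const, nsmul_eq_mul, mul_one, filter_filter]
  rw [e2] at key
  refine key.trans ?_
  unfold qerr
  apply add_le_add
  · simp only [sum_const, nsmul_eq_mul]
    rw [← sum_mul, mul_pow, mul_comm ((2 : ℝ) ^ r)]
    exact mul_le_mul_of_nonneg_right (card_sets_sub Q r D hD) (by positivity)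
  · apply mul_le_mul_of_nonneg_left _ (by positivity)
    refine (es_le (fun p _ => by have := hρ0 p; positivity) r).trans ?_
    apply Real.exp_le_exp.2
    have h6 : ∑ p ∈ D, ρ p / (p : ℝ) ≤ ∑ p ∈ D, 2 * (1 / (p : ℝ)) := by
      apply sum_le_sum
      intro p hp
      have := hρ2 p hp
      calc ρ p / (p : ℝ) ≤ 2 / p := by gcongr
        _ = _ := by ring
    rw [← mul_sum] at h6
    have h7 : ∑ p ∈ D, 1 / (p : ℝ) ≤ ∑ p ∈ pz Q, 1 / (p : ℝ) :=
      sum_le_sum_of_subset_of_nonneg hD (fun _ _ _ => by positivity)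
    linarith

/-- the product of the primes up to `w`, a natural number -/
def Wn (w : ℕ) : ℕ := ∏ p ∈ pz w, p

lemma Wn_cast (w : ℕ) : ((Wn w : ℕ) : ℝ) = Wp w := by
  unfold Wn Wp
  push_cast
  rfl

lemma Wn_pos (w : ℕ) : 1 ≤ Wn w := by
  have := Wp_ge w
  rw [← Wn_cast] at this
  exact_mod_cast this

lemma Wn_cop {w Q p : ℕ} (hp : p ∈ pz Q \ pz w) : ¬ p ∣ Wn w := by
  rw [mem_sdiff, mem_pz, mem_pz] at hp
  intro h
  unfold Wn at h
  rw [Prime.dvd_finset_prod_iff hp.1.2.prime] at h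
  obtain ⟨p', hp', h1⟩ := h
  have := (Nat.prime_dvd_prime_iff_eq hp.1.2 (mem_pz.1 hp').2).1 h1
  rw [this] at hp
  exact hp.2 (mem_pz.1 hp')

lemma dvd_Wn {w p : ℕ} (hp : p ∈ pz w) : p ∣ Wn w := dvd_prod_of_mem _ hp

/-- one shift, in a class -/
theorem cnt_one_cls {w Q : ℕ} (n H r c : ℕ) (hn : 1 ≤ n) :
    |(((range (H + 1)).filter (fun a => a ≡ c [MOD Wn w] ∧ ∀ p ∈ pz Q \ pz w, ¬ p ∣ n + a)).card : ℝ) -
      ((H : ℝ) + 1) / Wp w * ∏ p ∈ pz Q \ pz w, (1 - 1 / (p : ℝ))| ≤ qerr (((H : ℝ) + 1) / Wp w) Q r := by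
  have h := sieve_cls (fun p c => p ∣ (n - 1) + c) (H + 1) Q r (Wn w) (c + 1) (pz Q \ pz w) sdiff_subset
    (Wn_pos w) (fun p hp => Wn_cop hp) (fun p hp => by
    rw [rho_one (mem_pz.1 (mem_sdiff.1 hp).1).2]
    norm_num)
  rw [card_range_shift]
  have e1 : (Icc 1 (H + 1)).filter (fun m => (m - 1) ≡ c [MOD Wn w] ∧ ∀ p ∈ pz Q \ pz w, ¬ p ∣ n + (m - 1)) =
      (Icc 1 (H + 1)).filter (fun m => m ≡ c + 1 [MOD Wn w] ∧ ∀ p ∈ pz Q \ pz w, ¬ p ∣ (n - 1) + m % p) := by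
    apply filter_congr
    intro m hm
    rw [mem_Icc] at hm
    have e : n + (m - 1) = (n - 1) + m := by omega
    simp only [dvd_add_mod, e]
    have h3 : (m - 1) ≡ c [MOD Wn w] ↔ m ≡ c + 1 [MOD Wn w] := by
      constructor
      · intro h4
        have := h4.add_right 1
        rwa [Nat.sub_add_cancel hm.1] at this
      · intro h4
        rw [← Nat.sub_add_cancel hm.1] at h4
        exact Nat.ModEq.add_right_cancel' 1 h4
    rw [h3]
  have e2 : ∏ p ∈ pz Q \ pz w, (1 - ((((range p).filter (fun c => p ∣ (n - 1) + c)).card : ℕ) : ℝ) / p) =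
      ∏ p ∈ pz Q \ pz w, (1 - 1 / (p : ℝ)) := by
    apply prod_congr rfl
    intro p hp
    rw [rho_one (mem_pz.1 (mem_sdiff.1 hp).1).2]
    push_cast
    rfl
  rw [e1]
  rw [e2, Wn_cast] at h
  push_cast at h
  exact h

/-- two shifts, in a class -/
theorem cnt_two_cls {w Q : ℕ} (n m H r c : ℕ) (hn : 1 ≤ n) (hm : 1 ≤ m) :
    |(((range (H + 1)).filter (fun a => a ≡ c [MOD Wn w] ∧ ∀ p ∈ pz Q \ pz w, ¬ (p ∣ n + a ∨ p ∣ m + a))).card : ℝ) -
      ((H : ℝ) + 1) / Wp w * ∏ p ∈ pz Q \ pz w, (1 - rh n m p / p)| ≤ qerr (((H : ℝ) + 1) / Wp w) Q r := by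
  have h := sieve_cls (fun p c => p ∣ (n - 1) + c ∨ p ∣ (m - 1) + c) (H + 1) Q r (Wn w) (c + 1)
    (pz Q \ pz w) sdiff_subset (Wn_pos w) (fun p hp => Wn_cop hp) (fun p hp => by
    rw [rho_two (mem_pz.1 (mem_sdiff.1 hp).1).2]
    split_ifs <;> norm_num)
  rw [card_range_shift]
  have e1 : (Icc 1 (H + 1)).filter (fun l => (l - 1) ≡ c [MOD Wn w] ∧
        ∀ p ∈ pz Q \ pz w, ¬ (p ∣ n + (l - 1) ∨ p ∣ m + (l - 1))) =
      (Icc 1 (H + 1)).filter (fun l => l ≡ c + 1 [MOD Wn w] ∧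
        ∀ p ∈ pz Q \ pz w, ¬ (p ∣ (n - 1) + l % p ∨ p ∣ (m - 1) + l % p)) := by
    apply filter_congr
    intro l hl
    rw [mem_Icc] at hl
    have e : n + (l - 1) = (n - 1) + l := by omega
    have e' : m + (l - 1) = (m - 1) + l := by omega
    simp only [dvd_add_mod, e, e']
    have h3 : (l - 1) ≡ c [MOD Wn w] ↔ l ≡ c + 1 [MOD Wn w] := by
      constructor
      · intro h4
        have := h4.add_right 1
        rwa [Nat.sub_add_cancel hl.1] at this
      · intro h4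
        rw [← Nat.sub_add_cancel hl.1] at h4
        exact Nat.ModEq.add_right_cancel' 1 h4
    rw [h3]
  have e2 : ∏ p ∈ pz Q \ pz w, (1 - ((((range p).filter (fun c => p ∣ (n - 1) + c ∨ p ∣ (m - 1) + c)).card : ℕ) : ℝ) / p) =
      ∏ p ∈ pz Q \ pz w, (1 - rh n m p / p) := by
    apply prod_congr rfl
    intro p hp
    rw [rho_two (mem_pz.1 (mem_sdiff.1 hp).1).2]
    unfold rh
    have h3 : (n - 1 ≡ m - 1 [MOD p]) ↔ (n ≡ m [MOD p]) := by
      constructor
      · intro h4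
        have := h4.add_right 1
        rwa [Nat.sub_add_cancel hn, Nat.sub_add_cancel hm] at this
      · intro h4
        rw [← Nat.sub_add_cancel hn, ← Nat.sub_add_cancel hm] at h4
        exact Nat.ModEq.add_right_cancel' 1 h4
    by_cases h4 : n ≡ m [MOD p]
    · rw [if_pos (h3.2 h4), if_pos h4]
      push_cast
      rfl
    · rw [if_neg (fun h5 => h4 (h3.1 h5)), if_neg h4]
      push_cast
      rfl
  rw [e1]
  rw [e2, Wn_cast] at h
  push_cast at h
  exact h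

end Pool.Agent.R521.F6
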