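import Pool.Agent.R521.F6.U3

set_option autoImplicit false

/-!
# The model in residue classes: relative form
-/

open Finset
open scoped Real

namespace Pool.Agent.R521.F6

open Pool.Agent.H373R2.T7 (pz Vz lamz mem_pz Vz_pos Vz_le_one es bonf sieve_gen' es_le bonf_ind
  card_small prod_dvd_iff prod_le_pow card_pz_le lamz_nonneg es_nonneg count_sys count_class)

lemma modEq_Wn {w a c : ℕ} (h : a ≡ c [MOD Wn w]) {p : ℕ} (hp : p ∈ pz w) : a ≡ c [MOD p] :=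
  h.of_dvd (dvd_Wn hp)

/-- the class of an element of the sifted set -/
lemma cls_eq {w : ℕ} {b : ℕ → ℕ} {H c : ℕ} (hc : c ∈ Sb w b H) :
    (Sb w b H).filter (fun a => a ≡ c [MOD Wn w]) = (range (H + 1)).filter (fun a => a ≡ c [MOD Wn w]) := by
  ext a
  rw [mem_filter, mem_filter, mem_Sb, mem_range, Nat.lt_succ_iff]
  constructor
  · rintro ⟨h1, h2⟩
    exact ⟨h1.1, h2⟩
  · rintro ⟨h1, h2⟩
    refine ⟨⟨h1, fun p hp h3 => ?_⟩, h2⟩
    exact (mem_Sb.1 hc).2 p hp ((modEq_Wn h2 hp).symm.trans h3)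

/-- the size of a class -/
lemma card_cls {w : ℕ} {b : ℕ → ℕ} {H c : ℕ} (hc : c ∈ Sb w b H) :
    |(((Sb w b H).filter (fun a => a ≡ c [MOD Wn w])).card : ℝ) - ((H : ℝ) + 1) / Wp w| ≤ 1 := by
  rw [cls_eq hc, card_range_shift]
  have h := count_class (H + 1) (Wn w) (c + 1) (Wn_pos w)
  have e1 : (Icc 1 (H + 1)).filter (fun m => (m - 1) ≡ c [MOD Wn w]) =
      (Icc 1 (H + 1)).filter (fun m => m ≡ c + 1 [MOD Wn w]) := by
    apply filter_congr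
    intro m hm
    rw [mem_Icc] at hm
    constructor
    · intro h4
      have := h4.add_right 1
      rwa [Nat.sub_add_cancel hm.1] at this
    · intro h4
      rw [← Nat.sub_add_cancel hm.1] at h4
      exact Nat.ModEq.add_right_cancel' 1 h4
  rw [e1]
  rw [Wn_cast] at h
  push_cast at h
  exact h

lemma prod_D {w Q : ℕ} (hwQ : w ≤ Q) : ∏ p ∈ pz Q \ pz w, (1 - 1 / (p : ℝ)) = Vz Q * (Vz w)⁻¹ := by
  have h3 : Vz Q = (∏ p ∈ pz Q \ pz w, (1 - 1 / (p : ℝ))) * Vz w := by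
    unfold Vz
    exact (prod_sdiff (pz_mono hwQ)).symm
  have hw := Vz_pos w
  rw [h3]
  field_simp

lemma prod_rh_D {w Q : ℕ} (hwQ : w ≤ Q) (n m : ℕ) :
    ∏ p ∈ pz Q \ pz w, (1 - rh n m p / (p : ℝ)) ≤ (Vz Q * (Vz w)⁻¹) ^ 2 * Sg w Q n m := by
  rw [← prod_D hwQ]
  unfold Sg
  rw [← prod_pow, ← prod_mul_distrib]
  apply prod_le_prod
  · intro p hp
    have hp2 := (mem_pz.1 (mem_sdiff.1 hp).1).2.two_le
    have hp0 : (2 : ℝ) ≤ p := by exact_mod_cast hp2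
    have : rh n m p ≤ 2 := by unfold rh; split_ifs <;> norm_num
    rw [sub_nonneg, div_le_one (by linarith only [hp0])]
    linarith only [this, hp0]
  · intro p hp
    have hp2 := (mem_pz.1 (mem_sdiff.1 hp).1).2.two_le
    have hp0 : (2 : ℝ) ≤ p := by exact_mod_cast hp2
    have hp1 : (p : ℝ) - 1 ≠ 0 := by
      intro h
      linarith only [h, hp0]
    have hp3 : (p : ℝ) ≠ 0 := by
      intro h
      linarith only [h, hp0]
    unfold rh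
    split_ifs with h
    · apply le_of_eq
      field_simp
      ring
    · have h5 : 0 ≤ (1 / (p : ℝ)) ^ 2 := sq_nonneg _
      have h6 : (2 : ℝ) / p = 2 * (1 / p) := by ring
      rw [h6]
      nlinarith only [h5]

lemma not_dvd_of_mem {w : ℕ} {b : ℕ → ℕ} {H n a : ℕ} (hn : n ∈ Tb w b H) (ha : a ∈ Sb w b H) {p : ℕ}
    (hp : p ∈ pz w) : ¬ p ∣ n + a := by
  rw [Sb_eq hn, mem_filter] at ha
  exact ha.2 p hp

lemma mul_card_filter (U : Finset ℕ) (P : ℕ → Prop) [DecidablePred P] (κ : ℝ) :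
    κ * ((U.filter P).card : ℝ) = ∑ a ∈ U, if P a then κ else 0 := by
  rw [← sum_filter, sum_const, nsmul_eq_mul, mul_comm]

/-- the model in a class -/
theorem G_cls {w Q : ℕ} (hwQ : w ≤ Q) {b : ℕ → ℕ} {H n c : ℕ} (hn : n ∈ Tb w b H) (hc : c ∈ Sb w b H) (r : ℕ) :
    |∑ a ∈ (Sb w b H).filter (fun a => a ≡ c [MOD Wn w]), Gm w Q (n + a) - ((H : ℝ) + 1) / Wp w| ≤
      (Vz Q)⁻¹ * qerr (((H : ℝ) + 1) / Wp w) Q r := by
  have hV := Vz_pos Q
  have hw := Vz_pos w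
  have h1 : ∑ a ∈ (Sb w b H).filter (fun a => a ≡ c [MOD Wn w]), Gm w Q (n + a) = Vz w * (Vz Q)⁻¹ *
      (((range (H + 1)).filter (fun a => a ≡ c [MOD Wn w] ∧ ∀ p ∈ pz Q \ pz w, ¬ p ∣ n + a)).card : ℝ) := by
    have e : (range (H + 1)).filter (fun a => a ≡ c [MOD Wn w] ∧ ∀ p ∈ pz Q \ pz w, ¬ p ∣ n + a) =
        ((Sb w b H).filter (fun a => a ≡ c [MOD Wn w])).filter (fun a => ∀ p ∈ pz Q, ¬ p ∣ n + a) := by
      rw [← filter_filter, ← cls_eq hc]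
      apply filter_congr
      intro a ha
      constructor
      · intro h2 p hp
        by_cases hpw : p ∈ pz w
        · exact not_dvd_of_mem hn (mem_filter.1 ha).1 hpw
        · exact h2 p (mem_sdiff.2 ⟨hp, hpw⟩)
      · intro h2 p hp
        exact h2 p (mem_sdiff.1 hp).1
    rw [e, mul_card_filter]
    apply sum_congr rfl
    intro a _
    unfold Gm lamz
    split_ifs <;> ring
  rw [h1]
  have h2 := cnt_one_cls (w := w) (Q := Q) n H r c (mem_Tb.1 hn).1.1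
  rw [prod_D hwQ] at h2
  have e : Vz w * (Vz Q)⁻¹ *
      (((range (H + 1)).filter (fun a => a ≡ c [MOD Wn w] ∧ ∀ p ∈ pz Q \ pz w, ¬ p ∣ n + a)).card : ℝ) -
      ((H : ℝ) + 1) / Wp w = Vz w * (Vz Q)⁻¹ *
        ((((range (H + 1)).filter (fun a => a ≡ c [MOD Wn w] ∧ ∀ p ∈ pz Q \ pz w, ¬ p ∣ n + a)).card : ℝ) -
          ((H : ℝ) + 1) / Wp w * (Vz Q * (Vz w)⁻¹)) := by
    field_simp
  rw [e, abs_mul, abs_of_nonneg (by positivity)]
  have h3 : Vz w * (Vz Q)⁻¹ ≤ (Vz Q)⁻¹ := by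
    have := mul_le_mul_of_nonneg_right (Vz_le_one w) (inv_pos.2 hV).le
    linarith only [this]
  exact mul_le_mul h3 h2 (abs_nonneg _) (by positivity)

/-- the correlation of the model in a class -/
theorem G_cls2 {w Q : ℕ} (hwQ : w ≤ Q) {b : ℕ → ℕ} {H n m c : ℕ} (hn : n ∈ Tb w b H) (hm : m ∈ Tb w b H)
    (hc : c ∈ Sb w b H) (r : ℕ) :
    ∑ a ∈ (Sb w b H).filter (fun a => a ≡ c [MOD Wn w]), Gm w Q (n + a) * Gm w Q (m + a) ≤
      ((H : ℝ) + 1) / Wp w * Sg w Q n m + ((Vz Q)⁻¹) ^ 2 * qerr (((H : ℝ) + 1) / Wp w) Q r := by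
  have hV := Vz_pos Q
  have hw := Vz_pos w
  have hWp : 0 < Wp w := lt_of_lt_of_le one_pos (Wp_ge w)
  have hsub : ((Sb w b H).filter (fun a => a ≡ c [MOD Wn w])).filter
        (fun a => ∀ p ∈ pz Q, ¬ (p ∣ n + a ∨ p ∣ m + a)) ⊆
      (range (H + 1)).filter (fun a => a ≡ c [MOD Wn w] ∧ ∀ p ∈ pz Q \ pz w, ¬ (p ∣ n + a ∨ p ∣ m + a)) := by
    intro a ha
    rw [mem_filter, mem_filter] at ha
    rw [mem_filter, mem_range]
    have := (mem_Sb.1 ha.1.1).1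
    exact ⟨by omega, ha.1.2, fun p hp => ha.2 p (mem_sdiff.1 hp).1⟩
  have h1 : ∑ a ∈ (Sb w b H).filter (fun a => a ≡ c [MOD Wn w]), Gm w Q (n + a) * Gm w Q (m + a) ≤
      (Vz w) ^ 2 * ((Vz Q)⁻¹) ^ 2 * (((range (H + 1)).filter
        (fun a => a ≡ c [MOD Wn w] ∧ ∀ p ∈ pz Q \ pz w, ¬ (p ∣ n + a ∨ p ∣ m + a))).card : ℝ) := by
    calc _ = (Vz w) ^ 2 * ((Vz Q)⁻¹) ^ 2 *
        ((((Sb w b H).filter (fun a => a ≡ c [MOD Wn w])).filter
          (fun a => ∀ p ∈ pz Q, ¬ (p ∣ n + a ∨ p ∣ m + a))).card : ℝ) := by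
          rw [mul_card_filter]
          apply sum_congr rfl
          intro a _
          unfold Gm lamz
          by_cases h3 : ∀ p ∈ pz Q, ¬ p ∣ n + a
          · by_cases h4 : ∀ p ∈ pz Q, ¬ p ∣ m + a
            · rw [if_pos h3, if_pos h4, if_pos (fun p hp h5 => h5.elim (h3 p hp) (h4 p hp))]
              ring
            · have h7 : ¬ ∀ p ∈ pz Q, ¬ (p ∣ n + a ∨ p ∣ m + a) := fun h5 => h4 fun p hp h6 => h5 p hp (Or.inr h6)
              rw [if_neg h4, if_neg h7]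
              ring
          · have h7 : ¬ ∀ p ∈ pz Q, ¬ (p ∣ n + a ∨ p ∣ m + a) := fun h5 => h3 fun p hp h6 => h5 p hp (Or.inl h6)
            rw [if_neg h3, if_neg h7]
            ring
      _ ≤ _ := by
          apply mul_le_mul_of_nonneg_left _ (by positivity)
          exact Nat.cast_le.2 (card_le_card hsub)
  refine h1.trans ?_
  have h2 := (abs_le.1 (cnt_two_cls (w := w) (Q := Q) n m H r c (mem_Tb.1 hn).1.1 (mem_Tb.1 hm).1.1)).2
  have h3 := prod_rh_D hwQ n m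
  have hX : 0 ≤ ((H : ℝ) + 1) / Wp w := by positivity
  have h4 := mul_le_mul_of_nonneg_left h3 hX
  have hq0 : 0 ≤ qerr (((H : ℝ) + 1) / Wp w) Q r := by
    unfold qerr
    positivity
  calc _ ≤ (Vz w) ^ 2 * ((Vz Q)⁻¹) ^ 2 *
        (((H : ℝ) + 1) / Wp w * ((Vz Q * (Vz w)⁻¹) ^ 2 * Sg w Q n m) + qerr (((H : ℝ) + 1) / Wp w) Q r) := by
        apply mul_le_mul_of_nonneg_left _ (by positivity)
        linarith only [h2, h4]
    _ = ((H : ℝ) + 1) / Wp w * Sg w Q n m +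
        (Vz w) ^ 2 * (((Vz Q)⁻¹) ^ 2 * qerr (((H : ℝ) + 1) / Wp w) Q r) := by
      field_simp
    _ ≤ _ := by
      have h5 : (Vz w) ^ 2 ≤ 1 := pow_le_one₀ hw.le (Vz_le_one w)
      have h6 := mul_le_mul_of_nonneg_right h5 (by positivity : 0 ≤ ((Vz Q)⁻¹) ^ 2 * qerr (((H : ℝ) + 1) / Wp w) Q r)
      linarith only [h6]

/-- **relative form** -/
theorem G_rel {w Q : ℕ} (hwQ : w ≤ Q) {b : ℕ → ℕ} {H r : ℕ} {ε : ℝ}
    (hcl : 1 + ((Vz Q)⁻¹) ^ 2 * qerr (((H : ℝ) + 1) / Wp w) Q r ≤ ε * (((H : ℝ) + 1) / Wp w - 1))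
    (hε : 0 ≤ ε) {c : ℕ} (hc : c ∈ Sb w b H) :
    (∀ n ∈ Tb w b H, ∑ a ∈ (Sb w b H).filter (fun a => a ≡ c [MOD Wn w]), Gm w Q (n + a) ≤
      (1 + ε) * ((Sb w b H).filter (fun a => a ≡ c [MOD Wn w])).card) ∧
    (∀ n ∈ Tb w b H, (1 - ε) * ((Sb w b H).filter (fun a => a ≡ c [MOD Wn w])).card ≤
      ∑ a ∈ (Sb w b H).filter (fun a => a ≡ c [MOD Wn w]), Gm w Q (n + a)) ∧
    (∀ n ∈ Tb w b H, ∀ m ∈ Tb w b H,
      ∑ a ∈ (Sb w b H).filter (fun a => a ≡ c [MOD Wn w]), Gm w Q (n + a) * Gm w Q (m + a) ≤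
      (1 + ε) * Sg w Q n m * ((Sb w b H).filter (fun a => a ≡ c [MOD Wn w])).card) ∧
    (∀ n ∈ Tb w b H, ∑ a ∈ (Sb w b H).filter (fun a => a ≡ c [MOD Wn w]), Gm w Q (n + a) * Gm w Q (n + a) ≤
      (Vz Q)⁻¹ * (1 + ε) * ((Sb w b H).filter (fun a => a ≡ c [MOD Wn w])).card) := by
  obtain ⟨N, hN⟩ : ∃ N : ℝ, N = (((Sb w b H).filter (fun a => a ≡ c [MOD Wn w])).card : ℝ) := ⟨_, rfl⟩
  obtain ⟨X, hX⟩ : ∃ X : ℝ, X = ((H : ℝ) + 1) / Wp w := ⟨_, rfl⟩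
  obtain ⟨e, he⟩ : ∃ e : ℝ, e = qerr X Q r := ⟨_, rfl⟩
  have hNX := card_cls hc
  have hV := Vz_pos Q
  have hV1 : 1 ≤ (Vz Q)⁻¹ := by
    rw [one_le_inv₀ hV]
    exact Vz_le_one Q
  have hWp : 0 < Wp w := lt_of_lt_of_le one_pos (Wp_ge w)
  have hX0 : 0 ≤ X := by rw [hX]; positivity
  have he0 : 0 ≤ e := by
    rw [he]
    unfold qerr
    positivity
  rw [← hX, ← he] at hcl
  rw [← hN, ← hX] at hNX
  rw [← hN]
  have h1 := (abs_le.1 hNX).1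
  have h2 := (abs_le.1 hNX).2
  have hεN : ε * (X - 1) ≤ ε * N := mul_le_mul_of_nonneg_left (by linarith only [h1]) hε
  have hVe : (Vz Q)⁻¹ * e ≤ ((Vz Q)⁻¹) ^ 2 * e := by
    apply mul_le_mul_of_nonneg_right _ he0
    nlinarith only [hV1]
  have hG1 : ∀ n ∈ Tb w b H, |∑ a ∈ (Sb w b H).filter (fun a => a ≡ c [MOD Wn w]), Gm w Q (n + a) - X| ≤
      (Vz Q)⁻¹ * e := by
    intro n hn
    rw [he, hX]
    exact G_cls hwQ hn hc r
  have hup : ∀ n ∈ Tb w b H, ∑ a ∈ (Sb w b H).filter (fun a => a ≡ c [MOD Wn w]), Gm w Q (n + a) ≤ (1 + ε) * N := by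
    intro n hn
    have h3 := (abs_le.1 (hG1 n hn)).2
    linarith only [h3, h1, hεN, hcl, hVe]
  refine ⟨hup, ?_, ?_, ?_⟩
  · intro n hn
    have h3 := (abs_le.1 (hG1 n hn)).1
    linarith only [h3, h2, hεN, hcl, hVe]
  · intro n hn m hm
    have h3 := G_cls2 hwQ hn hm hc r
    rw [← hX, ← he] at h3
    have h4 := one_le_Sg w Q n m
    have h5 : X * Sg w Q n m ≤ (N + 1) * Sg w Q n m :=
      mul_le_mul_of_nonneg_right (by linarith only [h1]) (by linarith only [h4])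
    have h6 : (1 + ((Vz Q)⁻¹) ^ 2 * e) * 1 ≤ (1 + ((Vz Q)⁻¹) ^ 2 * e) * Sg w Q n m :=
      mul_le_mul_of_nonneg_left h4 (by positivity)
    have h7 : (1 + ((Vz Q)⁻¹) ^ 2 * e) * Sg w Q n m ≤ (ε * N) * Sg w Q n m :=
      mul_le_mul_of_nonneg_right (by linarith only [hcl, hεN]) (by linarith only [h4])
    have h8 : 0 ≤ ((Vz Q)⁻¹) ^ 2 * e * (Sg w Q n m - 1) := by
      have : 0 ≤ Sg w Q n m - 1 := by linarith only [h4]
      positivity
    nlinarith only [h3, h5, h7, h8]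
  · intro n hn
    have e1 : ∀ a, Gm w Q (n + a) * Gm w Q (n + a) = Vz w * (Vz Q)⁻¹ * Gm w Q (n + a) := by
      intro a
      unfold Gm lamz
      split_ifs <;> ring
    simp only [e1]
    rw [← mul_sum]
    have h3 : Vz w * (Vz Q)⁻¹ ≤ (Vz Q)⁻¹ := by
      have := mul_le_mul_of_nonneg_right (Vz_le_one w) (inv_pos.2 hV).le
      linarith only [this]
    rw [mul_assoc ((Vz Q)⁻¹)]
    exact mul_le_mul h3 (hup n hn) (sum_nonneg fun _ _ => Gm_nonneg _ _ _) (by positivity)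

end Pool.Agent.R521.F6
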