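import Pool.Agent.R521.F6.U4

set_option autoImplicit false

/-!
# Comparison for periodic weights, and the weighted variance
-/

open Finset
open scoped Real

namespace Pool.Agent.R521.F6

open Pool.Agent.H373R2.T7 (pz Vz lamz mem_pz Vz_pos Vz_le_one)

/-- functions of the classes -/
def Per (w : ℕ) (Ψ : ℕ → ℝ) : Prop := ∀ a a', (∀ p ∈ pz w, a ≡ a' [MOD p]) → Ψ a = Ψ a'

/-- functions of the classes of the components -/
def PerT (w k : ℕ) (u : (Fin k → ℕ) → ℝ) : Prop :=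
  ∀ a a', (∀ i, ∀ p ∈ pz w, a i ≡ a' i [MOD p]) → u a = u a'

/-- the sums over classes -/
lemma fib_sum (w : ℕ) (S : Finset ℕ) (f : ℕ → ℝ) :
    ∑ a ∈ S, f a = ∑ c ∈ range (Wn w), ∑ a ∈ S.filter (fun a => a % Wn w = c), f a :=
  (sum_fiberwise_of_maps_to (fun a _ => mem_range.2 (Nat.mod_lt a (Wn_pos w))) f).symm

lemma fib_case {w : ℕ} {S : Finset ℕ} {Ψ : ℕ → ℝ} (hΨ : Per w Ψ) (h : ℕ → ℝ) (c : ℕ) :
    (S.filter (fun a => a % Wn w = c) = ∅) ∨ ∃ c' ∈ S, S.filter (fun a => a % Wn w = c) =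
      S.filter (fun a => a ≡ c' [MOD Wn w]) ∧
      ∑ a ∈ S.filter (fun a => a % Wn w = c), Ψ a * h a =
        Ψ c' * ∑ a ∈ S.filter (fun a => a ≡ c' [MOD Wn w]), h a ∧
      ∑ a ∈ S.filter (fun a => a % Wn w = c), Ψ a =
        Ψ c' * ((S.filter (fun a => a ≡ c' [MOD Wn w])).card : ℝ) := by
  rcases (S.filter (fun a => a % Wn w = c)).eq_empty_or_nonempty with h1 | ⟨c', hc'⟩
  · exact Or.inl h1
  · right
    rw [mem_filter] at hc'
    have e : S.filter (fun a => a % Wn w = c) = S.filter (fun a => a ≡ c' [MOD Wn w]) := by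
      apply filter_congr
      intro a _
      unfold Nat.ModEq
      rw [hc'.2]
    have hval : ∀ a ∈ S.filter (fun a => a ≡ c' [MOD Wn w]), Ψ a = Ψ c' := by
      intro a ha
      exact hΨ a c' fun p hp => modEq_Wn (mem_filter.1 ha).2 hp
    refine ⟨c', hc'.1, e, ?_, ?_⟩
    · rw [e, mul_sum]
      apply sum_congr rfl
      intro a ha
      rw [hval a ha]
    · rw [e, sum_congr rfl hval, sum_const, nsmul_eq_mul, mul_comm]

/-- comparison, upper bound -/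
lemma per_comp {w : ℕ} {S : Finset ℕ} {h : ℕ → ℝ} {κ : ℝ}
    (hh : ∀ c ∈ S, ∑ a ∈ S.filter (fun a => a ≡ c [MOD Wn w]), h a ≤
      κ * (S.filter (fun a => a ≡ c [MOD Wn w])).card)
    {Ψ : ℕ → ℝ} (hΨ : Per w Ψ) (hΨ0 : ∀ a ∈ S, 0 ≤ Ψ a) :
    ∑ a ∈ S, Ψ a * h a ≤ κ * ∑ a ∈ S, Ψ a := by
  rw [fib_sum w S, fib_sum w S (fun a => Ψ a), mul_sum]
  apply sum_le_sum
  intro c _
  rcases fib_case (S := S) hΨ h c with h1 | ⟨c', hc', _, h2, h3⟩
  · rw [h1, sum_empty, sum_empty, mul_zero]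
  · rw [h2, h3]
    have h4 := mul_le_mul_of_nonneg_left (hh c' hc') (hΨ0 c' hc')
    linarith only [h4]

/-- comparison, lower bound -/
lemma per_comp' {w : ℕ} {S : Finset ℕ} {h : ℕ → ℝ} {κ : ℝ}
    (hh : ∀ c ∈ S, κ * (S.filter (fun a => a ≡ c [MOD Wn w])).card ≤
      ∑ a ∈ S.filter (fun a => a ≡ c [MOD Wn w]), h a)
    {Ψ : ℕ → ℝ} (hΨ : Per w Ψ) (hΨ0 : ∀ a ∈ S, 0 ≤ Ψ a) :
    κ * ∑ a ∈ S, Ψ a ≤ ∑ a ∈ S, Ψ a * h a := by
  rw [fib_sum w S (fun a => Ψ a * h a), fib_sum w S (fun a => Ψ a), mul_sum]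
  apply sum_le_sum
  intro c _
  rcases fib_case (S := S) hΨ h c with h1 | ⟨c', hc', _, h2, h3⟩
  · rw [h1, sum_empty, sum_empty, mul_zero]
  · rw [h2, h3]
    have h4 := mul_le_mul_of_nonneg_left (hh c' hc') (hΨ0 c' hc')
    linarith only [h4]

lemma PerT_cons {w k : ℕ} {u : (Fin (k + 1) → ℕ) → ℝ} (hu : PerT w (k + 1) u) (b : ℕ) :
    PerT w k (fun a => u (Fin.cons b a)) := by
  intro a a' h
  apply hu
  intro i
  refine Fin.cases ?_ (fun j => ?_) i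
  · intro p _
    simp only [Fin.cons_zero]
    rfl
  · intro p hp
    simp only [Fin.cons_succ]
    exact h j p hp

lemma Per_cons {w k : ℕ} {u : (Fin (k + 1) → ℕ) → ℝ} (hu : PerT w (k + 1) u) (a : Fin k → ℕ) :
    Per w (fun b => u (Fin.cons b a)) := by
  intro b b' h
  apply hu
  intro i
  refine Fin.cases ?_ (fun j => ?_) i
  · intro p hp
    simp only [Fin.cons_zero]
    exact h p hp
  · intro p _
    simp only [Fin.cons_succ]
    rfl

lemma cons_mem {k : ℕ} {S : Finset ℕ} {b : ℕ} {a : Fin k → ℕ} (hb : b ∈ S) (ha : a ∈ tup k S) :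
    (Fin.cons b a : Fin (k + 1) → ℕ) ∈ tup (k + 1) S := by
  rw [mem_tup] at ha ⊢
  intro i
  refine Fin.cases ?_ (fun j => ?_) i
  · simpa using hb
  · simpa using ha j

/-- comparison for tuples, upper bound -/
lemma tup_comp {w : ℕ} {S : Finset ℕ} {h : ℕ → ℝ} (h0 : ∀ a, 0 ≤ h a) {κ : ℝ} (hκ : 0 ≤ κ)
    (hh : ∀ c ∈ S, ∑ a ∈ S.filter (fun a => a ≡ c [MOD Wn w]), h a ≤
      κ * (S.filter (fun a => a ≡ c [MOD Wn w])).card) (k : ℕ) :
    ∀ u : (Fin k → ℕ) → ℝ, PerT w k u → (∀ a ∈ tup k S, 0 ≤ u a) →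
    ∑ a ∈ tup k S, u a * ∏ i, h (a i) ≤ κ ^ k * ∑ a ∈ tup k S, u a := by
  induction k with
  | zero =>
    intro u _ _
    simp
  | succ k ih =>
    intro u hu hu0
    rw [tup_sum_succ, tup_sum_succ]
    have h1 : ∀ b ∈ S, ∑ a ∈ tup k S, u (Fin.cons b a) * ∏ i, h ((Fin.cons b a : Fin (k + 1) → ℕ) i) ≤
        h b * (κ ^ k * ∑ a ∈ tup k S, u (Fin.cons b a)) := by
      intro b hb
      have h2 := ih (fun a => u (Fin.cons b a)) (PerT_cons hu b) (fun a ha => hu0 _ (cons_mem hb ha))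
      refine le_trans (le_of_eq ?_) (mul_le_mul_of_nonneg_left h2 (h0 b))
      rw [mul_sum]
      apply sum_congr rfl
      intro a _
      rw [Fin.prod_univ_succ]
      simp only [Fin.cons_zero, Fin.cons_succ]
      ring
    refine (sum_le_sum h1).trans ?_
    have h3 : ∑ b ∈ S, h b * (κ ^ k * ∑ a ∈ tup k S, u (Fin.cons b a)) =
        κ ^ k * ∑ a ∈ tup k S, ∑ b ∈ S, u (Fin.cons b a) * h b := by
      rw [sum_comm, mul_sum]
      apply sum_congr rfl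
      intro b _
      rw [← sum_mul]
      ring
    rw [h3]
    have h4 : ∑ a ∈ tup k S, ∑ b ∈ S, u (Fin.cons b a) * h b ≤
        ∑ a ∈ tup k S, κ * ∑ b ∈ S, u (Fin.cons b a) := by
      apply sum_le_sum
      intro a ha
      exact per_comp hh (Per_cons hu a) (fun b hb => hu0 _ (cons_mem hb ha))
    refine (mul_le_mul_of_nonneg_left h4 (by positivity)).trans (le_of_eq ?_)
    rw [← mul_sum, sum_comm]
    ring

/-- comparison for tuples, lower bound -/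
lemma tup_comp' {w : ℕ} {S : Finset ℕ} {h : ℕ → ℝ} (h0 : ∀ a, 0 ≤ h a) {κ : ℝ} (hκ : 0 ≤ κ)
    (hh : ∀ c ∈ S, κ * (S.filter (fun a => a ≡ c [MOD Wn w])).card ≤
      ∑ a ∈ S.filter (fun a => a ≡ c [MOD Wn w]), h a) (k : ℕ) :
    ∀ u : (Fin k → ℕ) → ℝ, PerT w k u → (∀ a ∈ tup k S, 0 ≤ u a) →
    κ ^ k * ∑ a ∈ tup k S, u a ≤ ∑ a ∈ tup k S, u a * ∏ i, h (a i) := by
  induction k with
  | zero =>
    intro u _ _
    simp
  | succ k ih =>
    intro u hu hu0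
    rw [tup_sum_succ, tup_sum_succ k S (fun a => u a * ∏ i, h (a i))]
    have h1 : ∀ b ∈ S, h b * (κ ^ k * ∑ a ∈ tup k S, u (Fin.cons b a)) ≤
        ∑ a ∈ tup k S, u (Fin.cons b a) * ∏ i, h ((Fin.cons b a : Fin (k + 1) → ℕ) i) := by
      intro b hb
      have h2 := ih (fun a => u (Fin.cons b a)) (PerT_cons hu b) (fun a ha => hu0 _ (cons_mem hb ha))
      refine (mul_le_mul_of_nonneg_left h2 (h0 b)).trans (le_of_eq ?_)
      rw [mul_sum]
      apply sum_congr rfl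
      intro a _
      rw [Fin.prod_univ_succ]
      simp only [Fin.cons_zero, Fin.cons_succ]
      ring
    refine le_trans ?_ (sum_le_sum h1)
    have h3 : ∑ b ∈ S, h b * (κ ^ k * ∑ a ∈ tup k S, u (Fin.cons b a)) =
        κ ^ k * ∑ a ∈ tup k S, ∑ b ∈ S, u (Fin.cons b a) * h b := by
      rw [sum_comm, mul_sum]
      apply sum_congr rfl
      intro b _
      rw [← sum_mul]
      ring
    rw [h3]
    have h4 : ∑ a ∈ tup k S, κ * ∑ b ∈ S, u (Fin.cons b a) ≤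
        ∑ a ∈ tup k S, ∑ b ∈ S, u (Fin.cons b a) * h b := by
      apply sum_le_sum
      intro a ha
      exact per_comp' hh (Per_cons hu a) (fun b hb => hu0 _ (cons_mem hb ha))
    refine le_trans (le_of_eq ?_) (mul_le_mul_of_nonneg_left h4 (by positivity))
    rw [← mul_sum, sum_comm]
    ring

/-- **the weighted variance of the model** -/
theorem model_var_w {w Q k H r : ℕ} (hk1 : 1 ≤ k) (hkw : k ≤ w) (hwQ : w ≤ Q) (b : ℕ → ℕ) {ε : ℝ} (hε : 0 ≤ ε)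
    (hεw : w * ε ≤ 1 / 2)
    (hcl : 1 + ((Vz Q)⁻¹) ^ 2 * qerr (((H : ℝ) + 1) / Wp w) Q r ≤ ε * (((H : ℝ) + 1) / Wp w - 1))
    (hw0 : (w : ℝ) ≤ (Tb w b H).card) (hP : w * ((Vz Q)⁻¹) ^ k ≤ (Tb w b H).card)
    (u : (Fin k → ℕ) → ℝ) (hu : PerT w k u) (hu0 : ∀ a ∈ tup k (Sb w b H), 0 ≤ u a) :
    ∑ a ∈ tup k (Sb w b H), u a * (XX (Gm w Q) (Tb w b H) a - (Tb w b H).card) ^ 2 ≤
      250 * ((k : ℝ) / w) * ((∑ a ∈ tup k (Sb w b H), u a) * ((Tb w b H).card : ℝ) ^ 2) := by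
  classical
  have hw1 : 1 ≤ w := hk1.trans hkw
  have hw0' : (0 : ℝ) < w := by exact_mod_cast hw1
  have hk0' : (1 : ℝ) ≤ k := by exact_mod_cast hk1
  have hkw' : (k : ℝ) ≤ w := by exact_mod_cast hkw
  obtain ⟨t, ht⟩ : ∃ t : ℝ, t = ((Tb w b H).card : ℝ) := ⟨_, rfl⟩
  obtain ⟨θ, hθ⟩ : ∃ θ : ℝ, θ = (k : ℝ) / w := ⟨_, rfl⟩
  obtain ⟨Z, hZ⟩ : ∃ Z : ℝ, Z = ∑ a ∈ tup k (Sb w b H), u a := ⟨_, rfl⟩
  rw [← ht] at hw0 hP ⊢
  rw [← hθ, ← hZ]
  have hZ0 : 0 ≤ Z := by rw [hZ]; exact sum_nonneg hu0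
  have ht0 : 0 < t := lt_of_lt_of_le hw0' hw0
  have hV := Vz_pos Q
  have hw := Vz_pos w
  have hθ0 : 0 ≤ θ := by rw [hθ]; positivity
  have hθ1 : θ ≤ 1 := by rw [hθ, div_le_one hw0']; exact hkw'
  have hε1 : ε ≤ 1 := by
    have h1 : 1 ≤ (w : ℝ) := by exact_mod_cast hw1
    have : 1 * ε ≤ w * ε := mul_le_mul_of_nonneg_right h1 hε
    linarith only [this, hεw]
  have hθw : θ * w = k := by rw [hθ]; field_simp
  have hkε : k * ε ≤ θ / 2 := by
    rw [← hθw]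
    have := mul_le_mul_of_nonneg_left hεw hθ0
    linarith only [this]
  have h1t : 1 ≤ θ * t := by
    have := mul_le_mul_of_nonneg_left hw0 hθ0
    rw [hθw] at this
    linarith only [this, hk0']
  have hVk : 0 ≤ ((Vz Q)⁻¹) ^ k := by positivity
  have hPt : ((Vz Q)⁻¹) ^ k ≤ θ * t := by
    have h1 := mul_le_mul_of_nonneg_left hP hθ0
    rw [← mul_assoc, hθw] at h1
    have h2 := mul_le_mul_of_nonneg_right hk0' hVk
    linarith only [h1, h2]
  have hcard := card_Tb w b H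
  rw [← ht] at hcard
  have hμ : (H : ℝ) / Wp w ≤ t + 1 := by
    have := (abs_le.1 hcard).1
    linarith only [this]
  have hμ0 : 0 ≤ (H : ℝ) / Wp w := div_nonneg (Nat.cast_nonneg _) (zero_le_one.trans (Wp_ge w))
  have hrel := fun c (hc : c ∈ Sb w b H) => G_rel (r := r) hwQ hcl hε hc
  have hM1 : t * (1 * (1 - ε)) ^ k * Z ≤ ∑ a ∈ tup k (Sb w b H), u a * XX (Gm w Q) (Tb w b H) a := by
    have h1 : ∑ a ∈ tup k (Sb w b H), u a * XX (Gm w Q) (Tb w b H) a =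
        ∑ n ∈ Tb w b H, ∑ a ∈ tup k (Sb w b H), u a * ∏ i, Gm w Q (n + a i) := by
      unfold XX
      rw [sum_comm]
      apply sum_congr rfl
      intro a _
      rw [mul_sum]
    rw [h1, mul_assoc, ht, ← nsmul_eq_mul]
    apply card_nsmul_le_sum
    intro n hn
    rw [one_mul, hZ]
    exact tup_comp' (w := w) (h := fun a => Gm w Q (n + a)) (fun a => Gm_nonneg _ _ _) (by linarith only [hε1])
      (fun c hc => (hrel c hc).2.1 n hn) k u hu hu0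
  have hM2 : ∑ a ∈ tup k (Sb w b H), u a * XX (Gm w Q) (Tb w b H) a ^ 2 ≤
      t * ((1 * (1 + ε)) ^ k * ((H : ℝ) / Wp w * Real.exp (4 * θ) + ((Vz Q)⁻¹) ^ k)) * Z := by
    have h1 : ∑ a ∈ tup k (Sb w b H), u a * XX (Gm w Q) (Tb w b H) a ^ 2 =
        ∑ n ∈ Tb w b H, ∑ m ∈ Tb w b H, ∑ a ∈ tup k (Sb w b H), u a *
          ∏ i, (Gm w Q (n + a i) * Gm w Q (m + a i)) := by
      have h2 : ∀ a ∈ tup k (Sb w b H), u a * XX (Gm w Q) (Tb w b H) a ^ 2 =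
          ∑ n ∈ Tb w b H, ∑ m ∈ Tb w b H, u a * ∏ i, (Gm w Q (n + a i) * Gm w Q (m + a i)) := by
        intro a _
        unfold XX
        rw [sq, sum_mul_sum, mul_sum]
        apply sum_congr rfl
        intro n _
        rw [mul_sum]
        apply sum_congr rfl
        intro m _
        rw [prod_mul_distrib]
      rw [sum_congr rfl h2, sum_comm]
      apply sum_congr rfl
      intro n _
      rw [sum_comm]
    rw [h1, mul_assoc, ht, ← nsmul_eq_mul]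
    apply sum_le_card_nsmul
    intro n hn
    rw [← add_sum_erase _ _ hn]
    have hdiag : ∑ a ∈ tup k (Sb w b H), u a * ∏ i, (Gm w Q (n + a i) * Gm w Q (n + a i)) ≤
        ((Vz Q)⁻¹ * (1 + ε)) ^ k * Z := by
      rw [hZ]
      exact tup_comp (w := w) (h := fun a => Gm w Q (n + a) * Gm w Q (n + a))
        (fun a => mul_nonneg (Gm_nonneg _ _ _) (Gm_nonneg _ _ _)) (by positivity)
        (fun c hc => (hrel c hc).2.2.2 n hn) k u hu hu0
    have hoff : ∑ m ∈ (Tb w b H).erase n, ∑ a ∈ tup k (Sb w b H), u a *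
          ∏ i, (Gm w Q (n + a i) * Gm w Q (m + a i)) ≤
        (1 + ε) ^ k * ((H : ℝ) / Wp w * Real.exp (4 * θ)) * Z := by
      have h2 : ∀ m ∈ (Tb w b H).erase n, ∑ a ∈ tup k (Sb w b H), u a *
          ∏ i, (Gm w Q (n + a i) * Gm w Q (m + a i)) ≤ (1 + ε) ^ k * Z * Sg w Q n m ^ k := by
        intro m hm
        have h4 := one_le_Sg w Q n m
        have h3 := tup_comp (w := w) (h := fun a => Gm w Q (n + a) * Gm w Q (m + a))
          (fun a => mul_nonneg (Gm_nonneg _ _ _) (Gm_nonneg _ _ _))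
          (by positivity : 0 ≤ (1 + ε) * Sg w Q n m)
          (fun c hc => (hrel c hc).2.2.1 n hn m (mem_of_mem_erase hm)) k u hu hu0
        rw [mul_pow, ← hZ] at h3
        linarith only [h3]
      refine (sum_le_sum h2).trans ?_
      rw [← mul_sum]
      have h5 := sum_Sg (Q := Q) hw1 hkw hn
      have e : 4 * (k : ℝ) / w = 4 * θ := by rw [hθ]; ring
      rw [e] at h5
      have h6 := mul_le_mul_of_nonneg_left h5 (by positivity : 0 ≤ (1 + ε) ^ k * Z)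
      linarith only [h6]
    rw [mul_pow] at hdiag
    rw [one_mul]
    linarith only [hdiag, hoff]
  have hexp : ∑ a ∈ tup k (Sb w b H), u a * (XX (Gm w Q) (Tb w b H) a - t) ^ 2 =
      ∑ a ∈ tup k (Sb w b H), u a * XX (Gm w Q) (Tb w b H) a ^ 2 -
        2 * t * ∑ a ∈ tup k (Sb w b H), u a * XX (Gm w Q) (Tb w b H) a + t ^ 2 * Z := by
    have e1 : ∀ a ∈ tup k (Sb w b H), u a * (XX (Gm w Q) (Tb w b H) a - t) ^ 2 =
        u a * XX (Gm w Q) (Tb w b H) a ^ 2 - 2 * t * (u a * XX (Gm w Q) (Tb w b H) a) + t ^ 2 * u a := by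
      intro a _
      ring
    rw [sum_congr rfl e1, sum_add_distrib, sum_sub_distrib, ← mul_sum, ← mul_sum, hZ]
  rw [hexp]
  obtain ⟨M1, hM1d⟩ : ∃ M1 : ℝ, M1 = ∑ a ∈ tup k (Sb w b H), u a * XX (Gm w Q) (Tb w b H) a := ⟨_, rfl⟩
  obtain ⟨M2, hM2d⟩ : ∃ M2 : ℝ, M2 = ∑ a ∈ tup k (Sb w b H), u a * XX (Gm w Q) (Tb w b H) a ^ 2 := ⟨_, rfl⟩
  rw [← hM1d] at hM1 ⊢
  rw [← hM2d] at hM2 ⊢
  rcases hZ0.eq_or_lt with hZ00 | hZpos
  · rw [← hZ00] at hM1 hM2 ⊢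
    rw [mul_zero] at hM1 hM2
    have : 0 ≤ 2 * t * M1 := by positivity
    linarith only [this, hM2]
  · have h1 : t * (1 * (1 - ε)) ^ k ≤ M1 / Z := by
      rw [le_div_iff₀ hZpos]
      exact hM1
    have h2 : M2 / Z ≤ t * ((1 * (1 + ε)) ^ k * ((H : ℝ) / Wp w * Real.exp (4 * θ) + ((Vz Q)⁻¹) ^ k)) := by
      rw [div_le_iff₀ hZpos]
      exact hM2
    have h3 := var_abs (L := 1) (Sk := 1) ht0 hμ hμ0 hθ0 hθ1 hε hε1 hkε zero_le_one hVk hPt h1t
      (by rw [one_mul]; exact one_le_pow₀ (by linarith only [hε])) h1 h2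
    rw [one_pow, one_mul, mul_one] at h3
    have h4 := mul_le_mul_of_nonneg_right h3 hZpos.le
    have e1 : (M2 / Z - 2 * t * (M1 / Z) + t ^ 2) * Z = M2 - 2 * t * M1 + t ^ 2 * Z := by
      field_simp
    rw [e1] at h4
    linarith only [h4]

end Pool.Agent.R521.F6
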