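import Pool.Agent.R521.F6.C1

set_option autoImplicit false

/-!
# The weighted bound of correlations
-/

open Finset
open scoped Real
open Pool.Agent.Helper112

namespace Pool.Agent.R521.F6

/-- the sum of the norms of a function with small square norm along a translate -/
lemma l1_shift_w {X : ℕ} (S : Finset ℕ) (n : ℕ) (hS : ∀ a ∈ S, n + a < X) (p : ℕ → ℂ) (φ : ℕ → ℝ) {A : ℝ}
    (hA : ∑ m ∈ range X, ‖p m‖ ^ 2 ≤ A) : ∑ a ∈ S, φ a * ‖p (n + a)‖ ≤ √(∑ a ∈ S, φ a ^ 2) * √A := by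
  have h1 : ∑ a ∈ S, φ a * ‖p (n + a)‖ ≤ √(∑ a ∈ S, φ a ^ 2) * √(∑ a ∈ S, ‖p (n + a)‖ ^ 2) :=
    Real.sum_mul_le_sqrt_mul_sqrt S φ (fun a => ‖p (n + a)‖)
  refine h1.trans (mul_le_mul_of_nonneg_left (Real.sqrt_le_sqrt ?_) (Real.sqrt_nonneg _))
  refine le_trans ?_ hA
  have h2 : ∑ a ∈ S, ‖p (n + a)‖ ^ 2 = ∑ m ∈ S.image (fun a => n + a), ‖p m‖ ^ 2 := by
    rw [sum_image]
    intro a _ b _ h
    exact Nat.add_left_cancel h
  rw [h2]
  apply sum_le_sum_of_subset_of_nonneg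
  · intro m hm
    rw [mem_image] at hm
    obtain ⟨a, ha, rfl⟩ := hm
    exact mem_range.2 (hS a ha)
  · intro _ _ _
    positivity

/-- **the L¹ bound of correlations** -/
theorem psi_abs_w {X M : ℕ} (hM : M < X) (S T : Finset ℕ)
    (hST : ∀ n ∈ T, ∀ a ∈ S, 1 ≤ n + a ∧ n + a ≤ M) (u v : ℕ → ℂ) (K : Finset ℕ) (hK : K ⊆ range X)
    {A1 A2 Mb : ℝ} (hA1 : ∑ k ∈ K, ‖dft X M u k‖ ^ 2 ≤ X * A1)
    (hA2 : ∑ n ∈ Icc 1 M, ‖v n‖ ^ 2 ≤ A2) (hMb0 : 0 ≤ Mb)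
    (hMb : ∀ k ∈ range X, k ∉ K → ‖dft X M u k + dft X M v k‖ ≤ Mb) (g : ℕ → ℂ)
    (φ : ℕ → ℝ) (hφ : ∀ a, 0 ≤ φ a) :
    ∑ a ∈ S, φ a * ‖∑ n ∈ T, g n * u (n + a)‖ ≤
      √(∑ a ∈ S, φ a ^ 2) * (√A1 + √A2) * ∑ n ∈ T, ‖g n‖ + √(∑ a ∈ S, φ a ^ 2) * Mb * √(∑ n ∈ T, ‖g n‖ ^ 2) := by
  have hX : 0 < X := by omega
  have hX0 : (0 : ℝ) < X := by exact_mod_cast hX
  have hXc : (X : ℂ) ≠ 0 := by exact_mod_cast hX.ne'
  set K' := range X \ K with hK'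
  have hK'X : K' ⊆ range X := sdiff_subset
  set p : ℕ → ℂ := fun m => (X : ℂ)⁻¹ * ∑ k ∈ K, dft X M u k * ee (-(m * ((k : ℝ) / X))) with hp
  set q : ℕ → ℂ := fun m => (X : ℂ)⁻¹ * ∑ k ∈ K', (dft X M u k + dft X M v k) * ee (-(m * ((k : ℝ) / X)))
    with hq
  set s : ℕ → ℂ := fun m => (X : ℂ)⁻¹ * ∑ k ∈ K', dft X M v k * ee (-(m * ((k : ℝ) / X))) with hs
  have hu : ∀ m, 1 ≤ m → m ≤ M → u m = p m - s m + q m := by
    intro m hm1 hmM
    have h1 := inversion hM u hm1 hmM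
    rw [← sum_sdiff hK, ← hK'] at h1
    have h2 : ∑ k ∈ K', dft X M u k * ee (-(m * ((k : ℝ) / X))) =
        ∑ k ∈ K', (dft X M u k + dft X M v k) * ee (-(m * ((k : ℝ) / X))) -
        ∑ k ∈ K', dft X M v k * ee (-(m * ((k : ℝ) / X))) := by
      rw [← sum_sub_distrib]
      apply sum_congr rfl
      intro k _
      ring
    rw [h2] at h1
    have h3 : u m = (X : ℂ)⁻¹ * (X * u m) := by field_simp
    rw [h3, ← h1, hp, hq, hs]
    ring
  -- square norms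
  have hnorm : ∀ (L : Finset ℕ) (_ : L ⊆ range X) (c : ℕ → ℂ),
      ∑ m ∈ range X, ‖(X : ℂ)⁻¹ * ∑ k ∈ L, c k * ee (-(m * ((k : ℝ) / X)))‖ ^ 2 =
      (X : ℝ)⁻¹ * ∑ k ∈ L, ‖c k‖ ^ 2 := by
    intro L hL c
    simp only [norm_mul, mul_pow]
    rw [← mul_sum, parseval_X hX L hL c, norm_inv, Complex.norm_natCast]
    field_simp
  have hpn : ∑ m ∈ range X, ‖p m‖ ^ 2 ≤ A1 := by
    rw [hp]
    simp only
    rw [hnorm K hK, inv_mul_le_iff₀ hX0]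
    exact hA1
  have hsn : ∑ m ∈ range X, ‖s m‖ ^ 2 ≤ A2 := by
    rw [hs]
    simp only
    rw [hnorm K' hK'X, inv_mul_le_iff₀ hX0]
    have h1 := parseval_dft hM v
    have h2 : ∑ k ∈ K', ‖dft X M v k‖ ^ 2 ≤ ∑ k ∈ range X, ‖dft X M v k‖ ^ 2 :=
      sum_le_sum_of_subset_of_nonneg hK'X fun _ _ _ => by positivity
    rw [h1] at h2
    exact h2.trans (mul_le_mul_of_nonneg_left hA2 hX0.le)
  have hT1 : ∀ n ∈ T, ∀ a ∈ S, n + a < X := fun n hn a ha => by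
    have := (hST n hn a ha).2
    omega
  -- split
  have hsplit : ∀ a ∈ S, ‖∑ n ∈ T, g n * u (n + a)‖ ≤
      ∑ n ∈ T, ‖g n‖ * ‖p (n + a)‖ + ∑ n ∈ T, ‖g n‖ * ‖s (n + a)‖ + ‖∑ n ∈ T, g n * q (n + a)‖ := by
    intro a ha
    have h1 : ∑ n ∈ T, g n * u (n + a) = ∑ n ∈ T, g n * p (n + a) - ∑ n ∈ T, g n * s (n + a) +
        ∑ n ∈ T, g n * q (n + a) := by
      rw [← sum_sub_distrib, ← sum_add_distrib]
      apply sum_congr rfl
      intro n hn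
      have h2 := hST n hn a ha
      rw [hu (n + a) h2.1 h2.2]
      ring
    rw [h1]
    refine (norm_add_le _ _).trans (add_le_add ((norm_sub_le _ _).trans (add_le_add ?_ ?_)) le_rfl)
    · refine (norm_sum_le _ _).trans (le_of_eq (sum_congr rfl fun n _ => norm_mul _ _))
    · refine (norm_sum_le _ _).trans (le_of_eq (sum_congr rfl fun n _ => norm_mul _ _))
  refine (sum_le_sum fun a ha => mul_le_mul_of_nonneg_left (hsplit a ha) (hφ a)).trans ?_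
  simp only [mul_add]
  rw [sum_add_distrib, sum_add_distrib]
  have b1 : ∑ a ∈ S, φ a * ∑ n ∈ T, ‖g n‖ * ‖p (n + a)‖ ≤ √(∑ a ∈ S, φ a ^ 2) * √A1 * ∑ n ∈ T, ‖g n‖ := by
    have e : ∀ a ∈ S, φ a * ∑ n ∈ T, ‖g n‖ * ‖p (n + a)‖ = ∑ n ∈ T, ‖g n‖ * (φ a * ‖p (n + a)‖) := by
      intro a _
      rw [mul_sum]
      apply sum_congr rfl
      intro n _
      ring
    rw [sum_congr rfl e, sum_comm, mul_sum]
    apply sum_le_sum
    intro n hn
    rw [← mul_sum, mul_comm]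
    exact mul_le_mul_of_nonneg_right (l1_shift_w S n (hT1 n hn) p φ hpn) (norm_nonneg _)
  have b2 : ∑ a ∈ S, φ a * ∑ n ∈ T, ‖g n‖ * ‖s (n + a)‖ ≤ √(∑ a ∈ S, φ a ^ 2) * √A2 * ∑ n ∈ T, ‖g n‖ := by
    have e : ∀ a ∈ S, φ a * ∑ n ∈ T, ‖g n‖ * ‖s (n + a)‖ = ∑ n ∈ T, ‖g n‖ * (φ a * ‖s (n + a)‖) := by
      intro a _
      rw [mul_sum]
      apply sum_congr rfl
      intro n _
      ring
    rw [sum_congr rfl e, sum_comm, mul_sum]
    apply sum_le_sum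
    intro n hn
    rw [← mul_sum, mul_comm]
    exact mul_le_mul_of_nonneg_right (l1_shift_w S n (hT1 n hn) s φ hsn) (norm_nonneg _)
  have b3 : ∑ a ∈ S, φ a * ‖∑ n ∈ T, g n * q (n + a)‖ ≤ √(∑ a ∈ S, φ a ^ 2) * Mb * √(∑ n ∈ T, ‖g n‖ ^ 2) := by
    rcases T.eq_empty_or_nonempty with hTe | ⟨n0, hn0⟩
    · subst hTe
      simp
    rcases S.eq_empty_or_nonempty with hSe | ⟨a0, ha0⟩
    · subst hSe
      simp
    set G : ℕ → ℂ := fun k => ∑ n ∈ T, g n * ee (-(n * ((k : ℝ) / X))) with hG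
    have h1 : ∀ a, ∑ n ∈ T, g n * q (n + a) =
        (X : ℂ)⁻¹ * ∑ k ∈ K', ((dft X M u k + dft X M v k) * G k) * ee (-(a * ((k : ℝ) / X))) := by
      intro a
      rw [hq, hG]
      simp only [mul_sum, sum_mul]
      rw [sum_comm]
      apply sum_congr rfl
      intro k _
      apply sum_congr rfl
      intro n _
      have e : -(((n + a : ℕ) : ℝ) * ((k : ℝ) / X)) = -(n * ((k : ℝ) / X)) + -(a * ((k : ℝ) / X)) := by
        push_cast
        ring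
      rw [e, ee_mul]
      ring
    have hTX : T ⊆ range X := by
      intro n hn
      rw [mem_range]
      have := hT1 n hn a0 ha0
      omega
    have hSX : S ⊆ range X := by
      intro a ha
      rw [mem_range]
      have := hT1 n0 hn0 a ha
      omega
    have h2 : ∑ a ∈ range X, ‖∑ n ∈ T, g n * q (n + a)‖ ^ 2 ≤ Mb ^ 2 * ∑ n ∈ T, ‖g n‖ ^ 2 := by
      simp only [h1]
      rw [hnorm K' hK'X]
      have h3 : ∑ k ∈ K', ‖(dft X M u k + dft X M v k) * G k‖ ^ 2 ≤ Mb ^ 2 * ∑ k ∈ range X, ‖G k‖ ^ 2 := by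
        rw [mul_sum]
        refine le_trans (sum_le_sum fun k hk => ?_) (sum_le_sum_of_subset_of_nonneg hK'X
          fun _ _ _ => by positivity)
        rw [norm_mul, mul_pow]
        apply mul_le_mul_of_nonneg_right _ (by positivity)
        rw [hK', mem_sdiff] at hk
        exact pow_le_pow_left₀ (norm_nonneg _) (hMb k hk.1 hk.2) 2
      have h4 : ∑ k ∈ range X, ‖G k‖ ^ 2 = X * ∑ n ∈ T, ‖g n‖ ^ 2 := by
        have h5 := parseval_X hX T hTX g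
        rw [← h5]
        apply sum_congr rfl
        intro k _
        rw [hG]
        simp only
        congr 2
        apply sum_congr rfl
        intro n _
        congr 2
        ring
      rw [h4] at h3
      rw [inv_mul_le_iff₀ hX0]
      linarith
    have h3 : ∑ a ∈ S, φ a * ‖∑ n ∈ T, g n * q (n + a)‖ ≤ √(∑ a ∈ S, φ a ^ 2) *
        √(∑ a ∈ S, ‖∑ n ∈ T, g n * q (n + a)‖ ^ 2) :=
      Real.sum_mul_le_sqrt_mul_sqrt S φ (fun a => ‖∑ n ∈ T, g n * q (n + a)‖)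
    refine h3.trans ?_
    rw [mul_assoc]
    apply mul_le_mul_of_nonneg_left _ (Real.sqrt_nonneg _)
    calc √(∑ a ∈ S, ‖∑ n ∈ T, g n * q (n + a)‖ ^ 2) ≤ √(Mb ^ 2 * ∑ n ∈ T, ‖g n‖ ^ 2) := by
          apply Real.sqrt_le_sqrt
          refine le_trans ?_ h2
          exact sum_le_sum_of_subset_of_nonneg hSX fun _ _ _ => by positivity
      _ = _ := by
          rw [Real.sqrt_mul (by positivity), Real.sqrt_sq hMb0]
  linarith

end Pool.Agent.R521.F6
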