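import Pool.Agent.R521.F6.U5
import Pool.Agent.R521.F6.W2

set_option autoImplicit false

/-!
# The primes against periodic weights
-/

open Finset
open scoped Real

namespace Pool.Agent.R521.F6

open Pool.Agent.H373R2.T7 (pz Vz lamz mem_pz Vz_pos Vz_le_one)

/-- the first part of the interval -/
lemma card_low {w H c j : ℕ} :
    ((range (H + 1)).filter (fun a => a ≡ c [MOD Wn w] ∧ a < j * Wn w)).card ≤ j := by
  have hW := Wn_pos w
  conv_rhs => rw [← card_range j]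
  apply card_le_card_of_injOn (fun a => a / Wn w)
  · intro a ha
    rw [mem_coe, mem_filter] at ha
    rw [mem_coe, mem_range]
    exact (Nat.div_lt_iff_lt_mul (by omega)).2 ha.2.2
  · intro a ha a' ha' haa
    rw [mem_coe, mem_filter] at ha ha'
    have e1 : a % Wn w = a' % Wn w := ha.2.1.trans ha'.2.1.symm
    have e2 : a / Wn w = a' / Wn w := haa
    rw [← Nat.div_add_mod a (Wn w), ← Nat.div_add_mod a' (Wn w), e1, e2]

/-- the last part of the interval -/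
lemma card_high {w H c j : ℕ} :
    ((range (H + 1)).filter (fun a => a ≡ c [MOD Wn w] ∧ H < a + j * Wn w)).card ≤ j := by
  have hW := Wn_pos w
  conv_rhs => rw [← card_range j]
  apply card_le_card_of_injOn (fun a => (H - a) / Wn w)
  · intro a ha
    rw [mem_coe, mem_filter, mem_range] at ha
    rw [mem_coe, mem_range]
    apply (Nat.div_lt_iff_lt_mul (by omega)).2
    omega
  · intro a ha a' ha' haa
    rw [mem_coe, mem_filter, mem_range] at ha ha'
    have e1 : a ≡ a' [MOD Wn w] := ha.2.1.trans ha'.2.1.symm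
    have e2 : (H - a) / Wn w = (H - a') / Wn w := haa
    have e3 : H - a ≡ H - a' [MOD Wn w] := by
      have h1 : a + (H - a) ≡ a + (H - a') [MOD Wn w] := by
        have h2 : a + (H - a) = a' + (H - a') := by omega
        rw [h2]
        exact (e1.symm).add_right _
      exact Nat.ModEq.add_left_cancel' a h1
    have e4 : H - a = H - a' := by
      rw [← Nat.div_add_mod (H - a) (Wn w), ← Nat.div_add_mod (H - a') (Wn w), e2]
      congr 1
    omega

/-- **shift by a multiple of the period** -/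
lemma shift_id {w : ℕ} {b : ℕ → ℕ} {H j : ℕ} {Φ : ℕ → ℝ} (hΦ : Per w Φ) (E : ℕ → ℝ) (n : ℕ) :
    ∑ a ∈ Sb w b H, Φ a * E (n + a) =
      ∑ a ∈ (Sb w b H).filter (fun a => a < j * Wn w), Φ a * E (n + a) +
      ∑ a ∈ Sb w b H, Φ a * E (n + j * Wn w + a) -
      ∑ a ∈ (Sb w b H).filter (fun a => H < a + j * Wn w), Φ a * E (n + j * Wn w + a) := by
  have h1 : ∑ a ∈ Sb w b H, Φ a * E (n + a) =
      ∑ a ∈ (Sb w b H).filter (fun a => a < j * Wn w), Φ a * E (n + a) +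
      ∑ a ∈ (Sb w b H).filter (fun a => ¬ a < j * Wn w), Φ a * E (n + a) :=
    (sum_filter_add_sum_filter_not _ _ _).symm
  have h2 : ∑ a ∈ Sb w b H, Φ a * E (n + j * Wn w + a) =
      ∑ a ∈ (Sb w b H).filter (fun a => H < a + j * Wn w), Φ a * E (n + j * Wn w + a) +
      ∑ a ∈ (Sb w b H).filter (fun a => ¬ H < a + j * Wn w), Φ a * E (n + j * Wn w + a) :=
    (sum_filter_add_sum_filter_not _ _ _).symm
  have hmod : ∀ a p, p ∈ pz w → a + j * Wn w ≡ a [MOD p] := by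
    intro a p hp
    have h3 : j * Wn w ≡ 0 [MOD p] := (Nat.modEq_zero_iff_dvd).2 ((dvd_Wn hp).mul_left j)
    exact (h3.add_left a)
  have h3 : ∑ a ∈ (Sb w b H).filter (fun a => ¬ a < j * Wn w), Φ a * E (n + a) =
      ∑ a ∈ (Sb w b H).filter (fun a => ¬ H < a + j * Wn w), Φ a * E (n + j * Wn w + a) := by
    symm
    apply sum_nbij (fun a => a + j * Wn w)
    · intro a ha
      rw [mem_filter, mem_Sb] at ha
      rw [mem_filter, mem_Sb]
      refine ⟨⟨by omega, fun p hp h4 => ha.1.2 p hp ((hmod a p hp).symm.trans h4)⟩, by omega⟩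
    · intro a _ a' _ h4
      exact Nat.add_right_cancel h4
    · intro a ha
      rw [mem_coe, mem_filter, mem_Sb] at ha
      refine ⟨a - j * Wn w, ?_, by simp only; omega⟩
      rw [mem_coe, mem_filter, mem_Sb]
      refine ⟨⟨by omega, fun p hp h4 => ha.1.2 p hp ?_⟩, by omega⟩
      have h5 := hmod (a - j * Wn w) p hp
      rw [Nat.sub_add_cancel (by omega)] at h5
      exact h5.trans h4
    · intro a _
      have h4 : Φ a = Φ (a + j * Wn w) := hΦ _ _ fun p hp => (hmod a p hp).symm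
      rw [h4]
      congr 2
      ring
  rw [h1, h3]
  rw [h2]
  ring

/-- **the primes against a periodic weight** -/
theorem F_per {w Q : ℕ} (hwQ : w ≤ Q) {b : ℕ → ℕ} {H r J n : ℕ} {ε : ℝ}
    (hcl : 1 + ((Vz Q)⁻¹) ^ 2 * qerr (((H : ℝ) + 1) / Wp w) Q r ≤ ε * (((H : ℝ) + 1) / Wp w - 1))
    (hε : 0 ≤ ε) (hn : n ∈ Tb w b H) {B ρ E1 E2 : ℝ} (hB : ∀ m, m ≤ 3 * H → |Eb Q m| ≤ B) (hJ1 : 1 ≤ J)
    (hJ : J * Wn w ≤ H) (hX : 1 < ((H : ℝ) + 1) / Wp w) (hρ0 : 0 ≤ ρ)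
    (hpsi : ∀ T' : Finset ℕ, (∀ m ∈ T', 1 ≤ m ∧ m ≤ 2 * H) → ∀ φ : ℕ → ℝ, (∀ a, 0 ≤ φ a) →
      ∑ a ∈ Sb w b H, φ a * |∑ m ∈ T', Eb Q (m + a)| ≤
        √(∑ a ∈ Sb w b H, φ a ^ 2) * (E1 * (T'.card : ℝ) + E2 * √(T'.card)))
    (hE1 : 0 ≤ E1) (hE2 : 0 ≤ E2)
    (herr : Vz w * (ρ * (E1 + E2 / √J) + 2 * B * (J / (((H : ℝ) + 1) / Wp w - 1))) ≤ ε)
    {Φ : ℕ → ℝ} (hΦ : Per w Φ) (hΦ0 : ∀ a, 0 ≤ Φ a)
    (hρ : √(∑ a ∈ Sb w b H, Φ a ^ 2) ≤ ρ * ∑ a ∈ Sb w b H, Φ a) :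
    ∑ a ∈ Sb w b H, Φ a * Fm w Q (n + a) ≤ (1 + 2 * ε) * ∑ a ∈ Sb w b H, Φ a := by
  classical
  obtain ⟨Z, hZ⟩ : ∃ Z : ℝ, Z = ∑ a ∈ Sb w b H, Φ a := ⟨_, rfl⟩
  obtain ⟨X, hXd⟩ : ∃ X : ℝ, X = ((H : ℝ) + 1) / Wp w := ⟨_, rfl⟩
  rw [← hXd] at hX herr
  rw [← hZ] at hρ ⊢
  have hZ0 : 0 ≤ Z := by rw [hZ]; exact sum_nonneg fun a _ => hΦ0 a
  have hX1 : 0 < X - 1 := by linarith only [hX]
  have hB0 : 0 ≤ B := (abs_nonneg _).trans (hB 0 (Nat.zero_le _))
  have hn1 := (mem_Tb.1 hn).1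
  have hJ0 : (0 : ℝ) < J := by exact_mod_cast (by omega : 0 < J)
  have hsJ : 0 < √(J : ℝ) := Real.sqrt_pos.2 hJ0
  have hV := Vz_pos w
  have hWp : 0 < Wp w := lt_of_lt_of_le one_pos (Wp_ge w)
  -- boundary sums
  have hN : ∀ c ∈ Sb w b H, X - 1 ≤ (((Sb w b H).filter (fun a => a ≡ c [MOD Wn w])).card : ℝ) := by
    intro c hc
    have h1 := (abs_le.1 (card_cls hc)).1
    rw [← hXd] at h1
    linarith only [h1]
  have hbd : ∀ P : ℕ → Prop, ∀ [DecidablePred P], (∀ c ∈ Sb w b H,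
      (((Sb w b H).filter (fun a => a ≡ c [MOD Wn w] ∧ P a)).card : ℝ) ≤ J) →
      ∑ a ∈ (Sb w b H).filter P, Φ a ≤ (J / (X - 1)) * Z := by
    intro P _ hP
    have h1 := per_comp (w := w) (S := Sb w b H) (h := fun a => if P a then (1 : ℝ) else 0) (κ := J / (X - 1))
      (fun c hc => by
        rw [← sum_filter, sum_const, nsmul_eq_mul, mul_one, filter_filter]
        refine (hP c hc).trans ?_
        have h2 := mul_le_mul_of_nonneg_left (hN c hc) (by positivity : 0 ≤ (J : ℝ) / (X - 1))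
        have h3 : (J : ℝ) / (X - 1) * (X - 1) = J := by field_simp
        rw [h3] at h2
        exact h2) hΦ (fun a _ => hΦ0 a)
    rw [hZ]
    refine le_trans (le_of_eq ?_) h1
    rw [sum_filter]
    apply sum_congr rfl
    intro a _
    split_ifs <;> ring
  have hcSb : ∀ c ∈ Sb w b H, ∀ P : ℕ → Prop, ∀ [DecidablePred P],
      (((Sb w b H).filter (fun a => a ≡ c [MOD Wn w] ∧ P a)).card : ℝ) ≤
      (((range (H + 1)).filter (fun a => a ≡ c [MOD Wn w] ∧ P a)).card : ℝ) := by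
    intro c _ P _
    apply Nat.cast_le.2
    apply card_le_card
    apply filter_subset_filter
    exact filter_subset _ _
  have hmain : ∀ j ∈ range J, |∑ a ∈ Sb w b H, Φ a * Eb Q (n + a) -
      ∑ a ∈ Sb w b H, Φ a * Eb Q (n + j * Wn w + a)| ≤ 2 * B * (J / (X - 1)) * Z := by
    intro j hj
    have hjJ : j ≤ J := (mem_range.1 hj).le
    have hjW : j * Wn w ≤ H := (Nat.mul_le_mul_right _ hjJ).trans hJ
    rw [shift_id (j := j) hΦ (fun m => Eb Q m) n]
    have e : ∀ x y z : ℝ, x + y - z - y = x - z := fun x y z => by ring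
    rw [e]
    have h1 : |∑ a ∈ (Sb w b H).filter (fun a => a < j * Wn w), Φ a * Eb Q (n + a)| ≤ B * ((J / (X - 1)) * Z) := by
      refine (abs_sum_le_sum_abs _ _).trans ?_
      have h2 : ∀ a ∈ (Sb w b H).filter (fun a => a < j * Wn w), |Φ a * Eb Q (n + a)| ≤ B * Φ a := by
        intro a ha
        have h3 := (mem_Sb.1 (mem_filter.1 ha).1).1
        rw [abs_mul, abs_of_nonneg (hΦ0 a), mul_comm]
        exact mul_le_mul_of_nonneg_right (hB _ (by omega)) (hΦ0 a)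
      refine (sum_le_sum h2).trans ?_
      rw [← mul_sum]
      apply mul_le_mul_of_nonneg_left _ hB0
      apply hbd
      intro c hc
      refine (hcSb c hc _).trans ?_
      exact Nat.cast_le.2 (card_low.trans hjJ)
    have h4 : |∑ a ∈ (Sb w b H).filter (fun a => H < a + j * Wn w), Φ a * Eb Q (n + j * Wn w + a)| ≤
        B * ((J / (X - 1)) * Z) := by
      refine (abs_sum_le_sum_abs _ _).trans ?_
      have h2 : ∀ a ∈ (Sb w b H).filter (fun a => H < a + j * Wn w),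
          |Φ a * Eb Q (n + j * Wn w + a)| ≤ B * Φ a := by
        intro a ha
        have h3 := (mem_Sb.1 (mem_filter.1 ha).1).1
        rw [abs_mul, abs_of_nonneg (hΦ0 a), mul_comm]
        exact mul_le_mul_of_nonneg_right (hB _ (by omega)) (hΦ0 a)
      refine (sum_le_sum h2).trans ?_
      rw [← mul_sum]
      apply mul_le_mul_of_nonneg_left _ hB0
      apply hbd
      intro c hc
      refine (hcSb c hc _).trans ?_
      exact Nat.cast_le.2 (card_high.trans hjJ)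
    have h5 := abs_sub (∑ a ∈ (Sb w b H).filter (fun a => a < j * Wn w), Φ a * Eb Q (n + a))
      (∑ a ∈ (Sb w b H).filter (fun a => H < a + j * Wn w), Φ a * Eb Q (n + j * Wn w + a))
    linarith only [h1, h4, h5]
  -- the average over the shifts
  obtain ⟨Sg0, hSg0⟩ : ∃ Sg0 : ℝ, Sg0 = ∑ a ∈ Sb w b H, Φ a * Eb Q (n + a) := ⟨_, rfl⟩
  rw [← hSg0] at hmain
  obtain ⟨T', hT'⟩ : ∃ T' : Finset ℕ, T' = (range J).image (fun j => n + j * Wn w) := ⟨_, rfl⟩
  have hinj : Set.InjOn (fun j => n + j * Wn w) (range J : Set ℕ) := by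
    intro j _ j' _ h
    have h1 : j * Wn w = j' * Wn w := Nat.add_left_cancel h
    exact Nat.eq_of_mul_eq_mul_right (Wn_pos w) h1
  have hT'c : (T'.card : ℝ) = J := by
    rw [hT', card_image_of_injOn hinj, card_range]
  have hav : |J * Sg0| ≤ ∑ a ∈ Sb w b H, Φ a * |∑ m ∈ T', Eb Q (m + a)| + J * (2 * B * (J / (X - 1)) * Z) := by
    have h1 : J * Sg0 = ∑ j ∈ range J, (Sg0 - ∑ a ∈ Sb w b H, Φ a * Eb Q (n + j * Wn w + a)) +
        ∑ a ∈ Sb w b H, Φ a * ∑ m ∈ T', Eb Q (m + a) := by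
      have h2 : ∑ a ∈ Sb w b H, Φ a * ∑ m ∈ T', Eb Q (m + a) =
          ∑ j ∈ range J, ∑ a ∈ Sb w b H, Φ a * Eb Q (n + j * Wn w + a) := by
        rw [sum_comm]
        apply sum_congr rfl
        intro a _
        rw [hT', sum_image hinj, mul_sum]
      rw [sum_sub_distrib, h2, sum_const, card_range, nsmul_eq_mul]
      ring
    rw [h1]
    refine (abs_add_le _ _).trans ?_
    have h3 : |∑ j ∈ range J, (Sg0 - ∑ a ∈ Sb w b H, Φ a * Eb Q (n + j * Wn w + a))| ≤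
        J * (2 * B * (J / (X - 1)) * Z) := by
      refine (abs_sum_le_sum_abs _ _).trans ?_
      refine (sum_le_sum hmain).trans (le_of_eq ?_)
      rw [sum_const, card_range, nsmul_eq_mul]
    have h4 : |∑ a ∈ Sb w b H, Φ a * ∑ m ∈ T', Eb Q (m + a)| ≤
        ∑ a ∈ Sb w b H, Φ a * |∑ m ∈ T', Eb Q (m + a)| := by
      refine (abs_sum_le_sum_abs _ _).trans (le_of_eq ?_)
      apply sum_congr rfl
      intro a _
      rw [abs_mul, abs_of_nonneg (hΦ0 a)]
    linarith only [h3, h4]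
  have hps := hpsi T' (by
    intro m hm
    rw [hT', mem_image] at hm
    obtain ⟨j, hj, rfl⟩ := hm
    have hjJ : j ≤ J := (mem_range.1 hj).le
    have hjW : j * Wn w ≤ H := (Nat.mul_le_mul_right _ hjJ).trans hJ
    omega) Φ hΦ0
  rw [hT'c] at hps
  have h6 : ∑ a ∈ Sb w b H, Φ a * |∑ m ∈ T', Eb Q (m + a)| ≤ (ρ * Z) * (E1 * J + E2 * √J) :=
    hps.trans (mul_le_mul_of_nonneg_right hρ (by positivity))
  have h7 : J * |Sg0| ≤ J * ((ρ * (E1 + E2 / √J) + 2 * B * (J / (X - 1))) * Z) := by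
    rw [abs_mul, abs_of_pos hJ0] at hav
    refine hav.trans ?_
    have h8 : E2 * √(J : ℝ) = J * (E2 / √J) := by
      rw [← mul_div_assoc, mul_comm (J : ℝ) E2, mul_div_assoc, Real.div_sqrt]
    rw [h8] at h6
    have e : ρ * Z * (E1 * J + J * (E2 / √J)) + J * (2 * B * (J / (X - 1)) * Z) =
        J * ((ρ * (E1 + E2 / √J) + 2 * B * (J / (X - 1))) * Z) := by ring
    linarith only [h6, e]
  have h9 : |Sg0| ≤ (ρ * (E1 + E2 / √J) + 2 * B * (J / (X - 1))) * Z := le_of_mul_le_mul_left h7 hJ0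
  have h10 : Vz w * |Sg0| ≤ ε * Z := by
    calc Vz w * |Sg0| ≤ Vz w * ((ρ * (E1 + E2 / √J) + 2 * B * (J / (X - 1))) * Z) :=
          mul_le_mul_of_nonneg_left h9 hV.le
      _ = (Vz w * (ρ * (E1 + E2 / √J) + 2 * B * (J / (X - 1)))) * Z := by ring
      _ ≤ ε * Z := mul_le_mul_of_nonneg_right herr hZ0
  have h11 : ∑ a ∈ Sb w b H, Φ a * Gm w Q (n + a) ≤ (1 + ε) * Z := by
    rw [hZ]
    exact per_comp (w := w) (fun c hc => (G_rel (r := r) hwQ hcl hε hc).1 n hn) hΦ (fun a _ => hΦ0 a)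
  have h12 : ∑ a ∈ Sb w b H, Φ a * Fm w Q (n + a) = ∑ a ∈ Sb w b H, Φ a * Gm w Q (n + a) + Vz w * Sg0 := by
    rw [hSg0, mul_sum, ← sum_add_distrib]
    apply sum_congr rfl
    intro a _
    have := Fm_sub_Gm w Q (n + a)
    have h13 : Fm w Q (n + a) = Gm w Q (n + a) + Vz w * Eb Q (n + a) := by linarith only [this]
    rw [h13]
    ring
  rw [h12]
  have h14 : Vz w * Sg0 ≤ Vz w * |Sg0| := mul_le_mul_of_nonneg_left (le_abs_self _) hV.le
  linarith only [h10, h11, h14]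

end Pool.Agent.R521.F6
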