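import Pool.Agent.R521.F6.U6

set_option autoImplicit false

/-!
# The weighted telescoping inequality
-/

open Finset
open scoped Real

namespace Pool.Agent.R521.F6

open Pool.Agent.H373R2.T7 (pz Vz lamz mem_pz Vz_pos Vz_le_one)

/-- the weight of a set -/
noncomputable def wt (w : ℕ) (E : Finset ℕ) : ℝ := (om w E)⁻¹

lemma om_nonneg (w : ℕ) (E : Finset ℕ) : 0 ≤ om w E := prod_nonneg fun _ _ => Nat.cast_nonneg _

lemma wt_nonneg (w : ℕ) (E : Finset ℕ) : 0 ≤ wt w E := inv_nonneg.2 (om_nonneg w E)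

lemma wt_le_one {w : ℕ} {b : ℕ → ℕ} {E : Finset ℕ} (h : okE w b E) : wt w E ≤ 1 :=
  inv_le_one_of_one_le₀ (one_le_om h)

lemma om_congr {w : ℕ} {E E' : Finset ℕ}
    (h : ∀ p ∈ pz w, ∀ c, (∀ e ∈ E, ¬ e ≡ c [MOD p]) ↔ (∀ e ∈ E', ¬ e ≡ c [MOD p])) : om w E = om w E' := by
  unfold om
  apply prod_congr rfl
  intro p hp
  have : miss p E = miss p E' := by
    unfold miss
    apply filter_congr
    intro c _
    exact h p hp c
  rw [this]

/-- the set of a tuple, with fixed elements -/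
def st {k : ℕ} (D : Finset ℕ) (a : Fin k → ℕ) : Finset ℕ := D ∪ univ.image a

lemma mem_st {k : ℕ} {D : Finset ℕ} {a : Fin k → ℕ} {x : ℕ} : x ∈ st D a ↔ x ∈ D ∨ ∃ i, a i = x := by
  unfold st
  rw [mem_union, mem_image]
  simp

lemma st_cons {k : ℕ} (D : Finset ℕ) (b : ℕ) (a : Fin k → ℕ) :
    st D (Fin.cons b a : Fin (k + 1) → ℕ) = st (insert b D) a := by
  ext x
  rw [mem_st, mem_st, mem_insert]
  constructor
  · rintro (h | ⟨i, hi⟩)
    · exact Or.inl (Or.inr h)
    · revert hi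
      refine Fin.cases ?_ (fun j => ?_) i
      · intro hi
        simp only [Fin.cons_zero] at hi
        exact Or.inl (Or.inl hi.symm)
      · intro hi
        simp only [Fin.cons_succ] at hi
        exact Or.inr ⟨j, hi⟩
  · rintro ((h | h) | ⟨i, hi⟩)
    · exact Or.inr ⟨0, by simp [h]⟩
    · exact Or.inl h
    · exact Or.inr ⟨i.succ, by simp [hi]⟩

lemma st_insert {k : ℕ} (D : Finset ℕ) (b : ℕ) (a : Fin k → ℕ) : st (insert b D) a = insert b (st D a) := by
  ext x
  rw [mem_st, mem_insert, mem_insert, mem_st]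
  tauto

lemma st_zero (D : Finset ℕ) (a : Fin 0 → ℕ) : st D a = D := by
  ext x
  rw [mem_st]
  constructor
  · rintro (h | ⟨i, _⟩)
    · exact h
    · exact i.elim0
  · exact Or.inl

lemma okE_st {w : ℕ} {b : ℕ → ℕ} {D : Finset ℕ} {H k : ℕ} {a : Fin k → ℕ} (hD : okE w b D)
    (ha : a ∈ tup k (Sb w b H)) : okE w b (st D a) := by
  intro p hp e he
  rw [mem_st] at he
  rcases he with he | ⟨i, rfl⟩
  · exact hD p hp e he
  · exact (mem_Sb.1 (mem_tup.1 ha i)).2 p hp

lemma okE_ins {w : ℕ} {b : ℕ → ℕ} {D : Finset ℕ} {H c : ℕ} (hD : okE w b D) (hc : c ∈ Sb w b H) :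
    okE w b (insert c D) := okE_insert hD hc

/-- the weights are periodic -/
lemma PerT_wt (w k : ℕ) (D : Finset ℕ) : PerT w k (fun a => wt w (st D a)) := by
  intro a a' h
  simp only [wt]
  congr 1
  apply om_congr
  intro p hp c
  constructor
  · intro h1 e he
    rw [mem_st] at he
    rcases he with he | ⟨i, rfl⟩
    · exact h1 e (mem_st.2 (Or.inl he))
    · intro h2
      exact h1 (a i) (mem_st.2 (Or.inr ⟨i, rfl⟩)) ((h i p hp).trans h2)
  · intro h1 e he
    rw [mem_st] at he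
    rcases he with he | ⟨i, rfl⟩
    · exact h1 e (mem_st.2 (Or.inl he))
    · intro h2
      exact h1 (a' i) (mem_st.2 (Or.inr ⟨i, rfl⟩)) ((h i p hp).symm.trans h2)

lemma PerT_sum_wt (w k : ℕ) (S D : Finset ℕ) : PerT w k (fun a => ∑ b ∈ S, wt w (insert b (st D a))) := by
  intro a a' h
  apply sum_congr rfl
  intro b _
  rw [← st_insert, ← st_insert]
  exact PerT_wt w k (insert b D) a a' h

lemma Per_wt (w : ℕ) (E : Finset ℕ) : Per w (fun c => wt w (insert c E)) := by
  intro c c' h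
  simp only [wt]
  congr 1
  apply om_congr
  intro p hp x
  constructor
  · intro h1 e he
    rw [mem_insert] at he
    rcases he with rfl | he
    · intro h2
      exact h1 c (mem_insert_self _ _) ((h p hp).trans h2)
    · exact h1 e (mem_insert_of_mem he)
  · intro h1 e he
    rw [mem_insert] at he
    rcases he with rfl | he
    · intro h2
      exact h1 c' (mem_insert_self _ _) ((h p hp).symm.trans h2)
    · exact h1 e (mem_insert_of_mem he)

/-- the total weight -/
noncomputable def ZZ (w k : ℕ) (S D : Finset ℕ) : ℝ := ∑ a ∈ tup k S, wt w (st D a)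

lemma ZZ_succ (w k : ℕ) (S D : Finset ℕ) : ZZ w (k + 1) S D = ∑ b ∈ S, ZZ w k S (insert b D) := by
  unfold ZZ
  rw [tup_sum_succ]
  apply sum_congr rfl
  intro b _
  apply sum_congr rfl
  intro a _
  rw [st_cons]

lemma ZZ_nonneg (w k : ℕ) (S D : Finset ℕ) : 0 ≤ ZZ w k S D := sum_nonneg fun _ _ => wt_nonneg _ _

lemma ZZ_succ' (w k : ℕ) (S D : Finset ℕ) :
    ZZ w (k + 1) S D = ∑ a ∈ tup k S, ∑ b ∈ S, wt w (insert b (st D a)) := by
  rw [ZZ_succ]
  unfold ZZ
  rw [sum_comm]
  apply sum_congr rfl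
  intro a _
  apply sum_congr rfl
  intro b _
  rw [st_insert]

/-- **weighted telescoping** -/
theorem telescope_w {w : ℕ} {b : ℕ → ℕ} {H : ℕ} (T : Finset ℕ) (F G : ℕ → ℝ) (hF : ∀ m, 0 ≤ F m)
    (hG : ∀ m, 0 ≤ G m) {Hh κ ρ E1 E2 : ℝ}
    (hHF : ∀ n ∈ T, ∑ a ∈ Sb w b H, F (n + a) ^ 2 ≤ Hh) (hHG : ∀ n ∈ T, ∑ a ∈ Sb w b H, G (n + a) ^ 2 ≤ Hh)
    (hH0 : 0 ≤ Hh) (hκ : 1 ≤ κ) (hρ0 : 0 ≤ ρ) (hE1 : 0 ≤ E1) (hE2 : 0 ≤ E2)
    (hFw : ∀ n ∈ T, ∀ E, okE w b E → ∑ c ∈ Sb w b H, wt w (insert c E) * F (n + c) ≤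
      κ * ∑ c ∈ Sb w b H, wt w (insert c E))
    (hGc : ∀ n ∈ T, ∀ c ∈ Sb w b H, ∑ a ∈ (Sb w b H).filter (fun a => a ≡ c [MOD Wn w]), G (n + a) ≤
      κ * ((Sb w b H).filter (fun a => a ≡ c [MOD Wn w])).card)
    (hreg : ∀ E, okE w b E → √(∑ c ∈ Sb w b H, wt w (insert c E) ^ 2) ≤ ρ * ∑ c ∈ Sb w b H, wt w (insert c E))
    (hpsi : ∀ g φ : ℕ → ℝ, (∀ a, 0 ≤ φ a) → ∑ a ∈ Sb w b H, φ a * |∑ n ∈ T, g n * (F (n + a) - G (n + a))| ≤
      √(∑ a ∈ Sb w b H, φ a ^ 2) * (E1 * ∑ n ∈ T, |g n| + E2 * √(∑ n ∈ T, g n ^ 2))) (k : ℕ) :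
    ∀ (D : Finset ℕ), okE w b D → ∀ v : ℕ → ℝ,
    ∑ a ∈ tup k (Sb w b H), wt w (st D a) * |∑ n ∈ T, v n * (∏ i, F (n + a i) - ∏ i, G (n + a i))| ≤
      k * (κ ^ k * (ρ * E1) * ZZ w k (Sb w b H) D * ∑ n ∈ T, |v n| +
        (√((Sb w b H).card) * E2) * √((Sb w b H).card * Hh) ^ (k - 1) * √(∑ n ∈ T, v n ^ 2)) := by
  obtain ⟨S, hS⟩ : ∃ S, S = Sb w b H := ⟨_, rfl⟩
  rw [← hS] at hHF hHG hFw hGc hreg hpsi
  rw [← hS]
  obtain ⟨s, hs⟩ : ∃ s : ℝ, s = √((S.card : ℝ) * Hh) := ⟨_, rfl⟩
  rw [← hs]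
  have hs0 : 0 ≤ s := by rw [hs]; exact Real.sqrt_nonneg _
  have hκ0 : 0 ≤ κ := by linarith only [hκ]
  induction k with
  | zero =>
    intro D _ v
    simp
  | succ k ih =>
    intro D hD v
    rw [tup_sum_succ, Nat.add_sub_cancel]
    obtain ⟨V1, hV1⟩ : ∃ V1 : ℝ, V1 = ∑ n ∈ T, |v n| := ⟨_, rfl⟩
    obtain ⟨V2, hV2⟩ : ∃ V2 : ℝ, V2 = ∑ n ∈ T, v n ^ 2 := ⟨_, rfl⟩
    rw [← hV1, ← hV2]
    have hV10 : 0 ≤ V1 := by rw [hV1]; exact sum_nonneg fun _ _ => abs_nonneg _
    have hV20 : 0 ≤ V2 := by rw [hV2]; exact sum_nonneg fun _ _ => sq_nonneg _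
    have hZ0 := ZZ_nonneg w (k + 1) S D
    have h1 : ∀ c ∈ S, ∀ a ∈ tup k S,
        wt w (st D (Fin.cons c a : Fin (k + 1) → ℕ)) *
        |∑ n ∈ T, v n * (∏ i, F (n + (Fin.cons c a : Fin (k + 1) → ℕ) i) -
          ∏ i, G (n + (Fin.cons c a : Fin (k + 1) → ℕ) i))| ≤
        wt w (st (insert c D) a) * |∑ n ∈ T, (v n * F (n + c)) * (∏ i, F (n + a i) - ∏ i, G (n + a i))| +
        wt w (insert c (st D a)) * |∑ n ∈ T, (v n * ∏ i, G (n + a i)) * (F (n + c) - G (n + c))| := by
      intro c _ a _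
      rw [st_cons, ← st_insert, ← mul_add]
      apply mul_le_mul_of_nonneg_left _ (wt_nonneg _ _)
      refine le_trans (le_of_eq ?_) (abs_add_le _ _)
      congr 1
      rw [← sum_add_distrib]
      apply sum_congr rfl
      intro n _
      rw [Fin.prod_univ_succ, Fin.prod_univ_succ]
      simp only [Fin.cons_zero, Fin.cons_succ]
      ring
    have h2 : ∑ c ∈ S, ∑ a ∈ tup k S, wt w (st (insert c D) a) *
          |∑ n ∈ T, (v n * F (n + c)) * (∏ i, F (n + a i) - ∏ i, G (n + a i))| ≤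
        k * (κ ^ (k + 1) * (ρ * E1) * ZZ w (k + 1) S D * V1 + (√(S.card) * E2) * s ^ k * √V2) := by
      have h3 : ∀ c ∈ S, ∑ a ∈ tup k S, wt w (st (insert c D) a) *
          |∑ n ∈ T, (v n * F (n + c)) * (∏ i, F (n + a i) - ∏ i, G (n + a i))| ≤
          k * (κ ^ k * (ρ * E1) * ZZ w k S (insert c D) * ∑ n ∈ T, |v n * F (n + c)| +
            (√(S.card) * E2) * s ^ (k - 1) * √(∑ n ∈ T, (v n * F (n + c)) ^ 2)) := by
        intro c hc
        exact ih (insert c D) (okE_ins hD (hS ▸ hc)) _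
      refine (sum_le_sum h3).trans ?_
      rw [← mul_sum, sum_add_distrib, ← mul_sum]
      rcases Nat.eq_zero_or_pos k with hk | hk
      · subst hk
        simp
      have hk2 : s ^ k = s ^ (k - 1) * s := by
        rw [← pow_succ, Nat.sub_add_cancel hk]
      apply mul_le_mul_of_nonneg_left _ (Nat.cast_nonneg _)
      apply add_le_add
      · have h4 : ∑ c ∈ S, κ ^ k * (ρ * E1) * ZZ w k S (insert c D) * ∑ n ∈ T, |v n * F (n + c)| =
            κ ^ k * (ρ * E1) * ∑ n ∈ T, |v n| * ∑ a ∈ tup k S, ∑ c ∈ S, wt w (insert c (st D a)) * F (n + c) := by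
          have h5 : ∀ n ∈ T, ∑ a ∈ tup k S, ∑ c ∈ S, wt w (insert c (st D a)) * F (n + c) =
              ∑ c ∈ S, ZZ w k S (insert c D) * F (n + c) := by
            intro n _
            rw [sum_comm]
            apply sum_congr rfl
            intro c _
            unfold ZZ
            rw [sum_mul]
            apply sum_congr rfl
            intro a _
            rw [st_insert]
          calc _ = ∑ c ∈ S, ∑ n ∈ T, κ ^ k * (ρ * E1) * (|v n| * (ZZ w k S (insert c D) * F (n + c))) := by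
                apply sum_congr rfl
                intro c _
                rw [mul_sum]
                apply sum_congr rfl
                intro n _
                rw [abs_mul, abs_of_nonneg (hF _)]
                ring
            _ = ∑ n ∈ T, ∑ c ∈ S, κ ^ k * (ρ * E1) * (|v n| * (ZZ w k S (insert c D) * F (n + c))) := sum_comm
            _ = _ := by
                rw [mul_sum]
                apply sum_congr rfl
                intro n hn
                rw [h5 n hn, mul_sum, mul_sum]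
        rw [h4]
        have h6 : ∀ n ∈ T, |v n| * ∑ a ∈ tup k S, ∑ c ∈ S, wt w (insert c (st D a)) * F (n + c) ≤
            |v n| * (κ * ZZ w (k + 1) S D) := by
          intro n hn
          apply mul_le_mul_of_nonneg_left _ (abs_nonneg _)
          rw [ZZ_succ', mul_sum]
          apply sum_le_sum
          intro a ha
          rw [hS] at ha
          exact hFw n hn _ (okE_st hD ha)
        refine (mul_le_mul_of_nonneg_left (sum_le_sum h6) (by positivity)).trans (le_of_eq ?_)
        rw [← sum_mul, ← hV1]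
        ring
      · rw [hk2, ← mul_assoc, mul_assoc ((√(S.card) * E2) * s ^ (k - 1))]
        apply mul_le_mul_of_nonneg_left _ (by positivity)
        refine (l1_l2 S _ (fun b _ => sum_nonneg fun _ _ => sq_nonneg _)).trans ?_
        rw [hs, ← Real.sqrt_mul (Nat.cast_nonneg _), ← Real.sqrt_mul (by positivity)]
        apply Real.sqrt_le_sqrt
        rw [mul_assoc]
        apply mul_le_mul_of_nonneg_left _ (Nat.cast_nonneg _)
        rw [sum_comm, hV2, mul_sum]
        apply sum_le_sum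
        intro n hn
        simp only [mul_pow]
        rw [← mul_sum, mul_comm Hh]
        exact mul_le_mul_of_nonneg_left (hHF n hn) (sq_nonneg _)
    have h3 : ∑ c ∈ S, ∑ a ∈ tup k S, wt w (insert c (st D a)) *
          |∑ n ∈ T, (v n * ∏ i, G (n + a i)) * (F (n + c) - G (n + c))| ≤
        κ ^ (k + 1) * (ρ * E1) * ZZ w (k + 1) S D * V1 + (√(S.card) * E2) * s ^ k * √V2 := by
      rw [sum_comm]
      have h4 : ∀ a ∈ tup k S, ∑ c ∈ S, wt w (insert c (st D a)) *
          |∑ n ∈ T, (v n * ∏ i, G (n + a i)) * (F (n + c) - G (n + c))| ≤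
          (ρ * E1) * ∑ n ∈ T, |v n| * ((∑ c ∈ S, wt w (insert c (st D a))) * ∏ i, G (n + a i)) +
          (√(S.card) * E2) * √(∑ n ∈ T, (v n * ∏ i, G (n + a i)) ^ 2) := by
        intro a ha
        have hok : okE w b (st D a) := okE_st hD (hS ▸ ha)
        refine (hpsi (fun n => v n * ∏ i, G (n + a i)) (fun c => wt w (insert c (st D a)))
          (fun c => wt_nonneg _ _)).trans ?_
        rw [mul_add]
        apply add_le_add
        · have h5 : ∑ n ∈ T, |v n * ∏ i, G (n + a i)| = ∑ n ∈ T, |v n| * ∏ i, G (n + a i) := by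
            apply sum_congr rfl
            intro n _
            rw [abs_mul, abs_of_nonneg (prod_nonneg fun _ _ => hG _)]
          rw [h5]
          have h6 : 0 ≤ ∑ n ∈ T, |v n| * ∏ i, G (n + a i) :=
            sum_nonneg fun n _ => mul_nonneg (abs_nonneg _) (prod_nonneg fun _ _ => hG _)
          calc √(∑ c ∈ S, wt w (insert c (st D a)) ^ 2) * (E1 * ∑ n ∈ T, |v n| * ∏ i, G (n + a i)) ≤
                (ρ * ∑ c ∈ S, wt w (insert c (st D a))) * (E1 * ∑ n ∈ T, |v n| * ∏ i, G (n + a i)) :=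
                mul_le_mul_of_nonneg_right (hreg _ hok) (by positivity)
            _ = _ := by
              have h7 : ∑ n ∈ T, |v n| * ((∑ c ∈ S, wt w (insert c (st D a))) * ∏ i, G (n + a i)) =
                  (∑ c ∈ S, wt w (insert c (st D a))) * ∑ n ∈ T, |v n| * ∏ i, G (n + a i) := by
                rw [mul_sum]
                apply sum_congr rfl
                intro n _
                ring
              rw [h7]
              ring
        · rw [← mul_assoc]
          apply mul_le_mul_of_nonneg_right _ (Real.sqrt_nonneg _)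
          apply mul_le_mul_of_nonneg_right _ hE2
          apply Real.sqrt_le_sqrt
          calc ∑ c ∈ S, wt w (insert c (st D a)) ^ 2 ≤ ∑ _c ∈ S, (1 : ℝ) := by
                apply sum_le_sum
                intro c hc
                exact pow_le_one₀ (wt_nonneg _ _) (wt_le_one (okE_ins hok (hS ▸ hc)))
            _ = S.card := by rw [sum_const, nsmul_eq_mul, mul_one]
      refine (sum_le_sum h4).trans ?_
      rw [sum_add_distrib, ← mul_sum, ← mul_sum]
      apply add_le_add
      · have h5 : ∑ a ∈ tup k S, ∑ n ∈ T, |v n| * ((∑ c ∈ S, wt w (insert c (st D a))) * ∏ i, G (n + a i)) =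
            ∑ n ∈ T, |v n| * ∑ a ∈ tup k S, (∑ c ∈ S, wt w (insert c (st D a))) * ∏ i, G (n + a i) := by
          rw [sum_comm]
          apply sum_congr rfl
          intro n _
          rw [mul_sum]
        rw [h5]
        have h6 : ∀ n ∈ T, |v n| * ∑ a ∈ tup k S, (∑ c ∈ S, wt w (insert c (st D a))) * ∏ i, G (n + a i) ≤
            |v n| * (κ ^ (k + 1) * ZZ w (k + 1) S D) := by
          intro n hn
          apply mul_le_mul_of_nonneg_left _ (abs_nonneg _)
          have h7 := tup_comp (w := w) (S := S) (h := fun m => G (n + m)) (fun m => hG _) hκ0 (hGc n hn) k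
            (fun a => ∑ c ∈ S, wt w (insert c (st D a))) (PerT_sum_wt w k S D)
            (fun a _ => sum_nonneg fun c _ => wt_nonneg _ _)
          refine h7.trans ?_
          rw [← ZZ_succ']
          apply mul_le_mul_of_nonneg_right _ hZ0
          exact pow_le_pow_right₀ hκ (Nat.le_succ k)
        refine (mul_le_mul_of_nonneg_left (sum_le_sum h6) (by positivity)).trans (le_of_eq ?_)
        rw [← sum_mul, ← hV1]
        ring
      · rw [mul_assoc (√(S.card) * E2)]
        apply mul_le_mul_of_nonneg_left _ (by positivity)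
        refine (l1_l2 (tup k S) _ (fun b _ => sum_nonneg fun _ _ => sq_nonneg _)).trans ?_
        have h5 : s ^ k * √V2 = √((S.card : ℝ) ^ k) * √(Hh ^ k * V2) := by
          have h6 : s ^ k = √(((S.card : ℝ) * Hh) ^ k) := by
            rw [← Real.sqrt_sq (pow_nonneg hs0 k), ← pow_mul, mul_comm k 2, pow_mul, hs,
              Real.sq_sqrt (by positivity)]
          rw [h6, ← Real.sqrt_mul (by positivity), ← Real.sqrt_mul (by positivity)]
          congr 1
          rw [mul_pow]
          ring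
        rw [h5, card_tup]
        push_cast
        apply mul_le_mul_of_nonneg_left _ (Real.sqrt_nonneg _)
        apply Real.sqrt_le_sqrt
        rw [sum_comm, hV2, mul_sum]
        apply sum_le_sum
        intro n hn
        simp only [mul_pow, ← prod_pow]
        rw [← mul_sum, tup_prod_sum k S (fun b => G (n + b) ^ 2), mul_comm (Hh ^ k)]
        apply mul_le_mul_of_nonneg_left _ (sq_nonneg _)
        exact pow_le_pow_left₀ (sum_nonneg fun _ _ => sq_nonneg _) (hHG n hn) k
    calc _ ≤ ∑ c ∈ S, ∑ a ∈ tup k S,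
          (wt w (st (insert c D) a) * |∑ n ∈ T, (v n * F (n + c)) * (∏ i, F (n + a i) - ∏ i, G (n + a i))| +
          wt w (insert c (st D a)) * |∑ n ∈ T, (v n * ∏ i, G (n + a i)) * (F (n + c) - G (n + c))|) :=
          sum_le_sum fun c hc => sum_le_sum fun a ha => h1 c hc a ha
      _ = _ := by simp only [sum_add_distrib]
      _ ≤ _ := add_le_add h2 h3
      _ = _ := by push_cast; ring

end Pool.Agent.R521.F6
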