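import Pool.Agent.R521.F6.U7

set_option autoImplicit false

/-!
# The weight of the bad tuples
-/

open Finset
open scoped Real

namespace Pool.Agent.R521.F6

open Pool.Agent.H373R2.T7 (pz Vz lamz mem_pz Vz_pos Vz_le_one)

/-- Chebyshev and Markov, weighted -/
lemma cheb_markov_w {ι : Type*} (U : Finset ι) (u X Y : ι → ℝ) (hu : ∀ a ∈ U, 0 ≤ u a) {t V P : ℝ} (ht : 0 < t)
    (hV : ∑ a ∈ U, u a * (Y a - t) ^ 2 ≤ V * t ^ 2) (hP : ∑ a ∈ U, u a * |X a - Y a| ≤ P * t) :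
    ∑ a ∈ U.filter (fun a => X a ≤ t / 4), u a ≤ 4 * V + 4 * P := by
  classical
  have h1 : U.filter (fun a => X a ≤ t / 4) ⊆
      U.filter (fun a => Y a ≤ t / 2) ∪ U.filter (fun a => t / 4 ≤ |X a - Y a|) := by
    intro a ha
    rw [mem_filter] at ha
    rw [mem_union, mem_filter, mem_filter]
    by_cases h : Y a ≤ t / 2
    · exact Or.inl ⟨ha.1, h⟩
    · right
      refine ⟨ha.1, ?_⟩
      have := neg_abs_le (X a - Y a)
      push Not at h
      linarith only [this, ha.2, h]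
  have hnn : ∀ P : ι → Prop, ∀ [DecidablePred P], ∀ a ∈ U.filter P, 0 ≤ u a :=
    fun P _ a ha => hu a (mem_filter.1 ha).1
  have h2 : ∑ a ∈ U.filter (fun a => Y a ≤ t / 2), u a ≤ 4 * V := by
    have h3 : (∑ a ∈ U.filter (fun a => Y a ≤ t / 2), u a) * (t / 2) ^ 2 ≤ V * t ^ 2 := by
      refine le_trans ?_ hV
      rw [sum_mul]
      calc _ ≤ ∑ a ∈ U.filter (fun a => Y a ≤ t / 2), u a * (Y a - t) ^ 2 := by
            apply sum_le_sum
            intro a ha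
            apply mul_le_mul_of_nonneg_left _ (hnn _ a ha)
            have := (mem_filter.1 ha).2
            nlinarith only [this, ht]
        _ ≤ _ := sum_le_sum_of_subset_of_nonneg (filter_subset _ _)
          (fun a ha _ => mul_nonneg (hu a ha) (sq_nonneg _))
    have ht2 : 0 < t ^ 2 := by positivity
    have e : (∑ a ∈ U.filter (fun a => Y a ≤ t / 2), u a) * (t / 2) ^ 2 =
      ((∑ a ∈ U.filter (fun a => Y a ≤ t / 2), u a) / 4) * t ^ 2 := by ring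
    rw [e] at h3
    have := le_of_mul_le_mul_right h3 ht2
    linarith only [this]
  have h4 : ∑ a ∈ U.filter (fun a => t / 4 ≤ |X a - Y a|), u a ≤ 4 * P := by
    have h5 : (∑ a ∈ U.filter (fun a => t / 4 ≤ |X a - Y a|), u a) * (t / 4) ≤ P * t := by
      refine le_trans ?_ hP
      rw [sum_mul]
      calc _ ≤ ∑ a ∈ U.filter (fun a => t / 4 ≤ |X a - Y a|), u a * |X a - Y a| := by
            apply sum_le_sum
            intro a ha
            exact mul_le_mul_of_nonneg_left (mem_filter.1 ha).2 (hnn _ a ha)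
        _ ≤ _ := sum_le_sum_of_subset_of_nonneg (filter_subset _ _)
          (fun a ha _ => mul_nonneg (hu a ha) (abs_nonneg _))
    have e : (∑ a ∈ U.filter (fun a => t / 4 ≤ |X a - Y a|), u a) * (t / 4) =
      ((∑ a ∈ U.filter (fun a => t / 4 ≤ |X a - Y a|), u a) / 4) * t := by ring
    rw [e] at h5
    have := le_of_mul_le_mul_right h5 ht
    linarith only [this]
  have h6 : ∑ a ∈ U.filter (fun a => X a ≤ t / 4), u a ≤
      ∑ a ∈ U.filter (fun a => Y a ≤ t / 2) ∪ U.filter (fun a => t / 4 ≤ |X a - Y a|), u a := by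
    apply sum_le_sum_of_subset_of_nonneg h1
    intro a ha _
    rw [mem_union] at ha
    exact ha.elim (hnn _ a) (hnn _ a)
  have h7 : ∑ a ∈ U.filter (fun a => Y a ≤ t / 2) ∪ U.filter (fun a => t / 4 ≤ |X a - Y a|), u a ≤
      ∑ a ∈ U.filter (fun a => Y a ≤ t / 2), u a + ∑ a ∈ U.filter (fun a => t / 4 ≤ |X a - Y a|), u a := by
    rw [← sum_union_inter]
    have : 0 ≤ ∑ a ∈ U.filter (fun a => Y a ≤ t / 2) ∩ U.filter (fun a => t / 4 ≤ |X a - Y a|), u a :=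
      sum_nonneg fun a ha => hnn _ a (mem_inter.1 ha).1
    linarith only [this]
  linarith only [h6, h7, h2, h4]

/-- **the weight of the bad tuples** -/
theorem bad_tuples_w {w Q k H r J : ℕ} (hk1 : 1 ≤ k) (hkw : k ≤ w) (hwQ : w ≤ Q) (b : ℕ → ℕ) {ε C B : ℝ}
    {A : ℕ} (hε : 0 ≤ ε) (hεw : w * ε ≤ 1 / 4)
    (hs1 : serr (H + 1) w r ≤ ε * (((H : ℝ) + 1) * Vz w))
    (hcl : 1 + ((Vz Q)⁻¹) ^ 2 * qerr (((H : ℝ) + 1) / Wp w) Q r ≤ ε * (((H : ℝ) + 1) / Wp w - 1))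
    (hw0 : (w : ℝ) ≤ (Tb w b H).card) (hP : w * ((Vz Q)⁻¹) ^ k ≤ (Tb w b H).card)
    (hF : ∀ n ∈ Tb w b H, ∑ a ∈ Sb w b H, Fm w Q (n + a) ≤ ((H : ℝ) + 1) * Vz w * (1 + ε))
    (hGs : ∀ n ∈ Tb w b H, ∑ a ∈ Sb w b H, Gm w Q (n + a) ≤ ((H : ℝ) + 1) * Vz w * (1 + ε))
    (hC : 0 ≤ C)
    (hpsi : ∀ g φ : ℕ → ℝ, (∀ a, 0 ≤ φ a) → ∑ a ∈ Sb w b H, φ a * |∑ n ∈ Tb w b H, g n * Eb Q (n + a)| ≤
      √(∑ a ∈ Sb w b H, φ a ^ 2) * (√H / Real.log H ^ A) * ∑ n ∈ Tb w b H, |g n| +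
      √(∑ a ∈ Sb w b H, φ a ^ 2) * (C * Real.log H ^ 8 * (H / √Q)) * √(∑ n ∈ Tb w b H, g n ^ 2))
    {E1 E2 : ℝ} (hE1 : 0 ≤ E1) (hE2 : 0 ≤ E2)
    (hpsi2 : ∀ T' : Finset ℕ, (∀ m ∈ T', 1 ≤ m ∧ m ≤ 2 * H) → ∀ φ : ℕ → ℝ, (∀ a, 0 ≤ φ a) →
      ∑ a ∈ Sb w b H, φ a * |∑ m ∈ T', Eb Q (m + a)| ≤
        √(∑ a ∈ Sb w b H, φ a ^ 2) * (E1 * (T'.card : ℝ) + E2 * √(T'.card)))
    (hB : ∀ m, m ≤ 3 * H → |Eb Q m| ≤ B) (hJ1 : 1 ≤ J)
    (hJ : J * Wn w ≤ H) (hX : 1 < ((H : ℝ) + 1) / Wp w)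
    {ρ : ℝ} (hρ : ρ = √(2 * ((H : ℝ) + 1) * Real.exp (2 * ∑ p ∈ pz w, 1 / (p : ℝ))) / (Sb w b H).card)
    (herr : Vz w * (ρ * (E1 + E2 / √J) + 2 * B * (J / (((H : ℝ) + 1) / Wp w - 1))) ≤ ε)
    (hα : ρ * (Vz w * (√H / Real.log H ^ A)) ≤ 1 / w)
    (hwl : (w : ℝ) ≤ Real.log H) (hVQ : (Vz Q)⁻¹ ≤ Real.log (2 * H)) (hHW : 2 * Wp w ≤ H)
    (hQ : 4 * w * ((C * (2 ^ w * Wp w)) * Real.log H ^ 8) * √(Wp w) * (2 * Real.log (2 * H)) ^ w ≤ √Q) :
    ∑ a ∈ (tup k (Sb w b H)).filter (fun a => XX (Fm w Q) (Tb w b H) a ≤ ((Tb w b H).card : ℝ) / 4),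
      wt w (st ∅ a) ≤ 1020 * ((k : ℝ) / w) * ZZ w k (Sb w b H) ∅ := by
  classical
  have hw1 : 1 ≤ w := hk1.trans hkw
  have hw0' : (0 : ℝ) < w := by exact_mod_cast hw1
  have hkw' : (k : ℝ) ≤ w := by exact_mod_cast hkw
  have hV := Vz_pos Q
  have hw := Vz_pos w
  have hwle := Vz_le_one w
  have hok : okE w b ∅ := fun p _ e he => absurd he (notMem_empty e)
  have hvar := model_var_w (r := r) hk1 hkw hwQ b hε (by linarith only [hεw]) hcl hw0 hP
    (fun a => wt w (st ∅ a)) (PerT_wt w k ∅) (fun a _ => wt_nonneg _ _)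
  obtain ⟨t, ht⟩ : ∃ t : ℝ, t = ((Tb w b H).card : ℝ) := ⟨_, rfl⟩
  obtain ⟨L, hL⟩ : ∃ L : ℝ, L = ((H : ℝ) + 1) * Vz w := ⟨_, rfl⟩
  obtain ⟨Z, hZ⟩ : ∃ Z : ℝ, Z = ZZ w k (Sb w b H) ∅ := ⟨_, rfl⟩
  have hZe : ∑ a ∈ tup k (Sb w b H), wt w (st ∅ a) = Z := hZ.symm
  have hcard := card_Tb w b H
  have ht0 : 0 < t := by rw [ht]; exact lt_of_lt_of_le hw0' hw0
  have hWp := Wp_ge w
  have hWp0 : 0 < Wp w := by linarith only [hWp]
  have hH1 : (1 : ℝ) ≤ H := by linarith only [hWp, hHW]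
  have hTn : ∃ n, n ∈ Tb w b H := by
    have h1 : (0 : ℝ) < ((Tb w b H).card : ℝ) := ht ▸ ht0
    have h2 : 0 < (Tb w b H).card := by exact_mod_cast h1
    exact card_pos.1 h2
  obtain ⟨n0, hn0⟩ := hTn
  have hS := card_Sb hn0 r
  have hε1 : ε ≤ 1 / 4 := by
    have h1 : 1 ≤ (w : ℝ) := by exact_mod_cast hw1
    have : 1 * ε ≤ w * ε := mul_le_mul_of_nonneg_right h1 hε
    linarith only [this, hεw]
  have hL0 : 0 < L := by rw [hL]; positivity
  rw [← hL] at hs1 hS hF hGs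
  have hεL : ε * L ≤ 1 / 4 * L := mul_le_mul_of_nonneg_right hε1 hL0.le
  have hSu : ((Sb w b H).card : ℝ) ≤ 2 * L := by
    have h1 := (abs_le.1 hS).2
    linarith only [h1, hεL, hs1, hL0]
  have hSl : L / 2 ≤ ((Sb w b H).card : ℝ) := by
    have h1 := (abs_le.1 hS).1
    linarith only [h1, hεL, hs1, hL0]
  have hS0 : (0 : ℝ) < (Sb w b H).card := by linarith only [hSl, hL0]
  have hSn : 0 < (Sb w b H).card := by exact_mod_cast hS0
  have hℓ1 : 1 ≤ Real.log (2 * H) := by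
    refine le_trans ?_ hVQ
    rw [one_le_inv₀ hV]
    exact Vz_le_one Q
  have hHh0 : 0 ≤ L * (1 + ε) * Real.log (2 * H) := by positivity
  have hHF : ∀ n ∈ Tb w b H, ∑ a ∈ Sb w b H, Fm w Q (n + a) ^ 2 ≤ L * (1 + ε) * Real.log (2 * H) := by
    intro n hn
    have h1 := (mem_Tb.1 hn).1
    refine (sum_Fm_sq h1.1 h1.2 _ (filter_subset _ _)).trans ?_
    rw [mul_comm]
    exact mul_le_mul_of_nonneg_right (hF n hn) (by linarith only [hℓ1])
  have hHG : ∀ n ∈ Tb w b H, ∑ a ∈ Sb w b H, Gm w Q (n + a) ^ 2 ≤ L * (1 + ε) * Real.log (2 * H) := by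
    intro n hn
    rw [sum_Gm_sq]
    have h3 : Vz w * (Vz Q)⁻¹ ≤ Real.log (2 * H) := by
      have := mul_le_mul_of_nonneg_right hwle (inv_pos.2 hV).le
      linarith only [this, hVQ]
    rw [mul_comm (L * (1 + ε))]
    exact mul_le_mul h3 (hGs n hn) (sum_nonneg fun _ _ => Gm_nonneg _ _ _) (by linarith only [hℓ1])
  have hlogH : 0 ≤ Real.log H := hw0'.le.trans hwl
  have hρ0 : 0 ≤ ρ := by rw [hρ]; positivity
  have hWpH : Wp w ≤ (H : ℝ) + 1 := by linarith only [hHW, hWp]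
  have hreg : ∀ E, okE w b E → √(∑ c ∈ Sb w b H, wt w (insert c E) ^ 2) ≤
      ρ * ∑ c ∈ Sb w b H, wt w (insert c E) := by
    intro E hE
    rw [hρ]
    exact om_reg hE hWpH hSn
  obtain ⟨α, hαd⟩ : ∃ α : ℝ, α = Vz w * (√H / Real.log H ^ A) := ⟨_, rfl⟩
  obtain ⟨β, hβd⟩ : ∃ β : ℝ, β = Vz w * (C * Real.log H ^ 8 * (H / √Q)) := ⟨_, rfl⟩
  have hα0 : 0 ≤ α := by rw [hαd]; positivity
  have hβ0 : 0 ≤ β := by rw [hβd]; positivity
  have htel := telescope_w (b := b) (H := H) (Tb w b H) (Fm w Q) (Gm w Q) (Fm_nonneg w Q) (Gm_nonneg w Q)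
    (Hh := L * (1 + ε) * Real.log (2 * H)) (κ := 1 + 2 * ε) (ρ := ρ) (E1 := α) (E2 := β)
    hHF hHG hHh0 (by linarith only [hε]) hρ0 hα0 hβ0
    (fun n hn E hE => by
      exact F_per (r := r) hwQ hcl hε hn hB hJ1 hJ hX hρ0 hpsi2 hE1 hE2 herr (Per_wt w E)
        (fun a => wt_nonneg _ _) (hreg E hE))
    (fun n hn c hc => by
      refine ((G_rel (r := r) hwQ hcl hε hc).1 n hn).trans ?_
      apply mul_le_mul_of_nonneg_right _ (Nat.cast_nonneg _)
      linarith only [hε])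
    hreg
    (fun g φ hφ => by
      have h1 : ∀ a ∈ Sb w b H, φ a * |∑ n ∈ Tb w b H, g n * (Fm w Q (n + a) - Gm w Q (n + a))| =
          Vz w * (φ a * |∑ n ∈ Tb w b H, g n * Eb Q (n + a)|) := by
        intro a _
        have e0 : ∑ n ∈ Tb w b H, g n * (Fm w Q (n + a) - Gm w Q (n + a)) =
            Vz w * ∑ n ∈ Tb w b H, g n * Eb Q (n + a) := by
          rw [mul_sum]
          apply sum_congr rfl
          intro n _
          rw [Fm_sub_Gm]
          ring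
        rw [e0, abs_mul, abs_of_pos hw]
        ring
      rw [sum_congr rfl h1, ← mul_sum, hαd, hβd]
      refine (mul_le_mul_of_nonneg_left (hpsi g φ hφ) hw.le).trans (le_of_eq ?_)
      ring) k ∅ hok (fun _ => 1)
  have e1 : ∑ n ∈ Tb w b H, |(1 : ℝ)| = t := by
    rw [ht, abs_one, sum_const, nsmul_eq_mul, mul_one]
  have e2 : ∑ n ∈ Tb w b H, (1 : ℝ) ^ 2 = t := by
    rw [ht, one_pow, sum_const, nsmul_eq_mul, mul_one]
  simp only [one_mul] at htel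
  rw [e1, e2, ← hZ] at htel
  have hZ0 : 0 ≤ Z := by rw [hZ]; exact ZZ_nonneg _ _ _ _
  -- the first part
  have hpart1 : k * ((1 + 2 * ε) ^ k * (ρ * α) * Z * t) ≤ 2 * ((k : ℝ) / w) * Z * t := by
    have h1 : (1 + 2 * ε) ^ k ≤ 2 := by
      have h2 : (k : ℝ) * (2 * ε) ≤ 1 / 2 := by
        have := mul_le_mul_of_nonneg_right hkw' hε
        linarith only [this, hεw]
      have := pow_one_add_le (by linarith only [hε] : 0 ≤ 2 * ε) h2 le_rfl
      linarith only [this]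
    have h3 : (1 + 2 * ε) ^ k * (ρ * α) ≤ 2 * (1 / w) := by
      rw [hαd]
      exact mul_le_mul h1 hα (by positivity) (by norm_num)
    calc _ ≤ k * (2 * (1 / w) * Z * t) := by
          apply mul_le_mul_of_nonneg_left _ (Nat.cast_nonneg _)
          apply mul_le_mul_of_nonneg_right _ ht0.le
          exact mul_le_mul_of_nonneg_right h3 hZ0
      _ = _ := by ring
  -- the second part
  have hHt : (H : ℝ) ≤ 2 * Wp w * t := by
    have h1 := (abs_le.1 hcard).1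
    rw [← ht] at h1
    have h2 : (H : ℝ) / Wp w ≤ t + 1 := by linarith only [h1]
    rw [div_le_iff₀ hWp0] at h2
    linarith only [h2, hHW]
  have hHhle : L * (1 + ε) * Real.log (2 * H) ≤ 2 * L * Real.log (2 * H) := by
    apply mul_le_mul_of_nonneg_right _ (by linarith only [hℓ1])
    have := mul_le_mul_of_nonneg_left hε1 hL0.le
    linarith only [this, hL0]
  have h2w : (0 : ℝ) < 2 ^ w := by positivity
  have herr2 := err_two (V := Vz w) (L := L) (s := ((Sb w b H).card : ℝ)) (H := (H : ℝ)) (ℓ := Real.log (2 * H))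
    (t := t) (W := Wp w) (C := C * (2 ^ w * Wp w)) (Q := (Q : ℝ)) (l8 := Real.log H ^ 8)
    (Hh := L * (1 + ε) * Real.log (2 * H))
    (k := k) (w := w) hw hwle hH1 hL (Nat.cast_nonneg _) hSu hk1 hkw hHh0 hHhle hℓ1 hWp hHt (by positivity)
    (by positivity) (by exact_mod_cast (by omega : 0 < Q)) ht0 hQ
  have hZl : L ^ k ≤ (2 ^ w * Wp w) * Z := by
    have h1 : ((Sb w b H).card : ℝ) ^ k * (Wp w)⁻¹ ≤ Z := by
      rw [hZ]
      unfold ZZ
      have h2 : ∀ a ∈ tup k (Sb w b H), (Wp w)⁻¹ ≤ wt w (st ∅ a) := by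
        intro a ha
        unfold wt
        have h3 := one_le_om (okE_st hok ha)
        exact inv_anti₀ (by linarith only [h3]) (om_le _ _)
      have h3 := card_nsmul_le_sum _ _ _ h2
      rw [card_tup, nsmul_eq_mul] at h3
      push_cast at h3
      exact h3
    have h2 : L ^ k ≤ 2 ^ w * ((Sb w b H).card : ℝ) ^ k := by
      have h3 : L ^ k ≤ (2 * ((Sb w b H).card : ℝ)) ^ k := pow_le_pow_left₀ hL0.le (by linarith only [hSl]) k
      rw [mul_pow] at h3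
      refine h3.trans ?_
      apply mul_le_mul_of_nonneg_right _ (by positivity)
      exact pow_le_pow_right₀ (by norm_num) hkw
    have h3 : ((Sb w b H).card : ℝ) ^ k ≤ Wp w * Z := by
      have := mul_le_mul_of_nonneg_left h1 hWp0.le
      have e : Wp w * (((Sb w b H).card : ℝ) ^ k * (Wp w)⁻¹) = ((Sb w b H).card : ℝ) ^ k := by
        field_simp
      rw [e] at this
      exact this
    calc L ^ k ≤ 2 ^ w * ((Sb w b H).card : ℝ) ^ k := h2
      _ ≤ 2 ^ w * (Wp w * Z) := mul_le_mul_of_nonneg_left h3 h2w.le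
      _ = _ := by ring
  have hpart2 : k * ((√((Sb w b H).card) * β) * √((Sb w b H).card * (L * (1 + ε) * Real.log (2 * H))) ^ (k - 1) * √t) ≤
      ((k : ℝ) / w) * Z * t := by
    have hc0 : 0 < 2 ^ w * Wp w := by positivity
    have h1 : (k * ((√((Sb w b H).card) * β) * √((Sb w b H).card * (L * (1 + ε) * Real.log (2 * H))) ^ (k - 1) * √t)) *
        (2 ^ w * Wp w) ≤ (((k : ℝ) / w) * Z * t) * (2 ^ w * Wp w) := by
      calc _ = k * ((Vz w * (√((Sb w b H).card) * ((C * (2 ^ w * Wp w)) * Real.log H ^ 8 * (H / √(Q : ℝ))))) *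
            √((Sb w b H).card * (L * (1 + ε) * Real.log (2 * H))) ^ (k - 1) * √t) := by
            rw [hβd]
            ring
        _ ≤ ((k : ℝ) / w) * L ^ k * t := herr2
        _ ≤ ((k : ℝ) / w) * ((2 ^ w * Wp w) * Z) * t := by
            apply mul_le_mul_of_nonneg_right _ ht0.le
            exact mul_le_mul_of_nonneg_left hZl (by positivity)
        _ = _ := by ring
    exact le_of_mul_le_mul_right h1 hc0
  have hΦ : ∑ a ∈ tup k (Sb w b H), wt w (st ∅ a) *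
      |XX (Fm w Q) (Tb w b H) a - XX (Gm w Q) (Tb w b H) a| ≤ (3 * ((k : ℝ) / w) * Z) * t := by
    have h1 : ∀ a ∈ tup k (Sb w b H), wt w (st ∅ a) * |XX (Fm w Q) (Tb w b H) a - XX (Gm w Q) (Tb w b H) a| =
        wt w (st ∅ a) * |∑ n ∈ Tb w b H, (∏ i, Fm w Q (n + a i) - ∏ i, Gm w Q (n + a i))| := by
      intro a _
      unfold XX
      rw [← sum_sub_distrib]
    rw [sum_congr rfl h1]
    refine htel.trans ?_
    rw [mul_add]
    linarith only [hpart1, hpart2]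
  have hvar' : ∑ a ∈ tup k (Sb w b H), wt w (st ∅ a) * (XX (Gm w Q) (Tb w b H) a - t) ^ 2 ≤
      (250 * ((k : ℝ) / w) * Z) * t ^ 2 := by
    rw [ht]
    refine hvar.trans (le_of_eq ?_)
    rw [hZe]
    ring
  have hfin := cheb_markov_w (tup k (Sb w b H)) (fun a => wt w (st ∅ a)) (fun a => XX (Fm w Q) (Tb w b H) a)
    (fun a => XX (Gm w Q) (Tb w b H) a) (fun a _ => wt_nonneg _ _) ht0 hvar' hΦ
  rw [← ht, ← hZ]
  refine hfin.trans ?_
  have : 0 ≤ (k : ℝ) / w * Z := by positivity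
  linarith only [this]

end Pool.Agent.R521.F6
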