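import Pool.Agent.R521.F6.U8

set_option autoImplicit false

/-!
# From weighted tuples to admissible sets
-/

open Finset
open scoped Real

namespace Pool.Agent.R521.F6

open Pool.Agent.H373R2.T7 (pz Vz lamz mem_pz Vz_pos Vz_le_one)

lemma wt_mono {w : ℕ} {b : ℕ → ℕ} {E : Finset ℕ} {c H : ℕ} (h : okE w b E) (hc : c ∈ Sb w b H) :
    wt w E ≤ wt w (insert c E) := inv_om_mono h hc

lemma ZZ_grow {w k : ℕ} {b : ℕ → ℕ} {H : ℕ} {D : Finset ℕ} (hD : okE w b D) :
    ((Sb w b H).card : ℝ) * ZZ w k (Sb w b H) D ≤ ZZ w (k + 1) (Sb w b H) D := by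
  rw [ZZ_succ, ← nsmul_eq_mul]
  apply card_nsmul_le_sum
  intro c hc
  unfold ZZ
  apply sum_le_sum
  intro a ha
  rw [st_insert]
  exact wt_mono (okE_st hD ha) hc

open Classical in
/-- the tuples with a repetition or an element of `D` -/
noncomputable def NN (w k : ℕ) (S D : Finset ℕ) : ℝ :=
  ∑ a ∈ (tup k S).filter (fun a => ¬ (Function.Injective a ∧ ∀ i, a i ∉ D)), wt w (st D a)

lemma cons_inj {k : ℕ} {D : Finset ℕ} {c : ℕ} {a : Fin k → ℕ} (hc : c ∉ D)
    (ha : Function.Injective a ∧ ∀ i, a i ∉ insert c D) :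
    Function.Injective (Fin.cons c a : Fin (k + 1) → ℕ) ∧ ∀ i, (Fin.cons c a : Fin (k + 1) → ℕ) i ∉ D := by
  constructor
  · rw [Fin.cons_injective_iff]
    refine ⟨?_, ha.1⟩
    rintro ⟨i, hi⟩
    exact ha.2 i (by rw [hi]; exact mem_insert_self _ _)
  · intro i
    refine Fin.cases ?_ (fun j => ?_) i
    · simpa using hc
    · simp only [Fin.cons_succ]
      intro h
      exact ha.2 j (mem_insert_of_mem h)

/-- few tuples have a repetition -/
lemma NN_le {w : ℕ} {b : ℕ → ℕ} {H : ℕ} (hS : 0 < (Sb w b H).card) (k : ℕ) :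
    ∀ D : Finset ℕ, okE w b D → NN w k (Sb w b H) D ≤
      ((k : ℝ) * (D.card + k)) / (Sb w b H).card * ZZ w k (Sb w b H) D := by
  classical
  have hS0 : (0 : ℝ) < (Sb w b H).card := by exact_mod_cast hS
  induction k with
  | zero =>
    intro D _
    unfold NN
    rw [filter_false_of_mem]
    · simp
    · intro a _ h
      exact h ⟨fun i => i.elim0, fun i => i.elim0⟩
  | succ k ih =>
    intro D hD
    obtain ⟨S, hSd⟩ : ∃ S, S = Sb w b H := ⟨_, rfl⟩
    have hZ := ZZ_grow (k := k) (H := H) hD
    rw [← hSd] at ih hS0 hZ ⊢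
    have h1 : NN w (k + 1) S D ≤ ∑ c ∈ S, (if c ∈ D then ZZ w k S D else NN w k S (insert c D)) := by
      unfold NN
      rw [sum_filter, tup_sum_succ]
      apply sum_le_sum
      intro c _
      by_cases hc : c ∈ D
      · rw [if_pos hc]
        unfold ZZ
        apply sum_le_sum
        intro a _
        rw [st_cons, insert_eq_of_mem hc]
        split_ifs <;> first | exact le_refl _ | exact wt_nonneg _ _
      · rw [if_neg hc, sum_filter]
        apply sum_le_sum
        intro a _
        rw [st_cons]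
        by_cases ha : Function.Injective a ∧ ∀ i, a i ∉ insert c D
        · rw [if_neg (fun h => h (cons_inj hc ha)), if_neg (fun h => h ha)]
        · rw [if_pos ha]
          split_ifs <;> first | exact le_refl _ | exact wt_nonneg _ _
    have h2 : ∑ c ∈ S, (if c ∈ D then ZZ w k S D else NN w k S (insert c D)) ≤
        D.card * ZZ w k S D + ∑ c ∈ S, ((k : ℝ) * (D.card + 1 + k)) / S.card * ZZ w k S (insert c D) := by
      rw [sum_ite]
      apply add_le_add
      · rw [sum_const, nsmul_eq_mul]
        apply mul_le_mul_of_nonneg_right _ (ZZ_nonneg _ _ _ _)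
        apply Nat.cast_le.2
        apply card_le_card
        intro c hc
        exact (mem_filter.1 hc).2
      · calc ∑ c ∈ S with c ∉ D, NN w k S (insert c D) ≤
              ∑ c ∈ S with c ∉ D, ((k : ℝ) * (D.card + 1 + k)) / S.card * ZZ w k S (insert c D) := by
              apply sum_le_sum
              intro c hc
              rw [mem_filter] at hc
              have h3 := ih (insert c D) (okE_ins hD (hSd ▸ hc.1))
              rw [card_insert_of_notMem hc.2] at h3
              push_cast at h3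
              exact h3
          _ ≤ _ := by
              apply sum_le_sum_of_subset_of_nonneg (filter_subset _ _)
              intro c _ _
              exact mul_nonneg (by positivity) (ZZ_nonneg _ _ _ _)
    refine h1.trans (h2.trans ?_)
    rw [← mul_sum, ← ZZ_succ]
    have h3 : (D.card : ℝ) * ZZ w k S D ≤ D.card / S.card * ZZ w (k + 1) S D := by
      rw [div_mul_eq_mul_div, le_div_iff₀ hS0]
      have := mul_le_mul_of_nonneg_left hZ (Nat.cast_nonneg D.card : (0 : ℝ) ≤ D.card)
      linarith only [this]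
    have h4 : (D.card : ℝ) / S.card * ZZ w (k + 1) S D +
        ((k : ℝ) * (D.card + 1 + k)) / S.card * ZZ w (k + 1) S D =
        ((D.card : ℝ) + k * (D.card + 1 + k)) / S.card * ZZ w (k + 1) S D := by ring
    have h5 : ((D.card : ℝ) + k * (D.card + 1 + k)) / S.card * ZZ w (k + 1) S D ≤
        (((k + 1 : ℕ) : ℝ) * (D.card + (k + 1 : ℕ))) / S.card * ZZ w (k + 1) S D := by
      apply mul_le_mul_of_nonneg_right _ (ZZ_nonneg _ _ _ _)
      apply div_le_div_of_nonneg_right _ hS0.le
      push_cast
      have : (0 : ℝ) ≤ k := Nat.cast_nonneg _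
      nlinarith only [this]
    linarith only [h3, h4, h5]

open Classical in
/-- the total weight is at most twice that of the injective tuples -/
lemma ZZ_inj {w k : ℕ} {b : ℕ → ℕ} {H : ℕ} (hk : 1 ≤ k) (hkS : 2 * k ^ 2 ≤ (Sb w b H).card) :
    ZZ w k (Sb w b H) ∅ ≤ 2 * ∑ a ∈ (tup k (Sb w b H)).filter (fun a => Function.Injective a), wt w (st ∅ a) := by
  have hS : 0 < (Sb w b H).card := by nlinarith only [hk, hkS]
  have hS0 : (0 : ℝ) < (Sb w b H).card := by exact_mod_cast hS
  have hok : okE w b ∅ := fun p _ e he => absurd he (notMem_empty e)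
  have h1 := NN_le hS k ∅ hok
  have h2 : ZZ w k (Sb w b H) ∅ = ∑ a ∈ (tup k (Sb w b H)).filter (fun a => Function.Injective a), wt w (st ∅ a) +
      NN w k (Sb w b H) ∅ := by
    unfold ZZ NN
    rw [← sum_filter_add_sum_filter_not (tup k (Sb w b H)) (fun a => Function.Injective a)]
    congr 1
    apply sum_congr _ fun _ _ => rfl
    apply filter_congr
    intro a _
    simp
  have h3 : ((k : ℝ) * (((∅ : Finset ℕ).card : ℝ) + k)) / (Sb w b H).card ≤ 1 / 2 := by
    rw [card_empty, div_le_div_iff₀ hS0 (by norm_num)]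
    have : ((2 * k ^ 2 : ℕ) : ℝ) ≤ (Sb w b H).card := Nat.cast_le.2 hkS
    push_cast at this ⊢
    linarith only [this]
  have h4 := mul_le_mul_of_nonneg_right h3 (ZZ_nonneg w k (Sb w b H) ∅)
  linarith only [h1, h2, h4]

open Classical in
lemma fiber_card_le {k : ℕ} {S A : Finset ℕ} (hk : A.card = k) :
    ((tup k S).filter (fun a => univ.image a = A)).card ≤ k.factorial := by
  have h1 : k.factorial = (univ : Finset (Fin k ↪ A)).card := by
    rw [card_univ, Fintype.card_embedding_eq, Fintype.card_fin, Fintype.card_coe, hk, Nat.descFactorial_self]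
  rw [h1]
  apply card_le_card_of_surjOn (fun f => fun i => ((f i : A) : ℕ))
  intro a ha
  rw [mem_coe, mem_filter] at ha
  have hinj : Function.Injective a := by
    have h3 : (univ.image a).card = (univ : Finset (Fin k)).card := by
      rw [ha.2, hk, card_univ, Fintype.card_fin]
    have := card_image_iff.1 h3
    intro i j hij
    exact this (by simp) (by simp) hij
  have hmem : ∀ i, a i ∈ A := fun i => by
    rw [← ha.2]
    exact mem_image_of_mem _ (mem_univ i)
  refine ⟨⟨fun i => ⟨a i, hmem i⟩, ?_⟩, by simp, ?_⟩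
  · intro i j hij
    exact hinj (congrArg Subtype.val hij)
  · funext i
    rfl

lemma st_empty {k : ℕ} (a : Fin k → ℕ) : st ∅ a = univ.image a := by
  unfold st
  rw [empty_union]

open Classical in
/-- upper bound for injective tuples -/
lemma inj_le {w k : ℕ} (S : Finset ℕ) :
    ∑ a ∈ (tup k S).filter (fun a => Function.Injective a), wt w (st ∅ a) ≤
      (k.factorial : ℝ) * ∑ A ∈ S.powersetCard k, wt w A := by
  have hmaps : ∀ a ∈ (tup k S).filter (fun a => Function.Injective a), univ.image a ∈ S.powersetCard k := by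
    intro a ha
    rw [mem_filter, mem_tup] at ha
    rw [mem_powersetCard]
    refine ⟨?_, ?_⟩
    · intro x hx
      rw [mem_image] at hx
      obtain ⟨i, _, rfl⟩ := hx
      exact ha.1 i
    · rw [card_image_of_injective _ ha.2, card_univ, Fintype.card_fin]
  rw [← sum_fiberwise_of_maps_to hmaps, mul_sum]
  apply sum_le_sum
  intro A hA
  rw [mem_powersetCard] at hA
  have h1 : ∑ a ∈ ((tup k S).filter (fun a => Function.Injective a)).filter (fun a => univ.image a = A),
      wt w (st ∅ a) ≤ ∑ a ∈ (tup k S).filter (fun a => univ.image a = A), wt w A := by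
    calc _ = ∑ a ∈ ((tup k S).filter (fun a => Function.Injective a)).filter (fun a => univ.image a = A),
          wt w A := by
          apply sum_congr rfl
          intro a ha
          rw [st_empty, (mem_filter.1 ha).2]
      _ ≤ _ := by
          apply sum_le_sum_of_subset_of_nonneg
          · apply filter_subset_filter
            exact filter_subset _ _
          · intro _ _ _
            exact wt_nonneg _ _
  refine h1.trans ?_
  rw [sum_const, nsmul_eq_mul]
  exact mul_le_mul_of_nonneg_right (Nat.cast_le.2 (fiber_card_le hA.2)) (wt_nonneg _ _)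

open Classical in
/-- lower bound for bad tuples -/
lemma bad_ge {w k : ℕ} (S : Finset ℕ) (P : Finset ℕ → Prop) (B : Finset (Fin k → ℕ))
    (hB : ∀ a ∈ tup k S, P (univ.image a) → a ∈ B) :
    (k.factorial : ℝ) * ∑ A ∈ (S.powersetCard k).filter P, wt w A ≤ ∑ a ∈ B, wt w (st ∅ a) := by
  have h1 : (k.factorial : ℝ) * ∑ A ∈ (S.powersetCard k).filter P, wt w A ≤
      ∑ A ∈ (S.powersetCard k).filter P, ∑ a ∈ (tup k S).filter (fun a => univ.image a = A), wt w (st ∅ a) := by
    rw [mul_sum]
    apply sum_le_sum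
    intro A hA
    rw [mem_filter, mem_powersetCard] at hA
    calc (k.factorial : ℝ) * wt w A ≤ (((tup k S).filter (fun a => univ.image a = A)).card : ℝ) * wt w A :=
          mul_le_mul_of_nonneg_right (Nat.cast_le.2 (fiber_card hA.1.1 hA.1.2)) (wt_nonneg _ _)
      _ = ∑ a ∈ (tup k S).filter (fun a => univ.image a = A), wt w (st ∅ a) := by
          rw [← nsmul_eq_mul, ← sum_const]
          apply sum_congr rfl
          intro a ha
          rw [st_empty, (mem_filter.1 ha).2]
  refine h1.trans ?_
  rw [← sum_biUnion]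
  · apply sum_le_sum_of_subset_of_nonneg
    · intro a ha
      rw [mem_biUnion] at ha
      obtain ⟨A, hA, haA⟩ := ha
      rw [mem_filter] at haA hA
      exact hB a haA.1 (by rw [haA.2]; exact hA.2)
    · intro _ _ _
      exact wt_nonneg _ _
  · intro A _ A' _ hAA'
    rw [Function.onFun, disjoint_left]
    intro a ha ha'
    rw [mem_filter] at ha ha'
    exact hAA' (ha.2.symm.trans ha'.2)

open Classical in
/-- **bad sets have small weight** -/
theorem bad_sets_w {w Q k H : ℕ} (hk1 : 1 ≤ k) (hkw : k ≤ w) (b : ℕ → ℕ) {M : ℝ}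
    (hl : 1 ≤ Real.log (2 * H)) (hM0 : 0 ≤ M)
    (hMt : M * Real.log (2 * H) ^ w ≤ ((Tb w b H).card : ℝ) / 4)
    (hkS : 2 * k ^ 2 ≤ (Sb w b H).card)
    (hbad : ∑ a ∈ (tup k (Sb w b H)).filter (fun a => XX (Fm w Q) (Tb w b H) a ≤ ((Tb w b H).card : ℝ) / 4),
      wt w (st ∅ a) ≤ 1020 * ((k : ℝ) / w) * ZZ w k (Sb w b H) ∅) :
    ∑ A ∈ ((Sb w b H).powersetCard k).filter (fun A => ((((Icc 1 H).filter
      (fun n => ∀ a ∈ A, (n + a).Prime)).card : ℕ) : ℝ) ≤ M), wt w A ≤
      2040 * ((k : ℝ) / w) * ∑ A ∈ (Sb w b H).powersetCard k, wt w A := by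
  have h1 := bad_ge (w := w) (k := k) (Sb w b H) (fun A => ((((Icc 1 H).filter
      (fun n => ∀ a ∈ A, (n + a).Prime)).card : ℕ) : ℝ) ≤ M)
      ((tup k (Sb w b H)).filter (fun a => XX (Fm w Q) (Tb w b H) a ≤ ((Tb w b H).card : ℝ) / 4)) (by
    intro a ha hP
    rw [mem_filter]
    refine ⟨ha, ?_⟩
    rw [mem_tup] at ha
    have h6 : (Icc 1 H).filter (fun n => ∀ c ∈ univ.image a, (n + c).Prime) =
        (Icc 1 H).filter (fun n => ∀ i, (n + a i).Prime) := by
      apply filter_congr
      intro n _
      constructor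
      · intro h i
        exact h _ (mem_image_of_mem _ (mem_univ i))
      · intro h c hc
        rw [mem_image] at hc
        obtain ⟨i, _, rfl⟩ := hc
        exact h i
    rw [h6] at hP
    refine (XX_small (fun i => (mem_Sb.1 (ha i)).1) hP hl).trans (le_trans ?_ hMt)
    exact mul_le_mul_of_nonneg_left (pow_le_pow_right₀ hl hkw) hM0)
  have h2 := ZZ_inj (w := w) (b := b) (H := H) hk1 hkS
  have h3 := inj_le (w := w) (k := k) (Sb w b H)
  have hθ : 0 ≤ (k : ℝ) / w := by positivity
  have hf : (0 : ℝ) < k.factorial := by exact_mod_cast Nat.factorial_pos k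
  have h4 : 1020 * ((k : ℝ) / w) * ZZ w k (Sb w b H) ∅ ≤
      1020 * ((k : ℝ) / w) * (2 * ((k.factorial : ℝ) * ∑ A ∈ (Sb w b H).powersetCard k, wt w A)) := by
    apply mul_le_mul_of_nonneg_left _ (by positivity)
    linarith only [h2, h3]
  have h5 := h1.trans (hbad.trans h4)
  have h6 : 1020 * ((k : ℝ) / w) * (2 * ((k.factorial : ℝ) * ∑ A ∈ (Sb w b H).powersetCard k, wt w A)) =
      (k.factorial : ℝ) * (2040 * ((k : ℝ) / w) * ∑ A ∈ (Sb w b H).powersetCard k, wt w A) := by ring
  rw [h6] at h5
  exact le_of_mul_le_mul_left h5 hf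

end Pool.Agent.R521.F6
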